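import Pool.Agent.H81.L2.Interp

/-!
# Module M8: kernel check of the positivity of `FD n e a` on windows

`SegOK n c top L Er`: for all `i < L.length`, `|KN n (c/64 · q^(top-i)) - L[i]/2^128| ≤ Er[i]/2^128`
(and `L.length ≤ Er.length`).  Write `a_i = P_i - N_i` with natural `P_i, N_i`, `P_i N_i = 0`
(`P`, `N` lists), `f⁺(s) = ∑ P_i K n (q^(e-i) s)`, `f⁻(s) = ∑ N_i K n (q^(e-i) s)`, so that
`FD n e a = f⁺ - f⁻`.

`win1` tests, for one window `s = (c + θ)/64 · q^m`, `0 ≤ θ ≤ 1`, the six Bernstein coefficients (times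
`1200 · 2^128 / hh^n`) of the lower bound
`lowP (f⁺ at the nodes c-3, …, c+2) - uppP (f⁻ at the nodes c-2, …, c+3)`
with the error term `2400 · ∑ (P_i + N_i) Er`, which is larger than the true error because the
absolute values of the coefficients of each of the twelve formulas sum to at most `2150`
(for `b0`, `b5` to `1200`).  `lst k` is the list for the offset `c - 3 + k`, its head is the entry of
exponent `m + e` (so that entry `i` belongs to `m + e - i`), similarly `Er`.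

`chkRun`: `cntM` windows with exponents `m, m - 1, …` (all lists are advanced by one entry each
time).  Every list must be long enough for the dot products; this is checked by comparing
lengths once (`need ≤ length`).

`run_spec`: soundness.  Use `K_lower6`, `K_upper6` with `Y = q^(e-i)`, `s = c/64 · q^m`,
`r = 1/64 · q^m` (`c ≥ 61 > 3`), summed with the coefficients `P_i`, `N_i` (`bern`, `lowP`, `uppP` are
linear), the Bernstein polynomials are nonnegative and have sum one, and `hh > 0`.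
-/

namespace H81.L2

open H81

/-- a segment of a table of `KN n (c/64 · q^m)`, `m = top, top - 1, …` -/
def SegOK (n c : ℕ) (top : ℤ) (L Er : List ℕ) : Prop :=
  L.length ≤ Er.length ∧ ∀ i (h : i < L.length),
    |KN n ((c : ℝ) / 64 * q ^ (top - i)) - (L[i] : ℝ) / 2 ^ 128| ≤ (Er.getD i 0 : ℝ) / 2 ^ 128

/-- the comparisons of one window, from the evaluated dot products -/
def cmp6 (p0 p1 p2 p3 p4 p5 n0 n1 n2 n3 n4 n5 e : ℕ) : Bool :=
  Nat.blt (1200 * n2 + e) (1200 * p3) &&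
  (Nat.blt (8 * p0 + 240 * p2 + 12 * p5 + 12 * n0 + 1120 * n2 + 240 * n3 + 8 * n5 + e)
    (60 * p1 + 1280 * p3 + 120 * p4 + 120 * n1 + 60 * n4) &&
  (Nat.blt (16 * p0 + 400 * p2 + 29 * p5 + 19 * n0 + 890 * n2 + 560 * n3 + 16 * n5 + e)
    (115 * p1 + 1210 * p3 + 320 * p4 + 160 * n1 + 125 * n4) &&
  (Nat.blt (19 * p0 + 410 * p2 + 46 * p5 + 16 * n0 + 560 * n2 + 890 * n3 + 19 * n5 + e)
    (130 * p1 + 940 * p3 + 605 * p4 + 125 * n1 + 160 * n4) &&
  (Nat.blt (12 * p0 + 240 * p2 + 48 * p5 + 8 * n0 + 240 * n2 + 1120 * n3 + 12 * n5 + e)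
    (80 * p1 + 480 * p3 + 940 * p4 + 60 * n1 + 120 * n4) &&
  Nat.blt (1200 * n3 + e) (1200 * p4)))))

/-- one window -/
def win1 (P N PN L0 L1 L2 L3 L4 L5 L6 Er : List ℕ) : Bool :=
  force (dotA P L0 0) fun p0 => force (dotA P L1 0) fun p1 => force (dotA P L2 0) fun p2 =>
  force (dotA P L3 0) fun p3 => force (dotA P L4 0) fun p4 => force (dotA P L5 0) fun p5 =>
  force (dotA N L1 0) fun n0 => force (dotA N L2 0) fun n1 => force (dotA N L3 0) fun n2 =>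
  force (dotA N L4 0) fun n3 => force (dotA N L5 0) fun n4 => force (dotA N L6 0) fun n5 =>
  force (2400 * dotA PN Er 0) fun e => cmp6 p0 p1 p2 p3 p4 p5 n0 n1 n2 n3 n4 n5 e

/-- `k` windows -/
def chkRun (P N PN : List ℕ) (k : ℕ) :
    List ℕ → List ℕ → List ℕ → List ℕ → List ℕ → List ℕ → List ℕ → List ℕ → Bool :=
  Nat.rec (motive := fun _ => List ℕ → List ℕ → List ℕ → List ℕ → List ℕ → List ℕ → List ℕ →
      List ℕ → Bool)
    (fun _ _ _ _ _ _ _ _ => true)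
    (fun _ ih L0 L1 L2 L3 L4 L5 L6 Er => win1 P N PN L0 L1 L2 L3 L4 L5 L6 Er &&
      ih L0.tail L1.tail L2.tail L3.tail L4.tail L5.tail L6.tail Er.tail) k

/-- positive and negative parts -/
def PNOK (a : List ℤ) (P N PN : List ℕ) : Prop :=
  P = a.map Int.toNat ∧ N = a.map (fun x => (-x).toNat) ∧ PN = a.map Int.natAbs

/-- value at a node: exact sign from the table, `c/64 · q^m`; the head of `L`, `Er` belongs to
the exponent `m + e` -/
def pos1 (P N PN L Er : List ℕ) : Bool := Nat.blt (dotA N L (dotA PN Er 0)) (dotA P L 0)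

theorem wck_force (x : ℕ) {α : Type} (k : ℕ → α) : force x k = k x := by
  cases x <;> rfl

theorem wck_dotA (l m : List ℕ) (s : ℕ) (h : l.length ≤ m.length) :
    dotA l m s = s + ∑ r ∈ Finset.range l.length, l.getD r 0 * m.getD r 0 := by
  induction l generalizing m s with
  | nil => simp [dotA]
  | cons a l ih =>
    cases m with
    | nil => simp at h
    | cons b m =>
      have h1 : dotA (a :: l) (b :: m) s = dotA l m (s + a * b) := rfl
      rw [h1, ih m (s + a * b) (by simpa using h), List.length_cons, Finset.sum_range_succ']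
      simp only [List.getD_cons_succ, List.getD_cons_zero]
      ring

theorem wck_lin (N : ℕ) (w x0 x1 x2 x3 x4 x5 : ℕ → ℝ) (θ : ℝ) :
    ∑ i ∈ Finset.range N, w i * lowP (x0 i) (x1 i) (x2 i) (x3 i) (x4 i) (x5 i) θ =
      lowP (∑ i ∈ Finset.range N, w i * x0 i) (∑ i ∈ Finset.range N, w i * x1 i)
        (∑ i ∈ Finset.range N, w i * x2 i) (∑ i ∈ Finset.range N, w i * x3 i)
        (∑ i ∈ Finset.range N, w i * x4 i) (∑ i ∈ Finset.range N, w i * x5 i) θ := by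
  induction N with
  | zero =>
    simp only [Finset.range_zero, Finset.sum_empty]
    unfold lowP bern
    ring
  | succ N ih =>
    simp only [Finset.sum_range_succ]
    rw [ih]
    unfold lowP bern
    ring

theorem wck_linU (N : ℕ) (w x0 x1 x2 x3 x4 x5 : ℕ → ℝ) (θ : ℝ) :
    ∑ i ∈ Finset.range N, w i * uppP (x0 i) (x1 i) (x2 i) (x3 i) (x4 i) (x5 i) θ =
      uppP (∑ i ∈ Finset.range N, w i * x0 i) (∑ i ∈ Finset.range N, w i * x1 i)
        (∑ i ∈ Finset.range N, w i * x2 i) (∑ i ∈ Finset.range N, w i * x3 i)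
        (∑ i ∈ Finset.range N, w i * x4 i) (∑ i ∈ Finset.range N, w i * x5 i) θ := by
  induction N with
  | zero =>
    simp only [Finset.range_zero, Finset.sum_empty]
    unfold uppP bern
    ring
  | succ N ih =>
    simp only [Finset.sum_range_succ]
    rw [ih]
    unfold uppP bern
    ring

/-- the dot product of weights with the exact values -/
theorem wck_approx {n c : ℕ} {top : ℤ} {L Er W : List ℕ} (hL : SegOK n c top L Er)
    (hW : W.length ≤ L.length) :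
    |∑ i ∈ Finset.range W.length, (W.getD i 0 : ℝ) * KN n ((c : ℝ) / 64 * q ^ (top - i)) -
      ((dotA W L 0 : ℕ) : ℝ) / 2 ^ 128| ≤ ((dotA W Er 0 : ℕ) : ℝ) / 2 ^ 128 := by
  rw [wck_dotA W L 0 hW, wck_dotA W Er 0 (hW.trans hL.1), zero_add, zero_add]
  push_cast
  rw [Finset.sum_div, Finset.sum_div, ← Finset.sum_sub_distrib]
  refine (Finset.abs_sum_le_sum_abs _ _).trans (Finset.sum_le_sum (fun i hi => ?_))
  have hi' : i < L.length := (Finset.mem_range.1 hi).trans_le hW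
  have h1 := hL.2 i hi'
  have h2 : L.getD i 0 = L[i] := by
    rw [List.getD_eq_getElem?_getD, List.getElem?_eq_getElem hi']
    rfl
  rw [h2]
  have h3 : (W.getD i 0 : ℝ) * KN n ((c : ℝ) / 64 * q ^ (top - i)) -
      (W.getD i 0 : ℝ) * (L[i] : ℝ) / 2 ^ 128 =
      (W.getD i 0 : ℝ) * (KN n ((c : ℝ) / 64 * q ^ (top - i)) - (L[i] : ℝ) / 2 ^ 128) := by ring
  rw [h3, abs_mul, abs_of_nonneg (Nat.cast_nonneg _), mul_div_assoc]
  exact mul_le_mul_of_nonneg_left h1 (Nat.cast_nonneg _)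

theorem wck_parts {a : List ℤ} {P N PN : List ℕ} (hP : PNOK a P N PN) (i : ℕ) :
    (a.getD i 0 : ℝ) = (P.getD i 0 : ℝ) - (N.getD i 0 : ℝ) ∧
      PN.getD i 0 = P.getD i 0 + N.getD i 0 := by
  obtain ⟨rfl, rfl, rfl⟩ := hP
  simp only [List.getD_eq_getElem?_getD, List.getElem?_map]
  cases h : a[i]? with
  | none => simp
  | some x =>
    simp only [Option.map_some, Option.getD_some]
    constructor
    · have h1 : x = (x.toNat : ℤ) - ((-x).toNat : ℤ) := by omega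
      exact_mod_cast h1
    · omega

theorem wck_len {a : List ℤ} {P N PN : List ℕ} (hP : PNOK a P N PN) :
    P.length = a.length ∧ N.length = a.length ∧ PN.length = a.length := by
  obtain ⟨rfl, rfl, rfl⟩ := hP
  simp

theorem wck_q : (0 : ℝ) < q := by
  unfold q
  norm_num

theorem wck_K {n : ℕ} (hh0 : 0 < hh) (X : ℝ) : LP.K n X = hh ^ n * KN n X := by
  have : hh ^ n ≠ 0 := (pow_pos hh0 n).ne'
  unfold KN
  field_simp

theorem wck_dotPN {a : List ℤ} {P N PN Er : List ℕ} (hP : PNOK a P N PN)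
    (h : a.length ≤ Er.length) : dotA PN Er 0 = dotA P Er 0 + dotA N Er 0 := by
  obtain ⟨h1, h2, h3⟩ := wck_len hP
  rw [wck_dotA PN Er 0 (by omega), wck_dotA P Er 0 (by omega), wck_dotA N Er 0 (by omega), h1, h2,
    h3, zero_add, zero_add, zero_add, ← Finset.sum_add_distrib]
  refine Finset.sum_congr rfl (fun i _ => ?_)
  rw [(wck_parts hP i).2]
  ring

theorem pos1_spec {n c : ℕ} {e m : ℤ} {a : List ℤ} {P N PN L Er : List ℕ} (hP : PNOK a P N PN)
    (hh0 : 0 < hh) (hL : SegOK n c (m + e) L Er) (hlen : a.length ≤ L.length)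
    (h : pos1 P N PN L Er = true) : 0 < FD n e a ((c : ℝ) / 64 * q ^ m) := by
  obtain ⟨l1, l2, l3⟩ := wck_len hP
  have hq := wck_q
  unfold pos1 at h
  have h1 : dotA N L (dotA PN Er 0) < dotA P L 0 := by
    rwa [Nat.blt_eq] at h
  have h2 : dotA N L (dotA PN Er 0) = dotA P Er 0 + dotA N Er 0 + dotA N L 0 := by
    rw [wck_dotA N L _ (by omega), wck_dotA N L 0 (by omega), zero_add,
      wck_dotPN hP (hlen.trans hL.1)]
  rw [h2] at h1
  have a1 := abs_le.1 (wck_approx (W := P) hL (by omega))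
  have a2 := abs_le.1 (wck_approx (W := N) hL (by omega))
  rw [l1] at a1
  rw [l2] at a2
  have h3 : FD n e a ((c : ℝ) / 64 * q ^ m) = hh ^ n *
      ((∑ i ∈ Finset.range a.length, (P.getD i 0 : ℝ) * KN n ((c : ℝ) / 64 * q ^ (m + e - i))) -
      ∑ i ∈ Finset.range a.length, (N.getD i 0 : ℝ) * KN n ((c : ℝ) / 64 * q ^ (m + e - i))) := by
    unfold FD
    rw [← Finset.sum_sub_distrib, Finset.mul_sum]
    refine Finset.sum_congr rfl (fun i _ => ?_)
    have e1 : q ^ (e - i) * ((c : ℝ) / 64 * q ^ m) = (c : ℝ) / 64 * q ^ (m + e - i) := by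
      rw [show m + e - (i : ℤ) = (e - i) + m by ring, zpow_add₀ hq.ne']
      ring
    rw [e1, wck_K hh0, (wck_parts hP i).1]
    ring
  rw [h3]
  refine mul_pos (pow_pos hh0 n) ?_
  have h4 : ((dotA P Er 0 : ℕ) : ℝ) / 2 ^ 128 + ((dotA N Er 0 : ℕ) : ℝ) / 2 ^ 128 +
      ((dotA N L 0 : ℕ) : ℝ) / 2 ^ 128 < ((dotA P L 0 : ℕ) : ℝ) / 2 ^ 128 := by
    rw [← add_div, ← add_div]
    refine div_lt_div_of_pos_right ?_ (by positivity)
    exact_mod_cast h1
  linarith [a1.1, a2.2]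

theorem wck_bern {b0 b1 b2 b3 b4 b5 θ : ℝ} (h0 : 0 ≤ θ) (h1 : θ ≤ 1) (c0 : 0 < b0) (c1 : 0 < b1)
    (c2 : 0 < b2) (c3 : 0 < b3) (c4 : 0 < b4) (c5 : 0 < b5) : 0 < bern b0 b1 b2 b3 b4 b5 θ := by
  have h2 : 0 ≤ 1 - θ := by linarith
  unfold bern
  rcases eq_or_lt_of_le h0 with h | h
  · rw [← h]
    norm_num
    exact c0
  · have : 0 < b5 * θ ^ 5 := by positivity
    have : 0 ≤ b0 * (1 - θ) ^ 5 + b1 * (5 * θ * (1 - θ) ^ 4) + b2 * (10 * θ ^ 2 * (1 - θ) ^ 3) +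
      b3 * (10 * θ ^ 3 * (1 - θ) ^ 2) + b4 * (5 * θ ^ 4 * (1 - θ)) := by positivity
    linarith

theorem wck_tail {n c : ℕ} {top : ℤ} {L Er : List ℕ} (hL : SegOK n c top L Er) :
    SegOK n c (top - 1) L.tail Er.tail := by
  refine ⟨?_, fun i hi => ?_⟩
  · rw [List.length_tail, List.length_tail]
    exact Nat.sub_le_sub_right hL.1 1
  · rw [List.length_tail] at hi
    have h1 := hL.2 (i + 1) (by omega)
    have h2 : L.tail[i]'(by rw [List.length_tail]; omega) = L[i + 1] := List.getElem_tail _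
    have h3 : Er.tail.getD i 0 = Er.getD (i + 1) 0 := by
      cases Er with
      | nil => simp
      | cons x xs => simp
    have h4 : top - 1 - (i : ℤ) = top - ((i + 1 : ℕ) : ℤ) := by
      push_cast
      ring
    rw [h3, h4]
    rw [h2]
    exact h1

theorem wck_scale {D x d E : ℝ} (hD : 0 < D) (h : |x - d / D| ≤ E / D) :
    d - E ≤ x * D ∧ x * D ≤ d + E := by
  obtain ⟨h1, h2⟩ := abs_le.1 h
  have h3 := mul_le_mul_of_nonneg_right h1 hD.le
  have h4 := mul_le_mul_of_nonneg_right h2 hD.le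
  have e1 : -(E / D) * D = -E := by field_simp
  have e2 : (x - d / D) * D = x * D - d := by field_simp
  have e3 : E / D * D = E := by field_simp
  rw [e1, e2] at h3
  rw [e2, e3] at h4
  constructor <;> linarith

theorem wck_num {y0 y1 y2 y3 y4 y5 z0 z1 z2 z3 z4 z5 d0 d1 d2 d3 d4 d5 f0 f1 f2 f3 f4 f5 EP EN : ℝ}
    (hEP : 0 ≤ EP) (hEN : 0 ≤ EN)
    (p0 : d0 - EP ≤ y0 ∧ y0 ≤ d0 + EP) (p1 : d1 - EP ≤ y1 ∧ y1 ≤ d1 + EP)
    (p2 : d2 - EP ≤ y2 ∧ y2 ≤ d2 + EP) (p3 : d3 - EP ≤ y3 ∧ y3 ≤ d3 + EP)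
    (p4 : d4 - EP ≤ y4 ∧ y4 ≤ d4 + EP) (p5 : d5 - EP ≤ y5 ∧ y5 ≤ d5 + EP)
    (n0 : f0 - EN ≤ z0 ∧ z0 ≤ f0 + EN) (n1 : f1 - EN ≤ z1 ∧ z1 ≤ f1 + EN)
    (n2 : f2 - EN ≤ z2 ∧ z2 ≤ f2 + EN) (n3 : f3 - EN ≤ z3 ∧ z3 ≤ f3 + EN)
    (n4 : f4 - EN ≤ z4 ∧ z4 ≤ f4 + EN) (n5 : f5 - EN ≤ z5 ∧ z5 ≤ f5 + EN)
    (t0 : 1200 * f2 + 2400 * (EP + EN) < 1200 * d3)
    (t1 : 8 * d0 + 240 * d2 + 12 * d5 + 12 * f0 + 1120 * f2 + 240 * f3 + 8 * f5 +
      2400 * (EP + EN) < 60 * d1 + 1280 * d3 + 120 * d4 + 120 * f1 + 60 * f4)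
    (t2 : 16 * d0 + 400 * d2 + 29 * d5 + 19 * f0 + 890 * f2 + 560 * f3 + 16 * f5 +
      2400 * (EP + EN) < 115 * d1 + 1210 * d3 + 320 * d4 + 160 * f1 + 125 * f4)
    (t3 : 19 * d0 + 410 * d2 + 46 * d5 + 16 * f0 + 560 * f2 + 890 * f3 + 19 * f5 +
      2400 * (EP + EN) < 130 * d1 + 940 * d3 + 605 * d4 + 125 * f1 + 160 * f4)
    (t4 : 12 * d0 + 240 * d2 + 48 * d5 + 8 * f0 + 240 * f2 + 1120 * f3 + 12 * f5 +
      2400 * (EP + EN) < 80 * d1 + 480 * d3 + 940 * d4 + 60 * f1 + 120 * f4)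
    (t5 : 1200 * f3 + 2400 * (EP + EN) < 1200 * d4) :
    0 < y3 - z2 ∧
    0 < (-8 * y0 + 60 * y1 - 240 * y2 + 1280 * y3 + 120 * y4 - 12 * y5) -
      (12 * z0 - 120 * z1 + 1120 * z2 + 240 * z3 - 60 * z4 + 8 * z5) ∧
    0 < (-16 * y0 + 115 * y1 - 400 * y2 + 1210 * y3 + 320 * y4 - 29 * y5) -
      (19 * z0 - 160 * z1 + 890 * z2 + 560 * z3 - 125 * z4 + 16 * z5) ∧
    0 < (-19 * y0 + 130 * y1 - 410 * y2 + 940 * y3 + 605 * y4 - 46 * y5) -
      (16 * z0 - 125 * z1 + 560 * z2 + 890 * z3 - 160 * z4 + 19 * z5) ∧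
    0 < (-12 * y0 + 80 * y1 - 240 * y2 + 480 * y3 + 940 * y4 - 48 * y5) -
      (8 * z0 - 60 * z1 + 240 * z2 + 1120 * z3 - 120 * z4 + 12 * z5) ∧ 0 < y4 - z3 := by
  obtain ⟨p0a, p0b⟩ := p0
  obtain ⟨p1a, p1b⟩ := p1
  obtain ⟨p2a, p2b⟩ := p2
  obtain ⟨p3a, p3b⟩ := p3
  obtain ⟨p4a, p4b⟩ := p4
  obtain ⟨p5a, p5b⟩ := p5
  obtain ⟨n0a, n0b⟩ := n0
  obtain ⟨n1a, n1b⟩ := n1
  obtain ⟨n2a, n2b⟩ := n2
  obtain ⟨n3a, n3b⟩ := n3
  obtain ⟨n4a, n4b⟩ := n4
  obtain ⟨n5a, n5b⟩ := n5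
  refine ⟨?_, ?_, ?_, ?_, ?_, ?_⟩
  · clear t1 t2 t3 t4 t5
    linarith
  · clear t0 t2 t3 t4 t5
    linarith
  · clear t0 t1 t3 t4 t5
    linarith
  · clear t0 t1 t2 t4 t5
    linarith
  · clear t0 t1 t2 t3 t5
    linarith
  · clear t0 t1 t2 t3 t4
    linarith

theorem wck_real {D P0 P1 P2 P3 P4 P5 N0 N1 N2 N3 N4 N5 d0 d1 d2 d3 d4 d5 f0 f1 f2 f3 f4 f5 EP EN
    θ : ℝ} (hD : 0 < D) (hEP : 0 ≤ EP) (hEN : 0 ≤ EN) (hθ0 : 0 ≤ θ) (hθ1 : θ ≤ 1)
    (p0 : |P0 - d0 / D| ≤ EP / D) (p1 : |P1 - d1 / D| ≤ EP / D) (p2 : |P2 - d2 / D| ≤ EP / D)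
    (p3 : |P3 - d3 / D| ≤ EP / D) (p4 : |P4 - d4 / D| ≤ EP / D) (p5 : |P5 - d5 / D| ≤ EP / D)
    (n0 : |N0 - f0 / D| ≤ EN / D) (n1 : |N1 - f1 / D| ≤ EN / D) (n2 : |N2 - f2 / D| ≤ EN / D)
    (n3 : |N3 - f3 / D| ≤ EN / D) (n4 : |N4 - f4 / D| ≤ EN / D) (n5 : |N5 - f5 / D| ≤ EN / D)
    (t0 : 1200 * f2 + 2400 * (EP + EN) < 1200 * d3)
    (t1 : 8 * d0 + 240 * d2 + 12 * d5 + 12 * f0 + 1120 * f2 + 240 * f3 + 8 * f5 +
      2400 * (EP + EN) < 60 * d1 + 1280 * d3 + 120 * d4 + 120 * f1 + 60 * f4)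
    (t2 : 16 * d0 + 400 * d2 + 29 * d5 + 19 * f0 + 890 * f2 + 560 * f3 + 16 * f5 +
      2400 * (EP + EN) < 115 * d1 + 1210 * d3 + 320 * d4 + 160 * f1 + 125 * f4)
    (t3 : 19 * d0 + 410 * d2 + 46 * d5 + 16 * f0 + 560 * f2 + 890 * f3 + 19 * f5 +
      2400 * (EP + EN) < 130 * d1 + 940 * d3 + 605 * d4 + 125 * f1 + 160 * f4)
    (t4 : 12 * d0 + 240 * d2 + 48 * d5 + 8 * f0 + 240 * f2 + 1120 * f3 + 12 * f5 +
      2400 * (EP + EN) < 80 * d1 + 480 * d3 + 940 * d4 + 60 * f1 + 120 * f4)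
    (t5 : 1200 * f3 + 2400 * (EP + EN) < 1200 * d4) :
    0 < lowP P0 P1 P2 P3 P4 P5 θ - uppP N0 N1 N2 N3 N4 N5 θ := by
  have hB : lowP P0 P1 P2 P3 P4 P5 θ - uppP N0 N1 N2 N3 N4 N5 θ =
      bern ((P3 * D - N2 * D) / D)
        (((-8 * (P0 * D) + 60 * (P1 * D) - 240 * (P2 * D) + 1280 * (P3 * D) + 120 * (P4 * D) -
          12 * (P5 * D)) - (12 * (N0 * D) - 120 * (N1 * D) + 1120 * (N2 * D) + 240 * (N3 * D) -
          60 * (N4 * D) + 8 * (N5 * D))) / (1200 * D))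
        (((-16 * (P0 * D) + 115 * (P1 * D) - 400 * (P2 * D) + 1210 * (P3 * D) + 320 * (P4 * D) -
          29 * (P5 * D)) - (19 * (N0 * D) - 160 * (N1 * D) + 890 * (N2 * D) + 560 * (N3 * D) -
          125 * (N4 * D) + 16 * (N5 * D))) / (1200 * D))
        (((-19 * (P0 * D) + 130 * (P1 * D) - 410 * (P2 * D) + 940 * (P3 * D) + 605 * (P4 * D) -
          46 * (P5 * D)) - (16 * (N0 * D) - 125 * (N1 * D) + 560 * (N2 * D) + 890 * (N3 * D) -
          160 * (N4 * D) + 19 * (N5 * D))) / (1200 * D))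
        (((-12 * (P0 * D) + 80 * (P1 * D) - 240 * (P2 * D) + 480 * (P3 * D) + 940 * (P4 * D) -
          48 * (P5 * D)) - (8 * (N0 * D) - 60 * (N1 * D) + 240 * (N2 * D) + 1120 * (N3 * D) -
          120 * (N4 * D) + 12 * (N5 * D))) / (1200 * D))
        ((P4 * D - N3 * D) / D) θ := by
    unfold lowP uppP bern
    field_simp
    ring
  rw [hB]
  obtain ⟨u0, u1, u2, u3, u4, u5⟩ := wck_num hEP hEN (wck_scale hD p0) (wck_scale hD p1)
    (wck_scale hD p2) (wck_scale hD p3) (wck_scale hD p4) (wck_scale hD p5) (wck_scale hD n0)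
    (wck_scale hD n1) (wck_scale hD n2) (wck_scale hD n3) (wck_scale hD n4) (wck_scale hD n5)
    t0 t1 t2 t3 t4 t5
  have hD2 : 0 < 1200 * D := by positivity
  exact wck_bern hθ0 hθ1 (div_pos u0 hD) (div_pos u1 hD2) (div_pos u2 hD2) (div_pos u3 hD2)
    (div_pos u4 hD2) (div_pos u5 hD)

/-- one window -/
theorem wck_win {n c : ℕ} {e m : ℤ} {a : List ℤ} {P N PN L0 L1 L2 L3 L4 L5 L6 Er : List ℕ}
    (hP : PNOK a P N PN) (hh0 : 0 < hh) (hc : 4 ≤ c)
    (h0 : SegOK n (c - 3) (m + e) L0 Er) (h1 : SegOK n (c - 2) (m + e) L1 Er)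
    (h2 : SegOK n (c - 1) (m + e) L2 Er) (h3 : SegOK n c (m + e) L3 Er)
    (h4 : SegOK n (c + 1) (m + e) L4 Er) (h5 : SegOK n (c + 2) (m + e) L5 Er)
    (h6 : SegOK n (c + 3) (m + e) L6 Er)
    (hl0 : a.length ≤ L0.length) (hl1 : a.length ≤ L1.length)
    (hl2 : a.length ≤ L2.length) (hl3 : a.length ≤ L3.length)
    (hl4 : a.length ≤ L4.length) (hl5 : a.length ≤ L5.length)
    (hl6 : a.length ≤ L6.length)
    (h : win1 P N PN L0 L1 L2 L3 L4 L5 L6 Er = true) (s : ℝ) (hs1 : (c : ℝ) / 64 * q ^ m ≤ s)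
    (hs2 : s ≤ ((c : ℝ) + 1) / 64 * q ^ m) : 0 < FD n e a s := by
  obtain ⟨l1, l2, l3⟩ := wck_len hP
  have hq := wck_q
  have hqm : 0 < q ^ m := zpow_pos hq m
  have hc' : (4 : ℝ) ≤ c := by exact_mod_cast hc
  set s0 : ℝ := (c : ℝ) / 64 * q ^ m with hs0
  set r : ℝ := 1 / 64 * q ^ m with hr
  have hr0 : 0 < r := by positivity
  have h3r : 3 * r < s0 := by
    rw [hr, hs0]
    nlinarith
  set θ : ℝ := (s - s0) / r with hθ
  have hθ0 : 0 ≤ θ := div_nonneg (by linarith) hr0.le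
  have hθ1 : θ ≤ 1 := by
    rw [hθ, div_le_one hr0, hr]
    have : ((c : ℝ) + 1) / 64 * q ^ m = s0 + 1 / 64 * q ^ m := by rw [hs0]; ring
    linarith
  have hs : s = s0 + θ * r := by
    rw [hθ]
    field_simp
    ring
  -- the exact sums
  set κ : ℕ → ℕ → ℝ := fun k i => KN n (((k : ℕ) : ℝ) / 64 * q ^ (m + e - i)) with hκ
  have hnode : ∀ (i : ℕ) (t : ℤ) (k : ℕ), (k : ℤ) = c + t →
      LP.K n (q ^ (e - i) * (s0 + t * r)) = hh ^ n * κ k i := by
    intro i t k hk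
    have e1 : q ^ (e - i) * (s0 + t * r) = (k : ℝ) / 64 * q ^ (m + e - i) := by
      have hk' : (k : ℝ) = c + t := by exact_mod_cast hk
      rw [show m + e - (i : ℤ) = (e - i) + m by ring, zpow_add₀ hq.ne', hs0, hr, hk']
      ring
    rw [e1, wck_K hh0]
  have hlow : ∀ i : ℕ, hh ^ n * lowP (κ (c - 3) i) (κ (c - 2) i) (κ (c - 1) i) (κ c i) (κ (c + 1) i)
      (κ (c + 2) i) θ ≤ LP.K n (q ^ (e - i) * s) := by
    intro i
    have hY : 0 < q ^ (e - i) := zpow_pos hq _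
    have k1 := K_lower6 n hY hr0 h3r hθ0 hθ1
    have n0 := hnode i (-3) (c - 3) (by omega)
    have n1 := hnode i (-2) (c - 2) (by omega)
    have n2 := hnode i (-1) (c - 1) (by omega)
    have n3 := hnode i 0 c (by omega)
    have n4 := hnode i 1 (c + 1) (by omega)
    have n5 := hnode i 2 (c + 2) (by omega)
    push_cast at n0 n1 n2 n3 n4 n5
    rw [show s0 + -3 * r = s0 - 3 * r by ring] at n0
    rw [show s0 + -2 * r = s0 - 2 * r by ring] at n1
    rw [show s0 + -1 * r = s0 - r by ring] at n2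
    rw [show s0 + 0 * r = s0 by ring] at n3
    rw [show s0 + 1 * r = s0 + r by ring] at n4
    rw [n0, n1, n2, n3, n4, n5, ← hs] at k1
    refine (le_of_eq ?_).trans k1
    unfold lowP bern
    ring
  have hupp : ∀ i : ℕ, LP.K n (q ^ (e - i) * s) ≤ hh ^ n * uppP (κ (c - 2) i) (κ (c - 1) i)
      (κ c i) (κ (c + 1) i) (κ (c + 2) i) (κ (c + 3) i) θ := by
    intro i
    have hY : 0 < q ^ (e - i) := zpow_pos hq _
    have k1 := K_upper6 n hY hr0 (by linarith) hθ0 hθ1 (s := s0)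
    have n1 := hnode i (-2) (c - 2) (by omega)
    have n2 := hnode i (-1) (c - 1) (by omega)
    have n3 := hnode i 0 c (by omega)
    have n4 := hnode i 1 (c + 1) (by omega)
    have n5 := hnode i 2 (c + 2) (by omega)
    have n6 := hnode i 3 (c + 3) (by omega)
    push_cast at n1 n2 n3 n4 n5 n6
    rw [show s0 + -2 * r = s0 - 2 * r by ring] at n1
    rw [show s0 + -1 * r = s0 - r by ring] at n2
    rw [show s0 + 0 * r = s0 by ring] at n3
    rw [show s0 + 1 * r = s0 + r by ring] at n4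
    rw [n1, n2, n3, n4, n5, n6, ← hs] at k1
    refine k1.trans (le_of_eq ?_)
    unfold uppP bern
    ring
  -- the lower bound
  have hFD : hh ^ n * (lowP
        (∑ i ∈ Finset.range a.length, (P.getD i 0 : ℝ) * κ (c - 3) i)
        (∑ i ∈ Finset.range a.length, (P.getD i 0 : ℝ) * κ (c - 2) i)
        (∑ i ∈ Finset.range a.length, (P.getD i 0 : ℝ) * κ (c - 1) i)
        (∑ i ∈ Finset.range a.length, (P.getD i 0 : ℝ) * κ c i)
        (∑ i ∈ Finset.range a.length, (P.getD i 0 : ℝ) * κ (c + 1) i)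
        (∑ i ∈ Finset.range a.length, (P.getD i 0 : ℝ) * κ (c + 2) i) θ - uppP
        (∑ i ∈ Finset.range a.length, (N.getD i 0 : ℝ) * κ (c - 2) i)
        (∑ i ∈ Finset.range a.length, (N.getD i 0 : ℝ) * κ (c - 1) i)
        (∑ i ∈ Finset.range a.length, (N.getD i 0 : ℝ) * κ c i)
        (∑ i ∈ Finset.range a.length, (N.getD i 0 : ℝ) * κ (c + 1) i)
        (∑ i ∈ Finset.range a.length, (N.getD i 0 : ℝ) * κ (c + 2) i)
        (∑ i ∈ Finset.range a.length, (N.getD i 0 : ℝ) * κ (c + 3) i) θ) ≤ FD n e a s := by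
    rw [← wck_lin, ← wck_linU, ← Finset.sum_sub_distrib, Finset.mul_sum]
    unfold FD
    refine Finset.sum_le_sum (fun i _ => ?_)
    rw [(wck_parts hP i).1]
    have u1 := mul_le_mul_of_nonneg_left (hlow i) (Nat.cast_nonneg (P.getD i 0) : (0 : ℝ) ≤ _)
    have u2 := mul_le_mul_of_nonneg_left (hupp i) (Nat.cast_nonneg (N.getD i 0) : (0 : ℝ) ≤ _)
    linarith
  refine lt_of_lt_of_le (mul_pos (pow_pos hh0 n) ?_) hFD
  -- the approximate values
  unfold win1 at h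
  simp only [wck_force] at h
  unfold cmp6 at h
  simp only [Bool.and_eq_true, Nat.blt_eq] at h
  rw [wck_dotPN hP (hl0.trans h0.1)] at h
  obtain ⟨t0, t1, t2, t3, t4, t5⟩ := h
  have p0 := wck_approx (W := P) h0 (l1.le.trans hl0)
  have p1 := wck_approx (W := P) h1 (l1.le.trans hl1)
  have p2 := wck_approx (W := P) h2 (l1.le.trans hl2)
  have p3 := wck_approx (W := P) h3 (l1.le.trans hl3)
  have p4 := wck_approx (W := P) h4 (l1.le.trans hl4)
  have p5 := wck_approx (W := P) h5 (l1.le.trans hl5)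
  have n0 := wck_approx (W := N) h1 (l2.le.trans hl1)
  have n1 := wck_approx (W := N) h2 (l2.le.trans hl2)
  have n2 := wck_approx (W := N) h3 (l2.le.trans hl3)
  have n3 := wck_approx (W := N) h4 (l2.le.trans hl4)
  have n4 := wck_approx (W := N) h5 (l2.le.trans hl5)
  have n5 := wck_approx (W := N) h6 (l2.le.trans hl6)
  rw [l1] at p0 p1 p2 p3 p4 p5
  rw [l2] at n0 n1 n2 n3 n4 n5
  refine wck_real (D := 2 ^ 128) (by positivity) (Nat.cast_nonneg _) (Nat.cast_nonneg _) hθ0 hθ1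
    p0 p1 p2 p3 p4 p5 n0 n1 n2 n3 n4 n5 ?_ ?_ ?_ ?_ ?_ ?_
  · exact_mod_cast t0
  · exact_mod_cast t1
  · exact_mod_cast t2
  · exact_mod_cast t3
  · exact_mod_cast t4
  · exact_mod_cast t5

theorem run_spec {n c k : ℕ} {e m : ℤ} {a : List ℤ} {P N PN L0 L1 L2 L3 L4 L5 L6 Er : List ℕ}
    (hP : PNOK a P N PN) (hh0 : 0 < hh) (hc : 4 ≤ c)
    (h0 : SegOK n (c - 3) (m + e) L0 Er) (h1 : SegOK n (c - 2) (m + e) L1 Er)
    (h2 : SegOK n (c - 1) (m + e) L2 Er) (h3 : SegOK n c (m + e) L3 Er)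
    (h4 : SegOK n (c + 1) (m + e) L4 Er) (h5 : SegOK n (c + 2) (m + e) L5 Er)
    (h6 : SegOK n (c + 3) (m + e) L6 Er)
    (hl0 : a.length + k ≤ L0.length + 1) (hl1 : a.length + k ≤ L1.length + 1)
    (hl2 : a.length + k ≤ L2.length + 1) (hl3 : a.length + k ≤ L3.length + 1)
    (hl4 : a.length + k ≤ L4.length + 1) (hl5 : a.length + k ≤ L5.length + 1)
    (hl6 : a.length + k ≤ L6.length + 1)
    (h : chkRun P N PN k L0 L1 L2 L3 L4 L5 L6 Er = true) :
    ∀ j : ℕ, j < k → ∀ s : ℝ, (c : ℝ) / 64 * q ^ (m - j) ≤ s →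
      s ≤ ((c : ℝ) + 1) / 64 * q ^ (m - j) → 0 < FD n e a s := by
  induction k generalizing m L0 L1 L2 L3 L4 L5 L6 Er with
  | zero =>
    intro j hj
    exact absurd hj (Nat.not_lt_zero j)
  | succ k ih =>
    have hrun : chkRun P N PN (k + 1) L0 L1 L2 L3 L4 L5 L6 Er =
        (win1 P N PN L0 L1 L2 L3 L4 L5 L6 Er && chkRun P N PN k L0.tail L1.tail L2.tail L3.tail
          L4.tail L5.tail L6.tail Er.tail) := rfl
    rw [hrun, Bool.and_eq_true] at h
    have etop : m + e - 1 = m - 1 + e := by ring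
    have s0 := wck_tail h0
    have s1 := wck_tail h1
    have s2 := wck_tail h2
    have s3 := wck_tail h3
    have s4 := wck_tail h4
    have s5 := wck_tail h5
    have s6 := wck_tail h6
    rw [etop] at s0 s1 s2 s3 s4 s5 s6
    intro j hj s hs1 hs2
    rcases Nat.eq_zero_or_pos j with hj0 | hj0
    · subst hj0
      rw [Nat.cast_zero, sub_zero] at hs1 hs2
      exact wck_win hP hh0 hc h0 h1 h2 h3 h4 h5 h6 (by omega) (by omega) (by omega) (by omega)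
        (by omega) (by omega) (by omega) h.1 s hs1 hs2
    · have e1 : m - (j : ℤ) = m - 1 - ((j - 1 : ℕ) : ℤ) := by
        push_cast [Nat.cast_sub hj0]
        ring
      rw [e1] at hs1 hs2
      refine ih s0 s1 s2 s3 s4 s5 s6 ?_ ?_ ?_ ?_ ?_ ?_ ?_ h.2 (j - 1) (by omega) s hs1 hs2
      all_goals
        rw [List.length_tail]
        omega

end H81.L2
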