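import Pool.Agent.H81.L2.Kron
import Pool.Agent.H81.L2.WinChk

/-!
# Module WINK: all windows of a run by a few multiplications

Notation as in `WinChk`.  `l = P.length = N.length = PN.length ≥ 1`.  The coefficients of index
`l - 1, …, l - 2 + k` of the product of the polynomials with coefficient lists `P.reverse` and `L` are the
dot products `∑_j P_j L_(i+j)`, `i = 0, …, k - 1` (all indices exist because
`l + k ≤ L.length + 1`), i.e. `dotA P (L.drop i) 0` (`dotA_eq_sum` in `Tab`).  So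
`dots B k l (packL B P.reverse) (packL B L) = ∑_{i<k} (dotA P (L.drop i) 0) B^i`, if all coefficients of the
product are less than `B` (they are at most `sumL P * sumL L`).

`ltK B k left right` with `left = ∑ x_i B^i`, `right = ∑ y_i B^i`, `x_i + 1 < B/2`, `y_i < B`, `B` a power
of two `2^b`, `b ≥ 1` (hypothesis `hB`): if the test succeeds then `x_i < y_i` for all `i < k`.
Proof: `X = right - (left + ones)`, `right = left + ones + X`; the digits `z_i` of
`X` (`X ≤ right < B^k`) have the top bit zero because `X &&& (ones * (B/2)) = 0`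
(`ones = ∑_{i<k} B^i`, so the bit `b i + b - 1` of `X` vanishes), hence
`z_i < B/2`, `x_i + 1 + z_i < B`, and by uniqueness of digits `y_i = x_i + 1 + z_i`.

`winK_spec`: every window `i < k` of `chkRun` (lists advanced by `i` entries: `chkRun` uses `L.tail`
repeatedly, i.e. `L.drop i`) passes `win1`, because its six comparisons are the ones of the digits.
The sums of the coefficients on each side of `cmp6` are at most `3000`, and `hbd` gives
`3000 · (sumL P + sumL N) · sumL L_i + 2400 · sumL PN · sumL Er + 1 < B/2`.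
-/

namespace H81.L2

/-- the dot products, packed -/
def dots (B k l rp pl : ℕ) : ℕ :=
  Nat.mod (Nat.div (Nat.mul rp pl) (Nat.pow B (Nat.sub l 1))) (Nat.pow B k)

/-- digitwise `left < right` -/
def ltK (B ones left right : ℕ) : Bool :=
  and (Nat.ble (Nat.add left ones) right)
    (Nat.beq (Nat.land (Nat.sub right (Nat.add left ones)) (Nat.mul ones (Nat.div B 2))) 0)

/-- the six comparisons of all windows -/
def cmpK (B ones p0 p1 p2 p3 p4 p5 n0 n1 n2 n3 n4 n5 e : ℕ) : Bool :=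
  ltK B ones (1200 * n2 + e) (1200 * p3) &&
  (ltK B ones (8 * p0 + 240 * p2 + 12 * p5 + 12 * n0 + 1120 * n2 + 240 * n3 + 8 * n5 + e)
    (60 * p1 + 1280 * p3 + 120 * p4 + 120 * n1 + 60 * n4) &&
  (ltK B ones (16 * p0 + 400 * p2 + 29 * p5 + 19 * n0 + 890 * n2 + 560 * n3 + 16 * n5 + e)
    (115 * p1 + 1210 * p3 + 320 * p4 + 160 * n1 + 125 * n4) &&
  (ltK B ones (19 * p0 + 410 * p2 + 46 * p5 + 16 * n0 + 560 * n2 + 890 * n3 + 19 * n5 + e)
    (130 * p1 + 940 * p3 + 605 * p4 + 125 * n1 + 160 * n4) &&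
  (ltK B ones (12 * p0 + 240 * p2 + 48 * p5 + 8 * n0 + 240 * n2 + 1120 * n3 + 12 * n5 + e)
    (80 * p1 + 480 * p3 + 940 * p4 + 60 * n1 + 120 * n4) &&
  ltK B ones (1200 * n3 + e) (1200 * p4)))))

/-- check from the packed numbers: `rp`, `rn`, `re` for `P`, `N`, `PN` (reversed), `q0, …, q6`, `qe` for the
tables and the error list -/
def coreK (B k l rp rn re q0 q1 q2 q3 q4 q5 q6 qe : ℕ) : Bool :=
  force1 (dots B k l rp q0) fun p0 => force1 (dots B k l rp q1) fun p1 =>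
  force1 (dots B k l rp q2) fun p2 => force1 (dots B k l rp q3) fun p3 =>
  force1 (dots B k l rp q4) fun p4 => force1 (dots B k l rp q5) fun p5 =>
  force1 (dots B k l rn q1) fun n0 => force1 (dots B k l rn q2) fun n1 =>
  force1 (dots B k l rn q3) fun n2 => force1 (dots B k l rn q4) fun n3 =>
  force1 (dots B k l rn q5) fun n4 => force1 (dots B k l rn q6) fun n5 =>
  force1 (Nat.mul 2400 (dots B k l re qe)) fun e =>
  force1 (Nat.div (Nat.sub (Nat.pow B k) 1) (Nat.sub B 1)) fun ones =>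
    cmpK B ones p0 p1 p2 p3 p4 p5 n0 n1 n2 n3 n4 n5 e

/-! ### packed lists -/

theorem wk_packL_cons (B x : ℕ) (l : List ℕ) : packL B (x :: l) = x + B * packL B l := rfl

theorem wk_packL_nil (B : ℕ) : packL B [] = 0 := rfl

theorem wk_sumL_cons (x : ℕ) (l : List ℕ) : sumL (x :: l) = x + sumL l := rfl

theorem wk_sumL (l : List ℕ) : sumL l = l.sum := by
  induction l with
  | nil => rfl
  | cons x l ih => rw [wk_sumL_cons, ih, List.sum_cons]

theorem wk_packL (B : ℕ) (l : List ℕ) (n : ℕ) (h : l.length ≤ n) :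
    packL B l = ∑ i ∈ Finset.range n, l.getD i 0 * B ^ i := by
  induction l generalizing n with
  | nil => simp [wk_packL_nil]
  | cons x l ih =>
    cases n with
    | zero => simp at h
    | succ n =>
      rw [wk_packL_cons, ih n (by simpa using h), Finset.sum_range_succ']
      simp only [List.getD_cons_succ, List.getD_cons_zero, pow_zero, mul_one, pow_succ]
      rw [Finset.mul_sum, add_comm]
      congr 1
      refine Finset.sum_congr rfl (fun i _ => ?_)
      ring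

/-- coefficients of the product -/
def wkC (g t : List ℕ) (m : ℕ) : ℕ := ∑ r ∈ Finset.range (m + 1), g.getD r 0 * t.getD (m - r) 0

theorem wk_mul (B : ℕ) (g t : List ℕ) (n : ℕ) (h : g.length + t.length ≤ n) :
    packL B g * packL B t = ∑ m ∈ Finset.range n, wkC g t m * B ^ m := by
  induction g generalizing n with
  | nil => simp [wk_packL_nil, wkC]
  | cons x g ih =>
    cases n with
    | zero => simp at h
    | succ n =>
      have h' : g.length + t.length ≤ n := by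
        rw [List.length_cons] at h
        omega
      have h0 : wkC (x :: g) t 0 = x * t.getD 0 0 := by simp [wkC]
      have hs : ∀ m, wkC (x :: g) t (m + 1) = x * t.getD (m + 1) 0 + wkC g t m := by
        intro m
        unfold wkC
        rw [Finset.sum_range_succ']
        simp only [List.getD_cons_succ, List.getD_cons_zero, Nat.sub_zero,
          Nat.add_sub_add_right]
        rw [add_comm]
      rw [wk_packL_cons, add_mul, mul_assoc, ih n h', wk_packL B t (n + 1) (by omega),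
        Finset.sum_range_succ', Finset.sum_range_succ', h0, mul_add, Finset.mul_sum,
        Finset.mul_sum]
      simp only [hs, pow_zero, mul_one]
      rw [add_assoc, add_comm (x * t.getD 0 0), ← add_assoc, ← Finset.sum_add_distrib]
      congr 1
      refine Finset.sum_congr rfl (fun m _ => ?_)
      rw [pow_succ]
      ring

theorem wk_getD_le (l : List ℕ) (i : ℕ) : l.getD i 0 ≤ sumL l := by
  induction l generalizing i with
  | nil => simp
  | cons x l ih =>
    rw [wk_sumL_cons]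
    cases i with
    | zero => simp
    | succ i =>
      rw [List.getD_cons_succ]
      exact (ih i).trans (Nat.le_add_left _ _)

theorem wk_sum_le (l : List ℕ) (n : ℕ) : ∑ i ∈ Finset.range n, l.getD i 0 ≤ sumL l := by
  induction l generalizing n with
  | nil => simp
  | cons x l ih =>
    rw [wk_sumL_cons]
    cases n with
    | zero => simp
    | succ n =>
      rw [Finset.sum_range_succ']
      simp only [List.getD_cons_succ, List.getD_cons_zero]
      have := ih n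
      omega

theorem wkC_le (g t : List ℕ) (m : ℕ) : wkC g t m ≤ sumL g * sumL t := by
  unfold wkC
  calc ∑ r ∈ Finset.range (m + 1), g.getD r 0 * t.getD (m - r) 0
      ≤ ∑ r ∈ Finset.range (m + 1), g.getD r 0 * sumL t :=
        Finset.sum_le_sum (fun r _ => Nat.mul_le_mul_left _ (wk_getD_le t _))
    _ = (∑ r ∈ Finset.range (m + 1), g.getD r 0) * sumL t := (Finset.sum_mul _ _ _).symm
    _ ≤ sumL g * sumL t := Nat.mul_le_mul_right _ (wk_sum_le g _)

theorem wk_lt {B : ℕ} {c : ℕ → ℕ} (hc : ∀ m, c m < B) (n : ℕ) :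
    ∑ m ∈ Finset.range n, c m * B ^ m < B ^ n := by
  induction n with
  | zero => simp
  | succ n ih =>
    rw [Finset.sum_range_succ, pow_succ]
    have h1 : c n + 1 ≤ B := hc n
    have h2 : (c n + 1) * B ^ n ≤ B * B ^ n := Nat.mul_le_mul_right _ h1
    rw [add_mul, one_mul] at h2
    rw [mul_comm (B ^ n) B]
    omega

theorem wk_extract {B : ℕ} {c : ℕ → ℕ} (hc : ∀ m, c m < B) {j k n : ℕ} (h : j + k ≤ n) :
    (∑ m ∈ Finset.range n, c m * B ^ m) / B ^ j % B ^ k =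
      ∑ i ∈ Finset.range k, c (j + i) * B ^ i := by
  obtain ⟨r, rfl⟩ := Nat.exists_eq_add_of_le h
  have hB : 0 < B := lt_of_le_of_lt (Nat.zero_le _) (hc 0)
  have e1 : ∑ m ∈ Finset.range (j + k + r), c m * B ^ m =
      ∑ m ∈ Finset.range j, c m * B ^ m + B ^ j *
        (∑ i ∈ Finset.range k, c (j + i) * B ^ i + B ^ k *
          ∑ i ∈ Finset.range r, c (j + k + i) * B ^ i) := by
    rw [Finset.sum_range_add, Finset.sum_range_add, mul_add, ← mul_assoc, ← pow_add,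
      Finset.mul_sum, Finset.mul_sum, ← add_assoc]
    congr 1
    · congr 1
      refine Finset.sum_congr rfl (fun i _ => ?_)
      rw [pow_add]
      ring
    · refine Finset.sum_congr rfl (fun i _ => ?_)
      rw [pow_add B (j + k)]
      ring
  rw [e1, Nat.add_mul_div_left _ _ (pow_pos hB j), Nat.div_eq_of_lt (wk_lt hc j), zero_add,
    Nat.add_mul_mod_self_left, Nat.mod_eq_of_lt (wk_lt (c := fun i => c (j + i)) (fun m => hc _) k)]

theorem wk_getD_drop (L : List ℕ) (i j : ℕ) : (L.drop i).getD j 0 = L.getD (i + j) 0 := by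
  simp only [List.getD_eq_getElem?_getD, List.getElem?_drop]

theorem wk_getD_reverse {P : List ℕ} {l r : ℕ} (hP : P.length = l) (hr : r < l) :
    P.reverse.getD r 0 = P.getD (l - 1 - r) 0 := by
  simp only [List.getD_eq_getElem?_getD]
  rw [List.getElem?_reverse (by omega), hP]

theorem wkC_reverse {P L : List ℕ} {l i : ℕ} (hP : P.length = l) (hl : 1 ≤ l)
    (h : l + i ≤ L.length) : wkC P.reverse L (l - 1 + i) = dotA P (L.drop i) 0 := by
  rw [wck_dotA P (L.drop i) 0 (by rw [List.length_drop]; omega), zero_add, hP]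
  unfold wkC
  rw [show l - 1 + i + 1 = l + i by omega, Finset.sum_range_add]
  have e2 : ∑ x ∈ Finset.range i, P.reverse.getD (l + x) 0 * L.getD (l - 1 + i - (l + x)) 0 = 0 := by
    refine Finset.sum_eq_zero (fun x _ => ?_)
    have : P.reverse.getD (l + x) 0 = 0 := by
      rw [List.getD_eq_getElem?_getD, List.getElem?_eq_none (by rw [List.length_reverse]; omega)]
      rfl
    rw [this, zero_mul]
  rw [e2, add_zero, ← Finset.sum_range_reflect]
  refine Finset.sum_congr rfl (fun r hr => ?_)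
  have hr' : r < l := Finset.mem_range.1 hr
  rw [wk_getD_reverse hP (by omega), wk_getD_drop]
  congr 2
  · omega
  · omega

theorem wk_dot_le {P L : List ℕ} {l i : ℕ} (hP : P.length = l) (hl : 1 ≤ l)
    (h : l + i ≤ L.length) : dotA P (L.drop i) 0 ≤ sumL P * sumL L := by
  rw [← wkC_reverse hP hl h]
  refine (wkC_le _ _ _).trans (le_of_eq ?_)
  rw [wk_sumL P.reverse, List.sum_reverse, ← wk_sumL]

theorem wk_dots {B k l : ℕ} {P L : List ℕ} (hP : P.length = l) (hl : 1 ≤ l)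
    (h : l + k ≤ L.length + 1) (hb : sumL P * sumL L < B) :
    dots B k l (packL B P.reverse) (packL B L) =
      ∑ i ∈ Finset.range k, dotA P (L.drop i) 0 * B ^ i := by
  have hc : ∀ m, wkC P.reverse L m < B := by
    intro m
    refine lt_of_le_of_lt (wkC_le _ _ _) ?_
    rwa [wk_sumL P.reverse, List.sum_reverse, ← wk_sumL]
  change (packL B P.reverse * packL B L) / B ^ (l - 1) % B ^ k = _
  rw [wk_mul B P.reverse L (P.reverse.length + L.length) le_rfl,
    wk_extract hc (by rw [List.length_reverse]; omega)]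
  refine Finset.sum_congr rfl (fun i hi => ?_)
  have hi' : i < k := Finset.mem_range.1 hi
  rw [wkC_reverse hP hl (by omega)]

/-! ### comparing digits -/

theorem wk_digit {b z : ℕ} (hb : 1 ≤ b) (hz : z < 2 ^ b) (h : z &&& 2 ^ (b - 1) = 0) :
    z < 2 ^ (b - 1) := by
  by_contra hne
  have h1 : z.testBit (b - 1) = true := by
    rw [Nat.testBit_eq_decide_div_mod_eq]
    have h2 : z / 2 ^ (b - 1) = 1 := by
      have hp : 0 < 2 ^ (b - 1) := by positivity
      apply Nat.div_eq_of_lt_le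
      · rw [one_mul]
        exact not_lt.1 hne
      · have : 2 ^ b = 2 ^ (b - 1) * 2 := by
          rw [← pow_succ]
          congr 1
          omega
        rw [this] at hz
        omega
    rw [h2]
    rfl
  have h3 : (z &&& 2 ^ (b - 1)).testBit (b - 1) = true := by
    rw [Nat.testBit_and, h1, Nat.testBit_two_pow_self]
    rfl
  rw [h, Nat.zero_testBit] at h3
  exact Bool.false_ne_true h3

theorem wk_cmp {b : ℕ} (hb : 1 ≤ b) (k : ℕ) : ∀ (x y : ℕ → ℕ), (∀ i < k, x i + 1 ≤ 2 ^ (b - 1)) →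
    (∀ i < k, y i < 2 ^ b) →
    (∑ i ∈ Finset.range k, x i * (2 ^ b) ^ i) + (∑ i ∈ Finset.range k, (2 ^ b) ^ i) ≤
      (∑ i ∈ Finset.range k, y i * (2 ^ b) ^ i) →
    ((∑ i ∈ Finset.range k, y i * (2 ^ b) ^ i) -
      ((∑ i ∈ Finset.range k, x i * (2 ^ b) ^ i) + (∑ i ∈ Finset.range k, (2 ^ b) ^ i))) &&&
      ((∑ i ∈ Finset.range k, (2 ^ b) ^ i) * 2 ^ (b - 1)) = 0 → ∀ i < k, x i < y i := by
  induction k with
  | zero =>
    intro x y _ _ _ _ i hi
    exact absurd hi (Nat.not_lt_zero i)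
  | succ k ih =>
    intro x y hx hy hle hand
    have e1 : ∀ w : ℕ → ℕ, ∑ i ∈ Finset.range (k + 1), w i * (2 ^ b) ^ i =
        w 0 + 2 ^ b * ∑ i ∈ Finset.range k, w (i + 1) * (2 ^ b) ^ i := by
      intro w
      rw [Finset.sum_range_succ', pow_zero, mul_one, add_comm, Finset.mul_sum]
      congr 1
      refine Finset.sum_congr rfl (fun i _ => ?_)
      rw [pow_succ]
      ring
    have e2 : ∑ i ∈ Finset.range (k + 1), (2 ^ b) ^ i =
        1 + 2 ^ b * ∑ i ∈ Finset.range k, (2 ^ b) ^ i := by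
      rw [Finset.sum_range_succ', pow_zero, add_comm, Finset.mul_sum]
      congr 1
      refine Finset.sum_congr rfl (fun i _ => ?_)
      rw [pow_succ]
      ring
    rw [e1, e1, e2] at hle hand
    set X' := ∑ i ∈ Finset.range k, x (i + 1) * (2 ^ b) ^ i with hX'
    set Y' := ∑ i ∈ Finset.range k, y (i + 1) * (2 ^ b) ^ i with hY'
    set O' := ∑ i ∈ Finset.range k, (2 ^ b) ^ i with hO'
    have h2b : 2 ^ b = 2 ^ (b - 1) * 2 := by
      rw [← pow_succ]
      congr 1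
      omega
    have hp : 0 < 2 ^ (b - 1) := by positivity
    have hpb : 0 < 2 ^ b := by positivity
    set D := y 0 + 2 ^ b * Y' - (x 0 + 2 ^ b * X' + (1 + 2 ^ b * O')) with hD
    have hmask : (1 + 2 ^ b * O') * 2 ^ (b - 1) = 2 ^ (b - 1) + 2 ^ b * (O' * 2 ^ (b - 1)) := by ring
    rw [hmask] at hand
    have m1 : (2 ^ (b - 1) + 2 ^ b * (O' * 2 ^ (b - 1))) % 2 ^ b = 2 ^ (b - 1) := by
      rw [Nat.add_mul_mod_self_left, Nat.mod_eq_of_lt (by omega)]
    have m2 : (2 ^ (b - 1) + 2 ^ b * (O' * 2 ^ (b - 1))) / 2 ^ b = O' * 2 ^ (b - 1) := by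
      rw [Nat.add_mul_div_left _ _ hpb, Nat.div_eq_of_lt (by omega), zero_add]
    have a1 : (D % 2 ^ b) &&& 2 ^ (b - 1) = 0 := by
      have := congrArg (· % 2 ^ b) hand
      simp only [Nat.and_mod_two_pow, m1, Nat.zero_mod] at this
      exact this
    have a2 : (D / 2 ^ b) &&& (O' * 2 ^ (b - 1)) = 0 := by
      have := congrArg (· / 2 ^ b) hand
      simp only [Nat.and_div_two_pow, m2, Nat.zero_div] at this
      exact this
    have hz := wk_digit hb (Nat.mod_lt _ hpb) a1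
    have hdm := Nat.mod_add_div D (2 ^ b)
    set z := D % 2 ^ b with hz'
    set Z := D / 2 ^ b with hZ'
    have hx0 := hx 0 (Nat.succ_pos k)
    have hy0 := hy 0 (Nat.succ_pos k)
    -- y 0 + B Y' = (x 0 + 1 + z) + B (X' + O' + Z)
    have key : y 0 + 2 ^ b * Y' = (x 0 + 1 + z) + 2 ^ b * (X' + O' + Z) := by
      have : D + (x 0 + 2 ^ b * X' + (1 + 2 ^ b * O')) = y 0 + 2 ^ b * Y' := by
        rw [hD]
        omega
      rw [← this, ← hdm]
      ring
    have k1 := congrArg (· % 2 ^ b) key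
    simp only [Nat.add_mul_mod_self_left] at k1
    rw [Nat.mod_eq_of_lt hy0, Nat.mod_eq_of_lt (by omega)] at k1
    have k2 : Y' = X' + O' + Z := by
      rw [k1] at key
      exact Nat.eq_of_mul_eq_mul_left hpb (Nat.add_left_cancel key)
    have k3 := ih (fun i => x (i + 1)) (fun i => y (i + 1)) (fun i hi => hx (i + 1) (by omega))
      (fun i hi => hy (i + 1) (by omega)) (show X' + O' ≤ Y' by rw [k2]; exact Nat.le_add_right _ _) (by
        have k4 : Y' - (X' + O') = Z := by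
          rw [k2]
          exact Nat.add_sub_cancel_left _ _
        change (Y' - (X' + O')) &&& _ = 0
        rw [k4]
        exact a2)
    intro i hi
    cases i with
    | zero => omega
    | succ i => exact k3 i (by omega)

/-- the digitwise comparison is sound -/
theorem wk_ltK {B b k : ℕ} (hB : B = 2 ^ b) (hb : 1 ≤ b) {left right : ℕ} {x y : ℕ → ℕ}
    (hl : left = ∑ i ∈ Finset.range k, x i * B ^ i) (hr : right = ∑ i ∈ Finset.range k, y i * B ^ i)
    (hx : ∀ i < k, 2 * x i + 2 ≤ B) (hy : ∀ i < k, y i < B)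
    (h : ltK B (∑ i ∈ Finset.range k, B ^ i) left right = true) : ∀ i < k, x i < y i := by
  have h2b : 2 ^ b = 2 ^ (b - 1) * 2 := by
    rw [← pow_succ]
    congr 1
    omega
  have hB2 : B / 2 = 2 ^ (b - 1) := by
    rw [hB, h2b]
    omega
  unfold ltK at h
  rw [Bool.and_eq_true] at h
  obtain ⟨c1, c2⟩ := h
  have c1' := Nat.le_of_ble_eq_true c1
  have c2' := Nat.eq_of_beq_eq_true c2
  change left + _ ≤ right at c1'
  change (right - (left + _)) &&& (_ * (B / 2)) = 0 at c2'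
  rw [hB2] at c2'
  rw [hl, hr] at c1' c2'
  subst hB
  refine wk_cmp hb k x y (fun i hi => ?_) hy c1' c2'
  have := hx i hi
  omega

/-! ### the windows -/

theorem wk_num1 {B a0 a1 a2 a3 a4 a5 a6 a7 c0 c1 c2 c3 c4 c5 c6 c7 : ℕ} (hB : 2 ≤ B)
    (h0 : 40000 * a0 < B) (h1 : 40000 * a1 < B) (h2 : 40000 * a2 < B) (h3 : 40000 * a3 < B)
    (h4 : 40000 * a4 < B) (h5 : 40000 * a5 < B) (h6 : 40000 * a6 < B) (h7 : 40000 * a7 < B)
    (hc : c0 + c1 + c2 + c3 + c4 + c5 + c6 + c7 ≤ 10000) :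
    2 * (c0 * a0 + c1 * a1 + c2 * a2 + c3 * a3 + c4 * a4 + c5 * a5 + c6 * a6 + c7 * a7) + 2 ≤
      B := by
  obtain ⟨M, hM⟩ : ∃ M, 40000 * M < B ∧ a0 ≤ M ∧ a1 ≤ M ∧ a2 ≤ M ∧ a3 ≤ M ∧ a4 ≤ M ∧ a5 ≤ M ∧
      a6 ≤ M ∧ a7 ≤ M := ⟨(B - 1) / 40000, by omega, by omega, by omega, by omega, by omega,
        by omega, by omega, by omega, by omega⟩
  obtain ⟨hM, m0, m1, m2, m3, m4, m5, m6, m7⟩ := hM
  have e : c0 * a0 + c1 * a1 + c2 * a2 + c3 * a3 + c4 * a4 + c5 * a5 + c6 * a6 + c7 * a7 ≤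
      (c0 + c1 + c2 + c3 + c4 + c5 + c6 + c7) * M := by
    simp only [add_mul]
    gcongr
  have e2 := e.trans (Nat.mul_le_mul_right M hc)
  rcases Nat.eq_zero_or_pos M with h | h
  · subst h
    omega
  · omega

theorem wk_num2 {B a0 a1 a2 a3 a4 c0 c1 c2 c3 c4 : ℕ}
    (h0 : 40000 * a0 < B) (h1 : 40000 * a1 < B) (h2 : 40000 * a2 < B) (h3 : 40000 * a3 < B)
    (h4 : 40000 * a4 < B) (hc : c0 + c1 + c2 + c3 + c4 ≤ 10000) :
    c0 * a0 + c1 * a1 + c2 * a2 + c3 * a3 + c4 * a4 < B := by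
  obtain ⟨M, hM⟩ : ∃ M, 40000 * M < B ∧ a0 ≤ M ∧ a1 ≤ M ∧ a2 ≤ M ∧ a3 ≤ M ∧ a4 ≤ M :=
    ⟨(B - 1) / 40000, by omega, by omega, by omega, by omega, by omega, by omega⟩
  obtain ⟨hM, m0, m1, m2, m3, m4⟩ := hM
  have e : c0 * a0 + c1 * a1 + c2 * a2 + c3 * a3 + c4 * a4 ≤ (c0 + c1 + c2 + c3 + c4) * M := by
    simp only [add_mul]
    gcongr
  have e2 := e.trans (Nat.mul_le_mul_right M hc)
  omega

/-- the six comparisons -/
theorem wk_final {B b k : ℕ} (hB : B = 2 ^ b) (hb : 1 ≤ b) (hB1 : 2 ≤ B)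
    {p0 p1 p2 p3 p4 p5 n0 n1 n2 n3 n4 n5 ee : ℕ → ℕ}
    (p0b : ∀ j < k, 40000 * p0 j < B) (p1b : ∀ j < k, 40000 * p1 j < B)
    (p2b : ∀ j < k, 40000 * p2 j < B) (p3b : ∀ j < k, 40000 * p3 j < B)
    (p4b : ∀ j < k, 40000 * p4 j < B) (p5b : ∀ j < k, 40000 * p5 j < B)
    (n0b : ∀ j < k, 40000 * n0 j < B) (n1b : ∀ j < k, 40000 * n1 j < B)
    (n2b : ∀ j < k, 40000 * n2 j < B) (n3b : ∀ j < k, 40000 * n3 j < B)
    (n4b : ∀ j < k, 40000 * n4 j < B) (n5b : ∀ j < k, 40000 * n5 j < B)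
    (eb : ∀ j < k, 40000 * ee j < B)
    (h : cmpK B (∑ i ∈ Finset.range k, B ^ i)
      (∑ i ∈ Finset.range k, p0 i * B ^ i) (∑ i ∈ Finset.range k, p1 i * B ^ i)
      (∑ i ∈ Finset.range k, p2 i * B ^ i) (∑ i ∈ Finset.range k, p3 i * B ^ i)
      (∑ i ∈ Finset.range k, p4 i * B ^ i) (∑ i ∈ Finset.range k, p5 i * B ^ i)
      (∑ i ∈ Finset.range k, n0 i * B ^ i) (∑ i ∈ Finset.range k, n1 i * B ^ i)
      (∑ i ∈ Finset.range k, n2 i * B ^ i) (∑ i ∈ Finset.range k, n3 i * B ^ i)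
      (∑ i ∈ Finset.range k, n4 i * B ^ i) (∑ i ∈ Finset.range k, n5 i * B ^ i)
      (Nat.mul 2400 (∑ i ∈ Finset.range k, ee i * B ^ i)) = true) (i : ℕ) (hi : i < k) :
    cmp6 (p0 i) (p1 i) (p2 i) (p3 i) (p4 i) (p5 i) (n0 i) (n1 i) (n2 i) (n3 i) (n4 i) (n5 i)
      (2400 * ee i) = true := by
  have hmul : Nat.mul 2400 (∑ i ∈ Finset.range k, ee i * B ^ i) =
      2400 * ∑ i ∈ Finset.range k, ee i * B ^ i := rfl
  rw [hmul] at h
  unfold cmpK at h
  simp only [Bool.and_eq_true] at h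
  obtain ⟨t0, t1, t2, t3, t4, t5⟩ := h
  unfold cmp6
  simp only [Bool.and_eq_true, Nat.blt_eq]
  refine ⟨?_, ?_, ?_, ?_, ?_, ?_⟩
  · refine wk_ltK hB hb (x := fun i => 1200 * n2 i + 2400 * ee i) (y := fun i => 1200 * p3 i)
      ?_ ?_ ?_ ?_ t0 i hi
    · simp only [add_mul, mul_assoc, Finset.sum_add_distrib, ← Finset.mul_sum]
    · simp only [add_mul, mul_assoc, Finset.sum_add_distrib, ← Finset.mul_sum]
    · intro j hj
      have u1 := n2b j hj
      have u2 := eb j hj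
      omega
    · intro j hj
      have u1 := p3b j hj
      omega
  · refine wk_ltK hB hb (x := fun i => 8 * p0 i + 240 * p2 i + 12 * p5 i + 12 * n0 i + 1120 * n2 i +
      240 * n3 i + 8 * n5 i + 2400 * ee i) (y := fun i => 60 * p1 i + 1280 * p3 i + 120 * p4 i +
      120 * n1 i + 60 * n4 i) ?_ ?_ ?_ ?_ t1 i hi
    · simp only [add_mul, mul_assoc, Finset.sum_add_distrib, ← Finset.mul_sum]
    · simp only [add_mul, mul_assoc, Finset.sum_add_distrib, ← Finset.mul_sum]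
    · intro j hj
      exact wk_num1 hB1 (p0b j hj) (p2b j hj) (p5b j hj) (n0b j hj) (n2b j hj) (n3b j hj)
        (n5b j hj) (eb j hj) (by norm_num)
    · intro j hj
      exact wk_num2 (p1b j hj) (p3b j hj) (p4b j hj) (n1b j hj) (n4b j hj) (by norm_num)
  · refine wk_ltK hB hb (x := fun i => 16 * p0 i + 400 * p2 i + 29 * p5 i + 19 * n0 i + 890 * n2 i +
      560 * n3 i + 16 * n5 i + 2400 * ee i) (y := fun i => 115 * p1 i + 1210 * p3 i + 320 * p4 i +
      160 * n1 i + 125 * n4 i) ?_ ?_ ?_ ?_ t2 i hi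
    · simp only [add_mul, mul_assoc, Finset.sum_add_distrib, ← Finset.mul_sum]
    · simp only [add_mul, mul_assoc, Finset.sum_add_distrib, ← Finset.mul_sum]
    · intro j hj
      exact wk_num1 hB1 (p0b j hj) (p2b j hj) (p5b j hj) (n0b j hj) (n2b j hj) (n3b j hj)
        (n5b j hj) (eb j hj) (by norm_num)
    · intro j hj
      exact wk_num2 (p1b j hj) (p3b j hj) (p4b j hj) (n1b j hj) (n4b j hj) (by norm_num)
  · refine wk_ltK hB hb (x := fun i => 19 * p0 i + 410 * p2 i + 46 * p5 i + 16 * n0 i + 560 * n2 i +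
      890 * n3 i + 19 * n5 i + 2400 * ee i) (y := fun i => 130 * p1 i + 940 * p3 i + 605 * p4 i +
      125 * n1 i + 160 * n4 i) ?_ ?_ ?_ ?_ t3 i hi
    · simp only [add_mul, mul_assoc, Finset.sum_add_distrib, ← Finset.mul_sum]
    · simp only [add_mul, mul_assoc, Finset.sum_add_distrib, ← Finset.mul_sum]
    · intro j hj
      exact wk_num1 hB1 (p0b j hj) (p2b j hj) (p5b j hj) (n0b j hj) (n2b j hj) (n3b j hj)
        (n5b j hj) (eb j hj) (by norm_num)
    · intro j hj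
      exact wk_num2 (p1b j hj) (p3b j hj) (p4b j hj) (n1b j hj) (n4b j hj) (by norm_num)
  · refine wk_ltK hB hb (x := fun i => 12 * p0 i + 240 * p2 i + 48 * p5 i + 8 * n0 i + 240 * n2 i +
      1120 * n3 i + 12 * n5 i + 2400 * ee i) (y := fun i => 80 * p1 i + 480 * p3 i + 940 * p4 i +
      60 * n1 i + 120 * n4 i) ?_ ?_ ?_ ?_ t4 i hi
    · simp only [add_mul, mul_assoc, Finset.sum_add_distrib, ← Finset.mul_sum]
    · simp only [add_mul, mul_assoc, Finset.sum_add_distrib, ← Finset.mul_sum]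
    · intro j hj
      exact wk_num1 hB1 (p0b j hj) (p2b j hj) (p5b j hj) (n0b j hj) (n2b j hj) (n3b j hj)
        (n5b j hj) (eb j hj) (by norm_num)
    · intro j hj
      exact wk_num2 (p1b j hj) (p3b j hj) (p4b j hj) (n1b j hj) (n4b j hj) (by norm_num)
  · refine wk_ltK hB hb (x := fun i => 1200 * n3 i + 2400 * ee i) (y := fun i => 1200 * p4 i)
      ?_ ?_ ?_ ?_ t5 i hi
    · simp only [add_mul, mul_assoc, Finset.sum_add_distrib, ← Finset.mul_sum]
    · simp only [add_mul, mul_assoc, Finset.sum_add_distrib, ← Finset.mul_sum]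
    · intro j hj
      have u1 := n3b j hj
      have u2 := eb j hj
      omega
    · intro j hj
      have u1 := p4b j hj
      omega


theorem wk_chkRun {P N PN : List ℕ} (k : ℕ) : ∀ (L0 L1 L2 L3 L4 L5 L6 Er : List ℕ),
    (∀ i < k, win1 P N PN (L0.drop i) (L1.drop i) (L2.drop i) (L3.drop i) (L4.drop i)
      (L5.drop i) (L6.drop i) (Er.drop i) = true) →
    chkRun P N PN k L0 L1 L2 L3 L4 L5 L6 Er = true := by
  induction k with
  | zero =>
    intro _ _ _ _ _ _ _ _ _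
    rfl
  | succ k ih =>
    intro L0 L1 L2 L3 L4 L5 L6 Er h
    change (win1 P N PN L0 L1 L2 L3 L4 L5 L6 Er && chkRun P N PN k L0.tail L1.tail L2.tail L3.tail
          L4.tail L5.tail L6.tail Er.tail) = true
    rw [Bool.and_eq_true]
    refine ⟨h 0 (Nat.succ_pos k), ih _ _ _ _ _ _ _ _ (fun i hi => ?_)⟩
    simp only [List.drop_tail]
    exact h (i + 1) (by omega)

theorem winK_spec {B b k l : ℕ} (hB : B = 2 ^ b) (hb : 1 ≤ b) {P N PN L0 L1 L2 L3 L4 L5 L6 Er : List ℕ}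
    (hP : P.length = l) (hN : N.length = l) (hPN : PN.length = l) (hl : 1 ≤ l)
    (h0 : l + k ≤ L0.length + 1) (h1 : l + k ≤ L1.length + 1) (h2 : l + k ≤ L2.length + 1)
    (h3 : l + k ≤ L3.length + 1) (h4 : l + k ≤ L4.length + 1) (h5 : l + k ≤ L5.length + 1)
    (h6 : l + k ≤ L6.length + 1) (hE : l + k ≤ Er.length + 1)
    (hbd : ∀ L ∈ [L0, L1, L2, L3, L4, L5, L6], 40000 * ((sumL P + sumL N) * sumL L) < B)
    (hbe : 40000 * (sumL PN * sumL Er) < B)
    (h : coreK B k l (packL B P.reverse) (packL B N.reverse) (packL B PN.reverse) (packL B L0)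
      (packL B L1) (packL B L2) (packL B L3) (packL B L4) (packL B L5) (packL B L6)
      (packL B Er) = true) : chkRun P N PN k L0 L1 L2 L3 L4 L5 L6 Er = true := by
  classical
  apply wk_chkRun
  intro i hi
  have hB1 : 2 ≤ B := by
    rw [hB]
    calc 2 = 2 ^ 1 := rfl
      _ ≤ 2 ^ b := Nat.pow_le_pow_right (by norm_num) hb
  -- bounds for the dot products
  have hbP : ∀ L ∈ [L0, L1, L2, L3, L4, L5, L6], l + k ≤ L.length + 1 →
      sumL P * sumL L < B ∧ ∀ j < k, 40000 * dotA P (L.drop j) 0 < B := by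
    intro L hL hlen
    have h1 := hbd L hL
    have h2 : sumL P * sumL L ≤ (sumL P + sumL N) * sumL L :=
      Nat.mul_le_mul_right _ (Nat.le_add_right _ _)
    refine ⟨by omega, fun j hj => ?_⟩
    have h3 := wk_dot_le hP hl (L := L) (i := j) (by omega)
    omega
  have hbN : ∀ L ∈ [L0, L1, L2, L3, L4, L5, L6], l + k ≤ L.length + 1 →
      sumL N * sumL L < B ∧ ∀ j < k, 40000 * dotA N (L.drop j) 0 < B := by
    intro L hL hlen
    have h1 := hbd L hL
    have h2 : sumL N * sumL L ≤ (sumL P + sumL N) * sumL L :=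
      Nat.mul_le_mul_right _ (Nat.le_add_left _ _)
    refine ⟨by omega, fun j hj => ?_⟩
    have h3 := wk_dot_le hN hl (L := L) (i := j) (by omega)
    omega
  obtain ⟨bp0, p0b⟩ := hbP L0 (by simp) h0
  obtain ⟨bp1, p1b⟩ := hbP L1 (by simp) h1
  obtain ⟨bp2, p2b⟩ := hbP L2 (by simp) h2
  obtain ⟨bp3, p3b⟩ := hbP L3 (by simp) h3
  obtain ⟨bp4, p4b⟩ := hbP L4 (by simp) h4
  obtain ⟨bp5, p5b⟩ := hbP L5 (by simp) h5
  obtain ⟨bn0, n0b⟩ := hbN L1 (by simp) h1
  obtain ⟨bn1, n1b⟩ := hbN L2 (by simp) h2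
  obtain ⟨bn2, n2b⟩ := hbN L3 (by simp) h3
  obtain ⟨bn3, n3b⟩ := hbN L4 (by simp) h4
  obtain ⟨bn4, n4b⟩ := hbN L5 (by simp) h5
  obtain ⟨bn5, n5b⟩ := hbN L6 (by simp) h6
  have be : sumL PN * sumL Er < B := by omega
  have eb : ∀ j < k, 40000 * dotA PN (Er.drop j) 0 < B := by
    intro j hj
    have h3 := wk_dot_le hPN hl (L := Er) (i := j) (by omega)
    omega
  unfold coreK at h
  simp only [force1_eq] at h
  have hones : Nat.div (Nat.sub (Nat.pow B k) 1) (Nat.sub B 1) = ∑ i ∈ Finset.range k, B ^ i := by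
    rw [Nat.geomSum_eq hB1]
    rfl
  rw [hones, wk_dots hP hl h0 bp0, wk_dots hP hl h1 bp1, wk_dots hP hl h2 bp2, wk_dots hP hl h3 bp3,
    wk_dots hP hl h4 bp4, wk_dots hP hl h5 bp5, wk_dots hN hl h1 bn0, wk_dots hN hl h2 bn1,
    wk_dots hN hl h3 bn2, wk_dots hN hl h4 bn3, wk_dots hN hl h5 bn4, wk_dots hN hl h6 bn5,
    wk_dots hPN hl hE be] at h
  unfold win1
  simp only [wck_force]
  obtain ⟨p0, hp0⟩ : ∃ f : ℕ → ℕ, ∀ j, f j = dotA P (L0.drop j) 0 := ⟨_, fun _ => rfl⟩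
  obtain ⟨p1, hp1⟩ : ∃ f : ℕ → ℕ, ∀ j, f j = dotA P (L1.drop j) 0 := ⟨_, fun _ => rfl⟩
  obtain ⟨p2, hp2⟩ : ∃ f : ℕ → ℕ, ∀ j, f j = dotA P (L2.drop j) 0 := ⟨_, fun _ => rfl⟩
  obtain ⟨p3, hp3⟩ : ∃ f : ℕ → ℕ, ∀ j, f j = dotA P (L3.drop j) 0 := ⟨_, fun _ => rfl⟩
  obtain ⟨p4, hp4⟩ : ∃ f : ℕ → ℕ, ∀ j, f j = dotA P (L4.drop j) 0 := ⟨_, fun _ => rfl⟩
  obtain ⟨p5, hp5⟩ : ∃ f : ℕ → ℕ, ∀ j, f j = dotA P (L5.drop j) 0 := ⟨_, fun _ => rfl⟩
  obtain ⟨n0, hn0⟩ : ∃ f : ℕ → ℕ, ∀ j, f j = dotA N (L1.drop j) 0 := ⟨_, fun _ => rfl⟩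
  obtain ⟨n1, hn1⟩ : ∃ f : ℕ → ℕ, ∀ j, f j = dotA N (L2.drop j) 0 := ⟨_, fun _ => rfl⟩
  obtain ⟨n2, hn2⟩ : ∃ f : ℕ → ℕ, ∀ j, f j = dotA N (L3.drop j) 0 := ⟨_, fun _ => rfl⟩
  obtain ⟨n3, hn3⟩ : ∃ f : ℕ → ℕ, ∀ j, f j = dotA N (L4.drop j) 0 := ⟨_, fun _ => rfl⟩
  obtain ⟨n4, hn4⟩ : ∃ f : ℕ → ℕ, ∀ j, f j = dotA N (L5.drop j) 0 := ⟨_, fun _ => rfl⟩
  obtain ⟨n5, hn5⟩ : ∃ f : ℕ → ℕ, ∀ j, f j = dotA N (L6.drop j) 0 := ⟨_, fun _ => rfl⟩
  obtain ⟨ee, hee⟩ : ∃ f : ℕ → ℕ, ∀ j, f j = dotA PN (Er.drop j) 0 := ⟨_, fun _ => rfl⟩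
  simp only [← hp0, ← hp1, ← hp2, ← hp3, ← hp4, ← hp5, ← hn0, ← hn1, ← hn2, ← hn3, ← hn4, ← hn5,
    ← hee] at h p0b p1b p2b p3b p4b p5b n0b n1b n2b n3b n4b n5b eb ⊢
  exact wk_final hB hb hB1 p0b p1b p2b p3b p4b p5b n0b n1b n2b n3b n4b n5b eb h i hi

end H81.L2
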