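import Pool.Agent.H81.L2.Tab

/-!
# Module KRON: the convolution of a whole table by one multiplication

`packL B l = ∑ l_i B^i`.  If every coefficient of the product of the two polynomials is less than `B`
(this follows from `sumL g · sumL t < B`), the base `B` digits of `packL B g * packL B t` are the
coefficients `∑_{r ≤ m} g_r t_(m-r)`, `m < t.length ≤ g.length`.  `step g t k` (file `Tab`) equals
`k l` where `l` is the list of `(∑_{r ≤ i + 22} g_r t_(i+22-r)) / 2^128`, `i < t.length - 22`
(`conv_eq`, `convL_getElem`, `stepL_getElem` in `Tab`), and `stepK` computes the same list.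

Suggested proof of `stepK_spec`:
* `packL B l = ∑ i ∈ range l.length, l.getD i 0 * B^i`;
* the product is `∑ m ∈ range (g.length + t.length), c_m B^m` with
  `c_m = ∑ r ∈ range (m + 1), g.getD r 0 * t.getD (m - r) 0 ≤ sumL g * sumL t < B`
  (`Finset.sum_mul_sum` and reindexing, or `Polynomial` evaluation, or
  induction on `g`: `packL B (x :: g) * T = x T + B (packL B g * T)`);
* for `c : ℕ → ℕ` with all `c_m < B`: `(∑ m ∈ range n, c_m B^m) / B^j = ∑ m ∈ range (n - j), c_(m+j) B^m` and
  `(∑ m ∈ range n, c_m B^m) % B = c_0` (`0 < n`); so `ext` yields `c_22 / 2^128, c_23 / 2^128, …`.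
The `Nat.add`, `Nat.mul`, … are written in this form because the kernel evaluates them fast; `rfl`/`show`
turns them into `+`, `*`.
-/

namespace H81.L2

/-- apply `k` to the evaluated number `x` -/
def force1 (x : ℕ) {α : Type} (k : ℕ → α) : α :=
  Nat.rec (motive := fun _ => α) (k 0) (fun n _ => k n) (Nat.succ x)

theorem force1_eq (x : ℕ) {α : Type} (k : ℕ → α) : force1 x k = k x := rfl

/-- `∑ l_i B^i` -/
def packL (B : ℕ) : List ℕ → ℕ :=
  List.rec (motive := fun _ => ℕ) 0 (fun x _ ih => Nat.add x (Nat.mul B ih))

/-- `∑ l_i` -/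
def sumL : List ℕ → ℕ := List.rec (motive := fun _ => ℕ) 0 (fun x _ ih => Nat.add x ih)

/-- `c` digits of `Q`, each divided by `2^128`, continuation style -/
def ext (B c : ℕ) : ℕ → (List ℕ → Bool) → Bool :=
  Nat.rec (motive := fun _ => ℕ → (List ℕ → Bool) → Bool) (fun _ k => k [])
    (fun _ ih Q k =>
      force1 (Nat.div (Nat.mod Q B) 340282366920938463463374607431768211456) fun v =>
        force1 (Nat.div Q B) fun Q' => ih Q' fun l => k (v :: l)) c

/-- one step, `gs = sumL g`, `gp = packL B g` -/
def stepK (B gs gp : ℕ) (t : List ℕ) (k : List ℕ → Bool) : Bool :=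
  and (Nat.blt (Nat.mul gs (sumL t)) B)
    (force1 (Nat.div (Nat.mul gp (packL B t)) (Nat.pow B 22)) fun Q =>
      ext B (Nat.sub t.length 22) Q k)

/-- `n` steps -/
def chainK (B gs gp n : ℕ) : List ℕ → (List ℕ → Bool) → Bool :=
  Nat.rec (motive := fun _ => List ℕ → (List ℕ → Bool) → Bool) (fun t k => k t)
    (fun _ ih t k => stepK B gs gp t fun t' => ih t' k) n

/-! ## packed sums -/

/-- `∑_{m<n} c_m B^m` -/
def pk (B : ℕ) (c : ℕ → ℕ) (n : ℕ) : ℕ := ∑ m ∈ Finset.range n, c m * B ^ m

theorem pk_succ' (B : ℕ) (c : ℕ → ℕ) (n : ℕ) :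
    pk B c (n + 1) = c 0 + B * pk B (fun m => c (m + 1)) n := by
  unfold pk
  rw [Finset.sum_range_succ', Finset.mul_sum, pow_zero, mul_one, add_comm]
  congr 1
  apply Finset.sum_congr rfl
  intro m _
  rw [pow_succ]
  ring

theorem pk_mod {B : ℕ} {c : ℕ → ℕ} (n : ℕ) (h : c 0 < B) : pk B c (n + 1) % B = c 0 := by
  rw [pk_succ', Nat.add_mul_mod_self_left, Nat.mod_eq_of_lt h]

theorem pk_div {B : ℕ} {c : ℕ → ℕ} (n : ℕ) (h : c 0 < B) :
    pk B c (n + 1) / B = pk B (fun m => c (m + 1)) n := by
  have hB : 0 < B := by omega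
  rw [pk_succ', Nat.add_mul_div_left _ _ hB, Nat.div_eq_of_lt h, zero_add]

theorem pk_div_pow {B : ℕ} (hB : 0 < B) (j : ℕ) : ∀ (c : ℕ → ℕ) (n : ℕ), (∀ m, c m < B) →
    pk B c n / B ^ j = pk B (fun m => c (m + j)) (n - j) := by
  induction j with
  | zero => intro c n _; simp
  | succ j ih =>
    intro c n h
    rw [pow_succ', ← Nat.div_div_eq_div_mul]
    cases n with
    | zero => simp [pk]
    | succ n =>
      rw [pk_div n (h 0), ih _ n (fun m => h (m + 1))]
      have e1 : n - j = n + 1 - (j + 1) := by omega
      have e2 : (fun m => c (m + j + 1)) = fun m => c (m + (j + 1)) := by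
        funext m
        rfl
      rw [e1, e2]

theorem pk_zero_of {B : ℕ} {c : ℕ → ℕ} (h : ∀ m, c m = 0) (n : ℕ) : pk B c n = 0 := by
  unfold pk
  apply Finset.sum_eq_zero
  intro m _
  rw [h m, zero_mul]

theorem pk_add (B : ℕ) (c d : ℕ → ℕ) (n : ℕ) :
    pk B (fun m => c m + d m) n = pk B c n + pk B d n := by
  unfold pk
  rw [← Finset.sum_add_distrib]
  exact Finset.sum_congr rfl fun m _ => by ring

theorem pk_mul (B x : ℕ) (c : ℕ → ℕ) (n : ℕ) : pk B (fun m => x * c m) n = x * pk B c n := by
  unfold pk
  rw [Finset.mul_sum]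
  exact Finset.sum_congr rfl fun m _ => by ring

theorem packL_cons (B x : ℕ) (l : List ℕ) : packL B (x :: l) = x + B * packL B l := rfl

theorem packL_eq (B : ℕ) (l : List ℕ) : ∀ n, l.length ≤ n →
    packL B l = pk B (fun i => l.getD i 0) n := by
  induction l with
  | nil => intro n _; rw [pk_zero_of (fun m => by simp)]; rfl
  | cons x l ih =>
    intro n hn
    cases n with
    | zero => simp at hn
    | succ n =>
      rw [packL_cons, pk_succ', ih n (by simpa using hn)]
      simp only [List.getD_cons_zero, List.getD_cons_succ]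

/-- coefficients of the product -/
def cf (g t : List ℕ) (m : ℕ) : ℕ := ∑ r ∈ Finset.range (m + 1), g.getD r 0 * t.getD (m - r) 0

theorem cf_cons_zero (x : ℕ) (g t : List ℕ) : cf (x :: g) t 0 = x * t.getD 0 0 := by
  simp [cf]

theorem cf_cons_succ (x : ℕ) (g t : List ℕ) (m : ℕ) :
    cf (x :: g) t (m + 1) = x * t.getD (m + 1) 0 + cf g t m := by
  unfold cf
  rw [Finset.sum_range_succ', add_comm]
  simp only [List.getD_cons_zero, List.getD_cons_succ, Nat.sub_zero]
  congr 1
  apply Finset.sum_congr rfl
  intro r _
  congr 2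
  omega

theorem pack_mul (B : ℕ) (g t : List ℕ) : ∀ n, g.length + t.length ≤ n →
    packL B g * packL B t = pk B (cf g t) n := by
  induction g with
  | nil =>
    intro n _
    rw [pk_zero_of (fun m => by simp [cf])]
    show 0 * _ = 0
    rw [zero_mul]
  | cons x g ih =>
    intro n hn
    cases n with
    | zero => simp at hn
    | succ n =>
      have hn' : g.length + t.length ≤ n := by simp at hn; omega
      rw [packL_cons, add_mul, mul_assoc, ih n hn', pk_succ', cf_cons_zero]
      have h1 : (fun m => cf (x :: g) t (m + 1)) = fun m => x * t.getD (m + 1) 0 + cf g t m := by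
        funext m
        exact cf_cons_succ x g t m
      rw [h1, pk_add, pk_mul]
      have h2 : packL B t = t.getD 0 0 + B * pk B (fun m => t.getD (m + 1) 0) n := by
        rw [packL_eq B t (n + 1) (by omega), pk_succ']
      rw [h2]
      ring

theorem getD_le_sumL (t : List ℕ) : ∀ j, t.getD j 0 ≤ sumL t := by
  induction t with
  | nil => intro j; simp
  | cons x t ih =>
    intro j
    have h : sumL (x :: t) = x + sumL t := rfl
    rw [h]
    cases j with
    | zero => simp
    | succ j =>
      rw [List.getD_cons_succ]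
      have := ih j
      omega

theorem sum_getD_le_sumL (g : List ℕ) : ∀ M, ∑ r ∈ Finset.range M, g.getD r 0 ≤ sumL g := by
  induction g with
  | nil => intro M; simp
  | cons x g ih =>
    intro M
    have h : sumL (x :: g) = x + sumL g := rfl
    rw [h]
    cases M with
    | zero => simp
    | succ M =>
      rw [Finset.sum_range_succ']
      simp only [List.getD_cons_succ, List.getD_cons_zero]
      have := ih M
      omega

theorem cf_le (g t : List ℕ) (m : ℕ) : cf g t m ≤ sumL g * sumL t := by
  unfold cf
  calc ∑ r ∈ Finset.range (m + 1), g.getD r 0 * t.getD (m - r) 0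
      ≤ ∑ r ∈ Finset.range (m + 1), g.getD r 0 * sumL t :=
        Finset.sum_le_sum fun r _ => Nat.mul_le_mul_left _ (getD_le_sumL t _)
    _ = (∑ r ∈ Finset.range (m + 1), g.getD r 0) * sumL t := by rw [Finset.sum_mul]
    _ ≤ sumL g * sumL t := Nat.mul_le_mul_right _ (sum_getD_le_sumL g _)

/-! ## the extraction -/

/-- the list computed by `ext` -/
def extL (B : ℕ) : ℕ → ℕ → List ℕ
  | 0, _ => []
  | c + 1, Q => (Q % B / 340282366920938463463374607431768211456) :: extL B c (Q / B)

theorem ext_eq (B c Q : ℕ) (k : List ℕ → Bool) : ext B c Q k = k (extL B c Q) := by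
  induction c generalizing Q k with
  | zero => rfl
  | succ c ih =>
    have h : ext B (c + 1) Q k = ext B c (Q / B) fun l =>
      k ((Q % B / 340282366920938463463374607431768211456) :: l) := rfl
    rw [h, ih]
    rfl

theorem extL_length (B c Q : ℕ) : (extL B c Q).length = c := by
  induction c generalizing Q with
  | zero => rfl
  | succ c ih => simp [extL, ih]

theorem extL_getElem (B c Q i : ℕ) (h : i < (extL B c Q).length) :
    (extL B c Q)[i] = Q / B ^ i % B / 340282366920938463463374607431768211456 := by
  induction c generalizing Q i with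
  | zero => simp [extL] at h
  | succ c ih =>
    cases i with
    | zero => simp [extL]
    | succ i =>
      simp only [extL, List.getElem_cons_succ]
      rw [ih, pow_succ', ← Nat.div_div_eq_div_mul]

theorem stepK_spec {B : ℕ} {g t : List ℕ} (hlen : t.length ≤ g.length) (k : List ℕ → Bool)
    (h : stepK B (sumL g) (packL B g) t k = true) : step g t k = true := by
  have h' : (Nat.blt (sumL g * sumL t) B &&
      ext B (t.length - 22) (packL B g * packL B t / B ^ 22) k) = true := h
  rw [Bool.and_eq_true, Nat.blt_eq, ext_eq] at h'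
  obtain ⟨h1, h2⟩ := h'
  have hc : ∀ m, cf g t m < B := fun m => lt_of_le_of_lt (cf_le g t m) h1
  have hB : 0 < B := by omega
  have h3 : step g t k = k (convL g (t.drop 22) (t.take 22).reverse) := conv_eq _ _ _ _
  rw [h3, ← h2]
  congr 1
  have hl1 : (convL g (t.drop 22) (t.take 22).reverse).length = t.length - 22 := by
    rw [convL_length, List.length_drop]
  apply List.ext_getElem
  · rw [hl1, extL_length]
  · intro i hi1 hi2
    rw [stepL_getElem g t hlen i hi1, extL_getElem]
    rw [hl1] at hi1
    rw [pack_mul B g t (g.length + t.length) le_rfl, pk_div_pow hB 22 _ _ hc,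
      pk_div_pow hB i _ _ (fun m => hc _)]
    obtain ⟨w, hw⟩ : ∃ w, g.length + t.length - 22 - i = w + 1 :=
      ⟨g.length + t.length - 22 - i - 1, by omega⟩
    rw [hw]
    have h5 := pk_mod (B := B) (c := fun m => cf g t (m + i + 22)) w (hc _)
    rw [h5]
    simp only [zero_add]
    rfl

theorem chainK_spec {B n : ℕ} {g t : List ℕ} (hlen : t.length ≤ g.length) (k : List ℕ → Bool)
    (h : chainK B (sumL g) (packL B g) n t k = true) : chain g n t k = true := by
  induction n generalizing t with
  | zero => exact h
  | succ n ih =>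
    have h1 : chainK B (sumL g) (packL B g) (n + 1) t k =
      stepK B (sumL g) (packL B g) t fun t' => chainK B (sumL g) (packL B g) n t' k := rfl
    rw [h1] at h
    have h2 := stepK_spec hlen _ h
    have h3 : step g t (fun t' => chainK B (sumL g) (packL B g) n t' k) =
      chainK B (sumL g) (packL B g) n (convL g (t.drop 22) (t.take 22).reverse) k := conv_eq _ _ _ _
    rw [h3] at h2
    have hl : (convL g (t.drop 22) (t.take 22).reverse).length ≤ g.length := by
      rw [convL_length, List.length_drop]
      omega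
    have h4 := ih hl h2
    have h5 : chain g (n + 1) t k = step g t fun t' => chain g n t' k := rfl
    rw [h5]
    have h6 : step g t (fun t' => chain g n t' k) =
      chain g n (convL g (t.drop 22) (t.take 22).reverse) k := conv_eq _ _ _ _
    rw [h6]
    exact h4

end H81.L2
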