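import Mathlib

/-!
# Module M11: descending to zero, calculus part

`E 0, E 1, …` with `E (k+1) = -s (E k)'` on `(0, ∞)` (`Chain E m`: for `k < m`).
`TT Q f s = f s - f (Q s)`, `Q > 1`.

* `chain_TT_nonneg` (B): if `E m ≥ 0` on `(0, s1]` then `TT^m (E 0) ≥ 0` at all `s` with `Q^m s ≤ s1`.
  Induction on `m` (for all chains): `TT^(m+1) (E 0) s = g s - g (Q s)` with `g = TT^m (E 0)`, whose
  derivative is `-(1/s) TT^m (E 1)` (`(E k)(c s)` has derivative `-(E (k+1))(c s)/s`), and
  `TT^m (E 1) ≥ 0` where `Q^m s ≤ s1` by induction for the chain `E (· + 1)`: `g` is antitone on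
  `(0, s1/Q^m]`.
* `top_nonneg` (C): if `E (m+1) ≤ 0` on `(0, s1]` and `E 0` takes positive values at arbitrarily small
  `s`, then `E m ≥ 0` on `(0, s1]`.  If `E m b = -c < 0`, `b ≤ s1`, then `E m ≤ -c` on `(0, b]` (its
  derivative `-E (m+1)/s` is `≥ 0`).  Downward induction on `k`: there are `b_k, c_k > 0` with
  `E k ≤ -c_k` on `(0, b_k]`: `(E k)' = -E (k+1)/s ≥ c_(k+1)/s`, so
  `E k s ≤ E k b + c_(k+1) log (s/b)`, which tends to `-∞` for `s → 0`.
* `periods_pos` (D): if `TT^m f ≥ 0` on `(0, s2]`, `m ≥ 1`, and `TT^k f > 0` on `[s2/Q, s2]` for all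
  `k < m`, then `f > 0` on `(0, s2]`.  Downward induction on `k`: `TT^(k+1) f ≥ 0` on `(0, s2]` gives
  `TT^k f s ≥ TT^k f (Q s)` as long as `Q s ≤ s2`; iterate until `Q^j s ∈ [s2/Q, s2]`.
-/

namespace H81.L2

/-- the difference operator -/
def TT (Q : ℝ) (f : ℝ → ℝ) (s : ℝ) : ℝ := f s - f (Q * s)

/-- `E (k+1) = -s (E k)'` for `k < m` -/
def Chain (E : ℕ → ℝ → ℝ) (m : ℕ) : Prop :=
  ∀ k, k < m → ∀ s, 0 < s → HasDerivAt (E k) (-(E (k + 1) s) / s) s

private theorem TT_deriv {Q : ℝ} (hQ : 1 < Q) (f F : ℝ → ℝ)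
    (hf : ∀ s, 0 < s → HasDerivAt f (-(F s) / s) s) :
    ∀ s, 0 < s → HasDerivAt (TT Q f) (-(TT Q F s) / s) s := by
  intro s hs
  have hQ0 : 0 < Q := lt_trans zero_lt_one hQ
  have h1 := hf s hs
  have h2 : HasDerivAt (fun t : ℝ => Q * t) Q s := by
    simpa using (hasDerivAt_id s).const_mul Q
  have h3 : HasDerivAt (fun t : ℝ => f (Q * t)) (-(F (Q * s)) / (Q * s) * Q) s :=
    HasDerivAt.comp s (hf (Q * s) (mul_pos hQ0 hs)) h2
  have h4 := h1.sub h3
  have h5 : -(F s) / s - -(F (Q * s)) / (Q * s) * Q = -(TT Q F s) / s := by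
    unfold TT
    field_simp
    ring
  rw [h5] at h4
  exact h4

private theorem TT_deriv_iter {Q : ℝ} (hQ : 1 < Q) (f F : ℝ → ℝ)
    (hf : ∀ s, 0 < s → HasDerivAt f (-(F s) / s) s) (m : ℕ) :
    ∀ s, 0 < s → HasDerivAt ((TT Q)^[m] f) (-((TT Q)^[m] F s) / s) s := by
  induction m with
  | zero => exact hf
  | succ m ih =>
    rw [Function.iterate_succ_apply', Function.iterate_succ_apply']
    exact TT_deriv hQ _ _ ih

theorem chain_TT_nonneg {Q : ℝ} (hQ : 1 < Q) (m : ℕ) (E : ℕ → ℝ → ℝ) (hE : Chain E m) {s1 : ℝ}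
    (h : ∀ s, 0 < s → s ≤ s1 → 0 ≤ E m s) :
    ∀ s, 0 < s → Q ^ m * s ≤ s1 → 0 ≤ (TT Q)^[m] (E 0) s := by
  have hQ0 : 0 < Q := lt_trans zero_lt_one hQ
  induction m generalizing E with
  | zero =>
    intro s hs hs1
    rw [pow_zero, one_mul] at hs1
    exact h s hs hs1
  | succ m ih =>
    intro s hs hs1
    have h0 : ∀ s, 0 < s → HasDerivAt (E 0) (-(E 1 s) / s) s :=
      fun s hs => hE 0 (Nat.succ_pos m) s hs
    have hd := TT_deriv_iter hQ (E 0) (E 1) h0 m
    have hpos : ∀ s, 0 < s → Q ^ m * s ≤ s1 → 0 ≤ (TT Q)^[m] (E 1) s :=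
      ih (fun k => E (k + 1)) (fun k hk s hs => hE (k + 1) (Nat.succ_lt_succ hk) s hs) h
    rw [Function.iterate_succ_apply']
    show 0 ≤ (TT Q)^[m] (E 0) s - (TT Q)^[m] (E 0) (Q * s)
    have hsQ : s ≤ Q * s := le_mul_of_one_le_left hs.le hQ.le
    have hanti : AntitoneOn ((TT Q)^[m] (E 0)) (Set.Icc s (Q * s)) := by
      apply antitoneOn_of_deriv_nonpos (convex_Icc s (Q * s))
      · intro t ht
        exact (hd t (lt_of_lt_of_le hs ht.1)).continuousAt.continuousWithinAt
      · intro t ht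
        rw [interior_Icc] at ht
        exact (hd t (lt_trans hs ht.1)).differentiableAt.differentiableWithinAt
      · intro t ht
        rw [interior_Icc] at ht
        have ht0 : 0 < t := lt_trans hs ht.1
        rw [(hd t ht0).deriv]
        have h1 : 0 ≤ (TT Q)^[m] (E 1) t := by
          apply hpos t ht0
          refine le_trans ?_ hs1
          rw [pow_succ, mul_assoc]
          exact mul_le_mul_of_nonneg_left ht.2.le (pow_pos hQ0 m).le
        rw [neg_div]
        exact neg_nonpos.mpr (div_nonneg h1 ht0.le)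
    have := hanti (Set.left_mem_Icc.mpr hsQ) (Set.right_mem_Icc.mpr hsQ) hsQ
    linarith

theorem top_nonneg (m : ℕ) (E : ℕ → ℝ → ℝ) (hE : Chain E (m + 1)) {s1 : ℝ}
    (h : ∀ s, 0 < s → s ≤ s1 → E (m + 1) s ≤ 0)
    (hpos : ∀ δ, 0 < δ → ∃ s, 0 < s ∧ s < δ ∧ 0 < E 0 s) :
    ∀ s, 0 < s → s ≤ s1 → 0 ≤ E m s := by
  intro b hb hb1
  by_contra hneg
  rw [not_le] at hneg
  -- key claim
  have key : ∀ j, j ≤ m → ∃ β c : ℝ, 0 < β ∧ 0 < c ∧ ∀ s, 0 < s → s ≤ β → E (m - j) s ≤ -c := by
    intro j
    induction j with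
    | zero =>
      intro _
      refine ⟨b, -E m b, hb, neg_pos.mpr hneg, ?_⟩
      intro s hs hsb
      rw [neg_neg, Nat.sub_zero]
      have hmono : MonotoneOn (E m) (Set.Icc s b) := by
        apply monotoneOn_of_deriv_nonneg (convex_Icc s b)
        · intro t ht
          exact (hE m (Nat.lt_succ_self m) t
            (lt_of_lt_of_le hs ht.1)).continuousAt.continuousWithinAt
        · intro t ht
          rw [interior_Icc] at ht
          exact (hE m (Nat.lt_succ_self m) t
            (lt_trans hs ht.1)).differentiableAt.differentiableWithinAt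
        · intro t ht
          rw [interior_Icc] at ht
          have ht0 : 0 < t := lt_trans hs ht.1
          rw [(hE m (Nat.lt_succ_self m) t ht0).deriv]
          exact div_nonneg (neg_nonneg.mpr (h t ht0 (ht.2.le.trans hb1))) ht0.le
      exact hmono (Set.left_mem_Icc.mpr hsb) (Set.right_mem_Icc.mpr hsb) hsb
    | succ j ih =>
      intro hj
      obtain ⟨β, c, hβ, hc, hle⟩ := ih (by omega)
      have hk1 : m - j = (m - (j + 1)) + 1 := by omega
      rw [hk1] at hle
      set k := m - (j + 1) with hk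
      have hkm : k < m + 1 := by omega
      have hd := hE k hkm
      refine ⟨β * Real.exp (-(|E k β| + 1) / c), 1, mul_pos hβ (Real.exp_pos _), one_pos, ?_⟩
      intro s hs hsβ
      have hexp : Real.exp (-(|E k β| + 1) / c) ≤ 1 := by
        apply Real.exp_le_one_iff.mpr
        rw [neg_div]
        have : 0 ≤ (|E k β| + 1) / c := by positivity
        linarith
      have hsb : s ≤ β := hsβ.trans (by nlinarith)
      have hmono : MonotoneOn (fun t => E k t - c * Real.log t) (Set.Icc s β) := by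
        have hder : ∀ t, 0 < t → HasDerivAt (fun t => E k t - c * Real.log t)
            (-(E (k + 1) t) / t - c * t⁻¹) t := by
          intro t ht
          exact (hd t ht).sub ((Real.hasDerivAt_log ht.ne').const_mul c)
        apply monotoneOn_of_deriv_nonneg (convex_Icc s β)
        · intro t ht
          exact (hder t (lt_of_lt_of_le hs ht.1)).continuousAt.continuousWithinAt
        · intro t ht
          rw [interior_Icc] at ht
          exact (hder t (lt_trans hs ht.1)).differentiableAt.differentiableWithinAt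
        · intro t ht
          rw [interior_Icc] at ht
          have ht0 : 0 < t := lt_trans hs ht.1
          rw [(hder t ht0).deriv]
          have h1 := hle t ht0 ht.2.le
          have h2 : -(E (k + 1) t) / t - c * t⁻¹ = (-(E (k + 1) t) - c) / t := by
            field_simp
          rw [h2]
          exact div_nonneg (by linarith) ht0.le
      have h1 := hmono (Set.left_mem_Icc.mpr hsb) (Set.right_mem_Icc.mpr hsb) hsb
      simp only at h1
      have h2 : Real.log s ≤ Real.log β + -(|E k β| + 1) / c := by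
        have h3 := Real.log_le_log hs hsβ
        rw [Real.log_mul hβ.ne' (Real.exp_pos _).ne', Real.log_exp] at h3
        exact h3
      have h4 : c * Real.log s ≤ c * Real.log β - (|E k β| + 1) := by
        have h5 := mul_le_mul_of_nonneg_left h2 hc.le
        have h6 : c * (Real.log β + -(|E k β| + 1) / c) = c * Real.log β - (|E k β| + 1) := by
          field_simp
          ring
        rw [h6] at h5
        exact h5
      have h7 := le_abs_self (E k β)
      linarith
  obtain ⟨β, c, hβ, hc, hle⟩ := key m le_rfl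
  rw [Nat.sub_self] at hle
  obtain ⟨s, hs, hsβ, hE0⟩ := hpos β hβ
  have := hle s hs hsβ.le
  linarith

theorem periods_pos {Q : ℝ} (hQ : 1 < Q) {m : ℕ} (hm : 1 ≤ m) (f : ℝ → ℝ) {s2 : ℝ} (hs2 : 0 < s2)
    (h : ∀ s, 0 < s → s ≤ s2 → 0 ≤ (TT Q)^[m] f s)
    (hper : ∀ k, k < m → ∀ s, s2 / Q ≤ s → s ≤ s2 → 0 < (TT Q)^[k] f s) :
    ∀ s, 0 < s → s ≤ s2 → 0 < f s := by
  have hQ0 : 0 < Q := lt_trans zero_lt_one hQ
  -- one step
  have step : ∀ k, k < m → (∀ s, 0 < s → s ≤ s2 → 0 ≤ (TT Q)^[k + 1] f s) →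
      ∀ s, 0 < s → s ≤ s2 → 0 < (TT Q)^[k] f s := by
    intro k hk hk1 s hs hss
    have hmon : ∀ t, 0 < t → t ≤ s2 → (TT Q)^[k] f (Q * t) ≤ (TT Q)^[k] f t := by
      intro t ht hts
      have h1 := hk1 t ht hts
      rw [Function.iterate_succ_apply'] at h1
      change 0 ≤ (TT Q)^[k] f t - (TT Q)^[k] f (Q * t) at h1
      linarith
    have hiter : ∀ j : ℕ, Q ^ j * s ≤ s2 → (TT Q)^[k] f (Q ^ j * s) ≤ (TT Q)^[k] f s := by
      intro j
      induction j with
      | zero =>
        intro _
        rw [pow_zero, one_mul]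
      | succ j ih =>
        intro hj
        have h0 : 0 < Q ^ j * s := mul_pos (pow_pos hQ0 j) hs
        have h1 : Q ^ (j + 1) * s = Q * (Q ^ j * s) := by ring
        have h2 : Q ^ j * s ≤ s2 := by
          refine le_trans ?_ hj
          rw [h1]
          exact le_mul_of_one_le_left h0.le hQ.le
        rw [h1]
        exact (hmon _ h0 h2).trans (ih h2)
    have hex : ∃ j : ℕ, s2 / Q ≤ Q ^ j * s := by
      obtain ⟨j, hj⟩ := pow_unbounded_of_one_lt (s2 / Q / s) hQ
      refine ⟨j, ?_⟩
      rw [div_lt_iff₀ hs] at hj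
      exact hj.le
    classical
    have hmin := Nat.find_spec hex
    have hle : Q ^ (Nat.find hex) * s ≤ s2 := by
      rcases Nat.eq_zero_or_pos (Nat.find hex) with h0 | h0
      · rw [h0, pow_zero, one_mul]
        exact hss
      · have h1 := Nat.find_min hex (Nat.sub_lt h0 one_pos)
        rw [not_le, lt_div_iff₀ hQ0] at h1
        have h2 : Q ^ (Nat.find hex - 1) * s * Q = Q ^ (Nat.find hex) * s := by
          have h3 : Nat.find hex = (Nat.find hex - 1) + 1 := by omega
          conv_rhs => rw [h3]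
          ring
        rw [h2] at h1
        exact h1.le
    exact lt_of_lt_of_le (hper k hk _ hmin hle) (hiter _ hle)
  -- downward induction
  have key : ∀ j, j ≤ m → ∀ s, 0 < s → s ≤ s2 → 0 ≤ (TT Q)^[m - j] f s := by
    intro j
    induction j with
    | zero =>
      intro _
      exact h
    | succ j ih =>
      intro hj s hs hss
      have h1 : m - j = m - (j + 1) + 1 := by omega
      have h2 := ih (by omega)
      rw [h1] at h2
      exact (step (m - (j + 1)) (by omega) h2 s hs hss).le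
  have h1 := key (m - 1) (Nat.sub_le m 1)
  have h2 : m - (m - 1) = 0 + 1 := by omega
  rw [h2] at h1
  exact step 0 (by omega) h1

end H81.L2
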