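import Pool.Agent.H81.LP.Krec
import Pool.Agent.H81.LP.LapDeriv

/-!
# Module M10: logarithmic derivatives of the kernel

`θ = X d/dX`.  There are functions `J 0 = K n`, `J 1 = -θ K n`, …, `J (n+1) = (-θ)^(n+1) K n`, and
`(-θ)^(n+1) K n = X K n X` (the Mellin transform of `K n` is `Γ(z)^(n+1)`, and
`z^(n+1) Γ(z)^(n+1) = Γ(z+1)^(n+1)`).

Proof by induction on `n` of the stronger statement `exists_J'` (with the bounds
`|J k X| ≤ C / √X`, `k ≤ n + 1`).

`n = 0`: `K 0 X = exp (-X)` (`LP.K_zero`), `J 1 X = X exp (-X)`.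

Step.  Given `J` for `n` put `J' k = LP.Lap (J k)` for `k ≤ n + 1` and `J' (n+2) X = X K (n+1) X`.
* `J' 0 = K (n+1)`: `LP.K_succ'`.
* `LP.LapOK (J k)`: `J k` is measurable on `(0,∞)` (differentiable, hence continuous there for
  `k ≤ n`; `X K n X` is continuous by `LP.K_continuousOn`) and `|J k y| ≤ C/√y`, and
  `exp (-s/y) y^(-3/2)` is integrable on `(0, ∞)`.
* `k ≤ n`: `Lap (J k)` has derivative `-Lap (J k y / y)` (`LP.Lap_hasDerivAt`), and
  `s · Lap (J k y / y) s = Lap (J (k+1)) s`: integrate the derivative of `g(y) = J k y · exp (-s/y)`,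
  `g'(y) = -(J (k+1) y / y) exp (-s/y) + J k y · (s/y²) exp (-s/y)`, over `(0, ∞)`; `g` tends to `0` at
  `0` and at `∞` by the bound, and both terms are integrable
  (`MeasureTheory.integral_Ioi_of_hasDerivAt_of_tendsto`).
* `k = n + 1`: `J (n+1) y = y K n y`, so `Lap_hasDerivAt` gives the derivative
  `-Lap (K n) s = -K (n+1) s = -(J' (n+2) s)/s`.
* bounds: `|Lap φ s| ≤ C ∫ exp (-s/y) y^(-3/2) dy = C Γ(1/2)/√s`; `s K (n+1) s ≤ C/√s` by `LP.K_gen` with
  `a = 3/2`.
-/

namespace H81.L2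

open H81 MeasureTheory

/-- the substitution `y = s exp (-t)` -/
private theorem ode_subst (φ : ℝ → ℝ) {s : ℝ} (hs : 0 < s) :
    (IntegrableOn (fun y => Real.exp (-(s / y)) * φ y / y) (Set.Ioi 0) ↔
      Integrable (fun t : ℝ => Real.exp (-Real.exp t) * φ (s * Real.exp (-t)))) ∧
    LP.Lap φ s = ∫ t : ℝ, Real.exp (-Real.exp t) * φ (s * Real.exp (-t)) := by
  have himg : (fun t : ℝ => s * Real.exp (-t)) '' Set.univ = Set.Ioi 0 := by
    ext y
    simp only [Set.image_univ, Set.mem_range, Set.mem_Ioi]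
    constructor
    · rintro ⟨t, rfl⟩
      positivity
    · intro hy
      refine ⟨-Real.log (y / s), ?_⟩
      rw [neg_neg, Real.exp_log (by positivity)]
      field_simp
  have hder : ∀ t ∈ (Set.univ : Set ℝ), HasDerivWithinAt (fun t : ℝ => s * Real.exp (-t))
      (-(s * Real.exp (-t))) Set.univ t := by
    intro t _
    have h1 : HasDerivAt (fun t : ℝ => s * Real.exp (-t)) (s * (Real.exp (-t) * (-1))) t := by
      apply HasDerivAt.const_mul
      exact (hasDerivAt_neg t).exp
    have h2 : s * (Real.exp (-t) * (-1)) = -(s * Real.exp (-t)) := by ring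
    rw [h2] at h1
    exact h1.hasDerivWithinAt
  have hinj : Set.InjOn (fun t : ℝ => s * Real.exp (-t)) Set.univ := by
    intro t1 _ t2 _ h
    simp only at h
    have h1 : Real.exp (-t1) = Real.exp (-t2) := mul_left_cancel₀ hs.ne' h
    have h2 := Real.exp_injective h1
    linarith
  have hfun : ∀ t : ℝ, |-(s * Real.exp (-t))| •
      (Real.exp (-(s / (s * Real.exp (-t)))) * φ (s * Real.exp (-t)) /
        (s * Real.exp (-t))) =
      Real.exp (-Real.exp t) * φ (s * Real.exp (-t)) := by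
    intro t
    have h1 : 0 < s * Real.exp (-t) := by positivity
    rw [abs_neg, abs_of_pos h1, smul_eq_mul]
    have h2 : s / (s * Real.exp (-t)) = Real.exp t := by
      rw [Real.exp_neg]
      field_simp
    rw [h2]
    field_simp
  constructor
  · rw [← himg, integrableOn_image_iff_integrableOn_abs_deriv_smul MeasurableSet.univ hder hinj]
    simp only [hfun]
    rw [integrableOn_univ]
  · unfold LP.Lap
    rw [← himg, integral_image_eq_integral_abs_deriv_smul MeasurableSet.univ hder hinj]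
    simp only [hfun]
    rw [setIntegral_univ]

private theorem ode_bd {φ : ℝ → ℝ} {C : ℝ} (hb : ∀ X, 0 < X → |φ X| ≤ C / √X) {s : ℝ}
    (hs : 0 < s) (a t : ℝ) :
    |Real.exp (-Real.exp t + a * t) * φ (s * Real.exp (-t))| ≤
      C / √s * Real.exp (-Real.exp t + (a + 1 / 2) * t) := by
  have h1 : 0 < s * Real.exp (-t) := by positivity
  have h2 := hb _ h1
  have h3 : √(s * Real.exp (-t)) = √s * Real.exp (-(t / 2)) := by
    rw [Real.sqrt_mul hs.le]
    congr 1
    rw [Real.sqrt_eq_iff_mul_self_eq (Real.exp_pos _).le (Real.exp_pos _).le, ← Real.exp_add]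
    congr 1
    ring
  rw [abs_mul, abs_of_pos (Real.exp_pos _)]
  calc Real.exp (-Real.exp t + a * t) * |φ (s * Real.exp (-t))|
      ≤ Real.exp (-Real.exp t + a * t) * (C / √(s * Real.exp (-t))) :=
        mul_le_mul_of_nonneg_left h2 (Real.exp_pos _).le
    _ = C / √s * Real.exp (-Real.exp t + (a + 1 / 2) * t) := by
        have h4 : Real.exp (-Real.exp t + (a + 1 / 2) * t) =
            Real.exp (-Real.exp t + a * t) * Real.exp (t / 2) := by
          rw [← Real.exp_add]
          congr 1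
          ring
        rw [h3, h4, Real.exp_neg (t / 2)]
        have h5 : √s ≠ 0 := (Real.sqrt_pos.2 hs).ne'
        field_simp

private theorem ode_int {φ : ℝ → ℝ} {C : ℝ} (hc : ContinuousOn φ (Set.Ioi 0))
    (hb : ∀ X, 0 < X → |φ X| ≤ C / √X) {s : ℝ} (hs : 0 < s) {a : ℝ} (ha : 0 ≤ a) :
    Integrable (fun t : ℝ => Real.exp (-Real.exp t + a * t) * φ (s * Real.exp (-t))) := by
  have h1 := (LP.exp_gamma_integrable (a := a + 1 / 2) (by linarith)).1.const_mul (C / √s)
  refine h1.mono' ?_ ?_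
  · apply Continuous.aestronglyMeasurable
    have h2 : Continuous fun t : ℝ => φ (s * Real.exp (-t)) := by
      rw [← continuousOn_univ]
      refine hc.comp (by fun_prop) (fun t _ => ?_)
      show 0 < s * Real.exp (-t)
      positivity
    exact Continuous.mul (by fun_prop) h2
  · exact Filter.Eventually.of_forall (fun t => ode_bd hb hs a t)

private theorem ode_lapOK {φ : ℝ → ℝ} {C : ℝ} (hc : ContinuousOn φ (Set.Ioi 0))
    (hb : ∀ X, 0 < X → |φ X| ≤ C / √X) : LP.LapOK φ := by
  intro s hs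
  rw [(ode_subst φ hs).1]
  have h1 := ode_int hc hb hs (a := 0) le_rfl
  simp only [zero_mul, add_zero] at h1
  exact h1

private theorem ode_lap_bd {φ : ℝ → ℝ} {C : ℝ} (hb : ∀ X, 0 < X → |φ X| ≤ C / √X) {s : ℝ}
    (hs : 0 < s) : |LP.Lap φ s| ≤ (C * Real.Gamma (0 + 1 / 2)) / √s := by
  rw [(ode_subst φ hs).2]
  have h0 := LP.exp_gamma_integrable (a := (0 : ℝ) + 1 / 2) (by norm_num)
  have h1 : ‖∫ t : ℝ, Real.exp (-Real.exp t) * φ (s * Real.exp (-t))‖ ≤
      ∫ t : ℝ, C / √s * Real.exp (-Real.exp t + ((0 : ℝ) + 1 / 2) * t) := by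
    refine norm_integral_le_of_norm_le (h0.1.const_mul _) (Filter.Eventually.of_forall fun t => ?_)
    have h2 := ode_bd hb hs 0 t
    simp only [zero_mul, add_zero] at h2
    rw [Real.norm_eq_abs]
    exact h2
  rw [integral_const_mul, h0.2, Real.norm_eq_abs] at h1
  refine h1.trans (le_of_eq ?_)
  ring

private theorem ode_tend {φ : ℝ → ℝ} {C : ℝ} (hb : ∀ X, 0 < X → |φ X| ≤ C / √X) {s : ℝ}
    (hs : 0 < s) :
    Filter.Tendsto (fun t : ℝ => Real.exp (-Real.exp t) * φ (s * Real.exp (-t))) Filter.atTop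
      (nhds 0) ∧
    Filter.Tendsto (fun t : ℝ => Real.exp (-Real.exp t) * φ (s * Real.exp (-t))) Filter.atBot
      (nhds 0) := by
  have hle : ∀ t : ℝ, ‖Real.exp (-Real.exp t) * φ (s * Real.exp (-t))‖ ≤
      C / √s * Real.exp (-Real.exp t + (1 / 2) * t) := by
    intro t
    have h2 := ode_bd hb hs 0 t
    simp only [zero_mul, add_zero, zero_add] at h2
    exact h2
  have h1 : Filter.Tendsto (fun t : ℝ => C / √s * Real.exp (-Real.exp t + (1 / 2) * t))
      Filter.atTop (nhds 0) := by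
    have h2 : Filter.Tendsto (fun t : ℝ => -Real.exp t + (1 / 2) * t) Filter.atTop
        Filter.atBot := by
      refine Filter.tendsto_atBot_mono (f := fun t : ℝ => -(1 / 2 * t)) (fun t => ?_) ?_
      · have := Real.add_one_le_exp t
        linarith
      · exact Filter.tendsto_neg_atTop_atBot.comp
          (Filter.tendsto_id.const_mul_atTop (by norm_num : (0 : ℝ) < 1 / 2))
    have h3 := (Real.tendsto_exp_atBot.comp h2).const_mul (C / √s)
    rw [mul_zero] at h3
    exact h3
  have h1' : Filter.Tendsto (fun t : ℝ => C / √s * Real.exp (-Real.exp t + (1 / 2) * t))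
      Filter.atBot (nhds 0) := by
    have h2 : Filter.Tendsto (fun t : ℝ => -Real.exp t + (1 / 2) * t) Filter.atBot
        Filter.atBot := by
      refine Filter.tendsto_atBot_mono (f := fun t : ℝ => (1 / 2) * t) (fun t => ?_) ?_
      · have := Real.exp_pos t
        linarith
      · exact Filter.tendsto_id.const_mul_atBot (by norm_num : (0 : ℝ) < 1 / 2)
    have h3 := (Real.tendsto_exp_atBot.comp h2).const_mul (C / √s)
    rw [mul_zero] at h3
    exact h3
  exact ⟨squeeze_zero_norm hle h1, squeeze_zero_norm hle h1'⟩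

private theorem ode_parts {φ ψ : ℝ → ℝ} {C D : ℝ} (hψc : ContinuousOn ψ (Set.Ioi 0))
    (hφ : ∀ X, 0 < X → |φ X| ≤ C / √X) (hψ : ∀ X, 0 < X → |ψ X| ≤ D / √X)
    (hd : ∀ X, 0 < X → HasDerivAt φ (-(ψ X) / X) X) {s : ℝ} (hs : 0 < s) :
    LP.Lap ψ s = s * LP.Lap (fun y => φ y / y) s := by
  have hφc : ContinuousOn φ (Set.Ioi 0) := fun X hX => (hd X hX).continuousAt.continuousWithinAt
  have hi1 := ode_int hψc hψ hs (a := 0) le_rfl
  have hi2 := ode_int hφc hφ hs (a := 1) zero_le_one
  simp only [zero_mul, add_zero] at hi1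
  simp only [one_mul] at hi2
  have hder : ∀ t : ℝ, HasDerivAt (fun t : ℝ => Real.exp (-Real.exp t) * φ (s * Real.exp (-t)))
      (Real.exp (-Real.exp t) * ψ (s * Real.exp (-t)) -
        Real.exp (-Real.exp t + t) * φ (s * Real.exp (-t))) t := by
    intro t
    have hy : 0 < s * Real.exp (-t) := by positivity
    have h1 : HasDerivAt (fun t : ℝ => Real.exp (-Real.exp t))
        (Real.exp (-Real.exp t) * (-Real.exp t)) t := (Real.hasDerivAt_exp t).neg.exp
    have h2 : HasDerivAt (fun t : ℝ => s * Real.exp (-t)) (s * (Real.exp (-t) * (-1))) t :=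
      ((hasDerivAt_neg t).exp).const_mul s
    have h3 : HasDerivAt (fun t : ℝ => φ (s * Real.exp (-t)))
        (-(ψ (s * Real.exp (-t))) / (s * Real.exp (-t)) * (s * (Real.exp (-t) * (-1)))) t :=
      HasDerivAt.comp t (hd _ hy) h2
    refine (h1.mul h3).congr_deriv ?_
    have h4 : -(ψ (s * Real.exp (-t))) / (s * Real.exp (-t)) * (s * (Real.exp (-t) * (-1))) =
        ψ (s * Real.exp (-t)) := by
      field_simp
    rw [h4, Real.exp_add]
    ring
  have hT := ode_tend hφ hs
  have hI := integral_of_hasDerivAt_of_tendsto hder (hi1.sub hi2) hT.2 hT.1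
  rw [integral_sub hi1 hi2, sub_self, sub_eq_zero] at hI
  rw [(ode_subst ψ hs).2, hI, (ode_subst (fun y => φ y / y) hs).2, ← integral_const_mul]
  congr 1
  funext t
  rw [Real.exp_add, Real.exp_neg t]
  have h5 := (Real.exp_pos t).ne'
  field_simp

private theorem ode_XK (n : ℕ) : ∃ C : ℝ, ∀ X, 0 < X → |X * LP.K n X| ≤ C / √X := by
  refine ⟨Real.exp (3 / 2 * Real.log (3 / 2) - 3 / 2) * (Real.Gamma (3 / 2)) ^ n, fun X hX => ?_⟩
  have h1 := LP.K_gen n (a := 3 / 2) (by norm_num) hX
  have h2 := (LP.K_pos n hX).le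
  rw [abs_of_nonneg (mul_nonneg hX.le h2)]
  have h3 : X * X ^ (-(3 / 2) : ℝ) = 1 / √X := by
    have h4 : X * X ^ (-(3 / 2) : ℝ) = X ^ (1 + -(3 / 2) : ℝ) := by
      rw [Real.rpow_add hX, Real.rpow_one]
    rw [h4, Real.sqrt_eq_rpow, one_div (X ^ (1 / 2 : ℝ)), ← Real.rpow_neg hX.le]
    norm_num
  calc X * LP.K n X ≤ X * (Real.exp (3 / 2 * Real.log (3 / 2) - 3 / 2) * X ^ (-(3 / 2) : ℝ) *
        (Real.Gamma (3 / 2)) ^ n) := mul_le_mul_of_nonneg_left h1 hX.le
    _ = Real.exp (3 / 2 * Real.log (3 / 2) - 3 / 2) * (Real.Gamma (3 / 2)) ^ n *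
        (X * X ^ (-(3 / 2) : ℝ)) := by ring
    _ = _ := by
        rw [h3]
        ring

theorem exists_J' (n : ℕ) : ∃ J : ℕ → ℝ → ℝ,
    (∀ X, 0 < X → J 0 X = LP.K n X) ∧ (∀ X, 0 < X → J (n + 1) X = X * LP.K n X) ∧
    (∀ k, k ≤ n → ∀ X, 0 < X → HasDerivAt (J k) (-(J (k + 1) X) / X) X) ∧
    ∀ k, k ≤ n + 1 → ∃ C : ℝ, ∀ X, 0 < X → |J k X| ≤ C / √X := by
  induction n with
  | zero =>
    refine ⟨fun k X => if k = 0 then Real.exp (-X) else X * LP.K 0 X, ?_, ?_, ?_, ?_⟩
    · intro X _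
      simp [LP.K_zero]
    · intro X _
      simp
    · intro k hk X hX
      obtain rfl : k = 0 := by omega
      simp only [if_true, zero_add, one_ne_zero, if_false, LP.K_zero]
      have h1 : HasDerivAt (fun X : ℝ => Real.exp (-X)) (Real.exp (-X) * (-1)) X :=
        (hasDerivAt_neg X).exp
      refine h1.congr_deriv ?_
      field_simp
    · intro k hk
      by_cases h0 : k = 0
      · refine ⟨1 / 2, fun X hX => ?_⟩
        simp only [h0, if_true]
        rw [abs_of_pos (Real.exp_pos _), ← LP.K_zero X]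
        have h1 := LP.K_le 0 hX
        rw [pow_zero, mul_one] at h1
        exact h1
      · obtain ⟨C, hC⟩ := ode_XK 0
        refine ⟨C, fun X hX => ?_⟩
        simp only [h0, if_false]
        exact hC X hX
  | succ n ih =>
    obtain ⟨J, h0, h1, h2, h3⟩ := ih
    have hcont : ∀ k, k ≤ n + 1 → ContinuousOn (J k) (Set.Ioi 0) := by
      intro k hk
      by_cases hkn : k ≤ n
      · exact fun X hX => (h2 k hkn X hX).continuousAt.continuousWithinAt
      · obtain rfl : k = n + 1 := by omega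
        exact (continuousOn_id.mul (LP.K_continuousOn n)).congr fun X hX => h1 X hX
    have hOK : ∀ k, k ≤ n + 1 → LP.LapOK (J k) := by
      intro k hk
      obtain ⟨C, hC⟩ := h3 k hk
      exact ode_lapOK (hcont k hk) hC
    refine ⟨fun k X => if k ≤ n + 1 then LP.Lap (J k) X else X * LP.K (n + 1) X, ?_, ?_, ?_, ?_⟩
    · intro X hX
      simp only [zero_le, if_true]
      rw [LP.K_succ' n hX]
      unfold LP.Lap
      refine setIntegral_congr_fun measurableSet_Ioi fun y hy => ?_
      rw [h0 y hy]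
    · intro X _
      have h4 : ¬ (n + 1 + 1 ≤ n + 1) := by omega
      simp only [h4, if_false]
    · intro k hk X hX
      by_cases hkn : k ≤ n
      · have h4 : k ≤ n + 1 := hk
        have h5 : k + 1 ≤ n + 1 := by omega
        simp only [h4, h5, if_true]
        obtain ⟨C, hC⟩ := h3 k h4
        obtain ⟨D, hD⟩ := h3 (k + 1) h5
        have h6 := ode_parts (hcont (k + 1) h5) hC hD (h2 k hkn) hX
        refine (LP.Lap_hasDerivAt (hOK k h4) hX).congr_deriv ?_
        rw [h6]
        field_simp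
      · obtain rfl : k = n + 1 := by omega
        have h4 : ¬ (n + 1 + 1 ≤ n + 1) := by omega
        simp only [le_refl, h4, if_true, if_false]
        refine (LP.Lap_hasDerivAt (hOK (n + 1) le_rfl) hX).congr_deriv ?_
        have h5 : LP.Lap (fun y => J (n + 1) y / y) X = LP.K (n + 1) X := by
          rw [LP.K_succ' n hX]
          unfold LP.Lap
          refine setIntegral_congr_fun measurableSet_Ioi fun y hy => ?_
          have hy0 : (y : ℝ) ≠ 0 := ne_of_gt hy
          simp only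
          rw [h1 y hy, mul_div_cancel_left₀ _ hy0]
        rw [h5]
        field_simp
    · intro k hk
      by_cases hkn : k ≤ n + 1
      · obtain ⟨C, hC⟩ := h3 k hkn
        refine ⟨C * Real.Gamma (0 + 1 / 2), fun X hX => ?_⟩
        simp only [hkn, if_true]
        exact ode_lap_bd hC hX
      · obtain ⟨C, hC⟩ := ode_XK (n + 1)
        refine ⟨C, fun X hX => ?_⟩
        simp only [hkn, if_false]
        exact hC X hX

theorem exists_J (n : ℕ) : ∃ J : ℕ → ℝ → ℝ,
    (∀ X, 0 < X → J 0 X = LP.K n X) ∧ (∀ X, 0 < X → J (n + 1) X = X * LP.K n X) ∧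
    ∀ k, k ≤ n → ∀ X, 0 < X → HasDerivAt (J k) (-(J (k + 1) X) / X) X := by
  obtain ⟨J, h1, h2, h3, -⟩ := exists_J' n
  exact ⟨J, h1, h2, h3⟩

end H81.L2
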