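import Pool.Agent.H81.L2.Ends
import Pool.Agent.H81.L2.ODE
import Pool.Agent.H81.L2.Desc

/-!
# Module M12: positivity near zero

`f = FD n e a`.  With `J` from `exists_J` and `E k s = ∑ a_i J k (q^(e-i) s)` one has `Chain E (n+1)`
(`d/ds J k (X s) = X · (-(J (k+1) (X s)) / (X s)) = -(J (k+1) (X s))/s`), `E 0 = f` and
`E (n+1) s = s ∑ a_i q^(e-i) K n (q^(e-i) s)`.  If `NPsi a b` then, because
`q^(e-i) = (q^(e-len+1) / 100^(len-1)) · 121^(len-1-i) 100^i`, `E (n+1) s = -s μ FD n e b s` with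
`μ = q^(e-len+1)/100^(len-1) > 0`.

* `FD_T`: `FD n (e + r) (Tl r a) s = FD n e a s - FD n e a (q^r s)`; hence
  `FD n (e + k r) (Tk r k a) = (TT (q^r))^[k] (FD n e a)` on all of `ℝ` (`FD_Tk`).
* `step_up`: `FD n e b ≤ 0` on `(0, s1]` gives `E (n+1) ≥ 0` there, so
  `(TT Q)^[n+1] f ≥ 0` on `(0, s2]`, `Q = q^r` (`chain_TT_nonneg` with `m = n + 1`), and `periods_pos`.
* `step_top`: `FD n e b ≥ 0` on `(0, s1]` gives `E (n+1) ≤ 0` there; `f` takes positive values at
  arbitrarily small `s` because the sum of its coefficients is positive (`LP.small`, reindexed by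
  `Fin a.length`); so `E n ≥ 0` on `(0, s1]` (`top_nonneg`), `(TT Q)^[n] f ≥ 0` on `(0, s2]`
  (`chain_TT_nonneg` with `m = n`), and `periods_pos`.
* `alt_neg`: if `FD n e b s* > 0` for some `s* ≤ t_0` then (`s* ≠ t_0` by the sign there)
  `s*, t_0, …, t_(M-1)` and a point near infinity (`LP.large`: the function is positive there, the last
  coefficient being positive; one may first restrict to the nonzero coefficients) are `M + 2`
  alternating points for at most `M + 1` functions, against `noAlt_cnt`.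
-/

namespace H81.L2

open H81

/-- coefficients of `f s - f (q^r s)` (first exponent `e + r`) -/
def Tl (r : ℕ) (a : List ℤ) : List ℤ :=
  List.zipWith (fun x y => x - y) (List.replicate r 0 ++ a) (a ++ List.replicate r 0)

/-- iterated differences (first exponent `e + k r`) -/
def Tk (r : ℕ) : ℕ → List ℤ → List ℤ
  | 0, a => a
  | k + 1, a => Tl r (Tk r k a)

/-- `b_i = -a_i q^(e-i)` up to a positive factor -/
def NPsi (a b : List ℤ) : Prop :=
  b.length = a.length ∧ ∀ i, i < a.length →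
    b.getD i 0 = -(a.getD i 0 * 121 ^ (a.length - 1 - i) * 100 ^ i)

private theorem hz_getD_left (r : ℕ) (a : List ℤ) (i : ℕ) (hi : r ≤ i) :
    (List.replicate r 0 ++ a).getD i 0 = a.getD (i - r) 0 := by
  rw [List.getD_append_right _ _ _ _ (by simpa using hi), List.length_replicate]

private theorem hz_getD_left' (r : ℕ) (a : List ℤ) (i : ℕ) (hi : i < r) :
    (List.replicate r 0 ++ a).getD i 0 = 0 := by
  rw [List.getD_append _ _ _ _ (by simpa using hi)]
  rw [List.getD_eq_getElem _ _ (by simpa using hi), List.getElem_replicate]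

private theorem hz_getD_right (r : ℕ) (a : List ℤ) (i : ℕ) :
    (a ++ List.replicate r 0).getD i 0 = a.getD i 0 := by
  by_cases hi : i < a.length
  · rw [List.getD_append _ _ _ _ hi]
  · have h1 : a.length ≤ i := not_lt.mp hi
    rw [List.getD_append_right _ _ _ _ h1, List.getD_eq_default a 0 h1]
    by_cases h2 : i - a.length < r
    · rw [List.getD_eq_getElem _ _ (by simpa using h2), List.getElem_replicate]
    · rw [List.getD_eq_default _ _ (by simpa using h2)]

private theorem hz_FD_left (n r : ℕ) (e : ℤ) (a : List ℤ) (s : ℝ) :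
    FD n (e + r) (List.replicate r 0 ++ a) s = FD n e a s := by
  rw [FD, FD, List.length_append, List.length_replicate, Finset.sum_range_add]
  rw [Finset.sum_eq_zero, zero_add]
  · refine Finset.sum_congr rfl fun i _ => ?_
    rw [hz_getD_left r a (r + i) (Nat.le_add_right r i), Nat.add_sub_cancel_left]
    have h : e + (r : ℤ) - ((r + i : ℕ) : ℤ) = e - (i : ℤ) := by push_cast; ring
    rw [h]
  · intro i hi
    rw [hz_getD_left' r a i (Finset.mem_range.mp hi)]
    simp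

private theorem hz_FD_right (n r : ℕ) (e : ℤ) (a : List ℤ) (s : ℝ) :
    FD n (e + r) (a ++ List.replicate r 0) s = FD n e a (q ^ r * s) := by
  rw [FD, FD, List.length_append, List.length_replicate, Finset.sum_range_add]
  have h0 : ∑ x ∈ Finset.range r, (((a ++ List.replicate r 0).getD (a.length + x) 0 : ℤ) : ℝ) *
      LP.K n (q ^ (e + (r : ℤ) - ((a.length + x : ℕ) : ℤ)) * s) = 0 := by
    refine Finset.sum_eq_zero fun i _ => ?_
    rw [hz_getD_right, List.getD_eq_default a 0 (Nat.le_add_right _ _)]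
    simp
  rw [h0, add_zero]
  refine Finset.sum_congr rfl fun i _ => ?_
  rw [hz_getD_right]
  have h : q ^ (e + (r : ℤ) - (i : ℤ)) * s = q ^ (e - (i : ℤ)) * (q ^ r * s) := by
    have h1 : e + (r : ℤ) - (i : ℤ) = (e - (i : ℤ)) + (r : ℤ) := by ring
    rw [h1, zpow_add₀ q_pos.ne', zpow_natCast, mul_assoc]
  rw [h]

theorem FD_T (n r : ℕ) (e : ℤ) (a : List ℤ) (s : ℝ) :
    FD n (e + r) (Tl r a) s = FD n e a s - FD n e a (q ^ r * s) := by
  rw [Tl, FD_sub n (e + r) _ _ (by simp [Nat.add_comm]) s, hz_FD_left, hz_FD_right]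

theorem FD_Tk (n r k : ℕ) (e : ℤ) (a : List ℤ) :
    FD n (e + k * r) (Tk r k a) = (TT (q ^ r))^[k] (FD n e a) := by
  induction k with
  | zero => simp [Tk]
  | succ k ih =>
    rw [Function.iterate_succ_apply', ← ih]
    funext s
    have h : e + ((k + 1 : ℕ) : ℤ) * (r : ℤ) = (e + (k : ℤ) * (r : ℤ)) + (r : ℤ) := by
      push_cast; ring
    rw [h]
    show FD n (e + (k : ℤ) * (r : ℤ) + (r : ℤ)) (Tl r (Tk r k a)) s = _
    rw [FD_T]
    rfl

private theorem hz_chain (n : ℕ) (e : ℤ) {a b : List ℤ} (hab : NPsi a b) :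
    ∃ (E : ℕ → ℝ → ℝ) (μ : ℝ), 0 < μ ∧ Chain E (n + 1) ∧ (∀ s, 0 < s → E 0 s = FD n e a s) ∧
      ∀ s, 0 < s → E (n + 1) s = -(s * μ * FD n e b s) := by
  obtain ⟨J, hJ0, hJ1, hJd⟩ := exists_J n
  have hX : ∀ i : ℕ, 0 < q ^ (e - (i : ℤ)) := fun i => zpow_pos q_pos _
  refine ⟨fun k s => ∑ i ∈ Finset.range a.length,
    ((a.getD i 0 : ℤ) : ℝ) * J k (q ^ (e - (i : ℤ)) * s),
    q ^ (e - (a.length : ℤ) + 1) / 100 ^ (a.length - 1), ?_, ?_, ?_, ?_⟩
  · exact div_pos (zpow_pos q_pos _) (by positivity)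
  · intro k hk s hs
    have h1 : ∀ i ∈ Finset.range a.length, HasDerivAt
        (fun s => ((a.getD i 0 : ℤ) : ℝ) * J k (q ^ (e - (i : ℤ)) * s))
        (((a.getD i 0 : ℤ) : ℝ) * (-(J (k + 1) (q ^ (e - (i : ℤ)) * s)) / s)) s := by
      intro i _
      apply HasDerivAt.const_mul
      have h2 := hJd k (by omega) (q ^ (e - (i : ℤ)) * s) (mul_pos (hX i) hs)
      have h3 : HasDerivAt (fun t : ℝ => q ^ (e - (i : ℤ)) * t) (q ^ (e - (i : ℤ))) s := by
        simpa using (hasDerivAt_id s).const_mul (q ^ (e - (i : ℤ)))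
      have h4 := HasDerivAt.comp s h2 h3
      have h5 : -(J (k + 1) (q ^ (e - (i : ℤ)) * s)) / (q ^ (e - (i : ℤ)) * s) *
          q ^ (e - (i : ℤ)) = -(J (k + 1) (q ^ (e - (i : ℤ)) * s)) / s := by
        have := (hX i).ne'
        field_simp
      rw [h5] at h4
      exact h4
    have h6 := HasDerivAt.fun_sum h1
    have h7 : ∑ i ∈ Finset.range a.length,
        ((a.getD i 0 : ℤ) : ℝ) * (-(J (k + 1) (q ^ (e - (i : ℤ)) * s)) / s) =
        -(∑ i ∈ Finset.range a.length,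
          ((a.getD i 0 : ℤ) : ℝ) * J (k + 1) (q ^ (e - (i : ℤ)) * s)) / s := by
      rw [neg_div, Finset.sum_div, ← Finset.sum_neg_distrib]
      refine Finset.sum_congr rfl fun i _ => ?_
      ring
    rw [h7] at h6
    exact h6
  · intro s hs
    show ∑ i ∈ Finset.range a.length, _ = _
    rw [FD]
    refine Finset.sum_congr rfl fun i _ => ?_
    rw [hJ0 _ (mul_pos (hX i) hs)]
  · intro s hs
    show ∑ i ∈ Finset.range a.length, _ = _
    rw [FD, hab.1, Finset.mul_sum, ← Finset.sum_neg_distrib]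
    refine Finset.sum_congr rfl fun i hi => ?_
    have hi' : i < a.length := Finset.mem_range.mp hi
    rw [hJ1 _ (mul_pos (hX i) hs), hab.2 i hi']
    have h8 : q ^ (e - (i : ℤ)) = q ^ (e - (a.length : ℤ) + 1) / 100 ^ (a.length - 1) *
        121 ^ (a.length - 1 - i) * 100 ^ i := by
      have h9 : e - (i : ℤ) = (e - (a.length : ℤ) + 1) + ((a.length - 1 - i : ℕ) : ℤ) := by
        have : ((a.length - 1 - i : ℕ) : ℤ) = (a.length : ℤ) - 1 - (i : ℤ) := by omega
        rw [this]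
        ring
      have h10 : a.length - 1 = (a.length - 1 - i) + i := by omega
      rw [h9, zpow_add₀ q_pos.ne', zpow_natCast]
      have h11 : (100 : ℝ) ^ (a.length - 1) = 100 ^ (a.length - 1 - i) * 100 ^ i := by
        rw [← pow_add]
        congr 1
      rw [h11]
      have h12 : q ^ (a.length - 1 - i) = 121 ^ (a.length - 1 - i) / 100 ^ (a.length - 1 - i) := by
        rw [q, div_pow]
      rw [h12]
      have h13 : (100 : ℝ) ^ (a.length - 1 - i) ≠ 0 := by positivity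
      have h14 : (100 : ℝ) ^ i ≠ 0 := by positivity
      field_simp
    push_cast
    generalize LP.K n (q ^ (e - (i : ℤ)) * s) = κ
    rw [h8]
    ring

private theorem hz_TT_congr {Q : ℝ} (hQ : 0 < Q) (m : ℕ) {f g : ℝ → ℝ}
    (h : ∀ s, 0 < s → f s = g s) : ∀ s, 0 < s → (TT Q)^[m] f s = (TT Q)^[m] g s := by
  induction m with
  | zero => exact h
  | succ m ih =>
    intro s hs
    rw [Function.iterate_succ_apply', Function.iterate_succ_apply']
    show (TT Q)^[m] f s - (TT Q)^[m] f (Q * s) = (TT Q)^[m] g s - (TT Q)^[m] g (Q * s)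
    rw [ih s hs, ih (Q * s) (mul_pos hQ hs)]

theorem step_up {n r : ℕ} (hr : 1 ≤ r) {e : ℤ} {a b : List ℤ} (hab : NPsi a b) {s1 s2 : ℝ}
    (hs2 : 0 < s2) (hb : ∀ s, 0 < s → s ≤ s1 → FD n e b s ≤ 0)
    (h12 : (q ^ r) ^ (n + 1) * s2 ≤ s1)
    (hper : ∀ k, k ≤ n → ∀ s, s2 / q ^ r ≤ s → s ≤ s2 → 0 < FD n (e + k * r) (Tk r k a) s) :
    ∀ s, 0 < s → s ≤ s2 → 0 < FD n e a s := by
  have hQ : 1 < q ^ r := one_lt_pow₀ one_lt_q (by omega)
  have hQ0 : 0 < q ^ r := lt_trans zero_lt_one hQ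
  obtain ⟨E, μ, hμ, hE, hE0, hE1⟩ := hz_chain n e hab
  have h1 : ∀ s, 0 < s → s ≤ s1 → 0 ≤ E (n + 1) s := by
    intro s hs hs1
    rw [hE1 s hs]
    have h2 := hb s hs hs1
    have h3 : 0 ≤ s * μ * (-FD n e b s) := mul_nonneg (mul_pos hs hμ).le (by linarith)
    linarith
  have h4 := chain_TT_nonneg hQ (n + 1) E hE h1
  refine periods_pos hQ (Nat.succ_le_succ (Nat.zero_le n)) (FD n e a) hs2 ?_ ?_
  · intro s hs hss
    rw [← hz_TT_congr hQ0 (n + 1) hE0 s hs]
    refine h4 s hs (le_trans ?_ h12)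
    exact mul_le_mul_of_nonneg_left hss (pow_pos hQ0 _).le
  · intro k hk s hs hss
    rw [← FD_Tk]
    exact hper k (by omega) s hs hss

private theorem hz_sum_getD (a : List ℤ) :
    ((a.sum : ℤ) : ℝ) = ∑ i ∈ Finset.range a.length, (a.getD i 0 : ℝ) := by
  induction a with
  | nil => simp
  | cons x xs ih =>
    rw [List.length_cons, Finset.sum_range_succ', List.sum_cons]
    have h1 : ∀ i, (x :: xs).getD (i + 1) 0 = xs.getD i 0 := fun i => by simp
    have h2 : (x :: xs).getD 0 0 = x := by simp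
    simp only [h1, h2]
    rw [← ih]
    push_cast
    ring

private theorem hz_FD_fin (n : ℕ) (e : ℤ) (a : List ℤ) (s : ℝ) :
    FD n e a s = ∑ j : Fin a.length, ((a.getD (j : ℕ) 0 : ℤ) : ℝ) *
      LP.K n (q ^ (e - ((j : ℕ) : ℤ)) * s) := by
  rw [FD, ← Fin.sum_univ_eq_sum_range
    (fun i => ((a.getD i 0 : ℤ) : ℝ) * LP.K n (q ^ (e - (i : ℤ)) * s)) a.length]

theorem step_top {n r : ℕ} (hn : 1 ≤ n) (hr : 1 ≤ r) {e : ℤ} {a b : List ℤ} (hab : NPsi a b)
    {s1 s2 : ℝ} (hs2 : 0 < s2) (hb : ∀ s, 0 < s → s ≤ s1 → 0 ≤ FD n e b s) (hsum : 0 < a.sum)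
    (h12 : (q ^ r) ^ n * s2 ≤ s1)
    (hper : ∀ k, k < n → ∀ s, s2 / q ^ r ≤ s → s ≤ s2 → 0 < FD n (e + k * r) (Tk r k a) s) :
    ∀ s, 0 < s → s ≤ s2 → 0 < FD n e a s := by
  have hQ : 1 < q ^ r := one_lt_pow₀ one_lt_q (by omega)
  have hQ0 : 0 < q ^ r := lt_trans zero_lt_one hQ
  obtain ⟨E, μ, hμ, hE, hE0, hE1⟩ := hz_chain n e hab
  have h1 : ∀ s, 0 < s → s ≤ s1 → E (n + 1) s ≤ 0 := by
    intro s hs hs1
    rw [hE1 s hs]
    have h2 := hb s hs hs1
    have h3 : 0 ≤ s * μ * FD n e b s := mul_nonneg (mul_pos hs hμ).le h2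
    linarith
  have hpos : ∀ δ, 0 < δ → ∃ s, 0 < s ∧ s < δ ∧ 0 < E 0 s := by
    intro δ hδ
    obtain ⟨s, hs, hsδ, h5⟩ := LP.small (n := n) (N := a.length)
      (fun j => ((a.getD (j : ℕ) 0 : ℤ) : ℝ)) (fun j => q ^ (e - ((j : ℕ) : ℤ)))
      (fun j => zpow_pos q_pos _) (by
        have h6 := hz_sum_getD a
        rw [← Fin.sum_univ_eq_sum_range (fun i => ((a.getD i 0 : ℤ) : ℝ)) a.length] at h6
        rw [← h6]
        exact_mod_cast hsum) hδ
    refine ⟨s, hs, hsδ, ?_⟩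
    rw [hE0 s hs, hz_FD_fin]
    exact h5
  have h7 := top_nonneg n E hE h1 hpos
  have hE' : Chain E n := fun k hk s hs => hE k (by omega) s hs
  have h4 := chain_TT_nonneg hQ n E hE' h7
  refine periods_pos hQ hn (FD n e a) hs2 ?_ ?_
  · intro s hs hss
    rw [← hz_TT_congr hQ0 n hE0 s hs]
    refine h4 s hs (le_trans ?_ h12)
    exact mul_le_mul_of_nonneg_left hss (pow_pos hQ0 _).le
  · intro k hk s hs hss
    rw [← FD_Tk]
    exact hper k hk s hs hss

theorem alt_neg {n M : ℕ} {e : ℤ} {b : List ℤ} (hM : Odd M) (hc : cnt b ≤ M + 1)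
    (hlast : 0 < b.getD (b.length - 1) 0) (t : Fin M → ℝ) (htm : StrictMono t)
    (ht0 : ∀ i, 0 < t i) (hs : ∀ i : Fin M, 0 < (-1 : ℝ) ^ ((i : ℕ) + 1) * FD n e b (t i)) :
    ∀ s, 0 < s → (∀ i, s ≤ t i) → FD n e b s ≤ 0 := by
  intro s hs0 hst
  by_contra hcon
  rw [not_le] at hcon
  have hM1 : 0 < M := hM.pos
  have hbl : 0 < b.length := by
    by_contra h0
    have h1 : b.length = 0 := by omega
    rw [List.getD_eq_default _ _ (by omega)] at hlast
    exact lt_irrefl _ hlast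
  -- a point near infinity
  obtain ⟨s1, hs1, hs1'⟩ := LP.large (n := n) (N := b.length)
    (fun j => ((b.getD (j : ℕ) 0 : ℤ) : ℝ)) (fun j => q ^ (e - ((j : ℕ) : ℤ)))
    (fun j => zpow_pos q_pos _) ⟨b.length - 1, by omega⟩ (by
      intro j hj
      have h1 : (j : ℕ) ≠ b.length - 1 := fun h => hj (Fin.ext h)
      have h2 := j.2
      show q ^ (e - ((b.length - 1 : ℕ) : ℤ)) < q ^ (e - ((j : ℕ) : ℤ))
      apply zpow_lt_zpow_right₀ one_lt_q
      omega) (by
      show (0 : ℝ) < ((b.getD (b.length - 1) 0 : ℤ) : ℝ)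
      exact_mod_cast hlast)
  have hlt : s < t ⟨0, hM1⟩ := by
    refine lt_of_le_of_ne (hst _) ?_
    intro h
    have h1 := hs ⟨0, hM1⟩
    rw [← h] at h1
    simp only [zero_add, pow_one] at h1
    linarith
  have hlt' : ∀ i, s < t i := fun i =>
    lt_of_lt_of_le hlt (htm.monotone (Fin.mk_le_of_le_val (Nat.zero_le _)))
  apply noAlt_cnt n (M + 1) e b hc
  refine ⟨1, fun i => if (i : ℕ) = 0 then s else if h : (i : ℕ) - 1 < M then t ⟨(i : ℕ) - 1, h⟩
    else max s1 (t ⟨M - 1, by omega⟩ + 1), ?_, ?_, ?_⟩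
  · rw [Fin.strictMono_iff_lt_succ]
    intro i
    have hi := i.2
    show (if (i : ℕ) = 0 then s else if h : (i : ℕ) - 1 < M then t ⟨(i : ℕ) - 1, h⟩
      else max s1 (t ⟨M - 1, by omega⟩ + 1)) <
      (if (i : ℕ) + 1 = 0 then s else if h : (i : ℕ) + 1 - 1 < M then t ⟨(i : ℕ) + 1 - 1, h⟩
      else max s1 (t ⟨M - 1, by omega⟩ + 1))
    rw [if_neg (Nat.succ_ne_zero _)]
    by_cases h0 : (i : ℕ) = 0
    · rw [if_pos h0, dif_pos (by omega)]
      exact hlt' _
    · rw [if_neg h0, dif_pos (by omega : (i : ℕ) - 1 < M)]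
      by_cases h1 : (i : ℕ) + 1 - 1 < M
      · rw [dif_pos h1]
        apply htm
        rw [Fin.lt_def]
        show (i : ℕ) - 1 < (i : ℕ) + 1 - 1
        omega
      · rw [dif_neg h1]
        have h2 : (i : ℕ) = M := by omega
        have h3 : t ⟨(i : ℕ) - 1, by omega⟩ = t ⟨M - 1, by omega⟩ := by
          congr 1
          apply Fin.ext
          show (i : ℕ) - 1 = M - 1
          omega
        rw [h3]
        exact lt_of_lt_of_le (by linarith) (le_max_right s1 _)
  · intro i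
    show 0 < (if (i : ℕ) = 0 then s else if h : (i : ℕ) - 1 < M then t ⟨(i : ℕ) - 1, h⟩
      else max s1 (t ⟨M - 1, by omega⟩ + 1))
    split_ifs
    · exact hs0
    · exact ht0 _
    · exact hs1.trans_le (le_max_left _ _)
  · intro i
    have hi := i.2
    show 0 < 1 * (-1) ^ (i : ℕ) * FD n e b (if (i : ℕ) = 0 then s else
      if h : (i : ℕ) - 1 < M then t ⟨(i : ℕ) - 1, h⟩ else max s1 (t ⟨M - 1, by omega⟩ + 1))
    rw [one_mul]
    by_cases h0 : (i : ℕ) = 0
    · rw [if_pos h0, h0, pow_zero, one_mul]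
      exact hcon
    · rw [if_neg h0]
      by_cases h1 : (i : ℕ) - 1 < M
      · rw [dif_pos h1]
        have h2 := hs ⟨(i : ℕ) - 1, h1⟩
        have h3 : (i : ℕ) - 1 + 1 = (i : ℕ) := by omega
        simp only at h2
        rw [h3] at h2
        exact h2
      · rw [dif_neg h1]
        have h2 : (i : ℕ) = M + 1 := by omega
        have h3 : Even (M + 1) := hM.add_one
        rw [h2, h3.neg_one_pow, one_mul, hz_FD_fin]
        exact hs1' _ (le_max_left _ _)

end H81.L2
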