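import Pool.Agent.H81.L2.Seg
import Pool.Agent.H81.L2.Head
import Pool.Agent.H81.L2.WinK
import Pool.Agent.H81.LP.Main

/-!
# Assembly: from kernel checks to the sign conditions
-/

namespace H81.L2

open H81

theorem hh_pos : 0 < hh := by
  have := hh_bounds.1
  linarith

theorem sqrt_q_zpow (m : ℤ) : √(q ^ m) = (11 / 10 : ℝ) ^ m := by
  have h : q ^ m = ((11 / 10 : ℝ) ^ m) ^ 2 := by
    unfold q
    rw [← zpow_natCast ((11 / 10 : ℝ) ^ m) 2, ← zpow_mul, mul_comm m, zpow_mul]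
    norm_num
  rw [h, Real.sqrt_sq (by positivity)]

/-! ## tables -/

/-- equality test of lists -/
def eqL : List ℕ → List ℕ → Bool
  | [], [] => true
  | x :: xs, y :: ys => Nat.beq x y && eqL xs ys
  | [], _ :: _ => false
  | _ :: _, [] => false

theorem eqL_eq : ∀ {l m : List ℕ}, eqL l m = true → l = m
  | [], [], _ => rfl
  | x :: xs, y :: ys, h => by
    simp only [eqL, Bool.and_eq_true, Nat.beq_eq] at h
    rw [h.1, eqL_eq h.2]
  | [], _ :: _, h => by simp [eqL] at h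
  | _ :: _, [], h => by simp [eqL] at h

/-- the tables of `S 4`, …, `S 7` in one pass -/
def multi (B gs gp dr n4 n5 n6 n7 : ℕ) (L4 L5 L6 L7 t : List ℕ) : Bool :=
  chainK B gs gp 4 t fun l4 => eqL ((l4.drop dr).take n4) L4 &&
    chainK B gs gp 1 l4 fun l5 => eqL ((l5.drop dr).take n5) L5 &&
      chainK B gs gp 1 l5 fun l6 => eqL ((l6.drop dr).take n6) L6 &&
        chainK B gs gp 1 l6 fun l7 => eqL ((l7.drop dr).take n7) L7

theorem multi_spec {c : ℕ} (hc : 61 ≤ c) (hc2 : c ≤ 81) {g t : List ℕ} (hg : GOK g)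
    (ht : TabOK ((c : ℝ) / 64) 102 0 (19000 / 2 ^ 90) t) (hlen : t.length ≤ g.length)
    {dr n4 n5 n6 n7 A B BB : ℕ} {L4 L5 L6 L7 E4 E5 E6 E7 : List ℕ}
    (hm : force1 (sumL g) (fun gs => force1 (packL BB g) fun gp =>
      multi BB gs gp dr n4 n5 n6 n7 L4 L5 L6 L7 t) = true)
    (hAB : (A : ℤ) - B = 102 - dr)
    (h4 : erChk 4 A B E4 = true) (h5 : erChk 5 A B E5 = true) (h6 : erChk 6 A B E6 = true)
    (h7 : erChk 7 A B E7 = true)
    (l4 : n4 ≤ E4.length) (l5 : n5 ≤ E5.length) (l6 : n6 ≤ E6.length) (l7 : n7 ≤ E7.length) :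
    SegOK 4 c ((A : ℤ) - B) L4 E4 ∧ SegOK 5 c ((A : ℤ) - B) L5 E5 ∧
      SegOK 6 c ((A : ℤ) - B) L6 E6 ∧ SegOK 7 c ((A : ℤ) - B) L7 E7 := by
  have hσ : (61 / 64 : ℝ) ≤ (c : ℝ) / 64 := by
    have : (61 : ℝ) ≤ c := by exact_mod_cast hc
    linarith
  have hσ2 : (c : ℝ) / 64 ≤ 81 / 64 := by
    have : (c : ℝ) ≤ 81 := by exact_mod_cast hc2
    linarith
  have key : ∀ (m : ℕ) (l : List ℕ) (N : ℕ), TabOK ((c : ℝ) / 64) 102 N
      (((19 / 2) ^ N - 2 / 5) / 2 ^ 75) l →
      TabOK ((c : ℝ) / 64) 102 N ((19 / 2) ^ N / 2 ^ 75) l := by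
    intro m l N h
    refine h.mono ?_
    apply div_le_div_of_nonneg_right _ (by positivity)
    linarith
  have h0 : TabOK ((c : ℝ) / 64) 102 0 (((19 / 2) ^ 0 - 2 / 5) / 2 ^ 75) t := ht.mono (by norm_num)
  have hm' : multi BB (sumL g) (packL BB g) dr n4 n5 n6 n7 L4 L5 L6 L7 t = true := hm
  obtain ⟨t4, e4, k4, T4⟩ := chain_aux hσ hσ2 hg _ 4 0 t (by norm_num) h0 hlen
    (chainK_spec hlen _ hm')
  simp only [Bool.and_eq_true] at k4
  obtain ⟨t5, e5, k5, T5⟩ := chain_aux hσ hσ2 hg _ 1 _ t4 (by norm_num) T4 (by omega)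
    (chainK_spec (by omega) _ k4.2)
  simp only [Bool.and_eq_true] at k5
  obtain ⟨t6, e6, k6, T6⟩ := chain_aux hσ hσ2 hg _ 1 _ t5 (by norm_num) T5 (by omega)
    (chainK_spec (by omega) _ k5.2)
  simp only [Bool.and_eq_true] at k6
  obtain ⟨t7, e7, k7, T7⟩ := chain_aux hσ hσ2 hg _ 1 _ t6 (by norm_num) T6 (by omega)
    (chainK_spec (by omega) _ k6.2)
  norm_num at T4 T5 T6 T7
  refine ⟨?_, ?_, ?_, ?_⟩
  · rw [← eqL_eq k4.1]
    exact seg_ok hc (key 0 _ 4 (by norm_num; exact T4)) h4 hAB l4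
  · rw [← eqL_eq k5.1]
    exact seg_ok hc (key 0 _ 5 (by norm_num; exact T5)) h5 hAB l5
  · rw [← eqL_eq k6.1]
    exact seg_ok hc (key 0 _ 6 (by norm_num; exact T6)) h6 hAB l6
  · rw [← eqL_eq k7]
    exact seg_ok hc (key 0 _ 7 (by norm_num; exact T7)) h7 hAB l7

theorem SegOK.cast {n c : ℕ} {top top' : ℤ} {L Er : List ℕ} (h : SegOK n c top L Er)
    (ht : top = top') : SegOK n c top' L Er := ht ▸ h

theorem SegOK.take {n c : ℕ} {top top' : ℤ} {L Er Er' : List ℕ} (h : SegOK n c top L Er) (m : ℕ)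
    (hE : Er.take m = Er') (ht : top = top') : SegOK n c top' (L.take m) Er' := by
  subst ht
  subst hE
  refine ⟨?_, ?_⟩
  · rw [List.length_take, List.length_take]
    have := h.1
    omega
  · intro i hi
    have hi2 : i < m ∧ i < L.length := by
      rw [List.length_take] at hi
      omega
    have h1 := h.2 i hi2.2
    rw [List.getElem_take]
    have h2 : (Er.take m).getD i 0 = Er.getD i 0 := by
      have h3 : i < Er.length := lt_of_lt_of_le hi2.2 h.1
      rw [List.getD_eq_getElem _ _ h3, List.getD_eq_getElem _ _ (by rw [List.length_take]; omega),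
        List.getElem_take]
    rw [h2]
    exact h1

/-! ## windows -/

/-- the tables for the offsets `61, …, 80` -/
def FamOK (n : ℕ) (top : ℤ) (LL : List (List ℕ)) (Er : List ℕ) : Prop :=
  ∀ i, i < 20 → SegOK n (61 + i) top (LL.getD i []) Er

/-- all windows of `k` consecutive exponents -/
def allW (P N PN : List ℕ) (k j : ℕ) (LL : List (List ℕ)) (Er : List ℕ) : ℕ → Bool
  | 0 => true
  | i + 1 => chkRun P N PN k ((LL.getD i []).drop j) ((LL.getD (i + 1) []).drop j)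
      ((LL.getD (i + 2) []).drop j) ((LL.getD (i + 3) []).drop j) ((LL.getD (i + 4) []).drop j)
      ((LL.getD (i + 5) []).drop j) ((LL.getD (i + 6) []).drop j) (Er.drop j) &&
      allW P N PN k j LL Er i

theorem allW_get {P N PN : List ℕ} {k j : ℕ} {LL : List (List ℕ)} {Er : List ℕ} :
    ∀ {w : ℕ}, allW P N PN k j LL Er w = true → ∀ i, i < w →
      chkRun P N PN k ((LL.getD i []).drop j) ((LL.getD (i + 1) []).drop j)
      ((LL.getD (i + 2) []).drop j) ((LL.getD (i + 3) []).drop j) ((LL.getD (i + 4) []).drop j)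
      ((LL.getD (i + 5) []).drop j) ((LL.getD (i + 6) []).drop j) (Er.drop j) = true
  | 0, _, i, hi => by omega
  | w + 1, h, i, hi => by
    simp only [allW, Bool.and_eq_true] at h
    rcases Nat.lt_succ_iff_lt_or_eq.1 hi with h1 | h1
    · exact allW_get h.2 i h1
    · rw [h1]; exact h.1

theorem exists_step {m : ℤ} {s : ℝ} : ∀ {k : ℕ}, 1 ≤ k → q ^ (m - k + 1) ≤ s → s ≤ q ^ (m + 1) →
    ∃ i : ℕ, i < k ∧ q ^ (m - i) ≤ s ∧ s ≤ q ^ (m - i + 1)
  | 0, h, _, _ => by omega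
  | 1, _, h1, h2 => ⟨0, by norm_num, by simpa using h1, by simpa using h2⟩
  | k + 2, _, h1, h2 => by
    rcases le_total (q ^ (m - (k + 1 : ℕ) + 1)) s with h | h
    · obtain ⟨i, hi, h3⟩ := exists_step (k := k + 1) (by omega) h h2
      exact ⟨i, by omega, h3⟩
    · refine ⟨k + 1, by omega, ?_, h⟩
      have e : m - (k + 1 : ℕ) = m - (k + 2 : ℕ) + 1 := by push_cast; ring
      rw [e]
      exact h1

theorem allW_spec {n : ℕ} {e : ℤ} {a : List ℤ} {P N PN : List ℕ} (hP : PNOK a P N PN)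
    {k j : ℕ} {LL : List (List ℕ)} {Er : List ℕ} {top : ℤ} (hF : FamOK n top LL Er)
    (hk : 1 ≤ k) (hlen : ∀ i, i < 20 → a.length + k + j ≤ (LL.getD i []).length + 1)
    (h : allW P N PN k j LL Er 14 = true) {m : ℤ} (hm : m + e = top - j) :
    ∀ s, q ^ (m - k + 1) ≤ s → s ≤ q ^ (m + 1) → 0 < FD n e a s := by
  intro s hs1 hs2
  obtain ⟨i, hi, h1, h2⟩ := exists_step hk hs1 hs2
  have hq : 0 < q ^ (m - i) := zpow_pos q_pos _
  -- the offset
  set w : ℕ := ⌊64 * (s / q ^ (m - i))⌋₊ with hw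
  have hr1 : 1 ≤ s / q ^ (m - i) := by rw [le_div_iff₀ hq]; linarith
  have hr2 : s / q ^ (m - i) ≤ 121 / 100 := by
    rw [div_le_iff₀ hq]
    rw [zpow_add₀ q_pos.ne', zpow_one] at h2
    have e1 : q ^ (m - i) * q = 121 / 100 * q ^ (m - i) := by
      have : (q : ℝ) = 121 / 100 := rfl
      rw [this]; ring
    linarith
  have hpos : 0 ≤ 64 * (s / q ^ (m - i)) := by linarith
  have hw1 : (w : ℝ) ≤ 64 * (s / q ^ (m - i)) := Nat.floor_le hpos
  have hw2 : 64 * (s / q ^ (m - i)) < (w : ℝ) + 1 := Nat.lt_floor_add_one _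
  have hw64 : 64 ≤ w := by
    rw [hw]
    apply Nat.le_floor
    push_cast
    linarith
  have hw77 : w ≤ 77 := by
    have h3 : (w : ℝ) < 78 := by linarith
    have h4 : w < 78 := by exact_mod_cast h3
    omega
  clear_value w
  obtain ⟨v, rfl⟩ : ∃ v, w = v + 64 := ⟨w - 64, by omega⟩
  have hv : v < 14 := by omega
  have hrun := allW_get h v hv
  have hseg : ∀ i', i' < 20 → ∀ c', 61 + i' = c' → SegOK n c' (m + e) ((LL.getD i' []).drop j)
      (Er.drop j) := by
    intro i' hi' c' hc'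
    rw [← hc', hm]
    exact (hF i' hi').drop j
  have hL : ∀ i', i' < 20 → a.length + k ≤ ((LL.getD i' []).drop j).length + 1 := by
    intro i' hi'
    rw [List.length_drop]
    have := hlen i' hi'
    omega
  have hres := run_spec (c := v + 64) (k := k) hP hh_pos (by omega)
    (hseg v (by omega) _ (by omega)) (hseg (v + 1) (by omega) _ (by omega))
    (hseg (v + 2) (by omega) _ (by omega)) (hseg (v + 3) (by omega) _ (by omega))
    (hseg (v + 4) (by omega) _ (by omega)) (hseg (v + 5) (by omega) _ (by omega))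
    (hseg (v + 6) (by omega) _ (by omega)) (hL _ (by omega)) (hL _ (by omega)) (hL _ (by omega))
    (hL _ (by omega)) (hL _ (by omega)) (hL _ (by omega)) (hL _ (by omega)) hrun i hi s
  apply hres
  · rw [div_mul_eq_mul_div, div_le_iff₀ (by norm_num)]
    have h5 : ((v + 64 : ℕ) : ℝ) * q ^ (m - i) ≤ 64 * (s / q ^ (m - i)) * q ^ (m - i) :=
      mul_le_mul_of_nonneg_right hw1 hq.le
    have h6 : 64 * (s / q ^ (m - i)) * q ^ (m - i) = s * 64 := by
      field_simp
    linarith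
  · rw [div_mul_eq_mul_div, le_div_iff₀ (by norm_num)]
    have h5 : 64 * (s / q ^ (m - i)) * q ^ (m - i) ≤ (((v + 64 : ℕ) : ℝ) + 1) * q ^ (m - i) :=
      mul_le_mul_of_nonneg_right hw2.le hq.le
    have h6 : 64 * (s / q ^ (m - i)) * q ^ (m - i) = s * 64 := by
      field_simp
    linarith

/-! ## nodes -/

theorem PNOK.neg {a : List ℤ} {P N PN : List ℕ} (h : PNOK a P N PN) :
    PNOK (a.map (fun x => -x)) N P PN := by
  obtain ⟨h1, h2, h3⟩ := h
  refine ⟨?_, ?_, ?_⟩
  · rw [h2, List.map_map]; rfl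
  · rw [h1, List.map_map]
    congr 1
    funext x
    simp
  · rw [h3, List.map_map]
    congr 1
    funext x
    simp

theorem FD_map_neg (n : ℕ) (e : ℤ) (a : List ℤ) (s : ℝ) :
    FD n e (a.map (fun x => -x)) s = -FD n e a s := by
  unfold FD
  rw [List.length_map, ← Finset.sum_neg_distrib]
  apply Finset.sum_congr rfl
  intro i hi
  rw [Finset.mem_range] at hi
  rw [List.getD_eq_getElem _ _ (by simpa using hi), List.getD_eq_getElem _ _ hi, List.getElem_map]
  push_cast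
  ring

/-- alternating signs at the nodes `q^(z - j)`, `j` in the list -/
def nodes (P N PN L Er : List ℕ) : List ℕ → Bool → Bool
  | [], _ => true
  | j :: js, b => (if b then pos1 P N PN (L.drop j) (Er.drop j)
      else pos1 N P PN (L.drop j) (Er.drop j)) && nodes P N PN L Er js (!b)

theorem node_spec {n : ℕ} {e z : ℤ} {a : List ℤ} {P N PN L Er : List ℕ} (hP : PNOK a P N PN)
    (hL : SegOK n 64 (z + e) L Er) {j : ℕ} (hlen : a.length + j ≤ L.length)
    (h : pos1 P N PN (L.drop j) (Er.drop j) = true) : 0 < FD n e a (q ^ (z - j)) := by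
  have h1 := (hL.drop j)
  have e1 : z + e - (j : ℤ) = (z - j) + e := by ring
  rw [e1] at h1
  have h2 := pos1_spec hP hh_pos h1 (by rw [List.length_drop]; omega) h
  have e2 : (((64 : ℕ) : ℝ) / 64) = 1 := by norm_num
  rwa [e2, one_mul] at h2

theorem node_spec' {n : ℕ} {e z : ℤ} {a : List ℤ} {P N PN L Er : List ℕ} (hP : PNOK a P N PN)
    (hL : SegOK n 64 (z + e) L Er) {j : ℕ} (hlen : a.length + j ≤ L.length)
    (h : pos1 N P PN (L.drop j) (Er.drop j) = true) : FD n e a (q ^ (z - j)) < 0 := by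
  have h1 := node_spec hP.neg hL (by rw [List.length_map]; exact hlen) h
  rw [FD_map_neg] at h1
  linarith

theorem nodes_spec {n : ℕ} {e z : ℤ} {a : List ℤ} {P N PN L Er : List ℕ} (hP : PNOK a P N PN)
    (hL : SegOK n 64 (z + e) L Er) :
    ∀ (js : List ℕ) (b : Bool), (∀ j ∈ js, a.length + j ≤ L.length) →
      nodes P N PN L Er js b = true → ∀ i, i < js.length →
      0 < (if b then 1 else -1) * (-1 : ℝ) ^ i * FD n e a (q ^ (z - (js.getD i 0 : ℕ)))
  | [], _, _, _, i, hi => by simp at hi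
  | j :: js, b, hlen, h, i, hi => by
    simp only [nodes, Bool.and_eq_true] at h
    cases i with
    | zero =>
      simp only [List.getD_cons_zero, pow_zero, mul_one]
      cases b
      · have h1 := node_spec' hP hL (hlen j (by simp)) (by simpa using h.1)
        simp only [Bool.false_eq_true, if_false]
        linarith
      · have h1 := node_spec hP hL (hlen j (by simp)) (by simpa using h.1)
        simp only [if_true, one_mul]
        exact h1
    | succ i =>
      have h2 := nodes_spec hP hL js (!b) (fun j' hj' => hlen j' (by simp [hj'])) h.2 i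
        (by simpa using hi)
      simp only [List.getD_cons_succ, pow_succ]
      cases b
      · simp only [Bool.not_false, if_true, one_mul, Bool.false_eq_true, if_false] at h2 ⊢
        linarith
      · simp only [Bool.not_true, Bool.false_eq_true, if_false, if_true, one_mul] at h2 ⊢
        linarith

/-- strictly decreasing list -/
def decL : List ℕ → Bool
  | [] => true
  | [_] => true
  | x :: y :: rest => Nat.blt y x && decL (y :: rest)

theorem decL_spec : ∀ {l : List ℕ}, decL l = true → ∀ i, i + 1 < l.length →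
    l.getD (i + 1) 0 < l.getD i 0
  | [], _, i, hi => by simp at hi
  | [_], _, i, hi => by simp at hi
  | x :: y :: rest, h, i, hi => by
    simp only [decL, Bool.and_eq_true, Nat.blt_eq] at h
    cases i with
    | zero => simpa using h.1
    | succ i =>
      have := decL_spec h.2 i (by simpa using hi)
      simpa using this

theorem nodes_mono {z : ℤ} {js : List ℕ} (h : decL js = true) {M : ℕ} (hM : js.length = M) :
    StrictMono (fun i : Fin M => q ^ (z - (js.getD i 0 : ℕ))) := by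
  cases M with
  | zero => intro i; exact i.elim0
  | succ M =>
    rw [Fin.strictMono_iff_lt_succ]
    intro i
    have h1 := decL_spec h i (by rw [hM]; simp)
    apply zpow_lt_zpow_right₀ one_lt_q
    simp only [Fin.val_castSucc, Fin.val_succ]
    omega

/-- certificate for the tail -/
theorem tail_cert {n M : ℕ} {e z : ℤ} {a δ G : List ℤ} {Pd Nd PNd Pg Ng PNg L Er : List ℕ}
    (hM : 1 ≤ M) (hMe : Even M) (hlen : a.length = δ.length)
    (hG : G = List.zipWith (fun x y => x - y) a δ)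
    (hcδ : cnt δ ≤ M) (hcG : cnt G ≤ M + 2)
    (hlast : 0 < a.getD (a.length - 1) 0) (hlastδ : δ.getD (δ.length - 1) 0 = 0)
    (hPd : PNOK δ Pd Nd PNd) (hPg : PNOK G Pg Ng PNg)
    (hL : SegOK n 64 (z + e) L Er) {js : List ℕ} (hjs : js.length = M) (hdec : decL js = true)
    {jL : ℕ} (hjL : ∀ j ∈ js, jL < j) (hl : ∀ j ∈ js, a.length + j ≤ L.length)
    (hD : nodes Pd Nd PNd L Er js false = true) (hGn : nodes Pg Ng PNg L Er js true = true)
    (hGL : pos1 Pg Ng PNg (L.drop jL) (Er.drop jL) = true) :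
    ∀ s, q ^ (z - jL) ≤ s → 0 < FD n e a s := by
  have hGlen : G.length = a.length := by
    rw [hG, List.length_zipWith, ← hlen, min_self]
  have h1 := nodes_spec hPd hL js false (fun j hj => by rw [← hlen]; exact hl j hj) hD
  have h2 := nodes_spec hPg hL js true (fun j hj => by rw [hGlen]; exact hl j hj) hGn
  have hsgn : ∀ i : Fin M, (-1 : ℝ) ^ (M - 1 - (i : ℕ)) = -((-1) ^ (i : ℕ)) := by
    intro i
    have hi := i.2
    have e1 : (-1 : ℝ) ^ (M - 1 - (i : ℕ)) * (-1) ^ (i : ℕ) = -1 := by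
      rw [← pow_add]
      have e2 : M - 1 - (i : ℕ) + i = M - 1 := by omega
      rw [e2]
      exact Odd.neg_one_pow (Nat.Even.sub_odd hM hMe odd_one)
    have e3 : (-1 : ℝ) ^ (i : ℕ) * (-1) ^ (i : ℕ) = 1 := by
      rw [← mul_pow]; norm_num
    calc (-1 : ℝ) ^ (M - 1 - (i : ℕ)) = (-1 : ℝ) ^ (M - 1 - (i : ℕ)) *
        ((-1 : ℝ) ^ (i : ℕ) * (-1) ^ (i : ℕ)) := by rw [e3, mul_one]
      _ = -((-1) ^ (i : ℕ)) := by rw [← mul_assoc, e1]; ring
  have hmem : ∀ i : Fin M, js.getD i 0 ∈ js := by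
    intro i
    rw [List.getD_eq_getElem _ _ (by rw [hjs]; exact i.2)]
    exact List.getElem_mem _
  refine tail (t := fun i : Fin M => q ^ (z - (js.getD i 0 : ℕ))) hM hlen hcδ (by rw [← hG]; exact hcG)
    hlast hlastδ (nodes_mono hdec hjs) (fun i => zpow_pos q_pos _) ?_ ?_ ?_ ?_
  · intro i
    apply zpow_lt_zpow_right₀ one_lt_q
    have := hjL _ (hmem i)
    omega
  · intro i
    have := h1 i (by rw [hjs]; exact i.2)
    simp only [Bool.false_eq_true, if_false] at this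
    rw [hsgn]
    linarith
  · intro i
    have := h2 i (by rw [hjs]; exact i.2)
    simp only [if_true] at this
    rw [hsgn, ← hG]
    linarith
  · rw [← hG]
    refine node_spec hPg hL ?_ hGL
    rw [hGlen]
    have hj0 : 0 < js.length := by omega
    have := hjL _ (List.getElem_mem hj0)
    have := hl _ (List.getElem_mem hj0)
    omega

/-- certificate for the sign near zero -/
theorem alt_cert {n M : ℕ} {e z : ℤ} {b : List ℤ} {P N PN L Er : List ℕ} (hM : Odd M)
    (hc : cnt b ≤ M + 1) (hlast : 0 < b.getD (b.length - 1) 0) (hP : PNOK b P N PN)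
    (hL : SegOK n 64 (z + e) L Er) {js : List ℕ} (hjs : js.length = M) (hdec : decL js = true)
    (hl : ∀ j ∈ js, b.length + j ≤ L.length) (h : nodes P N PN L Er js false = true) {j0 : ℕ}
    (hj0 : ∀ j ∈ js, j ≤ j0) :
    ∀ s, 0 < s → s ≤ q ^ (z - j0) → FD n e b s ≤ 0 := by
  have h1 := nodes_spec hP hL js false hl h
  intro s hs hs2
  refine alt_neg hM hc hlast (fun i : Fin M => q ^ (z - (js.getD i 0 : ℕ))) (nodes_mono hdec hjs)
    (fun i => zpow_pos q_pos _) ?_ s hs ?_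
  · intro i
    have := h1 i (by rw [hjs]; exact i.2)
    simp only [Bool.false_eq_true, if_false] at this
    rw [pow_succ]
    linarith
  · intro i
    refine hs2.trans ?_
    apply zpow_le_zpow_right₀ one_lt_q.le
    have hmem : js.getD i 0 ∈ js := by
      rw [List.getD_eq_getElem _ _ (by rw [hjs]; exact i.2)]
      exact List.getElem_mem _
    have := hj0 _ hmem
    omega

/-! ## finite sums -/

theorem FD_eq_sum {n N : ℕ} {e : ℤ} {a : List ℤ} (m : Fin N → ℤ) (c : Fin N → ℤ)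
    (hinj : Function.Injective m)
    (h1 : ∀ j, m j ≤ e ∧ (e - m j).toNat < a.length ∧ a.getD (e - m j).toNat 0 = c j)
    (h2 : ∀ i, i < a.length → a.getD i 0 ≠ 0 → ∃ j, (e - m j).toNat = i) (s : ℝ) :
    FD n e a s = ∑ j, (c j : ℝ) * LP.K n (q ^ (m j) * s) := by
  unfold FD
  have hinj2 : ∀ j ∈ (Finset.univ : Finset (Fin N)), ∀ j' ∈ (Finset.univ : Finset (Fin N)),
      (e - m j).toNat = (e - m j').toNat → j = j' := by
    intro j _ j' _ h
    have e1 := (h1 j).1
    have e2 := (h1 j').1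
    apply hinj
    omega
  have e3 : ∑ j, (c j : ℝ) * LP.K n (q ^ (m j) * s) =
      ∑ i ∈ Finset.univ.image (fun j => (e - m j).toNat),
        (a.getD i 0 : ℝ) * LP.K n (q ^ (e - (i : ℤ)) * s) := by
    rw [Finset.sum_image hinj2]
    apply Finset.sum_congr rfl
    intro j _
    have e4 := (h1 j).1
    have e5 : e - ((e - m j).toNat : ℤ) = m j := by omega
    rw [(h1 j).2.2, e5]
  rw [e3]
  symm
  apply Finset.sum_subset
  · intro i hi
    rw [Finset.mem_image] at hi
    obtain ⟨j, _, rfl⟩ := hi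
    rw [Finset.mem_range]
    exact (h1 j).2.1
  · intro i hi hi2
    rw [Finset.mem_range] at hi
    by_cases h : a.getD i 0 = 0
    · rw [h]; simp
    · exfalso
      obtain ⟨j, hj⟩ := h2 i hi h
      exact hi2 (Finset.mem_image.2 ⟨j, Finset.mem_univ _, hj⟩)

/-- the sign conditions -/
theorem cond_of {n N : ℕ} (c m : Fin (N + 1) → ℤ) (hm : StrictMono m) (hc0 : c 0 < 0)
    (hcl : 0 < c (Fin.last N))
    {eP : ℤ} {aP : List ℤ} (hP : ∀ s : ℝ, FD n eP aP s = ∑ j, ((-c j : ℤ) : ℝ) * LP.K n (q ^ (m j) * s))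
    (hPpos : ∀ s, 1 ≤ s → 0 < FD n eP aP s)
    {eD : ℤ} {aD : List ℤ} (cD : Fin (N + 1) → ℤ) {μ : ℝ} (hμ : 0 < μ)
    (hcD : ∀ j, (cD j : ℝ) = μ * ((c j : ℝ) * (10 / 11 : ℝ) ^ (m j)))
    (hD : ∀ s : ℝ, FD n eD aD s = ∑ j, (cD j : ℝ) * LP.K n (q ^ (-m j) * s))
    (hDpos : ∀ s, 0 < s → 0 < FD n eD aD s) :
    LP.Cond n (fun j => (c j : ℝ)) (fun j => q ^ (m j)) := by
  have hmono : ∀ i j, i < j → q ^ (m i) < q ^ (m j) := fun i j hij =>
    zpow_lt_zpow_right₀ one_lt_q (hm hij)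
  refine ⟨fun j => zpow_pos q_pos _, ⟨0, ?_, ?_⟩, ⟨Fin.last N, ?_, ?_⟩, ?_, ?_⟩
  · intro j hj
    exact hmono _ _ (Fin.pos_of_ne_zero hj)
  · exact_mod_cast hc0
  · intro j hj
    exact hmono _ _ (lt_of_le_of_ne (Fin.le_last j) hj)
  · exact_mod_cast hcl
  · intro s hs
    have h1 := hPpos s hs
    rw [hP] at h1
    have h2 : ∑ j, ((-c j : ℤ) : ℝ) * LP.K n (q ^ (m j) * s) =
        -∑ j, (c j : ℝ) * LP.K n (q ^ (m j) * s) := by
      rw [← Finset.sum_neg_distrib]
      apply Finset.sum_congr rfl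
      intro j _
      push_cast
      ring
    rw [h2] at h1
    linarith
  · intro s hs
    have h1 := hDpos s hs
    rw [hD] at h1
    have h2 : ∑ j, (cD j : ℝ) * LP.K n (q ^ (-m j) * s) =
        μ * ∑ j, (c j : ℝ) / √(q ^ (m j)) * LP.K n (s / q ^ (m j)) := by
      rw [Finset.mul_sum]
      apply Finset.sum_congr rfl
      intro j _
      have e1 : ((11 / 10 : ℝ) ^ (m j))⁻¹ = (10 / 11) ^ (m j) := by
        rw [← inv_zpow]
        norm_num
      rw [hcD, sqrt_q_zpow, zpow_neg, div_eq_mul_inv (c j : ℝ), div_eq_inv_mul s, e1]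
      ring
    rw [h2] at h1
    exact (mul_pos_iff_of_pos_left hμ).1 h1

theorem final {n N : ℕ} {c m : Fin (N + 1) → ℤ}
    (h : LP.Cond n (fun j => (c j : ℝ)) (fun j => q ^ (m j))) (cD : Fin (N + 1) → ℤ) {μ : ℝ}
    (hμ : 0 < μ) (hcD : ∀ j, (cD j : ℝ) = μ * ((c j : ℝ) * (10 / 11 : ℝ) ^ (m j))) {B : ℝ} (hB : 0 < B)
    (hw : 0 < ∑ j, (cD j : ℝ))
    (hlt : (B * μ * ∑ j, (c j : ℝ)) ^ 2 < (3.1415926535 : ℝ) ^ (n + 1) * (∑ j, (cD j : ℝ)) ^ 2)
    (g : Matrix (Fin (n + 1)) (Fin (n + 1)) ℝ) (hg : g.det ≠ 0) :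
    ∃ x : Fin (n + 1) → ℤ, x ≠ 0 ∧ |∏ i, ∑ j, g i j * (x j : ℝ)| < |g.det| / B := by
  have hsum : μ * ∑ j, (c j : ℝ) / √(q ^ (m j)) = ∑ j, (cD j : ℝ) := by
    rw [Finset.mul_sum]
    apply Finset.sum_congr rfl
    intro j _
    rw [hcD, sqrt_q_zpow, div_eq_mul_inv, ← inv_zpow]
    norm_num
  have hpi : (3.1415926535 : ℝ) ^ (n + 1) ≤ Real.pi ^ (n + 1) := by
    apply pow_le_pow_left₀ (by norm_num)
    have := Real.pi_gt_d20
    linarith
  have hkey : μ * (B * ∑ j, (c j : ℝ)) < μ * ((√Real.pi) ^ (n + 1) *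
      ∑ j, (c j : ℝ) / √(q ^ (m j))) := by
    have e1 : μ * ((√Real.pi) ^ (n + 1) * ∑ j, (c j : ℝ) / √(q ^ (m j))) =
        (√Real.pi) ^ (n + 1) * ∑ j, (cD j : ℝ) := by
      rw [← hsum]; ring
    rw [e1]
    apply lt_of_pow_lt_pow_left₀ 2 (by positivity)
    calc (μ * (B * ∑ j, (c j : ℝ))) ^ 2 = (B * μ * ∑ j, (c j : ℝ)) ^ 2 := by ring
      _ < (3.1415926535 : ℝ) ^ (n + 1) * (∑ j, (cD j : ℝ)) ^ 2 := hlt
      _ ≤ Real.pi ^ (n + 1) * (∑ j, (cD j : ℝ)) ^ 2 := by
        apply mul_le_mul_of_nonneg_right hpi (by positivity)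
      _ = ((√Real.pi) ^ (n + 1) * ∑ j, (cD j : ℝ)) ^ 2 := by
        rw [mul_pow, ← pow_mul, mul_comm (n + 1) 2, pow_mul, Real.sq_sqrt Real.pi_pos.le]
  obtain ⟨x, hx, hlt'⟩ := LP.bound_of_cond (fun j => (c j : ℝ)) (fun j => q ^ (m j)) h hB
    (lt_of_mul_lt_mul_left hkey hμ.le) g hg
  exact ⟨x, hx, hlt'⟩

end H81.L2
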