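import Pool.Agent.H81.LP.Defs

/-!
# Linear programming bounds, second version: finer grid, more Gaussians

`q = 121/100 = (11/10)²`, scale `2^128`.  The kernel `LP.K`, `LP.Cond`, `LP.Alt` … are those of
`Pool/Agent/H81/LP/Defs.lean`.
-/

namespace H81.L2

open H81

/-- the ratio of the grid -/
noncomputable def q : ℝ := 121 / 100

/-- the step of the grid -/
noncomputable def hh : ℝ := Real.log (121 / 100)

/-- the trapezoid sums: `LP.K n X` is very close to `hh ^ n * S n X` -/
noncomputable def S : ℕ → ℝ → ℝ
  | 0, X => Real.exp (-X)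
  | n + 1, X => ∑' k : ℤ, Real.exp (-(q ^ k)) * S n (X * q ^ (-k))

/-- the normalised kernel -/
noncomputable def KN (n : ℕ) (X : ℝ) : ℝ := LP.K n X / hh ^ n

/-- dot product with accumulator -/
def dotA (l : List ℕ) : List ℕ → ℕ → ℕ :=
  List.rec (motive := fun _ => List ℕ → ℕ → ℕ) (fun _ s => s)
    (fun a _ ih m s => List.rec (motive := fun _ => ℕ) s (fun b bs _ => ih bs (s + a * b)) m) l

/-- apply `k` to the evaluated number `x` -/
def force (x : ℕ) {α : Type} (k : ℕ → α) : α :=
  Nat.rec (motive := fun _ => α) (k 0) (fun n _ => k (n + 1)) x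

/-- a linear combination of kernels with consecutive exponents `e, e - 1, e - 2, …` and integer
coefficients `a` -/
noncomputable def FD (n : ℕ) (e : ℤ) (a : List ℤ) (s : ℝ) : ℝ :=
  ∑ i ∈ Finset.range a.length, (a.getD i 0 : ℝ) * LP.K n (q ^ (e - i) * s)

/-- number of nonzero entries -/
def cnt (a : List ℤ) : ℕ := (a.filter (fun x => decide (x ≠ 0))).length

end H81.L2
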