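import Pool.Agent.H81.L2.Defs
import Pool.Agent.H81.LP.Vthm
import Pool.Agent.H81.LP.SmallLarge

/-!
# Module M7: the sign at both ends of the half line by total positivity

`LP.noAlt`, `LP.large`, `LP.small`, `LP.Alt.mono` may be cited.
* `noAlt_cnt`: `FD n e a` is a combination of the functions `K n (q^(e-i) s)`, `i < a.length`, with
  at most `N` nonzero coefficients, so it has no `N + 1` alternating points: restrict the sum to the
  indices with `a_i ≠ 0` and reindex by `Fin` of their number (`LP.noAlt`, different exponents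
  because `q^(e-i)` is injective in `i`), then `LP.Alt.mono`.
* `FD_sub`: linearity.
* `tail`.  Let `Φ = FD n e a`, `D = FD n e δ`, `G = Φ - D = FD n e (a - δ)`, `cnt δ ≤ M`,
  `cnt (a - δ) ≤ M + 2`, the last coefficient (smallest exponent) of `a` positive, of `δ` zero.
  Points `t_0 < … < t_(M-1) < sL` with `(-1)^(M-1-i) D(t_i) > 0` and `(-1)^(M-1-i) G(t_i) < 0`, and
  `G(sL) > 0`.  Then `Φ > 0` on `[sL, ∞)`.
  Proof: (1) `D ≥ 0` on `[t_(M-1), ∞)`: if `D(s') < 0` for some `s' > t_(M-1)` then `D` has `M + 1`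
  alternating points, against `noAlt_cnt`.  (2) `Φ(sL) = G(sL) + D(sL) > 0`.  Suppose `Φ(s*) ≤ 0`,
  `s* > sL`.  Then `G(s*) = Φ(s*) - D(s*) ≤ 0`.  To get a strict sign replace `G` by
  `G' = G - ε K n (q^(e-i1) s)` for an index `i1` with `a_i1 - δ_i1 ≠ 0` which is not the last one
  (if there is none, `G` is a positive multiple of one kernel and `G(s*) ≤ 0` is impossible): for
  small `ε > 0` all strict inequalities at `t_i`, `sL` persist, `G'(s*) < 0`, the number of nonzero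
  coefficients does not increase (`ε` real: use `LP.noAlt` with real coefficients), and `G' > 0`
  near infinity by `LP.large`.  So `G'` has signs `…, -, +, -` at `t_0, …, t_(M-1)` (ending with
  `G'(t_(M-1)) < 0`), `+` at `sL`, `-` at `s*`, `+` far away: `M + 3` alternating points for at most
  `M + 2` functions: contradiction.
* `head`: the mirror image at `0` (`LP.small` instead of `LP.large`; the sum of the
  coefficients of `G` is positive).  `D(t_0) > 0`, so `D ≥ 0` on `(0, t_0]`; suppose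
  `Φ(s*) ≤ 0`, `s* < sh < t_0`: `G'` has signs `+` (small), `-` (`s*`), `+` (`sh`), `-` (`t_0`), `+`
  (`t_1`), …: `M + 3` alternating points.
-/

namespace H81.L2

open H81

theorem q_pos : 0 < q := by unfold q; norm_num

theorem one_lt_q : 1 < q := by unfold q; norm_num

/-- the combination with real coefficients -/
private noncomputable def Fc (n : ℕ) (e : ℤ) (I : Finset ℕ) (c : ℕ → ℝ) (s : ℝ) : ℝ :=
  ∑ i ∈ I, c i * LP.K n (q ^ (e - (i : ℤ)) * s)

private theorem pw_pos (e : ℤ) (i : ℕ) : 0 < q ^ (e - (i : ℤ)) := zpow_pos q_pos _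

private theorem pw_inj (e : ℤ) {i j : ℕ} (h : q ^ (e - (i : ℤ)) = q ^ (e - (j : ℤ))) : i = j := by
  have h1 : e - (i : ℤ) = e - (j : ℤ) := zpow_right_injective₀ q_pos one_lt_q.ne' h
  omega

private theorem Fc_fin (n : ℕ) (e : ℤ) (I : Finset ℕ) (c : ℕ → ℝ) (s : ℝ) :
    Fc n e I c s = ∑ j : Fin I.card, c (I.equivFin.symm j : ℕ) *
      LP.K n (q ^ (e - ((I.equivFin.symm j : ℕ) : ℤ)) * s) := by
  rw [Fc, ← Finset.sum_coe_sort I (fun i => c i * LP.K n (q ^ (e - (i : ℤ)) * s))]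
  exact (Equiv.sum_comp I.equivFin.symm
    (fun i : I => c (i : ℕ) * LP.K n (q ^ (e - ((i : ℕ) : ℤ)) * s))).symm

private theorem Fc_noAlt (n : ℕ) (e : ℤ) (I : Finset ℕ) (c : ℕ → ℝ) {N : ℕ} (hN : I.card ≤ N) :
    ¬ LP.Alt (Fc n e I c) N := by
  intro h
  have h1 := LP.Alt.mono h hN
  have h2 : Fc n e I c = fun s => ∑ j : Fin I.card, c (I.equivFin.symm j : ℕ) *
      LP.K n (q ^ (e - ((I.equivFin.symm j : ℕ) : ℤ)) * s) := by
    funext s
    exact Fc_fin n e I c s
  rw [h2] at h1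
  refine LP.noAlt n I.card _ (fun j => q ^ (e - ((I.equivFin.symm j : ℕ) : ℤ)))
    (fun j => pw_pos e _) ?_ h1
  intro i j hij
  have h3 := pw_inj e hij
  exact I.equivFin.symm.injective (Subtype.ext h3)

private theorem Fc_large (n : ℕ) (e : ℤ) (I : Finset ℕ) (c : ℕ → ℝ) (l : ℕ) (hl : l ∈ I)
    (hmax : ∀ i ∈ I, i ≤ l) (hc : 0 < c l) :
    ∃ s1 : ℝ, 0 < s1 ∧ ∀ s, s1 ≤ s → 0 < Fc n e I c s := by
  obtain ⟨s1, h1, h2⟩ := LP.large (n := n) (N := I.card) (fun j => c (I.equivFin.symm j : ℕ))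
    (fun j => q ^ (e - ((I.equivFin.symm j : ℕ) : ℤ))) (fun j => pw_pos e _)
    (I.equivFin ⟨l, hl⟩) (by
      intro j hj
      have h3 : (I.equivFin.symm j : ℕ) ≠ l := by
        intro h4
        apply hj
        rw [← Equiv.symm_apply_eq]
        exact Subtype.ext h4
      have h5 : (I.equivFin.symm j : ℕ) < l :=
        lt_of_le_of_ne (hmax _ (I.equivFin.symm j).2) h3
      show q ^ (e - (((I.equivFin.symm (I.equivFin ⟨l, hl⟩) : I) : ℕ) : ℤ)) < _
      rw [Equiv.symm_apply_apply]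
      apply zpow_lt_zpow_right₀ one_lt_q
      show e - (l : ℤ) < e - ((I.equivFin.symm j : ℕ) : ℤ)
      omega)
    (by
      show 0 < c ((I.equivFin.symm (I.equivFin ⟨l, hl⟩) : I) : ℕ)
      rw [Equiv.symm_apply_apply]
      exact hc)
  exact ⟨s1, h1, fun s hs => by rw [Fc_fin]; exact h2 s hs⟩

private theorem Fc_small (n : ℕ) (e : ℤ) (I : Finset ℕ) (c : ℕ → ℝ) (hc : 0 < ∑ i ∈ I, c i)
    {s1 : ℝ} (hs1 : 0 < s1) : ∃ s : ℝ, 0 < s ∧ s < s1 ∧ 0 < Fc n e I c s := by
  obtain ⟨s, h1, h2, h3⟩ := LP.small (n := n) (N := I.card) (fun j => c (I.equivFin.symm j : ℕ))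
    (fun j => q ^ (e - ((I.equivFin.symm j : ℕ) : ℤ))) (fun j => pw_pos e _) (by
      have h4 : ∑ j : Fin I.card, c (I.equivFin.symm j : ℕ) = ∑ i ∈ I, c i := by
        rw [← Finset.sum_coe_sort I c]
        exact Equiv.sum_comp I.equivFin.symm (fun i : I => c (i : ℕ))
      rw [h4]
      exact hc) hs1
  exact ⟨s, h1, h2, by rw [Fc_fin]; exact h3⟩

private theorem Fc_sub_single (n : ℕ) (e : ℤ) (I : Finset ℕ) (c : ℕ → ℝ) (i1 : ℕ) (hi1 : i1 ∈ I)
    (ε : ℝ) (s : ℝ) :
    Fc n e I (fun i => c i - if i = i1 then ε else 0) s =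
      Fc n e I c s - ε * LP.K n (q ^ (e - (i1 : ℤ)) * s) := by
  rw [Fc, Fc]
  simp only [sub_mul, Finset.sum_sub_distrib]
  congr 1
  rw [Finset.sum_eq_single i1]
  · rw [if_pos rfl]
  · intro j _ hj
    rw [if_neg hj, zero_mul]
  · intro h
    exact absurd hi1 h

private theorem cnt_eq (a : List ℤ) :
    cnt a = ((Finset.range a.length).filter (fun i => a.getD i 0 ≠ 0)).card := by
  induction a with
  | nil => simp [cnt]
  | cons x xs ih =>
    rw [Finset.card_filter] at ih ⊢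
    rw [List.length_cons, Finset.sum_range_succ']
    have h1 : ∀ i, (x :: xs).getD (i + 1) 0 = xs.getD i 0 := fun i => by simp
    have h2 : (x :: xs).getD 0 0 = x := by simp
    simp only [h1, h2]
    rw [← ih]
    by_cases hx : x = 0
    · simp [cnt, hx]
    · simp [cnt, hx]

private noncomputable def supp (a : List ℤ) : Finset ℕ :=
  (Finset.range a.length).filter (fun i => a.getD i 0 ≠ 0)

private theorem FD_eq (n : ℕ) (e : ℤ) (a : List ℤ) (s : ℝ) :
    FD n e a s = Fc n e (supp a) (fun i => (a.getD i 0 : ℝ)) s := by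
  rw [FD, Fc, supp, Finset.sum_filter]
  refine Finset.sum_congr rfl fun i _ => ?_
  split_ifs with h
  · rfl
  · rw [not_not] at h
    rw [h]
    simp

theorem noAlt_cnt (n N : ℕ) (e : ℤ) (a : List ℤ) (h : cnt a ≤ N) : ¬ LP.Alt (FD n e a) N := by
  have h1 : FD n e a = Fc n e (supp a) (fun i => (a.getD i 0 : ℝ)) := by
    funext s
    exact FD_eq n e a s
  rw [h1]
  exact Fc_noAlt n e (supp a) _ (by rw [supp, ← cnt_eq]; exact h)

private theorem getD_sub (a b : List ℤ) (h : a.length = b.length) (i : ℕ) :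
    (List.zipWith (fun x y => x - y) a b).getD i 0 = a.getD i 0 - b.getD i 0 := by
  by_cases hi : i < a.length
  · have hi' : i < b.length := h ▸ hi
    rw [List.getD_eq_getElem _ _ (by simp; omega), List.getD_eq_getElem _ _ hi,
      List.getD_eq_getElem _ _ hi', List.getElem_zipWith]
  · rw [List.getD_eq_default _ _ (by simp; omega), List.getD_eq_default _ _ (by omega),
      List.getD_eq_default _ _ (by omega)]
    simp

theorem FD_sub (n : ℕ) (e : ℤ) (a b : List ℤ) (h : a.length = b.length) (s : ℝ) :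
    FD n e (List.zipWith (fun x y => x - y) a b) s = FD n e a s - FD n e b s := by
  have hl : (List.zipWith (fun x y => x - y) a b).length = a.length := by
    rw [List.length_zipWith, ← h, min_self]
  rw [FD, FD, FD, hl, ← h, ← Finset.sum_sub_distrib]
  refine Finset.sum_congr rfl fun i _ => ?_
  rw [getD_sub a b h i]
  push_cast
  ring

private theorem ev_sub (x k : ℝ) (hx : 0 < x) :
    ∀ᶠ ε in nhdsWithin (0 : ℝ) (Set.Ioi 0), 0 < x - ε * k := by
  have hc : Continuous (fun ε : ℝ => x - ε * k) := by fun_prop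
  have h1 : Filter.Tendsto (fun ε : ℝ => x - ε * k) (nhds 0) (nhds (x - 0 * k)) := hc.tendsto 0
  have h2 : ∀ᶠ ε in nhds (0 : ℝ), 0 < x - ε * k :=
    h1.eventually (lt_mem_nhds (by simpa using hx))
  exact h2.filter_mono nhdsWithin_le_nhds

theorem tail {n M : ℕ} {e : ℤ} {a δ : List ℤ} (hM : 1 ≤ M) (hlen : a.length = δ.length)
    (hcδ : cnt δ ≤ M) (hcG : cnt (List.zipWith (fun x y => x - y) a δ) ≤ M + 2)
    (hlast : 0 < a.getD (a.length - 1) 0) (hlastδ : δ.getD (δ.length - 1) 0 = 0)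
    (t : Fin M → ℝ) (htm : StrictMono t) (ht0 : ∀ i, 0 < t i) {sL : ℝ} (hsL : ∀ i, t i < sL)
    (hD : ∀ i : Fin M, 0 < (-1 : ℝ) ^ (M - 1 - (i : ℕ)) * FD n e δ (t i))
    (hG : ∀ i : Fin M, (-1 : ℝ) ^ (M - 1 - (i : ℕ)) *
      FD n e (List.zipWith (fun x y => x - y) a δ) (t i) < 0)
    (hGL : 0 < FD n e (List.zipWith (fun x y => x - y) a δ) sL) :
    ∀ s, sL ≤ s → 0 < FD n e a s := by
  have hsL0 : 0 < sL := (ht0 ⟨0, hM⟩).trans (hsL ⟨0, hM⟩)
  -- sign identities
  have sg : ∀ i : ℕ, i < M → (-1 : ℝ) ^ (M - 1 - i) = (-1) ^ (M - 1) * (-1) ^ i := by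
    intro i hi
    have h1 : (-1 : ℝ) ^ (M - 1) = (-1) ^ (M - 1 - i) * (-1) ^ i := by
      rw [← pow_add]
      congr 1
      omega
    rw [h1, mul_assoc, ← mul_pow]
    simp
  have sq1 : (-1 : ℝ) ^ (M - 1) * (-1) ^ (M - 1) = 1 := by
    rw [← mul_pow]; simp
  have hM1 : (-1 : ℝ) ^ M = -(-1) ^ (M - 1) := by
    obtain ⟨k, rfl⟩ : ∃ k, M = k + 1 := ⟨M - 1, by omega⟩
    rw [Nat.add_sub_cancel, pow_succ]; ring
  -- (1)
  have hDn : ∀ s', sL ≤ s' → 0 ≤ FD n e δ s' := by
    intro s' hs'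
    by_contra hneg
    push Not at hneg
    apply noAlt_cnt n M e δ hcδ
    refine ⟨(-1) ^ (M - 1), fun i => if h : (i : ℕ) < M then t ⟨i, h⟩ else s', ?_, ?_, ?_⟩
    · intro i j hij
      have hij' : (i : ℕ) < j := hij
      have hj : (j : ℕ) < M + 1 := j.2
      have hi : (i : ℕ) < M := by omega
      simp only [dif_pos hi]
      by_cases hj' : (j : ℕ) < M
      · simp only [dif_pos hj']
        exact htm hij'
      · simp only [dif_neg hj']
        exact (hsL _).trans_le hs'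
    · intro i
      by_cases hi : (i : ℕ) < M
      · simp only [dif_pos hi]
        exact ht0 _
      · simp only [dif_neg hi]
        exact hsL0.trans_le hs'
    · intro i
      by_cases hi : (i : ℕ) < M
      · simp only [dif_pos hi]
        rw [← sg i hi]
        exact hD ⟨i, hi⟩
      · simp only [dif_neg hi]
        have hiM : (i : ℕ) = M := by have := i.2; omega
        rw [hiM, hM1, mul_neg, sq1]
        linarith
  intro s hs
  by_contra hcon
  push Not at hcon
  set g := List.zipWith (fun x y => x - y) a δ with hg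
  have hsub : ∀ x, FD n e g x = FD n e a x - FD n e δ x := FD_sub n e a δ hlen
  have hsne : sL ≠ s := by
    rintro rfl
    have h1 := hsub sL
    have h2 := hDn sL le_rfl
    linarith
  have hslt : sL < s := lt_of_le_of_ne hs hsne
  have hGs : FD n e g s ≤ 0 := by
    have h1 := hsub s
    have h2 := hDn s hs
    linarith
  -- the last index
  have hla : 0 < a.length := by
    by_contra h0
    have h1 : a.length = 0 := by omega
    rw [List.getD_eq_default _ _ (by omega)] at hlast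
    exact lt_irrefl _ hlast
  have hlg : g.length = a.length := by rw [hg, List.length_zipWith, ← hlen, min_self]
  set l := a.length - 1 with hl
  have hgl : g.getD l 0 = a.getD l 0 := by
    rw [hg, getD_sub a δ hlen]
    have h1 : δ.getD l 0 = 0 := by rw [hl, hlen]; exact hlastδ
    rw [h1, sub_zero]
  have hglpos : (0 : ℝ) < (g.getD l 0 : ℝ) := by rw [hgl]; exact_mod_cast hlast
  have hlI : l ∈ supp g := by
    rw [supp, Finset.mem_filter, Finset.mem_range, hlg]
    refine ⟨by omega, ?_⟩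
    rw [hgl]
    exact hlast.ne'
  have hmax : ∀ i ∈ supp g, i ≤ l := by
    intro i hi
    rw [supp, Finset.mem_filter, Finset.mem_range, hlg] at hi
    omega
  -- perturbation
  obtain ⟨ε, hε, hε1, hε2, hε3⟩ : ∃ ε : ℝ, 0 < ε ∧ 0 < (g.getD l 0 : ℝ) - ε * 1 ∧
      0 < FD n e g sL - ε * LP.K n (q ^ (e - (l : ℤ)) * sL) ∧
      ∀ i : Fin M, 0 < -((-1 : ℝ) ^ (M - 1 - (i : ℕ)) * FD n e g (t i)) -
        ε * (-((-1 : ℝ) ^ (M - 1 - (i : ℕ)) * LP.K n (q ^ (e - (l : ℤ)) * t i))) := by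
    have h1 := ev_sub _ 1 hglpos
    have h2 := ev_sub _ (LP.K n (q ^ (e - (l : ℤ)) * sL)) hGL
    have h3 : ∀ᶠ ε in nhdsWithin (0 : ℝ) (Set.Ioi 0), ∀ i : Fin M,
        0 < -((-1 : ℝ) ^ (M - 1 - (i : ℕ)) * FD n e g (t i)) -
        ε * (-((-1 : ℝ) ^ (M - 1 - (i : ℕ)) * LP.K n (q ^ (e - (l : ℤ)) * t i))) := by
      rw [Filter.eventually_all]
      intro i
      apply ev_sub
      linarith [hG i]
    have h4 : ∀ᶠ ε in nhdsWithin (0 : ℝ) (Set.Ioi 0), 0 < ε := self_mem_nhdsWithin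
    obtain ⟨ε, h⟩ := (h4.and (h1.and (h2.and h3))).exists
    exact ⟨ε, h.1, h.2.1, h.2.2.1, h.2.2.2⟩
  set c : ℕ → ℝ := fun i => (g.getD i 0 : ℝ) - if i = l then ε else 0 with hc
  have hG' : ∀ x, Fc n e (supp g) c x =
      FD n e g x - ε * LP.K n (q ^ (e - (l : ℤ)) * x) := by
    intro x
    rw [hc, Fc_sub_single n e (supp g) (fun i => (g.getD i 0 : ℝ)) l hlI ε x, ← FD_eq]
  have hcl : 0 < c l := by
    simp only [hc, if_true]
    linarith
  obtain ⟨s1, hs1, hs1'⟩ := Fc_large n e (supp g) c l hlI hmax hcl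
  have hK : ∀ x : ℝ, 0 < x → 0 < LP.K n (q ^ (e - (l : ℤ)) * x) := fun x hx =>
    LP.K_pos n (mul_pos (pw_pos e l) hx)
  have hs0 : 0 < s := hsL0.trans hslt
  apply Fc_noAlt n e (supp g) c (N := M + 2) (by rw [supp, ← cnt_eq]; exact hcG)
  refine ⟨(-1) ^ M, fun i => if h : (i : ℕ) < M then t ⟨i, h⟩ else
    if (i : ℕ) = M then sL else if (i : ℕ) = M + 1 then s else max s1 (s + 1), ?_, ?_, ?_⟩
  · rw [Fin.strictMono_iff_lt_succ]
    intro i
    have hi := i.2
    show (if h : (i : ℕ) < M then t ⟨i, h⟩ else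
      if (i : ℕ) = M then sL else if (i : ℕ) = M + 1 then s else max s1 (s + 1)) <
      (if h : (i : ℕ) + 1 < M then t ⟨i + 1, h⟩ else
      if (i : ℕ) + 1 = M then sL else if (i : ℕ) + 1 = M + 1 then s else max s1 (s + 1))
    by_cases h1 : (i : ℕ) + 1 < M
    · rw [dif_pos (by omega : (i : ℕ) < M), dif_pos h1]
      exact htm (Nat.lt_succ_self _)
    · by_cases h2 : (i : ℕ) < M
      · rw [dif_pos h2, dif_neg h1, if_pos (by omega)]
        exact hsL _
      · by_cases h3 : (i : ℕ) = M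
        · rw [dif_neg h2, if_pos h3, dif_neg h1, if_neg (by omega), if_pos (by omega)]
          exact hslt
        · rw [dif_neg h2, if_neg h3, if_pos (by omega), dif_neg h1, if_neg (by omega),
            if_neg (by omega)]
          exact lt_of_lt_of_le (by linarith) (le_max_right s1 (s + 1))
  · intro i
    show 0 < (if h : (i : ℕ) < M then t ⟨i, h⟩ else
      if (i : ℕ) = M then sL else if (i : ℕ) = M + 1 then s else max s1 (s + 1))
    split_ifs
    · exact ht0 _
    · exact hsL0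
    · exact hs0
    · exact hs1.trans_le (le_max_left _ _)
  · intro i
    have hi := i.2
    show 0 < (-1) ^ M * (-1) ^ (i : ℕ) * Fc n e (supp g) c (if h : (i : ℕ) < M then t ⟨i, h⟩ else
      if (i : ℕ) = M then sL else if (i : ℕ) = M + 1 then s else max s1 (s + 1))
    by_cases h1 : (i : ℕ) < M
    · rw [dif_pos h1, hG']
      have h2 := hε3 ⟨i, h1⟩
      rw [hM1]
      have h3 := sg i h1
      simp only at h2
      rw [h3] at h2
      nlinarith
    · have sqM : (-1 : ℝ) ^ M * (-1) ^ M = 1 := by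
        rw [← mul_pow]; simp
      by_cases h2 : (i : ℕ) = M
      · rw [dif_neg h1, if_pos h2, hG', h2, sqM, one_mul]
        exact hε2
      · by_cases h3 : (i : ℕ) = M + 1
        · rw [dif_neg h1, if_neg h2, if_pos h3, hG', h3, pow_succ, ← mul_assoc, sqM]
          have h4 := mul_pos hε (hK s hs0)
          linarith
        · have h4 : (i : ℕ) = M + 1 + 1 := by omega
          rw [dif_neg h1, if_neg h2, if_neg h3, h4, pow_succ, pow_succ, ← mul_assoc, ← mul_assoc,
            sqM]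
          have h5 := hs1' (max s1 (s + 1)) (le_max_left _ _)
          linarith

private theorem smono_cons {M : ℕ} {x : ℝ} {t : Fin M → ℝ} (ht : StrictMono t)
    (hx : ∀ i, x < t i) : StrictMono (Fin.cons x t : Fin (M + 1) → ℝ) := by
  intro i j
  refine Fin.cases ?_ (fun i' => ?_) i
  · refine Fin.cases ?_ (fun j' => ?_) j
    · intro h
      exact absurd h (lt_irrefl _)
    · intro _
      exact hx j'
  · refine Fin.cases ?_ (fun j' => ?_) j
    · intro h
      exact absurd h (Fin.not_lt_zero _)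
    · intro h
      exact ht (Fin.succ_lt_succ_iff.1 h)

private theorem pos_cons {M : ℕ} {x : ℝ} {t : Fin M → ℝ} (ht : ∀ i, 0 < t i) (hx : 0 < x) :
    ∀ i, 0 < (Fin.cons x t : Fin (M + 1) → ℝ) i := by
  intro i
  refine Fin.cases ?_ (fun i' => ?_) i
  · exact hx
  · exact ht i'

private theorem sum_getD (a : List ℤ) :
    ((a.sum : ℤ) : ℝ) = ∑ i ∈ Finset.range a.length, (a.getD i 0 : ℝ) := by
  induction a with
  | nil => simp
  | cons x xs ih =>
    rw [List.length_cons, Finset.sum_range_succ', List.sum_cons]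
    have h1 : ∀ i, (x :: xs).getD (i + 1) 0 = xs.getD i 0 := fun i => by simp
    have h2 : (x :: xs).getD 0 0 = x := by simp
    simp only [h1, h2]
    rw [← ih]
    push_cast
    ring

private theorem sum_supp (a : List ℤ) :
    ((a.sum : ℤ) : ℝ) = ∑ i ∈ supp a, (a.getD i 0 : ℝ) := by
  rw [sum_getD, supp, Finset.sum_filter]
  refine Finset.sum_congr rfl fun i _ => ?_
  split_ifs with h
  · rfl
  · rw [not_not] at h
    rw [h]
    simp

theorem head {n M : ℕ} {e : ℤ} {a δ : List ℤ} (hM : 1 ≤ M) (hlen : a.length = δ.length)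
    (hcδ : cnt δ ≤ M) (hcG : cnt (List.zipWith (fun x y => x - y) a δ) ≤ M + 2)
    (hsum : 0 < (List.zipWith (fun x y => x - y) a δ).sum)
    (t : Fin M → ℝ) (htm : StrictMono t) {sh : ℝ} (hsh0 : 0 < sh) (hsh : ∀ i, sh < t i)
    (hD : ∀ i : Fin M, 0 < (-1 : ℝ) ^ (i : ℕ) * FD n e δ (t i))
    (hG : ∀ i : Fin M, (-1 : ℝ) ^ (i : ℕ) *
      FD n e (List.zipWith (fun x y => x - y) a δ) (t i) < 0)
    (hGh : 0 < FD n e (List.zipWith (fun x y => x - y) a δ) sh) :
    ∀ s, 0 < s → s ≤ sh → 0 < FD n e a s := by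
  have ht0 : ∀ i, 0 < t i := fun i => hsh0.trans (hsh i)
  -- (1)
  have hDn : ∀ s', 0 < s' → s' ≤ sh → 0 ≤ FD n e δ s' := by
    intro s' hs'0 hs'
    by_contra hneg
    push Not at hneg
    apply noAlt_cnt n M e δ hcδ
    refine ⟨-1, Fin.cons s' t, smono_cons htm (fun i => hs'.trans_lt (hsh i)),
      pos_cons ht0 hs'0, ?_⟩
    intro i
    refine Fin.cases ?_ (fun j => ?_) i
    · show 0 < -1 * (-1) ^ 0 * FD n e δ s'
      rw [pow_zero]
      linarith
    · show 0 < -1 * (-1) ^ ((j : ℕ) + 1) * FD n e δ (t j)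
      rw [pow_succ]
      have := hD j
      linarith
  intro s hs0 hs
  by_contra hcon
  push Not at hcon
  set g := List.zipWith (fun x y => x - y) a δ with hg
  have hsub : ∀ x, FD n e g x = FD n e a x - FD n e δ x := FD_sub n e a δ hlen
  have hsne : s ≠ sh := by
    rintro rfl
    have h1 := hsub s
    have h2 := hDn s hs0 le_rfl
    linarith
  have hslt : s < sh := lt_of_le_of_ne hs hsne
  have hGs : FD n e g s ≤ 0 := by
    have h1 := hsub s
    have h2 := hDn s hs0 hs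
    linarith
  have hsumR : (0 : ℝ) < ∑ i ∈ supp g, (g.getD i 0 : ℝ) := by
    rw [← sum_supp]
    exact_mod_cast hsum
  obtain ⟨l, hlI⟩ : (supp g).Nonempty := by
    by_contra h0
    rw [Finset.not_nonempty_iff_eq_empty] at h0
    rw [h0, Finset.sum_empty] at hsumR
    exact lt_irrefl _ hsumR
  -- perturbation
  obtain ⟨ε, hε, hε1, hε2, hε3⟩ : ∃ ε : ℝ, 0 < ε ∧
      0 < (∑ i ∈ supp g, (g.getD i 0 : ℝ)) - ε * 1 ∧
      0 < FD n e g sh - ε * LP.K n (q ^ (e - (l : ℤ)) * sh) ∧
      ∀ i : Fin M, 0 < -((-1 : ℝ) ^ (i : ℕ) * FD n e g (t i)) -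
        ε * (-((-1 : ℝ) ^ (i : ℕ) * LP.K n (q ^ (e - (l : ℤ)) * t i))) := by
    have h1 := ev_sub _ 1 hsumR
    have h2 := ev_sub _ (LP.K n (q ^ (e - (l : ℤ)) * sh)) hGh
    have h3 : ∀ᶠ ε in nhdsWithin (0 : ℝ) (Set.Ioi 0), ∀ i : Fin M,
        0 < -((-1 : ℝ) ^ (i : ℕ) * FD n e g (t i)) -
        ε * (-((-1 : ℝ) ^ (i : ℕ) * LP.K n (q ^ (e - (l : ℤ)) * t i))) := by
      rw [Filter.eventually_all]
      intro i
      apply ev_sub
      linarith [hG i]
    have h4 : ∀ᶠ ε in nhdsWithin (0 : ℝ) (Set.Ioi 0), 0 < ε := self_mem_nhdsWithin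
    obtain ⟨ε, h⟩ := (h4.and (h1.and (h2.and h3))).exists
    exact ⟨ε, h.1, h.2.1, h.2.2.1, h.2.2.2⟩
  set c : ℕ → ℝ := fun i => (g.getD i 0 : ℝ) - if i = l then ε else 0 with hc
  have hG' : ∀ x, Fc n e (supp g) c x =
      FD n e g x - ε * LP.K n (q ^ (e - (l : ℤ)) * x) := by
    intro x
    rw [hc, Fc_sub_single n e (supp g) (fun i => (g.getD i 0 : ℝ)) l hlI ε x, ← FD_eq]
  have hcsum : 0 < ∑ i ∈ supp g, c i := by
    simp only [hc, Finset.sum_sub_distrib]
    rw [Finset.sum_ite_eq' (supp g) l (fun _ => ε), if_pos hlI]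
    linarith
  obtain ⟨s1, hs1, hs1s, hs1'⟩ := Fc_small n e (supp g) c hcsum hs0
  have hK : ∀ x : ℝ, 0 < x → 0 < LP.K n (q ^ (e - (l : ℤ)) * x) := fun x hx =>
    LP.K_pos n (mul_pos (pw_pos e l) hx)
  apply Fc_noAlt n e (supp g) c (N := M + 2) (by rw [supp, ← cnt_eq]; exact hcG)
  have m1 := smono_cons htm hsh
  have m2 : StrictMono (Fin.cons s (Fin.cons sh t : Fin (M + 1) → ℝ) : Fin (M + 2) → ℝ) := by
    refine smono_cons m1 fun i => ?_
    refine Fin.cases ?_ (fun j => ?_) i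
    · exact hslt
    · exact hslt.trans (hsh j)
  have m3 : StrictMono (Fin.cons s1 (Fin.cons s (Fin.cons sh t : Fin (M + 1) → ℝ) :
      Fin (M + 2) → ℝ) : Fin (M + 3) → ℝ) := by
    refine smono_cons m2 fun i => ?_
    refine Fin.cases ?_ (fun j => ?_) i
    · exact hs1s
    · refine Fin.cases ?_ (fun k => ?_) j
      · exact hs1s.trans hslt
      · exact (hs1s.trans hslt).trans (hsh k)
  refine ⟨1, _, m3, pos_cons (pos_cons (pos_cons ht0 hsh0) hs0) hs1, ?_⟩
  intro i
  refine Fin.cases ?_ (fun j => ?_) i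
  · show 0 < 1 * (-1) ^ 0 * Fc n e (supp g) c s1
    rw [pow_zero, one_mul, one_mul]
    exact hs1'
  · refine Fin.cases ?_ (fun k => ?_) j
    · show 0 < 1 * (-1) ^ (0 + 1) * Fc n e (supp g) c s
      rw [hG']
      have h4 := mul_pos hε (hK s hs0)
      rw [zero_add, pow_one]
      linarith
    · refine Fin.cases ?_ (fun r => ?_) k
      · show 0 < 1 * (-1) ^ (0 + 1 + 1) * Fc n e (supp g) c sh
        rw [hG']
        have h5 : (1 : ℝ) * (-1) ^ (0 + 1 + 1) = 1 := by norm_num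
        rw [h5, one_mul]
        exact hε2
      · show 0 < 1 * (-1) ^ ((r : ℕ) + 1 + 1 + 1) * Fc n e (supp g) c (t r)
        rw [hG']
        have h2 := hε3 r
        have h5 : (1 : ℝ) * (-1) ^ ((r : ℕ) + 1 + 1 + 1) = -(-1) ^ (r : ℕ) := by
          rw [pow_succ, pow_succ, pow_succ]
          ring
        rw [h5]
        linarith

end H81.L2
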