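import Pool.Agent.H81.L2.T61
import Pool.Agent.H81.L2.T62
import Pool.Agent.H81.L2.T63
import Pool.Agent.H81.L2.T64
import Pool.Agent.H81.L2.T65
import Pool.Agent.H81.L2.T66
import Pool.Agent.H81.L2.T67
import Pool.Agent.H81.L2.T68
import Pool.Agent.H81.L2.T69
import Pool.Agent.H81.L2.T70
import Pool.Agent.H81.L2.T71
import Pool.Agent.H81.L2.T72
import Pool.Agent.H81.L2.T73
import Pool.Agent.H81.L2.T74
import Pool.Agent.H81.L2.T75
import Pool.Agent.H81.L2.T76
import Pool.Agent.H81.L2.T77
import Pool.Agent.H81.L2.T78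
import Pool.Agent.H81.L2.T79
import Pool.Agent.H81.L2.T80

/-! Generated: the families of tables. -/

namespace H81.L2

set_option maxRecDepth 100000

def LL4 : List (List ℕ) := [L4_61, L4_62, L4_63, ((L4_64.drop 42).take 98), L4_65, L4_66, L4_67, L4_68, L4_69, L4_70, L4_71, L4_72, L4_73, L4_74, L4_75, L4_76, L4_77, L4_78, L4_79, L4_80]

theorem eN4_drop : (eN4.drop 42).take 98 = eW4 := by decide +kernel

theorem fam4 : FamOK 4 40 LL4 eW4 := by
  intro i hi
  interval_cases i
  · exact (seg61.1).cast (by norm_num)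
  · exact (seg62.1).cast (by norm_num)
  · exact (seg63.1).cast (by norm_num)
  · have h := (seg64.1).drop 42
    exact h.take 98 eN4_drop (by norm_num)
  · exact (seg65.1).cast (by norm_num)
  · exact (seg66.1).cast (by norm_num)
  · exact (seg67.1).cast (by norm_num)
  · exact (seg68.1).cast (by norm_num)
  · exact (seg69.1).cast (by norm_num)
  · exact (seg70.1).cast (by norm_num)
  · exact (seg71.1).cast (by norm_num)
  · exact (seg72.1).cast (by norm_num)
  · exact (seg73.1).cast (by norm_num)
  · exact (seg74.1).cast (by norm_num)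
  · exact (seg75.1).cast (by norm_num)
  · exact (seg76.1).cast (by norm_num)
  · exact (seg77.1).cast (by norm_num)
  · exact (seg78.1).cast (by norm_num)
  · exact (seg79.1).cast (by norm_num)
  · exact (seg80.1).cast (by norm_num)

theorem len4 : ∀ i, i < 20 → (LL4.getD i []).length = 98 := by decide +kernel

def LL5 : List (List ℕ) := [L5_61, L5_62, L5_63, ((L5_64.drop 42).take 105), L5_65, L5_66, L5_67, L5_68, L5_69, L5_70, L5_71, L5_72, L5_73, L5_74, L5_75, L5_76, L5_77, L5_78, L5_79, L5_80]

theorem eN5_drop : (eN5.drop 42).take 105 = eW5 := by decide +kernel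

theorem fam5 : FamOK 5 40 LL5 eW5 := by
  intro i hi
  interval_cases i
  · exact (seg61.2.1).cast (by norm_num)
  · exact (seg62.2.1).cast (by norm_num)
  · exact (seg63.2.1).cast (by norm_num)
  · have h := (seg64.2.1).drop 42
    exact h.take 105 eN5_drop (by norm_num)
  · exact (seg65.2.1).cast (by norm_num)
  · exact (seg66.2.1).cast (by norm_num)
  · exact (seg67.2.1).cast (by norm_num)
  · exact (seg68.2.1).cast (by norm_num)
  · exact (seg69.2.1).cast (by norm_num)
  · exact (seg70.2.1).cast (by norm_num)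
  · exact (seg71.2.1).cast (by norm_num)
  · exact (seg72.2.1).cast (by norm_num)
  · exact (seg73.2.1).cast (by norm_num)
  · exact (seg74.2.1).cast (by norm_num)
  · exact (seg75.2.1).cast (by norm_num)
  · exact (seg76.2.1).cast (by norm_num)
  · exact (seg77.2.1).cast (by norm_num)
  · exact (seg78.2.1).cast (by norm_num)
  · exact (seg79.2.1).cast (by norm_num)
  · exact (seg80.2.1).cast (by norm_num)

theorem len5 : ∀ i, i < 20 → (LL5.getD i []).length = 105 := by decide +kernel

def LL6 : List (List ℕ) := [L6_61, L6_62, L6_63, ((L6_64.drop 42).take 121), L6_65, L6_66, L6_67, L6_68, L6_69, L6_70, L6_71, L6_72, L6_73, L6_74, L6_75, L6_76, L6_77, L6_78, L6_79, L6_80]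

theorem eN6_drop : (eN6.drop 42).take 121 = eW6 := by decide +kernel

theorem fam6 : FamOK 6 40 LL6 eW6 := by
  intro i hi
  interval_cases i
  · exact (seg61.2.2.1).cast (by norm_num)
  · exact (seg62.2.2.1).cast (by norm_num)
  · exact (seg63.2.2.1).cast (by norm_num)
  · have h := (seg64.2.2.1).drop 42
    exact h.take 121 eN6_drop (by norm_num)
  · exact (seg65.2.2.1).cast (by norm_num)
  · exact (seg66.2.2.1).cast (by norm_num)
  · exact (seg67.2.2.1).cast (by norm_num)
  · exact (seg68.2.2.1).cast (by norm_num)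
  · exact (seg69.2.2.1).cast (by norm_num)
  · exact (seg70.2.2.1).cast (by norm_num)
  · exact (seg71.2.2.1).cast (by norm_num)
  · exact (seg72.2.2.1).cast (by norm_num)
  · exact (seg73.2.2.1).cast (by norm_num)
  · exact (seg74.2.2.1).cast (by norm_num)
  · exact (seg75.2.2.1).cast (by norm_num)
  · exact (seg76.2.2.1).cast (by norm_num)
  · exact (seg77.2.2.1).cast (by norm_num)
  · exact (seg78.2.2.1).cast (by norm_num)
  · exact (seg79.2.2.1).cast (by norm_num)
  · exact (seg80.2.2.1).cast (by norm_num)

theorem len6 : ∀ i, i < 20 → (LL6.getD i []).length = 121 := by decide +kernel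

def LL7 : List (List ℕ) := [L7_61, L7_62, L7_63, ((L7_64.drop 42).take 136), L7_65, L7_66, L7_67, L7_68, L7_69, L7_70, L7_71, L7_72, L7_73, L7_74, L7_75, L7_76, L7_77, L7_78, L7_79, L7_80]

theorem eN7_drop : (eN7.drop 42).take 136 = eW7 := by decide +kernel

theorem fam7 : FamOK 7 40 LL7 eW7 := by
  intro i hi
  interval_cases i
  · exact (seg61.2.2.2).cast (by norm_num)
  · exact (seg62.2.2.2).cast (by norm_num)
  · exact (seg63.2.2.2).cast (by norm_num)
  · have h := (seg64.2.2.2).drop 42
    exact h.take 136 eN7_drop (by norm_num)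
  · exact (seg65.2.2.2).cast (by norm_num)
  · exact (seg66.2.2.2).cast (by norm_num)
  · exact (seg67.2.2.2).cast (by norm_num)
  · exact (seg68.2.2.2).cast (by norm_num)
  · exact (seg69.2.2.2).cast (by norm_num)
  · exact (seg70.2.2.2).cast (by norm_num)
  · exact (seg71.2.2.2).cast (by norm_num)
  · exact (seg72.2.2.2).cast (by norm_num)
  · exact (seg73.2.2.2).cast (by norm_num)
  · exact (seg74.2.2.2).cast (by norm_num)
  · exact (seg75.2.2.2).cast (by norm_num)
  · exact (seg76.2.2.2).cast (by norm_num)
  · exact (seg77.2.2.2).cast (by norm_num)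
  · exact (seg78.2.2.2).cast (by norm_num)
  · exact (seg79.2.2.2).cast (by norm_num)
  · exact (seg80.2.2.2).cast (by norm_num)

theorem len7 : ∀ i, i < 20 → (LL7.getD i []).length = 136 := by decide +kernel

end H81.L2
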