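import Pool.Agent.H81.L2.C5

/-! Generated: the final steps for `d = 5`. -/

namespace H81.L2

open H81

set_option maxRecDepth 100000

/-- exponents -/
def m5 : Fin 10 → ℤ := ![-38, -36, -34, -32, -29, -25, -22, -19, -16, -14]

/-- coefficients -/
def c5 : Fin 10 → ℤ := ![-2501906601275740, 20219301507455814, -64944561845800051, 93530522410224610, -86212235108562593, 93995302310931253, -92681169816951800, 54840814338691720, -21472611328860219, 5227544134147007]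

/-- coefficients of the dual function -/
def cD5 : Fin 10 → ℤ := ![-9358217378086380701072833676884605181910728764442218940, 62503280809777198682298379977330817532703393269329085400, -165918222536072617797292639466201875892440277272224910000, 197478256904567617359272480300805263577077700355810000000, -136759270082647317514882095590772246702342742363000000000, 101841146059883364348488274262508003567345030000000000000, -75445020394884649121909709053465949278000000000000000000, 33540143244047562656482148303184105200000000000000000000, -9866606900266063095075519887632590000000000000000000000, 1985159014991373574043865509687000000000000000000000000]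

theorem m5_mono : StrictMono m5 := by
  rw [Fin.strictMono_iff_lt_succ]
  decide

theorem p5_sum : ∀ s : ℝ, FD 4 (-14) p5 s = ∑ j, ((-c5 j : ℤ) : ℝ) * LP.K 4 (q ^ (m5 j) * s) :=
  fun s => FD_eq_sum m5 (fun j => -c5 j) m5_mono.injective (by decide +kernel) (by decide +kernel) s

theorem a5_sum : ∀ s : ℝ, FD 4 (38) a5 s = ∑ j, (cD5 j : ℝ) * LP.K 4 (q ^ (-m5 j) * s) :=
  fun s => FD_eq_sum (fun j => -m5 j) cD5 (fun i j h => m5_mono.injective (neg_injective h))
    (by decide +kernel) (by decide +kernel) s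

theorem div_eq5 (z : ℤ) : q ^ z / q ^ (3 : ℕ) = q ^ (z - 3) := by
  rw [zpow_sub₀ q_pos.ne']
  norm_cast

theorem mul_eq5 (z : ℤ) (j : ℕ) : (q ^ (3 : ℕ)) ^ j * q ^ z = q ^ (3 * (j : ℤ) + z) := by
  rw [zpow_add₀ q_pos.ne', zpow_mul]
  norm_cast

theorem b5_small : ∀ s, 0 < s → s ≤ q ^ (-68 : ℤ) → 0 < FD 4 (38) b5 s := by
  refine step_up (r := 3) (by norm_num) b5_psi (s1 := q ^ (-53 : ℤ)) (zpow_pos q_pos _) v5_neg ?_ ?_
  · rw [mul_eq5]
    apply zpow_le_zpow_right₀ one_lt_q.le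
    norm_num
  · intro k hk s h1 h2
    rw [div_eq5, show (-68 : ℤ) - 3 = -71 by norm_num] at h1
    interval_cases k
    · rw [show (38 : ℤ) + ((0 : ℕ) : ℤ) * ((3 : ℕ) : ℤ) = 38 by norm_num]
      exact b5_per0 s h1 h2
    · rw [show (38 : ℤ) + ((1 : ℕ) : ℤ) * ((3 : ℕ) : ℤ) = 41 by norm_num, b5_t1_eq]
      exact b5_per1 s h1 h2
    · rw [show (38 : ℤ) + ((2 : ℕ) : ℤ) * ((3 : ℕ) : ℤ) = 44 by norm_num, b5_t2_eq]
      exact b5_per2 s h1 h2
    · rw [show (38 : ℤ) + ((3 : ℕ) : ℤ) * ((3 : ℕ) : ℤ) = 47 by norm_num, b5_t3_eq]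
      exact b5_per3 s h1 h2
    · rw [show (38 : ℤ) + ((4 : ℕ) : ℤ) * ((3 : ℕ) : ℤ) = 50 by norm_num, b5_t4_eq]
      exact b5_per4 s h1 h2

theorem b5_pos : ∀ s, 0 < s → s ≤ q ^ (-44 : ℤ) → 0 < FD 4 (38) b5 s := by
  intro s h0 h1
  rcases le_total s (q ^ (-68 : ℤ)) with h | h
  · exact b5_small s h0 h
  · exact b5_win s h h1

theorem a5_small : ∀ s, 0 < s → s ≤ q ^ (-56 : ℤ) → 0 < FD 4 (38) a5 s := by
  refine step_top (r := 3) (by norm_num) (by norm_num) a5_psi (s1 := q ^ (-44 : ℤ)) (zpow_pos q_pos _)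
    (fun s h0 h1 => (b5_pos s h0 h1).le) (by decide +kernel) ?_ ?_
  · rw [mul_eq5]
    apply zpow_le_zpow_right₀ one_lt_q.le
    norm_num
  · intro k hk s h1 h2
    rw [div_eq5, show (-56 : ℤ) - 3 = -59 by norm_num] at h1
    interval_cases k
    · rw [show (38 : ℤ) + ((0 : ℕ) : ℤ) * ((3 : ℕ) : ℤ) = 38 by norm_num]
      exact a5_per0 s h1 h2
    · rw [show (38 : ℤ) + ((1 : ℕ) : ℤ) * ((3 : ℕ) : ℤ) = 41 by norm_num, a5_t1_eq]
      exact a5_per1 s h1 h2
    · rw [show (38 : ℤ) + ((2 : ℕ) : ℤ) * ((3 : ℕ) : ℤ) = 44 by norm_num, a5_t2_eq]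
      exact a5_per2 s h1 h2
    · rw [show (38 : ℤ) + ((3 : ℕ) : ℤ) * ((3 : ℕ) : ℤ) = 47 by norm_num, a5_t3_eq]
      exact a5_per3 s h1 h2

theorem a5_pos : ∀ s, 0 < s → 0 < FD 4 (38) a5 s := by
  intro s h0
  rcases le_total s (q ^ (-56 : ℤ)) with h | h
  · exact a5_small s h0 h
  · rcases le_total s (q ^ (1 : ℤ)) with h' | h'
    · exact a5_win s h h'
    · exact a5_tail s h'

theorem p5_pos : ∀ s, 1 ≤ s → 0 < FD 4 (-14) p5 s := by
  intro s h0
  rcases le_total s (q ^ (54 : ℤ)) with h | h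
  · exact p5_win s (by rw [zpow_zero]; exact h0) h
  · exact p5_tail s h

theorem cD5_eq : ∀ j, (cD5 j : ℝ) = 10 ^ 38 * ((c5 j : ℝ) * (10 / 11 : ℝ) ^ (m5 j)) := by
  intro j
  have h : cD5 j = 10 ^ (38 - (-m5 j).toNat) * (c5 j * 11 ^ (-m5 j).toNat) ∧
      (-m5 j).toNat ≤ 38 ∧ m5 j ≤ 0 := by
    revert j
    decide +kernel
  obtain ⟨h1, h2, h3⟩ := h
  obtain ⟨t, ht⟩ : ∃ t : ℕ, m5 j = -(t : ℤ) := ⟨(-m5 j).toNat, by omega⟩
  rw [ht] at h1 h2 ⊢
  simp only [neg_neg, Int.toNat_natCast] at h1 h2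
  rw [h1, zpow_neg, zpow_natCast, ← inv_pow]
  push_cast
  have e1 : (10 : ℝ) ^ 38 = 10 ^ (38 - t) * 10 ^ t := by
    rw [← pow_add, Nat.sub_add_cancel h2]
  rw [e1]
  have e2 : ((10 : ℝ) / 11)⁻¹ = 11 / 10 := by norm_num
  rw [e2, div_pow]
  field_simp

theorem cond5 : LP.Cond 4 (fun j => (c5 j : ℝ)) (fun j => q ^ (m5 j)) :=
  cond_of c5 m5 m5_mono (by decide) (by decide) p5_sum p5_pos cD5 (μ := 10 ^ 38) (by positivity)
    cD5_eq a5_sum a5_pos

theorem final5 (g : Matrix (Fin 5) (Fin 5) ℝ) (hg : g.det ≠ 0) :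
    ∃ x : Fin 5 → ℤ, x ≠ 0 ∧ |∏ i, ∑ j, g i j * (x j : ℝ)| < |g.det| / (567 / 5) := by
  have hs1 : ∑ j, (c5 j : ℝ) = ((∑ j, c5 j : ℤ) : ℝ) := by push_cast; rfl
  have hs2 : ∑ j, (cD5 j : ℝ) = ((∑ j, cD5 j : ℤ) : ℝ) := by push_cast; rfl
  have hv1 : ∑ j, c5 j = 1000000000001 := by decide +kernel
  have hv2 : ∑ j, cD5 j = 648741310088390352350678557922822432375225471956460 := by decide +kernel
  refine final cond5 cD5 (μ := 10 ^ 38) (by positivity) cD5_eq (by norm_num) ?_ ?_ g hg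
  · rw [hs2, hv2]
    norm_num
  · rw [hs1, hs2, hv1, hv2]
    norm_num

end H81.L2
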