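import Pool.Agent.H81.L2.C6

/-! Generated: the final steps for `d = 6`. -/

namespace H81.L2

open H81

set_option maxRecDepth 100000

/-- exponents -/
def m6 : Fin 10 → ℤ := ![-51, -49, -47, -44, -40, -37, -33, -29, -26, -24]

/-- coefficients -/
def c6 : Fin 10 → ℤ := ![-4238688106401676, 28329075805261244, -63599913531961982, 92705013867445713, -151307522478057799, 167058722991160476, -114342464949300143, 74958753403455367, -40813177433368839, 11251200431767640]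

/-- coefficients of the dual function -/
def cD6 : Fin 10 → ℤ := ![-547341533091664822722218966437776300131622347470563450826405227646436, 3023249427339235293264114614572779069765793780767658481980443606120400, -5609352436207282015690894958681640425974075216433354218809525777220000, 6143012091665730860351429698066622482753634995651542881720112330000000, -6848065829221945429041233432869539344687540169009772891939900000000000, 5680656227460588784511190635816093663141093961088215819600000000000000, -2655621405198104998397979870395378476527836930505733000000000000000000, 1189077674282864352339490756888427317930690999970000000000000000000000, -486418653716474105114202585231252354204344790000000000000000000000000, 110821316534842426013159201860748068625240000000000000000000000000000]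

theorem m6_mono : StrictMono m6 := by
  rw [Fin.strictMono_iff_lt_succ]
  decide

theorem p6_sum : ∀ s : ℝ, FD 5 (-24) p6 s = ∑ j, ((-c6 j : ℤ) : ℝ) * LP.K 5 (q ^ (m6 j) * s) :=
  fun s => FD_eq_sum m6 (fun j => -c6 j) m6_mono.injective (by decide +kernel) (by decide +kernel) s

theorem a6_sum : ∀ s : ℝ, FD 5 (51) a6 s = ∑ j, (cD6 j : ℝ) * LP.K 5 (q ^ (-m6 j) * s) :=
  fun s => FD_eq_sum (fun j => -m6 j) cD6 (fun i j h => m6_mono.injective (neg_injective h))
    (by decide +kernel) (by decide +kernel) s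

theorem div_eq6 (z : ℤ) : q ^ z / q ^ (3 : ℕ) = q ^ (z - 3) := by
  rw [zpow_sub₀ q_pos.ne']
  norm_cast

theorem mul_eq6 (z : ℤ) (j : ℕ) : (q ^ (3 : ℕ)) ^ j * q ^ z = q ^ (3 * (j : ℤ) + z) := by
  rw [zpow_add₀ q_pos.ne', zpow_mul]
  norm_cast

theorem b6_small : ∀ s, 0 < s → s ≤ q ^ (-85 : ℤ) → 0 < FD 5 (51) b6 s := by
  refine step_up (r := 3) (by norm_num) b6_psi (s1 := q ^ (-67 : ℤ)) (zpow_pos q_pos _) v6_neg ?_ ?_
  · rw [mul_eq6]
    apply zpow_le_zpow_right₀ one_lt_q.le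
    norm_num
  · intro k hk s h1 h2
    rw [div_eq6, show (-85 : ℤ) - 3 = -88 by norm_num] at h1
    interval_cases k
    · rw [show (51 : ℤ) + ((0 : ℕ) : ℤ) * ((3 : ℕ) : ℤ) = 51 by norm_num]
      exact b6_per0 s h1 h2
    · rw [show (51 : ℤ) + ((1 : ℕ) : ℤ) * ((3 : ℕ) : ℤ) = 54 by norm_num, b6_t1_eq]
      exact b6_per1 s h1 h2
    · rw [show (51 : ℤ) + ((2 : ℕ) : ℤ) * ((3 : ℕ) : ℤ) = 57 by norm_num, b6_t2_eq]
      exact b6_per2 s h1 h2
    · rw [show (51 : ℤ) + ((3 : ℕ) : ℤ) * ((3 : ℕ) : ℤ) = 60 by norm_num, b6_t3_eq]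
      exact b6_per3 s h1 h2
    · rw [show (51 : ℤ) + ((4 : ℕ) : ℤ) * ((3 : ℕ) : ℤ) = 63 by norm_num, b6_t4_eq]
      exact b6_per4 s h1 h2
    · rw [show (51 : ℤ) + ((5 : ℕ) : ℤ) * ((3 : ℕ) : ℤ) = 66 by norm_num, b6_t5_eq]
      exact b6_per5 s h1 h2

theorem b6_pos : ∀ s, 0 < s → s ≤ q ^ (-54 : ℤ) → 0 < FD 5 (51) b6 s := by
  intro s h0 h1
  rcases le_total s (q ^ (-85 : ℤ)) with h | h
  · exact b6_small s h0 h
  · exact b6_win s h h1

theorem a6_small : ∀ s, 0 < s → s ≤ q ^ (-69 : ℤ) → 0 < FD 5 (51) a6 s := by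
  refine step_top (r := 3) (by norm_num) (by norm_num) a6_psi (s1 := q ^ (-54 : ℤ)) (zpow_pos q_pos _)
    (fun s h0 h1 => (b6_pos s h0 h1).le) (by decide +kernel) ?_ ?_
  · rw [mul_eq6]
    apply zpow_le_zpow_right₀ one_lt_q.le
    norm_num
  · intro k hk s h1 h2
    rw [div_eq6, show (-69 : ℤ) - 3 = -72 by norm_num] at h1
    interval_cases k
    · rw [show (51 : ℤ) + ((0 : ℕ) : ℤ) * ((3 : ℕ) : ℤ) = 51 by norm_num]
      exact a6_per0 s h1 h2
    · rw [show (51 : ℤ) + ((1 : ℕ) : ℤ) * ((3 : ℕ) : ℤ) = 54 by norm_num, a6_t1_eq]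
      exact a6_per1 s h1 h2
    · rw [show (51 : ℤ) + ((2 : ℕ) : ℤ) * ((3 : ℕ) : ℤ) = 57 by norm_num, a6_t2_eq]
      exact a6_per2 s h1 h2
    · rw [show (51 : ℤ) + ((3 : ℕ) : ℤ) * ((3 : ℕ) : ℤ) = 60 by norm_num, a6_t3_eq]
      exact a6_per3 s h1 h2
    · rw [show (51 : ℤ) + ((4 : ℕ) : ℤ) * ((3 : ℕ) : ℤ) = 63 by norm_num, a6_t4_eq]
      exact a6_per4 s h1 h2

theorem a6_pos : ∀ s, 0 < s → 0 < FD 5 (51) a6 s := by
  intro s h0
  rcases le_total s (q ^ (-69 : ℤ)) with h | h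
  · exact a6_small s h0 h
  · rcases le_total s (q ^ (-14 : ℤ)) with h' | h'
    · exact a6_win s h h'
    · exact a6_tail s h'

theorem p6_pos : ∀ s, 1 ≤ s → 0 < FD 5 (-24) p6 s := by
  intro s h0
  rcases le_total s (q ^ (64 : ℤ)) with h | h
  · exact p6_win s (by rw [zpow_zero]; exact h0) h
  · exact p6_tail s h

theorem cD6_eq : ∀ j, (cD6 j : ℝ) = 10 ^ 51 * ((c6 j : ℝ) * (10 / 11 : ℝ) ^ (m6 j)) := by
  intro j
  have h : cD6 j = 10 ^ (51 - (-m6 j).toNat) * (c6 j * 11 ^ (-m6 j).toNat) ∧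
      (-m6 j).toNat ≤ 51 ∧ m6 j ≤ 0 := by
    revert j
    decide +kernel
  obtain ⟨h1, h2, h3⟩ := h
  obtain ⟨t, ht⟩ : ∃ t : ℕ, m6 j = -(t : ℤ) := ⟨(-m6 j).toNat, by omega⟩
  rw [ht] at h1 h2 ⊢
  simp only [neg_neg, Int.toNat_natCast] at h1 h2
  rw [h1, zpow_neg, zpow_natCast, ← inv_pow]
  push_cast
  have e1 : (10 : ℝ) ^ 51 = 10 ^ (51 - t) * 10 ^ t := by
    rw [← pow_add, Nat.sub_add_cancel h2]
  rw [e1]
  have e2 : ((10 : ℝ) / 11)⁻¹ = 11 / 10 := by norm_num
  rw [e2, div_pow]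
  field_simp

theorem cond6 : LP.Cond 5 (fun j => (c6 j : ℝ)) (fun j => q ^ (m6 j)) :=
  cond_of c6 m6 m6_mono (by decide) (by decide) p6_sum p6_pos cD6 (μ := 10 ^ 51) (by positivity)
    cD6_eq a6_sum a6_pos

theorem final6 (g : Matrix (Fin 6) (Fin 6) ℝ) (hg : g.det ≠ 0) :
    ∃ x : Fin 6 → ℤ, x ≠ 0 ∧ |∏ i, ∑ j, g i j * (x j : ℝ)| < |g.det| / (5233 / 10) := by
  have hs1 : ∑ j, (c6 j : ℝ) = ((∑ j, c6 j : ℤ) : ℝ) := by push_cast; rfl
  have hs2 : ∑ j, (cD6 j : ℝ) = ((∑ j, cD6 j : ℤ) : ℝ) := by push_cast; rfl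
  have hv1 : ∑ j, c6 j = 1000000000001 := by decide +kernel
  have hv2 : ∑ j, cD6 j = 16879847790345512855093589083700691034284057993621724724931253964 := by decide +kernel
  refine final cond6 cD6 (μ := 10 ^ 51) (by positivity) cD6_eq (by norm_num) ?_ ?_ g hg
  · rw [hs2, hv2]
    norm_num
  · rw [hs1, hs2, hv1, hv2]
    norm_num

end H81.L2
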