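import Pool.Agent.H81.L2.C7

/-! Generated: the final steps for `d = 7`. -/

namespace H81.L2

open H81

set_option maxRecDepth 100000

/-- exponents -/
def m7 : Fin 10 → ℤ := ![-65, -63, -60, -56, -52, -48, -44, -40, -37, -34]

/-- coefficients -/
def c7 : Fin 10 → ℤ := ![-3214270369062964, 14661462326252144, -37519442317575449, 84911627191658284, -153803544567699187, 199940233109231810, -184590889147122558, 129833969059859149, -60623303284645894, 10405157999104664]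

/-- coefficients of the dual function -/
def cD7 : Fin 10 → ℤ := ![-157618409218079128959089667351532043146314747672334668735752537873691522798612821564, 594177844202591416732300811719144922028920440471996130305405260864621120721761006400, -1142398131153503637435578208829329249067462137102934266061703338431544264204784900000, 1765865136496535295821954592515873514235863755737686651488481655694230513324000000000, -2184670641999414884255964250448459064134345870434894139198957327139226270000000000000, 1939764833856018007342518754723294765741588139457790150680911642861000000000000000000, -1223174472163363896843765704170253050788620778893857078446166878000000000000000000000, 587618878711081443599585662623031973036429306416277195607490000000000000000000000000, -206143168801414661654376361116959038077013873455766470740000000000000000000000000000, 26582754142179033603543750177119400273862394467568240000000000000000000000000000000]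

theorem m7_mono : StrictMono m7 := by
  rw [Fin.strictMono_iff_lt_succ]
  decide

theorem p7_sum : ∀ s : ℝ, FD 6 (-34) p7 s = ∑ j, ((-c7 j : ℤ) : ℝ) * LP.K 6 (q ^ (m7 j) * s) :=
  fun s => FD_eq_sum m7 (fun j => -c7 j) m7_mono.injective (by decide +kernel) (by decide +kernel) s

theorem a7_sum : ∀ s : ℝ, FD 6 (65) a7 s = ∑ j, (cD7 j : ℝ) * LP.K 6 (q ^ (-m7 j) * s) :=
  fun s => FD_eq_sum (fun j => -m7 j) cD7 (fun i j h => m7_mono.injective (neg_injective h))
    (by decide +kernel) (by decide +kernel) s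

theorem div_eq7 (z : ℤ) : q ^ z / q ^ (4 : ℕ) = q ^ (z - 4) := by
  rw [zpow_sub₀ q_pos.ne']
  norm_cast

theorem mul_eq7 (z : ℤ) (j : ℕ) : (q ^ (4 : ℕ)) ^ j * q ^ z = q ^ (4 * (j : ℤ) + z) := by
  rw [zpow_add₀ q_pos.ne', zpow_mul]
  norm_cast

theorem b7_small : ∀ s, 0 < s → s ≤ q ^ (-110 : ℤ) → 0 < FD 6 (65) b7 s := by
  refine step_up (r := 4) (by norm_num) b7_psi (s1 := q ^ (-82 : ℤ)) (zpow_pos q_pos _) v7_neg ?_ ?_
  · rw [mul_eq7]
    apply zpow_le_zpow_right₀ one_lt_q.le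
    norm_num
  · intro k hk s h1 h2
    rw [div_eq7, show (-110 : ℤ) - 4 = -114 by norm_num] at h1
    interval_cases k
    · rw [show (65 : ℤ) + ((0 : ℕ) : ℤ) * ((4 : ℕ) : ℤ) = 65 by norm_num]
      exact b7_per0 s h1 h2
    · rw [show (65 : ℤ) + ((1 : ℕ) : ℤ) * ((4 : ℕ) : ℤ) = 69 by norm_num, b7_t1_eq]
      exact b7_per1 s h1 h2
    · rw [show (65 : ℤ) + ((2 : ℕ) : ℤ) * ((4 : ℕ) : ℤ) = 73 by norm_num, b7_t2_eq]
      exact b7_per2 s h1 h2
    · rw [show (65 : ℤ) + ((3 : ℕ) : ℤ) * ((4 : ℕ) : ℤ) = 77 by norm_num, b7_t3_eq]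
      exact b7_per3 s h1 h2
    · rw [show (65 : ℤ) + ((4 : ℕ) : ℤ) * ((4 : ℕ) : ℤ) = 81 by norm_num, b7_t4_eq]
      exact b7_per4 s h1 h2
    · rw [show (65 : ℤ) + ((5 : ℕ) : ℤ) * ((4 : ℕ) : ℤ) = 85 by norm_num, b7_t5_eq]
      exact b7_per5 s h1 h2
    · rw [show (65 : ℤ) + ((6 : ℕ) : ℤ) * ((4 : ℕ) : ℤ) = 89 by norm_num, b7_t6_eq]
      exact b7_per6 s h1 h2

theorem b7_pos : ∀ s, 0 < s → s ≤ q ^ (-63 : ℤ) → 0 < FD 6 (65) b7 s := by
  intro s h0 h1
  rcases le_total s (q ^ (-110 : ℤ)) with h | h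
  · exact b7_small s h0 h
  · exact b7_win s h h1

theorem a7_small : ∀ s, 0 < s → s ≤ q ^ (-87 : ℤ) → 0 < FD 6 (65) a7 s := by
  refine step_top (r := 4) (by norm_num) (by norm_num) a7_psi (s1 := q ^ (-63 : ℤ)) (zpow_pos q_pos _)
    (fun s h0 h1 => (b7_pos s h0 h1).le) (by decide +kernel) ?_ ?_
  · rw [mul_eq7]
    apply zpow_le_zpow_right₀ one_lt_q.le
    norm_num
  · intro k hk s h1 h2
    rw [div_eq7, show (-87 : ℤ) - 4 = -91 by norm_num] at h1
    interval_cases k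
    · rw [show (65 : ℤ) + ((0 : ℕ) : ℤ) * ((4 : ℕ) : ℤ) = 65 by norm_num]
      exact a7_per0 s h1 h2
    · rw [show (65 : ℤ) + ((1 : ℕ) : ℤ) * ((4 : ℕ) : ℤ) = 69 by norm_num, a7_t1_eq]
      exact a7_per1 s h1 h2
    · rw [show (65 : ℤ) + ((2 : ℕ) : ℤ) * ((4 : ℕ) : ℤ) = 73 by norm_num, a7_t2_eq]
      exact a7_per2 s h1 h2
    · rw [show (65 : ℤ) + ((3 : ℕ) : ℤ) * ((4 : ℕ) : ℤ) = 77 by norm_num, a7_t3_eq]
      exact a7_per3 s h1 h2
    · rw [show (65 : ℤ) + ((4 : ℕ) : ℤ) * ((4 : ℕ) : ℤ) = 81 by norm_num, a7_t4_eq]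
      exact a7_per4 s h1 h2
    · rw [show (65 : ℤ) + ((5 : ℕ) : ℤ) * ((4 : ℕ) : ℤ) = 85 by norm_num, a7_t5_eq]
      exact a7_per5 s h1 h2

theorem a7_pos : ∀ s, 0 < s → 0 < FD 6 (65) a7 s := by
  intro s h0
  rcases le_total s (q ^ (-87 : ℤ)) with h | h
  · exact a7_small s h0 h
  · rcases le_total s (q ^ (-30 : ℤ)) with h' | h'
    · exact a7_win s h h'
    · exact a7_tail s h'

theorem p7_pos : ∀ s, 1 ≤ s → 0 < FD 6 (-34) p7 s := by
  intro s h0
  rcases le_total s (q ^ (74 : ℤ)) with h | h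
  · exact p7_win s (by rw [zpow_zero]; exact h0) h
  · exact p7_tail s h

theorem cD7_eq : ∀ j, (cD7 j : ℝ) = 10 ^ 65 * ((c7 j : ℝ) * (10 / 11 : ℝ) ^ (m7 j)) := by
  intro j
  have h : cD7 j = 10 ^ (65 - (-m7 j).toNat) * (c7 j * 11 ^ (-m7 j).toNat) ∧
      (-m7 j).toNat ≤ 65 ∧ m7 j ≤ 0 := by
    revert j
    decide +kernel
  obtain ⟨h1, h2, h3⟩ := h
  obtain ⟨t, ht⟩ : ∃ t : ℕ, m7 j = -(t : ℤ) := ⟨(-m7 j).toNat, by omega⟩
  rw [ht] at h1 h2 ⊢
  simp only [neg_neg, Int.toNat_natCast] at h1 h2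
  rw [h1, zpow_neg, zpow_natCast, ← inv_pow]
  push_cast
  have e1 : (10 : ℝ) ^ 65 = 10 ^ (65 - t) * 10 ^ t := by
    rw [← pow_add, Nat.sub_add_cancel h2]
  rw [e1]
  have e2 : ((10 : ℝ) / 11)⁻¹ = 11 / 10 := by norm_num
  rw [e2, div_pow]
  field_simp

theorem cond7 : LP.Cond 6 (fun j => (c7 j : ℝ)) (fun j => q ^ (m7 j)) :=
  cond_of c7 m7 m7_mono (by decide) (by decide) p7_sum p7_pos cD7 (μ := 10 ^ 65) (by positivity)
    cD7_eq a7_sum a7_pos

theorem final7 (g : Matrix (Fin 7) (Fin 7) ℝ) (hg : g.det ≠ 0) :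
    ∃ x : Fin 7 → ℤ, x ≠ 0 ∧ |∏ i, ∑ j, g i j * (x j : ℝ)| < |g.det| / (2541) := by
  have hs1 : ∑ j, (c7 j : ℝ) = ((∑ j, c7 j : ℤ) : ℝ) := by push_cast; rfl
  have hs2 : ∑ j, (cD7 j : ℝ) = ((∑ j, cD7 j : ℤ) : ℝ) := by push_cast; rfl
  have hv1 : ∑ j, c7 j = 999999999999 := by decide +kernel
  have hv2 : ∑ j, cD7 j = 4624072628987951129379841932130102906628991531744899708477975389577042363284836 := by decide +kernel
  refine final cond7 cD7 (μ := 10 ^ 65) (by positivity) cD7_eq (by norm_num) ?_ ?_ g hg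
  · rw [hs2, hv2]
    norm_num
  · rw [hs1, hs2, hv1, hv2]
    norm_num

end H81.L2
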