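import Pool.Agent.H81.L2.C8

/-! Generated: the final steps for `d = 8`. -/

namespace H81.L2

open H81

set_option maxRecDepth 100000

/-- exponents -/
def m8 : Fin 10 → ℤ := ![-78, -76, -73, -69, -65, -60, -56, -52, -48, -45]

/-- coefficients -/
def c8 : Fin 10 → ℤ := ![-6405513535452506, 28409582193598905, -68881431677926060, 139862134754357974, -204029858229574232, 267735587367115996, -274099923405836264, 168138730468670854, -64872901479268821, 14144593544314154]

/-- coefficients of the dual function -/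
def cD8 : Fin 10 → ℤ := ![-10843847355827288935719598787911527179796100209886584563076921733017573944568034886632263556914986, 39747417704836710597972895071466308744573281045441315331959637983252088613778885270405268194170500, -72404937294396323428176238206054149050203771983540679536714065698485005219789664513034227786000000, 100414268448842993870314301222834511589912007550097671867592361184751888653049495455756434000000000, -100050269562453675602159514111337195611951617070540380096008341102487997449136412410320000000000000, 81520570605124066065950321172721743429310584362702185138447437272719348000925596000000000000000000, -57003206117605455537358568006919719468303295035741605681765642132645888801040000000000000000000000, 23882918255910046336105866343781834469440162135703235753706691496165533400000000000000000000000000, -6293789449117202341931132740306861502006755130564937516881711527701000000000000000000000000000000, 1031006264974244797326809119228169638708836495701482941913089454000000000000000000000000000000000]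

theorem m8_mono : StrictMono m8 := by
  rw [Fin.strictMono_iff_lt_succ]
  decide

theorem p8_sum : ∀ s : ℝ, FD 7 (-45) p8 s = ∑ j, ((-c8 j : ℤ) : ℝ) * LP.K 7 (q ^ (m8 j) * s) :=
  fun s => FD_eq_sum m8 (fun j => -c8 j) m8_mono.injective (by decide +kernel) (by decide +kernel) s

theorem a8_sum : ∀ s : ℝ, FD 7 (78) a8 s = ∑ j, (cD8 j : ℝ) * LP.K 7 (q ^ (-m8 j) * s) :=
  fun s => FD_eq_sum (fun j => -m8 j) cD8 (fun i j h => m8_mono.injective (neg_injective h))
    (by decide +kernel) (by decide +kernel) s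

theorem div_eq8 (z : ℤ) : q ^ z / q ^ (5 : ℕ) = q ^ (z - 5) := by
  rw [zpow_sub₀ q_pos.ne']
  norm_cast

theorem mul_eq8 (z : ℤ) (j : ℕ) : (q ^ (5 : ℕ)) ^ j * q ^ z = q ^ (5 * (j : ℤ) + z) := by
  rw [zpow_add₀ q_pos.ne', zpow_mul]
  norm_cast

theorem b8_small : ∀ s, 0 < s → s ≤ q ^ (-135 : ℤ) → 0 < FD 7 (78) b8 s := by
  refine step_up (r := 5) (by norm_num) b8_psi (s1 := q ^ (-95 : ℤ)) (zpow_pos q_pos _) v8_neg ?_ ?_
  · rw [mul_eq8]
    apply zpow_le_zpow_right₀ one_lt_q.le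
    norm_num
  · intro k hk s h1 h2
    rw [div_eq8, show (-135 : ℤ) - 5 = -140 by norm_num] at h1
    interval_cases k
    · rw [show (78 : ℤ) + ((0 : ℕ) : ℤ) * ((5 : ℕ) : ℤ) = 78 by norm_num]
      exact b8_per0 s h1 h2
    · rw [show (78 : ℤ) + ((1 : ℕ) : ℤ) * ((5 : ℕ) : ℤ) = 83 by norm_num, b8_t1_eq]
      exact b8_per1 s h1 h2
    · rw [show (78 : ℤ) + ((2 : ℕ) : ℤ) * ((5 : ℕ) : ℤ) = 88 by norm_num, b8_t2_eq]
      exact b8_per2 s h1 h2
    · rw [show (78 : ℤ) + ((3 : ℕ) : ℤ) * ((5 : ℕ) : ℤ) = 93 by norm_num, b8_t3_eq]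
      exact b8_per3 s h1 h2
    · rw [show (78 : ℤ) + ((4 : ℕ) : ℤ) * ((5 : ℕ) : ℤ) = 98 by norm_num, b8_t4_eq]
      exact b8_per4 s h1 h2
    · rw [show (78 : ℤ) + ((5 : ℕ) : ℤ) * ((5 : ℕ) : ℤ) = 103 by norm_num, b8_t5_eq]
      exact b8_per5 s h1 h2
    · rw [show (78 : ℤ) + ((6 : ℕ) : ℤ) * ((5 : ℕ) : ℤ) = 108 by norm_num, b8_t6_eq]
      exact b8_per6 s h1 h2
    · rw [show (78 : ℤ) + ((7 : ℕ) : ℤ) * ((5 : ℕ) : ℤ) = 113 by norm_num, b8_t7_eq]
      exact b8_per7 s h1 h2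

theorem b8_pos : ∀ s, 0 < s → s ≤ q ^ (-74 : ℤ) → 0 < FD 7 (78) b8 s := by
  intro s h0 h1
  rcases le_total s (q ^ (-135 : ℤ)) with h | h
  · exact b8_small s h0 h
  · exact b8_win s h h1

theorem a8_small : ∀ s, 0 < s → s ≤ q ^ (-109 : ℤ) → 0 < FD 7 (78) a8 s := by
  refine step_top (r := 5) (by norm_num) (by norm_num) a8_psi (s1 := q ^ (-74 : ℤ)) (zpow_pos q_pos _)
    (fun s h0 h1 => (b8_pos s h0 h1).le) (by decide +kernel) ?_ ?_
  · rw [mul_eq8]
    apply zpow_le_zpow_right₀ one_lt_q.le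
    norm_num
  · intro k hk s h1 h2
    rw [div_eq8, show (-109 : ℤ) - 5 = -114 by norm_num] at h1
    interval_cases k
    · rw [show (78 : ℤ) + ((0 : ℕ) : ℤ) * ((5 : ℕ) : ℤ) = 78 by norm_num]
      exact a8_per0 s h1 h2
    · rw [show (78 : ℤ) + ((1 : ℕ) : ℤ) * ((5 : ℕ) : ℤ) = 83 by norm_num, a8_t1_eq]
      exact a8_per1 s h1 h2
    · rw [show (78 : ℤ) + ((2 : ℕ) : ℤ) * ((5 : ℕ) : ℤ) = 88 by norm_num, a8_t2_eq]
      exact a8_per2 s h1 h2
    · rw [show (78 : ℤ) + ((3 : ℕ) : ℤ) * ((5 : ℕ) : ℤ) = 93 by norm_num, a8_t3_eq]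
      exact a8_per3 s h1 h2
    · rw [show (78 : ℤ) + ((4 : ℕ) : ℤ) * ((5 : ℕ) : ℤ) = 98 by norm_num, a8_t4_eq]
      exact a8_per4 s h1 h2
    · rw [show (78 : ℤ) + ((5 : ℕ) : ℤ) * ((5 : ℕ) : ℤ) = 103 by norm_num, a8_t5_eq]
      exact a8_per5 s h1 h2
    · rw [show (78 : ℤ) + ((6 : ℕ) : ℤ) * ((5 : ℕ) : ℤ) = 108 by norm_num, a8_t6_eq]
      exact a8_per6 s h1 h2

theorem a8_pos : ∀ s, 0 < s → 0 < FD 7 (78) a8 s := by
  intro s h0
  rcases le_total s (q ^ (-109 : ℤ)) with h | h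
  · exact a8_small s h0 h
  · rcases le_total s (q ^ (-47 : ℤ)) with h' | h'
    · exact a8_win s h h'
    · exact a8_tail s h'

theorem p8_pos : ∀ s, 1 ≤ s → 0 < FD 7 (-45) p8 s := by
  intro s h0
  rcases le_total s (q ^ (82 : ℤ)) with h | h
  · exact p8_win s (by rw [zpow_zero]; exact h0) h
  · exact p8_tail s h

theorem cD8_eq : ∀ j, (cD8 j : ℝ) = 10 ^ 78 * ((c8 j : ℝ) * (10 / 11 : ℝ) ^ (m8 j)) := by
  intro j
  have h : cD8 j = 10 ^ (78 - (-m8 j).toNat) * (c8 j * 11 ^ (-m8 j).toNat) ∧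
      (-m8 j).toNat ≤ 78 ∧ m8 j ≤ 0 := by
    revert j
    decide +kernel
  obtain ⟨h1, h2, h3⟩ := h
  obtain ⟨t, ht⟩ : ∃ t : ℕ, m8 j = -(t : ℤ) := ⟨(-m8 j).toNat, by omega⟩
  rw [ht] at h1 h2 ⊢
  simp only [neg_neg, Int.toNat_natCast] at h1 h2
  rw [h1, zpow_neg, zpow_natCast, ← inv_pow]
  push_cast
  have e1 : (10 : ℝ) ^ 78 = 10 ^ (78 - t) * 10 ^ t := by
    rw [← pow_add, Nat.sub_add_cancel h2]
  rw [e1]
  have e2 : ((10 : ℝ) / 11)⁻¹ = 11 / 10 := by norm_num
  rw [e2, div_pow]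
  field_simp

theorem cond8 : LP.Cond 7 (fun j => (c8 j : ℝ)) (fun j => q ^ (m8 j)) :=
  cond_of c8 m8 m8_mono (by decide) (by decide) p8_sum p8_pos cD8 (μ := 10 ^ 78) (by positivity)
    cD8_eq a8_sum a8_pos

theorem final8 (g : Matrix (Fin 8) (Fin 8) ℝ) (hg : g.det ≠ 0) :
    ∃ x : Fin 8 → ℤ, x ≠ 0 ∧ |∏ i, ∑ j, g i j * (x j : ℝ)| < |g.det| / (12809) := by
  have hs1 : ∑ j, (c8 j : ℝ) = ((∑ j, c8 j : ℤ) : ℝ) := by push_cast; rfl
  have hs2 : ∑ j, (cD8 j : ℝ) = ((∑ j, cD8 j : ℤ) : ℝ) := by push_cast; rfl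
  have hv1 : ∑ j, c8 j = 1000000000000 := by decide +kernel
  have hv2 : ∑ j, cD8 j = 131500288115822325141077503115059683332159371703639172535196551393253219864916175210851255514 := by decide +kernel
  refine final cond8 cD8 (μ := 10 ^ 78) (by positivity) cD8_eq (by norm_num) ?_ ?_ g hg
  · rw [hs2, hv2]
    norm_num
  · rw [hs1, hs2, hv1, hv2]
    norm_num

end H81.L2
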