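import Pool.Agent.H81.L2.Defs
import Pool.Agent.H81.LP.Kbasic

/-!
# Module M6: interpolation inequalities with six nodes

Let `0 < x ≤ 1`, `R_m(α, x) = x^α - ∑_{k ≤ m} C(α,k) (x-1)^k` with
`C(α,k) = α (α-1) … (α-k+1)/k!`.  Then `R_m(α, 1) = 0`, `d/dx R_m(α, x) = α R_(m-1)(α-1, x)`
(`m ≥ 1`) and `R_0(α, x) = x^α - 1`.  Hence (monotonicity on `(0, 1]`, induction)
* `α ≤ 0`: `R_m(α, x) ≥ 0` for all `m`;
* `k ≤ α ≤ k + 1`, `m ≥ k`, `k` a natural number: `(-1)^(k+1) R_m(α, x) ≥ 0`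
  (`α ∈ [0,1]`: the derivative `α R_(m-1)(α-1, x)` is `≥ 0`, so `R_m ≤ 0`; `α ∈ [1,2]`: the derivative
  is `≤ 0`, so `R_m ≥ 0`; and so on).
With `x = exp (-z)`, `z ≥ 0`, `0 ≤ θ ≤ 1`:
* `α = θ + 3`, `m = 5`: `x^θ ≥ x^(-3) ∑_{k ≤ 5} C(θ+3,k) (x-1)^k` (nodes `-3, …, 2`): `exp_lower6`;
* `α = θ + 2`, `m = 5`: `x^θ ≤ x^(-2) ∑_{k ≤ 5} C(θ+2,k) (x-1)^k` (nodes `-2, …, 3`): `exp_upper6`.
The right sides, written in the Bernstein basis of degree 5 in `θ`, are `bern` of the coefficients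
below (a polynomial identity in `θ` and `x`, by `ring` after clearing `x^(-3)`, `x^(-2)`).
`K_lower6`, `K_upper6`: multiply by `exp (-s w)`, `w = Y exp (-∑ v_i)`, `z = r w`, and integrate
over `v` (`LP.K_integrable`); node `k` becomes `LP.K n (Y (s + k r))`.
-/

namespace H81.L2

open H81 MeasureTheory

/-- a polynomial of degree five in Bernstein form -/
noncomputable def bern (b0 b1 b2 b3 b4 b5 θ : ℝ) : ℝ :=
  b0 * (1 - θ) ^ 5 + b1 * (5 * θ * (1 - θ) ^ 4) + b2 * (10 * θ ^ 2 * (1 - θ) ^ 3) +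
    b3 * (10 * θ ^ 3 * (1 - θ) ^ 2) + b4 * (5 * θ ^ 4 * (1 - θ)) + b5 * θ ^ 5

/-- interpolation polynomial with nodes `-3, …, 2` and values `x0, …, x5` -/
noncomputable def lowP (x0 x1 x2 x3 x4 x5 θ : ℝ) : ℝ :=
  bern x3
    ((-8 * x0 + 60 * x1 - 240 * x2 + 1280 * x3 + 120 * x4 - 12 * x5) / 1200)
    ((-16 * x0 + 115 * x1 - 400 * x2 + 1210 * x3 + 320 * x4 - 29 * x5) / 1200)
    ((-19 * x0 + 130 * x1 - 410 * x2 + 940 * x3 + 605 * x4 - 46 * x5) / 1200)
    ((-12 * x0 + 80 * x1 - 240 * x2 + 480 * x3 + 940 * x4 - 48 * x5) / 1200)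
    x4 θ

/-- interpolation polynomial with nodes `-2, …, 3` and values `x0, …, x5` -/
noncomputable def uppP (x0 x1 x2 x3 x4 x5 θ : ℝ) : ℝ :=
  bern x2
    ((12 * x0 - 120 * x1 + 1120 * x2 + 240 * x3 - 60 * x4 + 8 * x5) / 1200)
    ((19 * x0 - 160 * x1 + 890 * x2 + 560 * x3 - 125 * x4 + 16 * x5) / 1200)
    ((16 * x0 - 125 * x1 + 560 * x2 + 890 * x3 - 160 * x4 + 19 * x5) / 1200)
    ((8 * x0 - 60 * x1 + 240 * x2 + 1120 * x3 - 120 * x4 + 12 * x5) / 1200)
    x3 θ

/-- generalised binomial coefficient -/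
noncomputable def itpBc (α : ℝ) (k : ℕ) : ℝ := (∏ i ∈ Finset.range k, (α - i)) / k.factorial

theorem itpBc_succ (α : ℝ) (k : ℕ) : itpBc α (k + 1) * ((k : ℝ) + 1) = α * itpBc (α - 1) k := by
  unfold itpBc
  rw [Finset.prod_range_succ', Nat.factorial_succ]
  have e : ∀ i : ℕ, α - ((i + 1 : ℕ) : ℝ) = α - 1 - i := by
    intro i
    push_cast
    ring
  simp only [e, Nat.cast_zero, sub_zero]
  have h1 : (k.factorial : ℝ) ≠ 0 := by exact_mod_cast k.factorial_ne_zero
  have h2 : ((k : ℝ) + 1) ≠ 0 := by positivity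
  push_cast
  field_simp

/-- remainder of the binomial series at `1` -/
noncomputable def itpR (m : ℕ) (α x : ℝ) : ℝ :=
  x ^ α - ∑ k ∈ Finset.range (m + 1), itpBc α k * (x - 1) ^ k

theorem itpR_one (m : ℕ) (α : ℝ) : itpR m α 1 = 0 := by
  unfold itpR
  rw [Real.one_rpow, Finset.sum_range_succ']
  simp [itpBc]

theorem itpR_deriv (m : ℕ) (α : ℝ) {x : ℝ} (hx : 0 < x) :
    HasDerivAt (itpR (m + 1) α) (α * itpR m (α - 1) x) x := by
  have h1 : HasDerivAt (fun x : ℝ => x ^ α) (α * x ^ (α - 1)) x :=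
    Real.hasDerivAt_rpow_const (Or.inl hx.ne')
  have h2 : HasDerivAt (fun x : ℝ => ∑ k ∈ Finset.range (m + 1 + 1), itpBc α k * (x - 1) ^ k)
      (∑ k ∈ Finset.range (m + 1 + 1), itpBc α k * ((k : ℝ) * (x - 1) ^ (k - 1))) x := by
    refine HasDerivAt.fun_sum (fun k _ => ?_)
    have h3 : HasDerivAt (fun x : ℝ => (x - 1) ^ k) ((k : ℝ) * (x - 1) ^ (k - 1) * 1) x :=
      ((hasDerivAt_id x).sub_const 1).pow k
    rw [mul_one] at h3
    exact h3.const_mul _
  have h3 := h1.sub h2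
  refine (h3.congr_deriv ?_)
  rw [Finset.sum_range_succ']
  simp only [Nat.cast_zero, zero_mul, mul_zero, add_zero, Nat.add_sub_cancel]
  unfold itpR
  rw [mul_sub, Finset.mul_sum]
  congr 1
  refine Finset.sum_congr rfl (fun k _ => ?_)
  have h4 := itpBc_succ α k
  push_cast
  linear_combination (x - 1) ^ k * h4

theorem itpR_nonneg {m : ℕ} {α : ℝ} (h : ∀ x : ℝ, 0 < x → x ≤ 1 → α * itpR m (α - 1) x ≤ 0) :
    ∀ x : ℝ, 0 < x → x ≤ 1 → 0 ≤ itpR (m + 1) α x := by
  intro x hx hx1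
  have hanti : AntitoneOn (itpR (m + 1) α) (Set.Ioc 0 1) := by
    apply antitoneOn_of_deriv_nonpos (convex_Ioc 0 1)
    · exact fun y hy => (itpR_deriv m α hy.1).continuousAt.continuousWithinAt
    · intro y hy
      rw [interior_Ioc] at hy
      exact (itpR_deriv m α hy.1).differentiableAt.differentiableWithinAt
    · intro y hy
      rw [interior_Ioc] at hy
      rw [(itpR_deriv m α hy.1).deriv]
      exact h y hy.1 hy.2.le
  have h1 := hanti ⟨hx, hx1⟩ ⟨one_pos, le_rfl⟩ hx1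
  rw [itpR_one] at h1
  exact h1

theorem itpR_nonpos {m : ℕ} {α : ℝ} (h : ∀ x : ℝ, 0 < x → x ≤ 1 → 0 ≤ α * itpR m (α - 1) x) :
    ∀ x : ℝ, 0 < x → x ≤ 1 → itpR (m + 1) α x ≤ 0 := by
  intro x hx hx1
  have hmono : MonotoneOn (itpR (m + 1) α) (Set.Ioc 0 1) := by
    apply monotoneOn_of_deriv_nonneg (convex_Ioc 0 1)
    · exact fun y hy => (itpR_deriv m α hy.1).continuousAt.continuousWithinAt
    · intro y hy
      rw [interior_Ioc] at hy
      exact (itpR_deriv m α hy.1).differentiableAt.differentiableWithinAt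
    · intro y hy
      rw [interior_Ioc] at hy
      rw [(itpR_deriv m α hy.1).deriv]
      exact h y hy.1 hy.2.le
  have h1 := hmono ⟨hx, hx1⟩ ⟨one_pos, le_rfl⟩ hx1
  rw [itpR_one] at h1
  exact h1

/-- nonpositive exponents -/
theorem itpR_neg (m : ℕ) : ∀ {α : ℝ}, α ≤ 0 → ∀ x : ℝ, 0 < x → x ≤ 1 → 0 ≤ itpR m α x := by
  induction m with
  | zero =>
    intro α hα x hx hx1
    unfold itpR
    rw [Finset.sum_range_succ]
    simp only [Finset.range_zero, Finset.sum_empty, zero_add, pow_zero, mul_one, itpBc,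
      Finset.prod_empty, Nat.factorial_zero, Nat.cast_one, div_one]
    have := Real.one_le_rpow_of_pos_of_le_one_of_nonpos hx hx1 hα
    linarith
  | succ m ih =>
    intro α hα
    refine itpR_nonneg (fun x hx hx1 => ?_)
    exact mul_nonpos_of_nonpos_of_nonneg hα (ih (by linarith) x hx hx1)

theorem itpR_01 (m : ℕ) {α : ℝ} (h0 : 0 ≤ α) (h1 : α ≤ 1) :
    ∀ x : ℝ, 0 < x → x ≤ 1 → itpR (m + 1) α x ≤ 0 := by
  refine itpR_nonpos (fun x hx hx1 => ?_)
  exact mul_nonneg h0 (itpR_neg m (by linarith) x hx hx1)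

theorem itpR_12 (m : ℕ) {α : ℝ} (h0 : 1 ≤ α) (h1 : α ≤ 2) :
    ∀ x : ℝ, 0 < x → x ≤ 1 → 0 ≤ itpR (m + 1 + 1) α x := by
  refine itpR_nonneg (fun x hx hx1 => ?_)
  exact mul_nonpos_of_nonneg_of_nonpos (by linarith)
    (itpR_01 m (by linarith) (by linarith) x hx hx1)

theorem itpR_23 (m : ℕ) {α : ℝ} (h0 : 2 ≤ α) (h1 : α ≤ 3) :
    ∀ x : ℝ, 0 < x → x ≤ 1 → itpR (m + 1 + 1 + 1) α x ≤ 0 := by
  refine itpR_nonpos (fun x hx hx1 => ?_)
  exact mul_nonneg (by linarith) (itpR_12 m (by linarith) (by linarith) x hx hx1)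

theorem itpR_34 (m : ℕ) {α : ℝ} (h0 : 3 ≤ α) (h1 : α ≤ 4) :
    ∀ x : ℝ, 0 < x → x ≤ 1 → 0 ≤ itpR (m + 1 + 1 + 1 + 1) α x := by
  refine itpR_nonneg (fun x hx hx1 => ?_)
  exact mul_nonpos_of_nonneg_of_nonpos (by linarith)
    (itpR_23 m (by linarith) (by linarith) x hx hx1)

theorem exp_lower6 {z θ : ℝ} (hz : 0 ≤ z) (h0 : 0 ≤ θ) (h1 : θ ≤ 1) :
    lowP (Real.exp (3 * z)) (Real.exp (2 * z)) (Real.exp z) 1 (Real.exp (-z))
      (Real.exp (-(2 * z))) θ ≤ Real.exp (-(θ * z)) := by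
  set x : ℝ := Real.exp (-z) with hx
  have hx0 : 0 < x := Real.exp_pos _
  have hx1 : x ≤ 1 := by rw [hx]; exact Real.exp_le_one_iff.2 (by linarith)
  have h2 := itpR_34 1 (α := θ + 3) (by linarith) (by linarith) x hx0 hx1
  have e1 : Real.exp z = x⁻¹ := by rw [hx, Real.exp_neg, inv_inv]
  have e2 : Real.exp (2 * z) = (x⁻¹) ^ 2 := by
    rw [← e1, ← Real.exp_nat_mul]
    norm_num
  have e3 : Real.exp (3 * z) = (x⁻¹) ^ 3 := by
    rw [← e1, ← Real.exp_nat_mul]
    norm_num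
  have e4 : Real.exp (-(2 * z)) = x ^ 2 := by
    rw [hx, ← Real.exp_nat_mul]
    congr 1
    push_cast
    ring
  have e5 : Real.exp (-(θ * z)) = x ^ (θ + 3) * (x⁻¹) ^ 3 := by
    rw [← e3, hx, ← Real.exp_mul, ← Real.exp_add]
    congr 1
    ring
  rw [e1, e2, e3, e4, e5]
  unfold itpR at h2
  have h3 : lowP ((x⁻¹) ^ 3) ((x⁻¹) ^ 2) (x⁻¹) 1 x (x ^ 2) θ =
      (∑ k ∈ Finset.range (1 + 1 + 1 + 1 + 1 + 1), itpBc (θ + 3) k * (x - 1) ^ k) * (x⁻¹) ^ 3 := by
    simp only [Finset.sum_range_succ, Finset.range_zero, Finset.sum_empty, itpBc,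
      Finset.prod_range_succ, Finset.prod_empty, Nat.factorial]
    unfold lowP bern
    push_cast
    field_simp
    ring
  rw [h3]
  have h4 : 0 ≤ (x⁻¹) ^ 3 := by positivity
  exact mul_le_mul_of_nonneg_right (by linarith) h4

theorem exp_upper6 {z θ : ℝ} (hz : 0 ≤ z) (h0 : 0 ≤ θ) (h1 : θ ≤ 1) :
    Real.exp (-(θ * z)) ≤ uppP (Real.exp (2 * z)) (Real.exp z) 1 (Real.exp (-z))
      (Real.exp (-(2 * z))) (Real.exp (-(3 * z))) θ := by
  set x : ℝ := Real.exp (-z) with hx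
  have hx0 : 0 < x := Real.exp_pos _
  have hx1 : x ≤ 1 := by rw [hx]; exact Real.exp_le_one_iff.2 (by linarith)
  have h2 := itpR_23 2 (α := θ + 2) (by linarith) (by linarith) x hx0 hx1
  have e1 : Real.exp z = x⁻¹ := by rw [hx, Real.exp_neg, inv_inv]
  have e2 : Real.exp (2 * z) = (x⁻¹) ^ 2 := by
    rw [← e1, ← Real.exp_nat_mul]
    norm_num
  have e3 : Real.exp (-(3 * z)) = x ^ 3 := by
    rw [hx, ← Real.exp_nat_mul]
    congr 1
    push_cast
    ring
  have e4 : Real.exp (-(2 * z)) = x ^ 2 := by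
    rw [hx, ← Real.exp_nat_mul]
    congr 1
    push_cast
    ring
  have e5 : Real.exp (-(θ * z)) = x ^ (θ + 2) * (x⁻¹) ^ 2 := by
    rw [← e2, hx, ← Real.exp_mul, ← Real.exp_add]
    congr 1
    ring
  rw [e1, e2, e3, e4, e5]
  unfold itpR at h2
  have h3 : uppP ((x⁻¹) ^ 2) (x⁻¹) 1 x (x ^ 2) (x ^ 3) θ =
      (∑ k ∈ Finset.range (2 + 1 + 1 + 1 + 1), itpBc (θ + 2) k * (x - 1) ^ k) * (x⁻¹) ^ 2 := by
    simp only [Finset.sum_range_succ, Finset.range_zero, Finset.sum_empty, itpBc,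
      Finset.prod_range_succ, Finset.prod_empty, Nat.factorial]
    unfold uppP bern
    push_cast
    field_simp
    ring
  rw [h3]
  have h4 : 0 ≤ (x⁻¹) ^ 2 := by positivity
  exact mul_le_mul_of_nonneg_right (by linarith) h4

theorem itp_comb (n N : ℕ) (a X : ℕ → ℝ) (hX : ∀ j < N, 0 < X j)
    (h : ∀ w : ℝ, 0 < w → 0 ≤ ∑ j ∈ Finset.range N, a j * Real.exp (-(X j * w))) :
    0 ≤ ∑ j ∈ Finset.range N, a j * LP.K n (X j) := by
  have hi : ∀ j ∈ Finset.range N, Integrable (fun v : Fin n → ℝ =>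
      a j * Real.exp (-(∑ i, Real.exp (v i)) - X j * Real.exp (-(∑ i, v i)))) :=
    fun j hj => (LP.K_integrable n (hX j (Finset.mem_range.1 hj))).const_mul (a j)
  have e1 : ∑ j ∈ Finset.range N, a j * LP.K n (X j) = ∫ v : Fin n → ℝ,
      ∑ j ∈ Finset.range N, a j *
        Real.exp (-(∑ i, Real.exp (v i)) - X j * Real.exp (-(∑ i, v i))) := by
    rw [integral_finsetSum _ hi]
    refine Finset.sum_congr rfl (fun j _ => ?_)
    rw [integral_const_mul]
    rfl
  rw [e1]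
  refine integral_nonneg (fun v => ?_)
  have hw : 0 < Real.exp (-(∑ i, v i)) := Real.exp_pos _
  have h1 := h _ hw
  have e2 : ∀ j : ℕ, a j * Real.exp (-(∑ i, Real.exp (v i)) - X j * Real.exp (-(∑ i, v i))) =
      Real.exp (-(∑ i, Real.exp (v i))) * (a j * Real.exp (-(X j * Real.exp (-(∑ i, v i))))) := by
    intro j
    rw [sub_eq_add_neg, Real.exp_add]
    ring
  simp only [e2]
  rw [← Finset.mul_sum]
  exact mul_nonneg (Real.exp_pos _).le h1

theorem K_lower6 (n : ℕ) {Y s r θ : ℝ} (hY : 0 < Y) (hr : 0 < r) (hs : 3 * r < s) (h0 : 0 ≤ θ)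
    (h1 : θ ≤ 1) :
    lowP (LP.K n (Y * (s - 3 * r))) (LP.K n (Y * (s - 2 * r))) (LP.K n (Y * (s - r)))
      (LP.K n (Y * s)) (LP.K n (Y * (s + r))) (LP.K n (Y * (s + 2 * r))) θ ≤
      LP.K n (Y * (s + θ * r)) := by
  have key := itp_comb n 7
    (fun j => if j = 0 then 1 else if j = 1 then -lowP 1 0 0 0 0 0 θ else
      if j = 2 then -lowP 0 1 0 0 0 0 θ else if j = 3 then -lowP 0 0 1 0 0 0 θ else
      if j = 4 then -lowP 0 0 0 1 0 0 θ else if j = 5 then -lowP 0 0 0 0 1 0 θ else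
      -lowP 0 0 0 0 0 1 θ)
    (fun j => if j = 0 then Y * (s + θ * r) else Y * (s + ((j : ℝ) - 4) * r))
    (by
      intro j hj
      split_ifs with hj0
      · have : 0 < s := by nlinarith
        positivity
      · have hj1 : (1 : ℝ) ≤ j := by exact_mod_cast Nat.one_le_iff_ne_zero.2 hj0
        exact mul_pos hY (by nlinarith))
    (by
      intro w hw
      have hz : 0 ≤ Y * r * w := by positivity
      have hE := exp_lower6 hz h0 h1
      have hb : 0 < Real.exp (-(Y * s * w)) := Real.exp_pos _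
      simp only [Finset.sum_range_succ, Finset.range_zero, Finset.sum_empty]
      norm_num
      have e0 : Real.exp (-(Y * (s + θ * r) * w)) =
          Real.exp (-(Y * s * w)) * Real.exp (-(θ * (Y * r * w))) := by
        rw [← Real.exp_add]; congr 1; ring
      have e1 : Real.exp (-(Y * (s + -(3 * r)) * w)) =
          Real.exp (-(Y * s * w)) * Real.exp (3 * (Y * r * w)) := by
        rw [← Real.exp_add]; congr 1; ring
      have e2 : Real.exp (-(Y * (s + -(2 * r)) * w)) =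
          Real.exp (-(Y * s * w)) * Real.exp (2 * (Y * r * w)) := by
        rw [← Real.exp_add]; congr 1; ring
      have e3 : Real.exp (-(Y * (s + -r) * w)) =
          Real.exp (-(Y * s * w)) * Real.exp (Y * r * w) := by
        rw [← Real.exp_add]; congr 1; ring
      have e5 : Real.exp (-(Y * (s + r) * w)) =
          Real.exp (-(Y * s * w)) * Real.exp (-(Y * r * w)) := by
        rw [← Real.exp_add]; congr 1; ring
      have e6 : Real.exp (-(Y * (s + 2 * r) * w)) =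
          Real.exp (-(Y * s * w)) * Real.exp (-(2 * (Y * r * w))) := by
        rw [← Real.exp_add]; congr 1; ring
      rw [e0, e1, e2, e3, e5, e6]
      have h2 := mul_le_mul_of_nonneg_left hE hb.le
      refine (le_of_eq ?_).trans h2
      unfold lowP bern
      ring)
  simp only [Finset.sum_range_succ, Finset.range_zero, Finset.sum_empty] at key
  norm_num at key
  have e1 : s - 3 * r = s + -(3 * r) := by ring
  have e2 : s - 2 * r = s + -(2 * r) := by ring
  have e3 : s - r = s + -r := by ring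
  rw [e1, e2, e3]
  refine (le_of_eq ?_).trans key
  unfold lowP bern
  ring

theorem K_upper6 (n : ℕ) {Y s r θ : ℝ} (hY : 0 < Y) (hr : 0 < r) (hs : 2 * r < s) (h0 : 0 ≤ θ)
    (h1 : θ ≤ 1) :
    LP.K n (Y * (s + θ * r)) ≤
      uppP (LP.K n (Y * (s - 2 * r))) (LP.K n (Y * (s - r))) (LP.K n (Y * s))
        (LP.K n (Y * (s + r))) (LP.K n (Y * (s + 2 * r))) (LP.K n (Y * (s + 3 * r))) θ := by
  have key := itp_comb n 7
    (fun j => if j = 0 then -1 else if j = 1 then uppP 1 0 0 0 0 0 θ else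
      if j = 2 then uppP 0 1 0 0 0 0 θ else if j = 3 then uppP 0 0 1 0 0 0 θ else
      if j = 4 then uppP 0 0 0 1 0 0 θ else if j = 5 then uppP 0 0 0 0 1 0 θ else
      uppP 0 0 0 0 0 1 θ)
    (fun j => if j = 0 then Y * (s + θ * r) else Y * (s + ((j : ℝ) - 3) * r))
    (by
      intro j hj
      split_ifs with hj0
      · have : 0 < s := by nlinarith
        positivity
      · have hj1 : (1 : ℝ) ≤ j := by exact_mod_cast Nat.one_le_iff_ne_zero.2 hj0
        exact mul_pos hY (by nlinarith))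
    (by
      intro w hw
      have hz : 0 ≤ Y * r * w := by positivity
      have hE := exp_upper6 hz h0 h1
      have hb : 0 < Real.exp (-(Y * s * w)) := Real.exp_pos _
      simp only [Finset.sum_range_succ, Finset.range_zero, Finset.sum_empty]
      norm_num
      have e0 : Real.exp (-(Y * (s + θ * r) * w)) =
          Real.exp (-(Y * s * w)) * Real.exp (-(θ * (Y * r * w))) := by
        rw [← Real.exp_add]; congr 1; ring
      have e2 : Real.exp (-(Y * (s + -(2 * r)) * w)) =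
          Real.exp (-(Y * s * w)) * Real.exp (2 * (Y * r * w)) := by
        rw [← Real.exp_add]; congr 1; ring
      have e3 : Real.exp (-(Y * (s + -r) * w)) =
          Real.exp (-(Y * s * w)) * Real.exp (Y * r * w) := by
        rw [← Real.exp_add]; congr 1; ring
      have e5 : Real.exp (-(Y * (s + r) * w)) =
          Real.exp (-(Y * s * w)) * Real.exp (-(Y * r * w)) := by
        rw [← Real.exp_add]; congr 1; ring
      have e6 : Real.exp (-(Y * (s + 2 * r) * w)) =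
          Real.exp (-(Y * s * w)) * Real.exp (-(2 * (Y * r * w))) := by
        rw [← Real.exp_add]; congr 1; ring
      have e7 : Real.exp (-(Y * (s + 3 * r) * w)) =
          Real.exp (-(Y * s * w)) * Real.exp (-(3 * (Y * r * w))) := by
        rw [← Real.exp_add]; congr 1; ring
      rw [e0, e2, e3, e5, e6, e7]
      have h2 := sub_nonneg.2 (mul_le_mul_of_nonneg_left hE hb.le)
      refine h2.trans (le_of_eq ?_)
      unfold uppP bern
      ring)
  simp only [Finset.sum_range_succ, Finset.range_zero, Finset.sum_empty] at key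
  norm_num at key
  have e2 : s - 2 * r = s + -(2 * r) := by ring
  have e3 : s - r = s + -r := by ring
  rw [e2, e3]
  refine sub_nonneg.1 (key.trans (le_of_eq ?_))
  unfold uppP bern
  ring

end H81.L2
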