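import Pool.Agent.H81.L2.Defs

/-!
# Module M2: bounds for the sums `S n X`, grid `q = 121/100`

Adapt `Pool/Agent/H81/LP/SBound.lean` (complete proof there, for `q = 64/49`, `8/7`).  Now
`q = (11/10)²`; the true values of the two sums are `√π/hh = 9.2984` and `24/hh = 125.90`, so
there is again one percent of room (more terms are needed: the step is smaller; the nonnegative
part from `k = 0` to about `20`, the negative part down to about `-20`, tails geometric).
-/

namespace H81.L2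

open Finset

private theorem sb_eb {x r e : ℝ} (m : ℕ) (hr : 0 ≤ r) (hrx : r ≤ x)
    (h : 1 ≤ e * ∑ i ∈ range m, r ^ i / (i.factorial : ℝ)) : Real.exp (-x) ≤ e := by
  have h1 : ∑ i ∈ range m, r ^ i / (i.factorial : ℝ) ≤ Real.exp r := Real.sum_le_exp_of_nonneg hr m
  have h0 : 0 ≤ ∑ i ∈ range m, r ^ i / (i.factorial : ℝ) :=
    Finset.sum_nonneg (fun i _ => by positivity)
  have he : 0 ≤ e := by
    by_contra hc
    push Not at hc
    have := mul_nonpos_of_nonpos_of_nonneg hc.le h0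
    linarith
  have h2 : Real.exp (-x) ≤ Real.exp (-r) := Real.exp_le_exp.mpr (by linarith)
  have h3 : 1 ≤ e * Real.exp r := h.trans (mul_le_mul_of_nonneg_left h1 he)
  have h4 : Real.exp r * Real.exp (-r) = 1 := by rw [← Real.exp_add]; simp
  have h5 : 0 < Real.exp (-r) := Real.exp_pos _
  calc Real.exp (-x) ≤ 1 * Real.exp (-r) := by linarith
    _ ≤ e * Real.exp r * Real.exp (-r) := mul_le_mul_of_nonneg_right h3 h5.le
    _ = e := by rw [mul_assoc, h4, mul_one]

private theorem sb_tail (f : ℕ → ℝ) (hf0 : ∀ i, 0 ≤ f i) (K : ℕ) (c r : ℝ) (hr0 : 0 ≤ r)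
    (hr1 : r < 1) (h : ∀ i, f (i + K) ≤ c * r ^ i) :
    Summable f ∧ ∑' i, f i ≤ ∑ i ∈ range K, f i + c / (1 - r) := by
  have hg : Summable (fun i : ℕ => c * r ^ i) := (summable_geometric_of_lt_one hr0 hr1).mul_left c
  have h1 : Summable (fun i => f (i + K)) :=
    Summable.of_nonneg_of_le (fun i => hf0 _) h hg
  have h2 : Summable f := (summable_nat_add_iff K).mp h1
  refine ⟨h2, ?_⟩
  rw [← h2.sum_add_tsum_nat_add K]
  have h3 : ∑' i, f (i + K) ≤ ∑' i : ℕ, c * r ^ i := h1.tsum_le_tsum h hg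
  rw [tsum_mul_left, tsum_geometric_of_lt_one hr0 hr1] at h3
  rw [div_eq_mul_inv]
  linarith

private theorem sb_int (f : ℤ → ℝ) (A B : ℝ)
    (h1 : Summable (fun n : ℕ => f n) ∧ ∑' n : ℕ, f n ≤ A)
    (h2 : Summable (fun n : ℕ => f (-(n + 1))) ∧ ∑' n : ℕ, f (-(n + 1)) ≤ B) :
    Summable f ∧ ∑' k : ℤ, f k ≤ A + B := by
  refine ⟨Summable.of_nat_of_neg_add_one h1.1 h2.1, ?_⟩
  rw [tsum_of_nat_of_neg_add_one h1.1 h2.1]
  linarith [h1.2, h2.2]

private theorem q_nat (n : ℕ) : q ^ (n : ℤ) = (121 / 100 : ℝ) ^ n := by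
  unfold q
  exact zpow_natCast _ n

private theorem q_neg (n : ℕ) : q ^ (-((n : ℤ) + 1)) = (100 / 121 : ℝ) ^ (n + 1) := by
  unfold q
  rw [zpow_neg, show ((n : ℤ) + 1) = ((n + 1 : ℕ) : ℤ) by push_cast; rfl, zpow_natCast, ← inv_pow]
  norm_num

private theorem e_nat (n : ℕ) : (11 / 10 : ℝ) ^ (n : ℤ) = (11 / 10 : ℝ) ^ n := zpow_natCast _ n

private theorem e_neg (n : ℕ) : (11 / 10 : ℝ) ^ (-((n : ℤ) + 1)) = (10 / 11 : ℝ) ^ (n + 1) := by
  rw [zpow_neg, show ((n : ℤ) + 1) = ((n + 1 : ℕ) : ℤ) by push_cast; rfl, zpow_natCast, ← inv_pow]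
  norm_num


private theorem sbA0 : Real.exp (-((121 / 100 : ℝ) ^ 0)) ≤ 46/125 := by
  apply sb_eb (r := 1) 7 (by norm_num) (by norm_num)
  norm_num [Finset.sum_range_succ, Nat.factorial]


private theorem sbA1 : Real.exp (-((121 / 100 : ℝ) ^ 1)) ≤ 2983/10000 := by
  apply sb_eb (r := 121/100) 8 (by norm_num) (by norm_num)
  norm_num [Finset.sum_range_succ, Nat.factorial]


private theorem sbA2 : Real.exp (-((121 / 100 : ℝ) ^ 2)) ≤ 1157/5000 := by
  apply sb_eb (r := 183/125) 9 (by norm_num) (by norm_num)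
  norm_num [Finset.sum_range_succ, Nat.factorial]


private theorem sbA3 : Real.exp (-((121 / 100 : ℝ) ^ 3)) ≤ 851/5000 := by
  apply sb_eb (r := 1771/1000) 9 (by norm_num) (by norm_num)
  norm_num [Finset.sum_range_succ, Nat.factorial]


private theorem sbA4 : Real.exp (-((121 / 100 : ℝ) ^ 4)) ≤ 587/5000 := by
  apply sb_eb (r := 2143/1000) 10 (by norm_num) (by norm_num)
  norm_num [Finset.sum_range_succ, Nat.factorial]


private theorem sbA5 : Real.exp (-((121 / 100 : ℝ) ^ 5)) ≤ 7481/100000 := by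
  apply sb_eb (r := 2593/1000) 11 (by norm_num) (by norm_num)
  norm_num [Finset.sum_range_succ, Nat.factorial]


private theorem sbA6 : Real.exp (-((121 / 100 : ℝ) ^ 6)) ≤ 2169/50000 := by
  apply sb_eb (r := 1569/500) 13 (by norm_num) (by norm_num)
  norm_num [Finset.sum_range_succ, Nat.factorial]


private theorem sbA7 : Real.exp (-((121 / 100 : ℝ) ^ 7)) ≤ 561/25000 := by
  apply sb_eb (r := 3797/1000) 14 (by norm_num) (by norm_num)
  norm_num [Finset.sum_range_succ, Nat.factorial]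


private theorem sbA8 : Real.exp (-((121 / 100 : ℝ) ^ 8)) ≤ 253/25000 := by
  apply sb_eb (r := 2297/500) 15 (by norm_num) (by norm_num)
  norm_num [Finset.sum_range_succ, Nat.factorial]


private theorem sbA9 : Real.exp (-((121 / 100 : ℝ) ^ 9)) ≤ 3853/1000000 := by
  apply sb_eb (r := 5559/1000) 17 (by norm_num) (by norm_num)
  norm_num [Finset.sum_range_succ, Nat.factorial]


private theorem sbA10 : Real.exp (-((121 / 100 : ℝ) ^ 10)) ≤ 1199/1000000 := by
  apply sb_eb (r := 6727/1000) 19 (by norm_num) (by norm_num)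
  norm_num [Finset.sum_range_succ, Nat.factorial]


private theorem sbA11 : Real.exp (-((121 / 100 : ℝ) ^ 11)) ≤ 2917/10000000 := by
  apply sb_eb (r := 407/50) 22 (by norm_num) (by norm_num)
  norm_num [Finset.sum_range_succ, Nat.factorial]


private theorem sbA12 : Real.exp (-((121 / 100 : ℝ) ^ 12)) ≤ 5281/100000000 := by
  apply sb_eb (r := 9849/1000) 24 (by norm_num) (by norm_num)
  norm_num [Finset.sum_range_succ, Nat.factorial]


private theorem sbA13 : Real.exp (-((121 / 100 : ℝ) ^ 13)) ≤ 667/100000000 := by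
  apply sb_eb (r := 5959/500) 28 (by norm_num) (by norm_num)
  norm_num [Finset.sum_range_succ, Nat.factorial]


private theorem sbA14 : Real.exp (-((121 / 100 : ℝ) ^ 14)) ≤ 683/1250000000 := by
  apply sb_eb (r := 721/50) 32 (by norm_num) (by norm_num)
  norm_num [Finset.sum_range_succ, Nat.factorial]


private theorem sbA15 : Real.exp (-((121 / 100 : ℝ) ^ 15)) ≤ 661/25000000000 := by
  apply sb_eb (r := 17449/1000) 34 (by norm_num) (by norm_num)
  norm_num [Finset.sum_range_succ, Nat.factorial]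


private theorem sbA16 : Real.exp (-((121 / 100 : ℝ) ^ 16)) ≤ 6813/10000000000000 := by
  apply sb_eb (r := 21113/1000) 34 (by norm_num) (by norm_num)
  norm_num [Finset.sum_range_succ, Nat.factorial]


private theorem sbA17 : Real.exp (-((121 / 100 : ℝ) ^ 17)) ≤ 343/40000000000000 := by
  apply sb_eb (r := 25547/1000) 34 (by norm_num) (by norm_num)
  norm_num [Finset.sum_range_succ, Nat.factorial]


private theorem sbB1 : Real.exp (-((100 / 121 : ℝ) ^ 1)) ≤ 2189/5000 := by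
  apply sb_eb (r := 1033/1250) 6 (by norm_num) (by norm_num)
  norm_num [Finset.sum_range_succ, Nat.factorial]


private theorem sbB2 : Real.exp (-((100 / 121 : ℝ) ^ 2)) ≤ 1263/2500 := by
  apply sb_eb (r := 683/1000) 6 (by norm_num) (by norm_num)
  norm_num [Finset.sum_range_succ, Nat.factorial]


private theorem sbB3 : Real.exp (-((100 / 121 : ℝ) ^ 3)) ≤ 711/1250 := by
  apply sb_eb (r := 1411/2500) 6 (by norm_num) (by norm_num)
  norm_num [Finset.sum_range_succ, Nat.factorial]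


private theorem sbB4 : Real.exp (-((100 / 121 : ℝ) ^ 4)) ≤ 392/625 := by
  apply sb_eb (r := 933/2000) 6 (by norm_num) (by norm_num)
  norm_num [Finset.sum_range_succ, Nat.factorial]


private theorem sbB5 : Real.exp (-((100 / 121 : ℝ) ^ 5)) ≤ 3401/5000 := by
  apply sb_eb (r := 771/2000) 6 (by norm_num) (by norm_num)
  norm_num [Finset.sum_range_succ, Nat.factorial]


private theorem sbB6 : Real.exp (-((100 / 121 : ℝ) ^ 6)) ≤ 909/1250 := by
  apply sb_eb (r := 1593/5000) 6 (by norm_num) (by norm_num)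
  norm_num [Finset.sum_range_succ, Nat.factorial]


private theorem sbB7 : Real.exp (-((100 / 121 : ℝ) ^ 7)) ≤ 3843/5000 := by
  apply sb_eb (r := 2633/10000) 6 (by norm_num) (by norm_num)
  norm_num [Finset.sum_range_succ, Nat.factorial]


private theorem sbB8 : Real.exp (-((100 / 121 : ℝ) ^ 8)) ≤ 1609/2000 := by
  apply sb_eb (r := 136/625) 6 (by norm_num) (by norm_num)
  norm_num [Finset.sum_range_succ, Nat.factorial]


private theorem sbB9 : Real.exp (-((100 / 121 : ℝ) ^ 9)) ≤ 1671/2000 := by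
  apply sb_eb (r := 899/5000) 6 (by norm_num) (by norm_num)
  norm_num [Finset.sum_range_succ, Nat.factorial]


private theorem sbB10 : Real.exp (-((100 / 121 : ℝ) ^ 10)) ≤ 431/500 := by
  apply sb_eb (r := 743/5000) 6 (by norm_num) (by norm_num)
  norm_num [Finset.sum_range_succ, Nat.factorial]


private theorem sbB11 : Real.exp (-((100 / 121 : ℝ) ^ 11)) ≤ 1769/2000 := by
  apply sb_eb (r := 307/2500) 6 (by norm_num) (by norm_num)
  norm_num [Finset.sum_range_succ, Nat.factorial]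


private theorem sbB12 : Real.exp (-((100 / 121 : ℝ) ^ 12)) ≤ 1807/2000 := by
  apply sb_eb (r := 203/2000) 6 (by norm_num) (by norm_num)
  norm_num [Finset.sum_range_succ, Nat.factorial]


private theorem sbB13 : Real.exp (-((100 / 121 : ℝ) ^ 13)) ≤ 2299/2500 := by
  apply sb_eb (r := 839/10000) 6 (by norm_num) (by norm_num)
  norm_num [Finset.sum_range_succ, Nat.factorial]


private theorem sbB14 : Real.exp (-((100 / 121 : ℝ) ^ 14)) ≤ 9331/10000 := by
  apply sb_eb (r := 693/10000) 6 (by norm_num) (by norm_num)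
  norm_num [Finset.sum_range_succ, Nat.factorial]


private theorem sbB15 : Real.exp (-((100 / 121 : ℝ) ^ 15)) ≤ 2361/2500 := by
  apply sb_eb (r := 573/10000) 6 (by norm_num) (by norm_num)
  norm_num [Finset.sum_range_succ, Nat.factorial]


private theorem sbB16 : Real.exp (-((100 / 121 : ℝ) ^ 16)) ≤ 9539/10000 := by
  apply sb_eb (r := 473/10000) 6 (by norm_num) (by norm_num)
  norm_num [Finset.sum_range_succ, Nat.factorial]


private theorem sbB17 : Real.exp (-((100 / 121 : ℝ) ^ 17)) ≤ 9617/10000 := by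
  apply sb_eb (r := 391/10000) 6 (by norm_num) (by norm_num)
  norm_num [Finset.sum_range_succ, Nat.factorial]


private theorem sbB18 : Real.exp (-((100 / 121 : ℝ) ^ 18)) ≤ 9683/10000 := by
  apply sb_eb (r := 323/10000) 6 (by norm_num) (by norm_num)
  norm_num [Finset.sum_range_succ, Nat.factorial]


private theorem sb_half1 : Summable (fun n : ℕ => Real.exp (-((121 / 100 : ℝ) ^ n)) * (11 / 10 : ℝ) ^ n) ∧
    ∑' n : ℕ, Real.exp (-((121 / 100 : ℝ) ^ n)) * (11 / 10 : ℝ) ^ n ≤ 1653/1000 := by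
  have h := sb_tail (fun n : ℕ => Real.exp (-((121 / 100 : ℝ) ^ n)) * (11 / 10 : ℝ) ^ n)
    (fun i => by positivity) 15 (1 / 1000) ((10 / 11) ^ 11) (by positivity) (by norm_num) ?_
  · refine ⟨h.1, h.2.trans ?_⟩
    have a0 := mul_le_mul_of_nonneg_right sbA0 (show (0 : ℝ) ≤ (11 / 10) ^ 0 by positivity)
    have a1 := mul_le_mul_of_nonneg_right sbA1 (show (0 : ℝ) ≤ (11 / 10) ^ 1 by positivity)
    have a2 := mul_le_mul_of_nonneg_right sbA2 (show (0 : ℝ) ≤ (11 / 10) ^ 2 by positivity)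
    have a3 := mul_le_mul_of_nonneg_right sbA3 (show (0 : ℝ) ≤ (11 / 10) ^ 3 by positivity)
    have a4 := mul_le_mul_of_nonneg_right sbA4 (show (0 : ℝ) ≤ (11 / 10) ^ 4 by positivity)
    have a5 := mul_le_mul_of_nonneg_right sbA5 (show (0 : ℝ) ≤ (11 / 10) ^ 5 by positivity)
    have a6 := mul_le_mul_of_nonneg_right sbA6 (show (0 : ℝ) ≤ (11 / 10) ^ 6 by positivity)
    have a7 := mul_le_mul_of_nonneg_right sbA7 (show (0 : ℝ) ≤ (11 / 10) ^ 7 by positivity)
    have a8 := mul_le_mul_of_nonneg_right sbA8 (show (0 : ℝ) ≤ (11 / 10) ^ 8 by positivity)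
    have a9 := mul_le_mul_of_nonneg_right sbA9 (show (0 : ℝ) ≤ (11 / 10) ^ 9 by positivity)
    have a10 := mul_le_mul_of_nonneg_right sbA10 (show (0 : ℝ) ≤ (11 / 10) ^ 10 by positivity)
    have a11 := mul_le_mul_of_nonneg_right sbA11 (show (0 : ℝ) ≤ (11 / 10) ^ 11 by positivity)
    have a12 := mul_le_mul_of_nonneg_right sbA12 (show (0 : ℝ) ≤ (11 / 10) ^ 12 by positivity)
    have a13 := mul_le_mul_of_nonneg_right sbA13 (show (0 : ℝ) ≤ (11 / 10) ^ 13 by positivity)
    have a14 := mul_le_mul_of_nonneg_right sbA14 (show (0 : ℝ) ≤ (11 / 10) ^ 14 by positivity)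
    simp only [Finset.sum_range_succ, Finset.sum_range_zero]
    norm_num at *
    linarith
  · intro i
    have hx : (0 : ℝ) < (121 / 100 : ℝ) ^ (i + 15) := by positivity
    have h1 := Real.pow_div_factorial_le_exp _ hx.le 6
    have h2 : Real.exp (-((121 / 100 : ℝ) ^ (i + 15))) ≤ 720 / ((121 / 100 : ℝ) ^ (i + 15)) ^ 6 := by
      rw [Real.exp_neg, inv_le_comm₀ (Real.exp_pos _) (by positivity), inv_div]
      simpa [Nat.factorial] using h1
    calc Real.exp (-((121 / 100 : ℝ) ^ (i + 15))) * (11 / 10 : ℝ) ^ (i + 15)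
        ≤ 720 / ((121 / 100 : ℝ) ^ (i + 15)) ^ 6 * (11 / 10 : ℝ) ^ (i + 15) :=
          mul_le_mul_of_nonneg_right h2 (by positivity)
      _ = 720 * ((10 / 11) ^ 11) ^ (i + 15) := by
          rw [← pow_mul (121 / 100 : ℝ), mul_comm (i + 15) 6, pow_mul, div_mul_eq_mul_div,
            mul_div_assoc, ← div_pow]
          norm_num
      _ = (720 * ((10 / 11) ^ 11) ^ 15) * ((10 / 11) ^ 11) ^ i := by
          rw [pow_add]
          ring
      _ ≤ 1 / 1000 * ((10 / 11) ^ 11) ^ i := by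
          apply mul_le_mul_of_nonneg_right _ (by positivity)
          norm_num


private theorem sb_half2 :
    Summable (fun n : ℕ => Real.exp (-((100 / 121 : ℝ) ^ (n + 1))) * (10 / 11 : ℝ) ^ (n + 1)) ∧
    ∑' n : ℕ, Real.exp (-((100 / 121 : ℝ) ^ (n + 1))) * (10 / 11 : ℝ) ^ (n + 1) ≤ 1917/250 := by
  have h := sb_tail (fun n : ℕ => Real.exp (-((100 / 121 : ℝ) ^ (n + 1))) * (10 / 11 : ℝ) ^ (n + 1))
    (fun i => by positivity) 18 ((10 / 11) ^ 19) (10 / 11) (by norm_num) (by norm_num) ?_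
  · refine ⟨h.1, h.2.trans ?_⟩
    have b1 := mul_le_mul_of_nonneg_right sbB1 (show (0 : ℝ) ≤ (10 / 11) ^ 1 by positivity)
    have b2 := mul_le_mul_of_nonneg_right sbB2 (show (0 : ℝ) ≤ (10 / 11) ^ 2 by positivity)
    have b3 := mul_le_mul_of_nonneg_right sbB3 (show (0 : ℝ) ≤ (10 / 11) ^ 3 by positivity)
    have b4 := mul_le_mul_of_nonneg_right sbB4 (show (0 : ℝ) ≤ (10 / 11) ^ 4 by positivity)
    have b5 := mul_le_mul_of_nonneg_right sbB5 (show (0 : ℝ) ≤ (10 / 11) ^ 5 by positivity)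
    have b6 := mul_le_mul_of_nonneg_right sbB6 (show (0 : ℝ) ≤ (10 / 11) ^ 6 by positivity)
    have b7 := mul_le_mul_of_nonneg_right sbB7 (show (0 : ℝ) ≤ (10 / 11) ^ 7 by positivity)
    have b8 := mul_le_mul_of_nonneg_right sbB8 (show (0 : ℝ) ≤ (10 / 11) ^ 8 by positivity)
    have b9 := mul_le_mul_of_nonneg_right sbB9 (show (0 : ℝ) ≤ (10 / 11) ^ 9 by positivity)
    have b10 := mul_le_mul_of_nonneg_right sbB10 (show (0 : ℝ) ≤ (10 / 11) ^ 10 by positivity)
    have b11 := mul_le_mul_of_nonneg_right sbB11 (show (0 : ℝ) ≤ (10 / 11) ^ 11 by positivity)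
    have b12 := mul_le_mul_of_nonneg_right sbB12 (show (0 : ℝ) ≤ (10 / 11) ^ 12 by positivity)
    have b13 := mul_le_mul_of_nonneg_right sbB13 (show (0 : ℝ) ≤ (10 / 11) ^ 13 by positivity)
    have b14 := mul_le_mul_of_nonneg_right sbB14 (show (0 : ℝ) ≤ (10 / 11) ^ 14 by positivity)
    have b15 := mul_le_mul_of_nonneg_right sbB15 (show (0 : ℝ) ≤ (10 / 11) ^ 15 by positivity)
    have b16 := mul_le_mul_of_nonneg_right sbB16 (show (0 : ℝ) ≤ (10 / 11) ^ 16 by positivity)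
    have b17 := mul_le_mul_of_nonneg_right sbB17 (show (0 : ℝ) ≤ (10 / 11) ^ 17 by positivity)
    have b18 := mul_le_mul_of_nonneg_right sbB18 (show (0 : ℝ) ≤ (10 / 11) ^ 18 by positivity)
    simp only [Finset.sum_range_succ, Finset.sum_range_zero]
    norm_num at *
    linarith
  · intro i
    have h2 : Real.exp (-((100 / 121 : ℝ) ^ (i + 18 + 1))) ≤ 1 := by
      rw [Real.exp_le_one_iff]
      have : (0 : ℝ) < (100 / 121 : ℝ) ^ (i + 18 + 1) := by positivity
      linarith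
    calc Real.exp (-((100 / 121 : ℝ) ^ (i + 18 + 1))) * (10 / 11 : ℝ) ^ (i + 18 + 1)
        ≤ 1 * (10 / 11 : ℝ) ^ (i + 18 + 1) := mul_le_mul_of_nonneg_right h2 (by positivity)
      _ = (10 / 11) ^ 19 * (10 / 11) ^ i := by
          rw [one_mul, ← pow_add]
          congr 1
          omega

theorem thetaHalf : Summable (fun k : ℤ => Real.exp (-(q ^ k)) * (11 / 10 : ℝ) ^ k) ∧
    ∑' k : ℤ, Real.exp (-(q ^ k)) * (11 / 10 : ℝ) ^ k ≤ 94 / 10 := by
  have h := sb_int (fun k : ℤ => Real.exp (-(q ^ k)) * (11 / 10 : ℝ) ^ k) (1653/1000) (1917/250)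
    (by simp only [q_nat, e_nat]; exact sb_half1) (by simp only [q_neg, e_neg]; exact sb_half2)
  exact ⟨h.1, h.2.trans (by norm_num)⟩

private theorem sb_five1 :
    Summable (fun n : ℕ => Real.exp (-((121 / 100 : ℝ) ^ n)) * ((121 / 100 : ℝ) ^ n) ^ 5) ∧
    ∑' n : ℕ, Real.exp (-((121 / 100 : ℝ) ^ n)) * ((121 / 100 : ℝ) ^ n) ^ 5 ≤ 3144/25 := by
  have h := sb_tail (fun n : ℕ => Real.exp (-((121 / 100 : ℝ) ^ n)) * ((121 / 100 : ℝ) ^ n) ^ 5)
    (fun i => by positivity) 18 (2 / 100) ((100 / 121) ^ 7) (by positivity) (by norm_num) ?_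
  · refine ⟨h.1, h.2.trans ?_⟩
    have a0 := mul_le_mul_of_nonneg_right sbA0 (show (0 : ℝ) ≤ ((121 / 100) ^ 0) ^ 5 by positivity)
    have a1 := mul_le_mul_of_nonneg_right sbA1 (show (0 : ℝ) ≤ ((121 / 100) ^ 1) ^ 5 by positivity)
    have a2 := mul_le_mul_of_nonneg_right sbA2 (show (0 : ℝ) ≤ ((121 / 100) ^ 2) ^ 5 by positivity)
    have a3 := mul_le_mul_of_nonneg_right sbA3 (show (0 : ℝ) ≤ ((121 / 100) ^ 3) ^ 5 by positivity)
    have a4 := mul_le_mul_of_nonneg_right sbA4 (show (0 : ℝ) ≤ ((121 / 100) ^ 4) ^ 5 by positivity)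
    have a5 := mul_le_mul_of_nonneg_right sbA5 (show (0 : ℝ) ≤ ((121 / 100) ^ 5) ^ 5 by positivity)
    have a6 := mul_le_mul_of_nonneg_right sbA6 (show (0 : ℝ) ≤ ((121 / 100) ^ 6) ^ 5 by positivity)
    have a7 := mul_le_mul_of_nonneg_right sbA7 (show (0 : ℝ) ≤ ((121 / 100) ^ 7) ^ 5 by positivity)
    have a8 := mul_le_mul_of_nonneg_right sbA8 (show (0 : ℝ) ≤ ((121 / 100) ^ 8) ^ 5 by positivity)
    have a9 := mul_le_mul_of_nonneg_right sbA9 (show (0 : ℝ) ≤ ((121 / 100) ^ 9) ^ 5 by positivity)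
    have a10 := mul_le_mul_of_nonneg_right sbA10 (show (0 : ℝ) ≤ ((121 / 100) ^ 10) ^ 5 by positivity)
    have a11 := mul_le_mul_of_nonneg_right sbA11 (show (0 : ℝ) ≤ ((121 / 100) ^ 11) ^ 5 by positivity)
    have a12 := mul_le_mul_of_nonneg_right sbA12 (show (0 : ℝ) ≤ ((121 / 100) ^ 12) ^ 5 by positivity)
    have a13 := mul_le_mul_of_nonneg_right sbA13 (show (0 : ℝ) ≤ ((121 / 100) ^ 13) ^ 5 by positivity)
    have a14 := mul_le_mul_of_nonneg_right sbA14 (show (0 : ℝ) ≤ ((121 / 100) ^ 14) ^ 5 by positivity)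
    have a15 := mul_le_mul_of_nonneg_right sbA15 (show (0 : ℝ) ≤ ((121 / 100) ^ 15) ^ 5 by positivity)
    have a16 := mul_le_mul_of_nonneg_right sbA16 (show (0 : ℝ) ≤ ((121 / 100) ^ 16) ^ 5 by positivity)
    have a17 := mul_le_mul_of_nonneg_right sbA17 (show (0 : ℝ) ≤ ((121 / 100) ^ 17) ^ 5 by positivity)
    simp only [Finset.sum_range_succ, Finset.sum_range_zero]
    norm_num at *
    linarith
  · intro i
    have hx : (0 : ℝ) < (121 / 100 : ℝ) ^ (i + 18) := by positivity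
    have h1 := Real.pow_div_factorial_le_exp _ hx.le 12
    have h2 : Real.exp (-((121 / 100 : ℝ) ^ (i + 18))) ≤ 479001600 / ((121 / 100 : ℝ) ^ (i + 18)) ^ 12 := by
      rw [Real.exp_neg, inv_le_comm₀ (Real.exp_pos _) (by positivity), inv_div]
      simpa [Nat.factorial] using h1
    calc Real.exp (-((121 / 100 : ℝ) ^ (i + 18))) * ((121 / 100 : ℝ) ^ (i + 18)) ^ 5
        ≤ 479001600 / ((121 / 100 : ℝ) ^ (i + 18)) ^ 12 * ((121 / 100 : ℝ) ^ (i + 18)) ^ 5 :=
          mul_le_mul_of_nonneg_right h2 (by positivity)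
      _ = 479001600 * ((100 / 121) ^ (i + 18)) ^ 7 := by
          have e1 : ((100 / 121 : ℝ) ^ (i + 18)) = ((121 / 100 : ℝ) ^ (i + 18))⁻¹ := by
            rw [← inv_pow]
            norm_num
          rw [e1]
          field_simp
      _ = 479001600 * ((100 / 121) ^ 7) ^ (i + 18) := by
          rw [← pow_mul, ← pow_mul, mul_comm (i + 18) 7]
      _ = (479001600 * ((100 / 121) ^ 7) ^ 18) * ((100 / 121) ^ 7) ^ i := by
          rw [pow_add]
          ring
      _ ≤ 2 / 100 * ((100 / 121) ^ 7) ^ i := by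
          apply mul_le_mul_of_nonneg_right _ (by positivity)
          norm_num

private theorem sb_five2 :
    Summable (fun n : ℕ => Real.exp (-((100 / 121 : ℝ) ^ (n + 1))) * ((100 / 121 : ℝ) ^ (n + 1)) ^ 5) ∧
    ∑' n : ℕ, Real.exp (-((100 / 121 : ℝ) ^ (n + 1))) * ((100 / 121 : ℝ) ^ (n + 1)) ^ 5 ≤ 31/100 := by
  have h := sb_tail
    (fun n : ℕ => Real.exp (-((100 / 121 : ℝ) ^ (n + 1))) * ((100 / 121 : ℝ) ^ (n + 1)) ^ 5)
    (fun i => by positivity) 4 (((100 / 121) ^ 5) ^ 5) ((100 / 121) ^ 5) (by positivity) (by norm_num) ?_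
  · refine ⟨h.1, h.2.trans ?_⟩
    have b1 := mul_le_mul_of_nonneg_right sbB1 (show (0 : ℝ) ≤ ((100 / 121) ^ 1) ^ 5 by positivity)
    have b2 := mul_le_mul_of_nonneg_right sbB2 (show (0 : ℝ) ≤ ((100 / 121) ^ 2) ^ 5 by positivity)
    have b3 := mul_le_mul_of_nonneg_right sbB3 (show (0 : ℝ) ≤ ((100 / 121) ^ 3) ^ 5 by positivity)
    have b4 := mul_le_mul_of_nonneg_right sbB4 (show (0 : ℝ) ≤ ((100 / 121) ^ 4) ^ 5 by positivity)
    simp only [Finset.sum_range_succ, Finset.sum_range_zero]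
    norm_num at *
    linarith
  · intro i
    have h2 : Real.exp (-((100 / 121 : ℝ) ^ (i + 4 + 1))) ≤ 1 := by
      rw [Real.exp_le_one_iff]
      have : (0 : ℝ) < (100 / 121 : ℝ) ^ (i + 4 + 1) := by positivity
      linarith
    calc Real.exp (-((100 / 121 : ℝ) ^ (i + 4 + 1))) * ((100 / 121 : ℝ) ^ (i + 4 + 1)) ^ 5
        ≤ 1 * ((100 / 121 : ℝ) ^ (i + 4 + 1)) ^ 5 := mul_le_mul_of_nonneg_right h2 (by positivity)
      _ = ((100 / 121) ^ 5) ^ 5 * ((100 / 121) ^ 5) ^ i := by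
          rw [one_mul, ← pow_add, ← pow_mul, ← pow_mul]
          congr 1
          omega

theorem thetaFive : Summable (fun k : ℤ => Real.exp (-(q ^ k)) * (q ^ k) ^ 5) ∧
    ∑' k : ℤ, Real.exp (-(q ^ k)) * (q ^ k) ^ 5 ≤ 127 := by
  have h := sb_int (fun k : ℤ => Real.exp (-(q ^ k)) * (q ^ k) ^ 5) (3144/25) (31/100)
    (by simp only [q_nat]; exact sb_five1) (by simp only [q_neg]; exact sb_five2)
  exact ⟨h.1, h.2.trans (by norm_num)⟩

private theorem q_pos : (0 : ℝ) < q := by unfold q; norm_num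

private theorem sqrt_q (k : ℤ) {X : ℝ} (hX : 0 < X) :
    √(X * q ^ (-k)) = √X * (11 / 10 : ℝ) ^ (-k) := by
  rw [Real.sqrt_mul hX.le]
  congr 1
  have e1 : q ^ (-k) = ((11 / 10 : ℝ) ^ (-k)) ^ 2 := by
    unfold q
    rw [← zpow_natCast, ← zpow_mul, mul_comm, zpow_mul]
    norm_num
  rw [e1, Real.sqrt_sq (zpow_nonneg (by norm_num) _)]

private theorem sb_main (n : ℕ) : ∀ X : ℝ, 0 < X → 0 ≤ S n X ∧
    S n X ≤ 1 / 2 * (94 / 10) ^ n / √X ∧ S n X ≤ 120 * 127 ^ n / X ^ 5 ∧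
    Summable (fun k : ℤ => Real.exp (-(q ^ k)) * S n (X * q ^ (-k))) := by
  have key : ∀ n : ℕ, (∀ X : ℝ, 0 < X → 0 ≤ S n X ∧
      S n X ≤ 1 / 2 * (94 / 10) ^ n / √X ∧ S n X ≤ 120 * 127 ^ n / X ^ 5) →
      ∀ X : ℝ, 0 < X → Summable (fun k : ℤ => Real.exp (-(q ^ k)) * S n (X * q ^ (-k))) := by
    intro n ih X hX
    have hq := q_pos
    refine Summable.of_nonneg_of_le (fun k => ?_) (fun k => ?_)
      (thetaHalf.1.mul_left (1 / 2 * (94 / 10) ^ n / √X))
    · exact mul_nonneg (Real.exp_pos _).le (ih _ (by positivity)).1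
    · have h1 := (ih (X * q ^ (-k)) (by positivity)).2.1
      rw [sqrt_q k hX] at h1
      calc Real.exp (-(q ^ k)) * S n (X * q ^ (-k))
          ≤ Real.exp (-(q ^ k)) * (1 / 2 * (94 / 10) ^ n / (√X * (11 / 10 : ℝ) ^ (-k))) :=
            mul_le_mul_of_nonneg_left h1 (Real.exp_pos _).le
        _ = 1 / 2 * (94 / 10) ^ n / √X * (Real.exp (-(q ^ k)) * (11 / 10 : ℝ) ^ k) := by
            rw [zpow_neg]
            field_simp
  induction n with
  | zero =>
    have h0 : ∀ X : ℝ, 0 < X → 0 ≤ S 0 X ∧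
        S 0 X ≤ 1 / 2 * (94 / 10) ^ 0 / √X ∧ S 0 X ≤ 120 * 127 ^ 0 / X ^ 5 := by
      intro X hX
      refine ⟨(Real.exp_pos _).le, ?_, ?_⟩
      · change Real.exp (-X) ≤ _
        have hs : 0 < √X := Real.sqrt_pos.mpr hX
        have h1 : 2 * √X ≤ Real.exp X := by
          have h2 := Real.add_one_le_exp X
          have h3 : √X ^ 2 = X := Real.sq_sqrt hX.le
          nlinarith [sq_nonneg (√X - 1)]
        rw [pow_zero, mul_one, Real.exp_neg, inv_le_comm₀ (Real.exp_pos _) (by positivity), inv_div,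
          div_le_iff₀ (by norm_num)]
        linarith
      · change Real.exp (-X) ≤ _
        have h1 := Real.pow_div_factorial_le_exp X hX.le 5
        rw [pow_zero, mul_one, Real.exp_neg, inv_le_comm₀ (Real.exp_pos _) (by positivity), inv_div]
        simpa [Nat.factorial] using h1
    intro X hX
    obtain ⟨h1, h2, h3⟩ := h0 X hX
    exact ⟨h1, h2, h3, key 0 h0 X hX⟩
  | succ n ih =>
    have hq := q_pos
    have h0 : ∀ X : ℝ, 0 < X → 0 ≤ S (n + 1) X ∧
        S (n + 1) X ≤ 1 / 2 * (94 / 10) ^ (n + 1) / √X ∧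
        S (n + 1) X ≤ 120 * 127 ^ (n + 1) / X ^ 5 := by
      intro X hX
      have hs : 0 < √X := Real.sqrt_pos.mpr hX
      have hS : S (n + 1) X = ∑' k : ℤ, Real.exp (-(q ^ k)) * S n (X * q ^ (-k)) := rfl
      rw [hS]
      have hsum := (ih X hX).2.2.2
      refine ⟨tsum_nonneg (fun k => mul_nonneg (Real.exp_pos _).le (ih _ (by positivity)).1), ?_, ?_⟩
      · have h1 : ∑' k : ℤ, Real.exp (-(q ^ k)) * S n (X * q ^ (-k)) ≤
            ∑' k : ℤ, 1 / 2 * (94 / 10) ^ n / √X * (Real.exp (-(q ^ k)) * (11 / 10 : ℝ) ^ k) := by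
          refine hsum.tsum_le_tsum (fun k => ?_) (thetaHalf.1.mul_left _)
          have h1 := (ih (X * q ^ (-k)) (by positivity)).2.1
          rw [sqrt_q k hX] at h1
          calc Real.exp (-(q ^ k)) * S n (X * q ^ (-k))
              ≤ Real.exp (-(q ^ k)) * (1 / 2 * (94 / 10) ^ n / (√X * (11 / 10 : ℝ) ^ (-k))) :=
                mul_le_mul_of_nonneg_left h1 (Real.exp_pos _).le
            _ = 1 / 2 * (94 / 10) ^ n / √X * (Real.exp (-(q ^ k)) * (11 / 10 : ℝ) ^ k) := by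
                rw [zpow_neg]
                field_simp
        refine h1.trans ?_
        rw [tsum_mul_left]
        calc 1 / 2 * (94 / 10) ^ n / √X * ∑' k : ℤ, Real.exp (-(q ^ k)) * (11 / 10 : ℝ) ^ k
            ≤ 1 / 2 * (94 / 10) ^ n / √X * (94 / 10) :=
              mul_le_mul_of_nonneg_left thetaHalf.2 (by positivity)
          _ = 1 / 2 * (94 / 10) ^ (n + 1) / √X := by
              rw [pow_succ]
              ring
      · have h1 : ∑' k : ℤ, Real.exp (-(q ^ k)) * S n (X * q ^ (-k)) ≤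
            ∑' k : ℤ, 120 * 127 ^ n / X ^ 5 * (Real.exp (-(q ^ k)) * (q ^ k) ^ 5) := by
          refine hsum.tsum_le_tsum (fun k => ?_) (thetaFive.1.mul_left _)
          have h1 := (ih (X * q ^ (-k)) (by positivity)).2.2.1
          calc Real.exp (-(q ^ k)) * S n (X * q ^ (-k))
              ≤ Real.exp (-(q ^ k)) * (120 * 127 ^ n / (X * q ^ (-k)) ^ 5) :=
                mul_le_mul_of_nonneg_left h1 (Real.exp_pos _).le
            _ = 120 * 127 ^ n / X ^ 5 * (Real.exp (-(q ^ k)) * (q ^ k) ^ 5) := by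
                rw [zpow_neg]
                field_simp
        refine h1.trans ?_
        rw [tsum_mul_left]
        calc 120 * 127 ^ n / X ^ 5 * ∑' k : ℤ, Real.exp (-(q ^ k)) * (q ^ k) ^ 5
            ≤ 120 * 127 ^ n / X ^ 5 * 127 :=
              mul_le_mul_of_nonneg_left thetaFive.2 (by positivity)
          _ = 120 * 127 ^ (n + 1) / X ^ 5 := by
              rw [pow_succ]
              ring
    intro X hX
    obtain ⟨h1, h2, h3⟩ := h0 X hX
    exact ⟨h1, h2, h3, key (n + 1) h0 X hX⟩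

theorem S_nonneg (n : ℕ) {X : ℝ} (hX : 0 < X) : 0 ≤ S n X := (sb_main n X hX).1

theorem S_summable (n : ℕ) {X : ℝ} (hX : 0 < X) :
    Summable (fun k : ℤ => Real.exp (-(q ^ k)) * S n (X * q ^ (-k))) := (sb_main n X hX).2.2.2

theorem S_le_half (n : ℕ) {X : ℝ} (hX : 0 < X) : S n X ≤ 1 / 2 * (94 / 10) ^ n / √X :=
  (sb_main n X hX).2.1

theorem S_le_five (n : ℕ) {X : ℝ} (hX : 0 < X) : S n X ≤ 120 * 127 ^ n / X ^ 5 :=
  (sb_main n X hX).2.2.1

end H81.L2
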