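import Pool.Agent.H81.L2.Trap1
import Pool.Agent.H81.L2.SBound
import Pool.Agent.H81.LP.Krec

/-!
# Module M3: the trapezoid rule in `n` variables, grid `q = 121/100`

Adapted from `Pool/Agent/H81/LP/TrapN.lean`.  Claim of the induction:
`|K n X - hh^n S n X| ≤ n 2^(-66) (9/5)^n X^(-1/2)`; step: `hh · 94/10 ≤ 9/5`
(`0.19063 · 9.4 = 1.79193`), `√π ≤ 9/5`.  `trapN'`: divide by `hh^n` (`9/5/hh ≤ 19/2` as
`1.8/0.19061 = 9.4434`).
-/

namespace H81.L2

open H81 MeasureTheory

private theorem trapN_q_pos : 0 < q := by unfold q; norm_num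

private theorem trapN_qk_pos (k : ℤ) : 0 < q ^ k := zpow_pos trapN_q_pos k

private theorem trapN_q_eq (k : ℤ) : q ^ (-k) = (((11 / 10 : ℝ) ^ k)⁻¹) ^ 2 := by
  have h : q = (11 / 10 : ℝ) ^ 2 := by unfold q; norm_num
  rw [zpow_neg, h, inv_pow]
  congr 1
  rw [← zpow_natCast, ← zpow_natCast, ← zpow_mul, ← zpow_mul, mul_comm]

private theorem trapN_sqrt {X : ℝ} (hX : 0 < X) (k : ℤ) (C : ℝ) :
    C / √(X * q ^ (-k)) = C * (11 / 10 : ℝ) ^ k / √X := by
  have h1 : (0 : ℝ) < (11 / 10 : ℝ) ^ k := by positivity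
  rw [trapN_q_eq, Real.sqrt_mul hX.le, Real.sqrt_sq (by positivity)]
  have : 0 < √X := Real.sqrt_pos.mpr hX
  field_simp

private theorem trapN_gamma : Integrable (fun t : ℝ => Real.exp (-Real.exp t + t / 2)) ∧
    ∫ t : ℝ, Real.exp (-Real.exp t + t / 2) = √Real.pi := by
  have himg : Real.exp '' Set.univ = Set.Ioi 0 := by
    rw [Set.image_univ, Real.range_exp]
  have hder : ∀ t ∈ (Set.univ : Set ℝ), HasDerivWithinAt Real.exp (Real.exp t) Set.univ t :=
    fun t _ => (Real.hasDerivAt_exp t).hasDerivWithinAt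
  have hinj : Set.InjOn Real.exp Set.univ := Real.exp_injective.injOn
  have hfun : ∀ t : ℝ, |Real.exp t| • (Real.exp (-Real.exp t) * Real.exp t ^ ((1 / 2 : ℝ) - 1)) =
      Real.exp (-Real.exp t + t / 2) := by
    intro t
    rw [abs_of_pos (Real.exp_pos t), smul_eq_mul, ← Real.exp_mul, ← Real.exp_add,
      ← Real.exp_add]
    congr 1
    ring
  constructor
  · have h := Real.GammaIntegral_convergent (s := 1 / 2) (by norm_num)
    rw [← himg, integrableOn_image_iff_integrableOn_abs_deriv_smul MeasurableSet.univ hder hinj]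
      at h
    simp only [hfun] at h
    rwa [integrableOn_univ] at h
  · have h := Real.Gamma_eq_integral (s := 1 / 2) (by norm_num)
    rw [Real.Gamma_one_half_eq] at h
    rw [h, ← himg, integral_image_eq_integral_abs_deriv_smul MeasurableSet.univ hder hinj]
    simp only [hfun]
    rw [setIntegral_univ]

private theorem trapN_gammaN (n : ℕ) :
    Integrable (fun v : Fin n → ℝ => Real.exp (-(∑ i, Real.exp (v i)) + (∑ i, v i) / 2)) ∧
    ∫ v : Fin n → ℝ, Real.exp (-(∑ i, Real.exp (v i)) + (∑ i, v i) / 2) = (√Real.pi) ^ n := by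
  have hfun : (fun v : Fin n → ℝ => Real.exp (-(∑ i, Real.exp (v i)) + (∑ i, v i) / 2)) =
      fun v : Fin n → ℝ => ∏ i, Real.exp (-Real.exp (v i) + v i / 2) := by
    funext v
    rw [← Real.exp_sum, Finset.sum_add_distrib, Finset.sum_neg_distrib, Finset.sum_div]
  obtain ⟨h1, h2⟩ := trapN_gamma
  rw [hfun]
  constructor
  · exact Integrable.fintype_prod (μ := fun _ : Fin n => (volume : Measure ℝ))
      (f := fun _ t => Real.exp (-Real.exp t + t / 2)) (fun _ => h1)
  · rw [integral_fintype_prod_volume_eq_pow (ι := Fin n)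
      (fun t : ℝ => Real.exp (-Real.exp t + t / 2)), h2, Fintype.card_fin]

private theorem trapN_summK (n : ℕ) {X : ℝ} (hX : 0 < X) :
    Summable (fun k : ℤ => Real.exp (-(q ^ k)) * LP.K n (X * q ^ (-k))) := by
  have h1 : Summable (fun k : ℤ => (1 / 2 * (√Real.pi) ^ n / √X) *
      (Real.exp (-(q ^ k)) * (11 / 10 : ℝ) ^ k)) := thetaHalf.1.mul_left _
  refine Summable.of_nonneg_of_le (fun k => ?_) (fun k => ?_) h1
  · have := (LP.K_pos n (mul_pos hX (trapN_qk_pos (-k)))).le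
    positivity
  · have h2 := LP.K_le n (mul_pos hX (trapN_qk_pos (-k)))
    rw [trapN_sqrt hX] at h2
    calc Real.exp (-(q ^ k)) * LP.K n (X * q ^ (-k))
        ≤ Real.exp (-(q ^ k)) * (1 / 2 * (√Real.pi) ^ n * (11 / 10 : ℝ) ^ k / √X) :=
          mul_le_mul_of_nonneg_left h2 (Real.exp_pos _).le
      _ = (1 / 2 * (√Real.pi) ^ n / √X) * (Real.exp (-(q ^ k)) * (11 / 10 : ℝ) ^ k) := by ring

private theorem trapN_b (n : ℕ) {X : ℝ} (hX : 0 < X) :
    |hh * ∑' k : ℤ, Real.exp (-(q ^ k)) * LP.K n (X * q ^ (-k)) - LP.K (n + 1) X| ≤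
      1 / 2 ^ 66 * (√Real.pi) ^ n / √X := by
  set T := ∑' k : ℤ, Real.exp (-(q ^ k)) * LP.K n (X * q ^ (-k)) with hTdef
  let Y : (Fin n → ℝ) → ℝ := fun v => X * Real.exp (-(∑ i, v i))
  let P : (Fin n → ℝ) → ℝ := fun v => Real.exp (-(∑ i, Real.exp (v i)))
  have hY : ∀ v, 0 < Y v := fun v => by simp only [Y]; positivity
  let F : ℤ → (Fin n → ℝ) → ℝ := fun k v =>
    Real.exp (-(q ^ k)) * Real.exp (-(∑ i, Real.exp (v i)) -
      (X * q ^ (-k)) * Real.exp (-(∑ i, v i)))
  have hF : ∀ k v, F k v = P v * Real.exp (-(q ^ k) - Y v * q ^ (-k)) := by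
    intro k v
    simp only [F, P, Y]
    rw [← Real.exp_add, ← Real.exp_add]
    congr 1
    ring
  have hFi : ∀ k, Integrable (F k) := fun k =>
    (LP.K_integrable n (mul_pos hX (trapN_qk_pos (-k)))).const_mul _
  have hFint : ∀ k, ∫ v, F k v = Real.exp (-(q ^ k)) * LP.K n (X * q ^ (-k)) := by
    intro k
    simp only [F]
    rw [integral_const_mul]
    rfl
  have hFnorm : ∀ k, ∫ v, ‖F k v‖ = Real.exp (-(q ^ k)) * LP.K n (X * q ^ (-k)) := by
    intro k
    rw [← hFint k]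
    congr 1
    funext v
    rw [Real.norm_of_nonneg]
    simp only [F]
    positivity
  have hsum := trapN_summK n hX
  have hTA : T = ∫ v, ∑' k, F k v := by
    rw [← integral_tsum_of_summable_integral_norm hFi (by simpa only [hFnorm] using hsum)]
    simp only [hFint]
    rfl
  have hTpos : 0 < T := by
    have h0 : 0 < Real.exp (-(q ^ (0 : ℤ))) * LP.K n (X * q ^ (-(0 : ℤ))) := by
      have := LP.K_pos n (mul_pos hX (trapN_qk_pos (-(0 : ℤ))))
      positivity
    refine hsum.tsum_pos (fun k => ?_) 0 h0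
    have := (LP.K_pos n (mul_pos hX (trapN_qk_pos (-k)))).le
    positivity
  have hAint : Integrable (fun v => ∑' k, F k v) := by
    apply Integrable.of_integral_ne_zero
    rw [← hTA]
    exact hTpos.ne'
  have hA : ∀ v, ∑' k, F k v = P v * ∑' k : ℤ, Real.exp (-(q ^ k) - Y v * q ^ (-k)) := by
    intro v
    simp only [hF]
    rw [tsum_mul_left]
  obtain ⟨hprod, hK⟩ := LP.krec_prod n hX
  have hBeq : ∀ v : Fin n → ℝ, ∫ t : ℝ, Real.exp (-Real.exp t) *
      Real.exp (-(∑ i, Real.exp (v i)) - (X * Real.exp (-t)) * Real.exp (-(∑ i, v i))) =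
      P v * ∫ t : ℝ, Real.exp (-Real.exp t - Y v * Real.exp (-t)) := by
    intro v
    rw [← integral_const_mul]
    congr 1
    funext t
    simp only [P, Y]
    rw [← Real.exp_add, ← Real.exp_add]
    congr 1
    ring
  have hBint : Integrable (fun v : Fin n → ℝ =>
      P v * ∫ t : ℝ, Real.exp (-Real.exp t - Y v * Real.exp (-t))) := by
    have h := hprod.integral_prod_right
    simpa only [hBeq] using h
  have hKB : LP.K (n + 1) X = ∫ v : Fin n → ℝ,
      P v * ∫ t : ℝ, Real.exp (-Real.exp t - Y v * Real.exp (-t)) := by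
    rw [hK, integral_prod_symm _ hprod]
    simp only [hBeq]
  have hdiff : hh * T - LP.K (n + 1) X = ∫ v : Fin n → ℝ,
      (hh * (P v * ∑' k : ℤ, Real.exp (-(q ^ k) - Y v * q ^ (-k))) -
        P v * ∫ t : ℝ, Real.exp (-Real.exp t - Y v * Real.exp (-t))) := by
    rw [integral_sub _ hBint, integral_const_mul, ← hKB, hTA]
    · simp only [hA]
    · apply Integrable.const_mul
      simpa only [hA] using hAint
  obtain ⟨hg1, hg2⟩ := trapN_gammaN n
  have hbound : ∀ v : Fin n → ℝ,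
      ‖hh * (P v * ∑' k : ℤ, Real.exp (-(q ^ k) - Y v * q ^ (-k))) -
        P v * ∫ t : ℝ, Real.exp (-Real.exp t - Y v * Real.exp (-t))‖ ≤
      (1 / 2 ^ 66 / √X) * Real.exp (-(∑ i, Real.exp (v i)) + (∑ i, v i) / 2) := by
    intro v
    have h1 := trap1 (hY v)
    have hP : 0 < P v := Real.exp_pos _
    have h2 : hh * (P v * ∑' k : ℤ, Real.exp (-(q ^ k) - Y v * q ^ (-k))) -
        P v * ∫ t : ℝ, Real.exp (-Real.exp t - Y v * Real.exp (-t)) =
        P v * (hh * ∑' k : ℤ, Real.exp (-(q ^ k) - Y v * q ^ (-k)) -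
          ∫ t : ℝ, Real.exp (-Real.exp t - Y v * Real.exp (-t))) := by ring
    rw [h2, Real.norm_eq_abs, abs_mul, abs_of_pos hP]
    refine (mul_le_mul_of_nonneg_left h1 hP.le).trans (le_of_eq ?_)
    have h3 : √(Y v) = √X * Real.exp (-((∑ i, v i) / 2)) := by
      simp only [Y]
      rw [Real.sqrt_mul hX.le, ← Real.exp_half]
      congr 2
      ring
    have hXs : 0 < √X := Real.sqrt_pos.mpr hX
    rw [h3, Real.exp_neg ((∑ i, v i) / 2), Real.exp_add]
    simp only [P]
    field_simp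
  calc |hh * T - LP.K (n + 1) X| = ‖hh * T - LP.K (n + 1) X‖ := (Real.norm_eq_abs _).symm
    _ ≤ ∫ v : Fin n → ℝ, (1 / 2 ^ 66 / √X) *
        Real.exp (-(∑ i, Real.exp (v i)) + (∑ i, v i) / 2) := by
        rw [hdiff]
        exact norm_integral_le_of_norm_le (hg1.const_mul _) (Filter.Eventually.of_forall hbound)
    _ = 1 / 2 ^ 66 * (√Real.pi) ^ n / √X := by
        rw [integral_const_mul, hg2]
        ring

theorem trapN (n : ℕ) {X : ℝ} (hX : 0 < X) :
    |LP.K n X - hh ^ n * S n X| ≤ n * (1 / 2 ^ 66) * (9 / 5) ^ n / √X := by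
  have hhb := hh_bounds
  have hhpos : 0 < hh := by linarith [hhb.1]
  induction n generalizing X with
  | zero =>
    rw [LP.K_zero]
    simp [S]
  | succ n ih =>
    have hXs : 0 < √X := Real.sqrt_pos.mpr hX
    set T := ∑' k : ℤ, Real.exp (-(q ^ k)) * LP.K n (X * q ^ (-k)) with hTdef
    have hsumK := trapN_summK n hX
    have hsumS := S_summable n hX
    have hb := trapN_b n hX
    rw [← hTdef] at hb
    -- part (a)
    have hS : hh ^ (n + 1) * S (n + 1) X =
        hh * ∑' k : ℤ, Real.exp (-(q ^ k)) * (hh ^ n * S n (X * q ^ (-k))) := by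
      have h1 : S (n + 1) X = ∑' k : ℤ, Real.exp (-(q ^ k)) * S n (X * q ^ (-k)) := rfl
      have h2 : (fun k : ℤ => Real.exp (-(q ^ k)) * (hh ^ n * S n (X * q ^ (-k)))) =
          fun k : ℤ => hh ^ n * (Real.exp (-(q ^ k)) * S n (X * q ^ (-k))) := by
        funext k
        ring
      rw [h1, h2, tsum_mul_left]
      ring
    have hsumS' : Summable (fun k : ℤ => Real.exp (-(q ^ k)) * (hh ^ n * S n (X * q ^ (-k)))) := by
      have h2 : (fun k : ℤ => Real.exp (-(q ^ k)) * (hh ^ n * S n (X * q ^ (-k)))) =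
          fun k : ℤ => hh ^ n * (Real.exp (-(q ^ k)) * S n (X * q ^ (-k))) := by
        funext k
        ring
      rw [h2]
      exact hsumS.mul_left _
    have hTS : |T - ∑' k : ℤ, Real.exp (-(q ^ k)) * (hh ^ n * S n (X * q ^ (-k)))| ≤
        (n * (1 / 2 ^ 66) * (9 / 5) ^ n / √X) * (94 / 10) := by
      rw [hTdef, ← hsumK.tsum_sub hsumS', ← Real.norm_eq_abs]
      have hmaj : Summable (fun k : ℤ => (n * (1 / 2 ^ 66) * (9 / 5) ^ n / √X) *
          (Real.exp (-(q ^ k)) * (11 / 10 : ℝ) ^ k)) := thetaHalf.1.mul_left _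
      have hpt : ∀ k : ℤ, ‖Real.exp (-(q ^ k)) * LP.K n (X * q ^ (-k)) -
          Real.exp (-(q ^ k)) * (hh ^ n * S n (X * q ^ (-k)))‖ ≤
          (n * (1 / 2 ^ 66) * (9 / 5) ^ n / √X) * (Real.exp (-(q ^ k)) * (11 / 10 : ℝ) ^ k) := by
        intro k
        have h1 := ih (mul_pos hX (trapN_qk_pos (-k)))
        rw [trapN_sqrt hX] at h1
        rw [← mul_sub, Real.norm_eq_abs, abs_mul, abs_of_pos (Real.exp_pos _)]
        calc Real.exp (-(q ^ k)) * |LP.K n (X * q ^ (-k)) - hh ^ n * S n (X * q ^ (-k))|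
            ≤ Real.exp (-(q ^ k)) * (n * (1 / 2 ^ 66) * (9 / 5) ^ n * (11 / 10 : ℝ) ^ k / √X) :=
              mul_le_mul_of_nonneg_left h1 (Real.exp_pos _).le
          _ = (n * (1 / 2 ^ 66) * (9 / 5) ^ n / √X) *
              (Real.exp (-(q ^ k)) * (11 / 10 : ℝ) ^ k) := by ring
      refine (tsum_of_norm_bounded hmaj.hasSum hpt).trans ?_
      rw [tsum_mul_left]
      exact mul_le_mul_of_nonneg_left thetaHalf.2 (by positivity)
    have ha : |hh * T - hh ^ (n + 1) * S (n + 1) X| ≤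
        n * (1 / 2 ^ 66) * (9 / 5) ^ (n + 1) / √X := by
      rw [hS, ← mul_sub, abs_mul, abs_of_pos hhpos]
      calc hh * |T - ∑' k : ℤ, Real.exp (-(q ^ k)) * (hh ^ n * S n (X * q ^ (-k)))|
          ≤ hh * ((n * (1 / 2 ^ 66) * (9 / 5) ^ n / √X) * (94 / 10)) :=
            mul_le_mul_of_nonneg_left hTS hhpos.le
        _ = (hh * (94 / 10)) * (n * (1 / 2 ^ 66) * (9 / 5) ^ n / √X) := by ring
        _ ≤ (9 / 5) * (n * (1 / 2 ^ 66) * (9 / 5) ^ n / √X) := by
            apply mul_le_mul_of_nonneg_right _ (by positivity)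
            linarith [hhb.2]
        _ = n * (1 / 2 ^ 66) * (9 / 5) ^ (n + 1) / √X := by ring
    have hpi : √Real.pi ≤ 9 / 5 := by
      rw [Real.sqrt_le_left (by norm_num)]
      have := Real.pi_lt_d2
      norm_num
      linarith
    have hb' : |hh * T - LP.K (n + 1) X| ≤ (1 / 2 ^ 66) * (9 / 5) ^ (n + 1) / √X := by
      refine hb.trans ?_
      apply div_le_div_of_nonneg_right _ hXs.le
      apply mul_le_mul_of_nonneg_left _ (by positivity)
      calc (√Real.pi) ^ n ≤ (9 / 5) ^ n := pow_le_pow_left₀ (Real.sqrt_nonneg _) hpi n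
        _ ≤ (9 / 5) ^ (n + 1) := pow_le_pow_right₀ (by norm_num) (by omega)
    have htri : |LP.K (n + 1) X - hh ^ (n + 1) * S (n + 1) X| ≤
        |hh * T - LP.K (n + 1) X| + |hh * T - hh ^ (n + 1) * S (n + 1) X| := by
      have h1 : LP.K (n + 1) X - hh ^ (n + 1) * S (n + 1) X =
          -(hh * T - LP.K (n + 1) X) + (hh * T - hh ^ (n + 1) * S (n + 1) X) := by ring
      rw [h1]
      refine (abs_add_le _ _).trans ?_
      rw [abs_neg]
    refine htri.trans ?_
    calc |hh * T - LP.K (n + 1) X| + |hh * T - hh ^ (n + 1) * S (n + 1) X|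
        ≤ (1 / 2 ^ 66) * (9 / 5) ^ (n + 1) / √X + n * (1 / 2 ^ 66) * (9 / 5) ^ (n + 1) / √X :=
          add_le_add hb' ha
      _ = ((n + 1 : ℕ) : ℝ) * (1 / 2 ^ 66) * (9 / 5) ^ (n + 1) / √X := by
          push_cast
          ring

theorem trapN' (n : ℕ) {X : ℝ} (hX : 0 < X) :
    |KN n X - S n X| ≤ n * (1 / 2 ^ 66) * (19 / 2) ^ n / √X := by
  have hhb := hh_bounds
  have hhpos : 0 < hh := by linarith [hhb.1]
  have hXs : 0 < √X := Real.sqrt_pos.mpr hX
  have h := trapN n hX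
  have h1 : KN n X - S n X = (LP.K n X - hh ^ n * S n X) / hh ^ n := by
    unfold KN
    field_simp
  rw [h1, abs_div, abs_of_pos (pow_pos hhpos n), div_le_iff₀ (pow_pos hhpos n)]
  refine h.trans ?_
  have h2 : ((9 : ℝ) / 5) ^ n ≤ ((19 / 2) * hh) ^ n := by
    apply pow_le_pow_left₀ (by norm_num)
    linarith [hhb.1]
  calc (n : ℝ) * (1 / 2 ^ 66) * (9 / 5) ^ n / √X ≤
        n * (1 / 2 ^ 66) * ((19 / 2) * hh) ^ n / √X := by
        apply div_le_div_of_nonneg_right _ hXs.le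
        exact mul_le_mul_of_nonneg_left h2 (by positivity)
    _ = n * (1 / 2 ^ 66) * (19 / 2) ^ n / √X * hh ^ n := by
        rw [mul_pow]
        ring

end H81.L2
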