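import Pool.Agent.H81.L2.WinChk
import Pool.Agent.H81.L2.ExpTab
import Pool.Agent.H81.L2.TrapN

/-!
# Module M9: segments of tables and their error lists

`erChk n top Er`: `Er[0] · 2^(n+65) · 11^top ≥ (n+1) 19^n 2^128 · 10^top`-type test at the first entry
(`top` an integer, written as `A - B`), and `11 Er[i] ≤ 10 Er[i+1]` for consecutive entries.  Hence
`Er[i]/2^128 ≥ (n+1) (19/2)^n 2^(-65) (10/11)^(top-i)` for all `i`.

`seg_ok`: from `TabOK (c/64) 102 n ((19/2)^n/2^75) t` and `trapN'`: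
`|KN n X - t[i]/2^128| ≤ (n 2^(-66) + 2^(-75)) (19/2)^n X^(-1/2)`, `X = c/64 · q^(102-i)`, and
`X^(-1/2) ≤ √(64/61) (10/11)^(102-i) ≤ (3/2) (10/11)^(102-i)`; `(n 2^(-66) + 2^(-75)) · 3/2 ≤
(n+1) 2^(-65)`.  The segment is `L = (t.drop (102 - top)).take len`, `Er` is the error list with
first exponent `top`.
-/

namespace H81.L2

open H81

/-- consecutive entries grow at least by the factor `11/10` -/
def erUp (l : List ℕ) : Bool :=
  match l with
  | [] => true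
  | [_] => true
  | x :: y :: rest => Nat.ble (11 * x) (10 * y) && erUp (y :: rest)

/-- test of an error list, `top = A - B` -/
def erChk (n A B : ℕ) (Er : List ℕ) : Bool :=
  Nat.ble ((n + 1) * 19 ^ n * 2 ^ 128 * 10 ^ A * 11 ^ B) (Er.headD 0 * 2 ^ (n + 65) * 11 ^ A * 10 ^ B) &&
    erUp Er

private theorem erUp_spec {l : List ℕ} (h : erUp l = true) :
    ∀ i (hi : i + 1 < l.length), 11 * l[i] ≤ 10 * l[i + 1] := by
  induction l with
  | nil => intro i hi; simp at hi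
  | cons x l ih =>
    cases l with
    | nil => intro i hi; simp at hi
    | cons y rest =>
      have h1 : (Nat.ble (11 * x) (10 * y) && erUp (y :: rest)) = true := h
      rw [Bool.and_eq_true] at h1
      intro i hi
      cases i with
      | zero => exact Nat.le_of_ble_eq_true h1.1
      | succ i =>
        have h2 := ih h1.2 i (by simpa using hi)
        simpa using h2

theorem erChk_spec {n A B : ℕ} {Er : List ℕ} (h : erChk n A B Er = true) :
    ∀ i (hi : i < Er.length), ((n : ℝ) + 1) * (19 / 2) ^ n / 2 ^ 65 *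
      (10 / 11 : ℝ) ^ ((A : ℤ) - B - i) ≤ (Er[i] : ℝ) / 2 ^ 128 := by
  have h0 : (Nat.ble ((n + 1) * 19 ^ n * 2 ^ 128 * 10 ^ A * 11 ^ B)
      (Er.headD 0 * 2 ^ (n + 65) * 11 ^ A * 10 ^ B) && erUp Er) = true := h
  rw [Bool.and_eq_true] at h0
  have h1 := Nat.le_of_ble_eq_true h0.1
  have h2 := erUp_spec h0.2
  intro i
  induction i with
  | zero =>
    intro hi
    have h3 : Er.headD 0 = Er[0] := by
      cases Er with
      | nil => simp at hi
      | cons x l => rfl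
    rw [h3] at h1
    have h4 : ((n : ℝ) + 1) * 19 ^ n * 2 ^ 128 * 10 ^ A * 11 ^ B ≤
        (Er[0] : ℝ) * 2 ^ (n + 65) * 11 ^ A * 10 ^ B := by exact_mod_cast h1
    have h5 : (10 / 11 : ℝ) ^ ((A : ℤ) - B - (0 : ℕ)) = 10 ^ A * 11 ^ B / (11 ^ A * 10 ^ B) := by
      rw [Nat.cast_zero, sub_zero, zpow_sub₀ (by norm_num), zpow_natCast, zpow_natCast, div_pow,
        div_pow]
      field_simp
    rw [h5, div_pow, div_mul_div_comm, div_le_div_iff₀ (by positivity) (by positivity)]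
    have h6 : (0 : ℝ) < 2 ^ n := by positivity
    rw [← mul_le_mul_iff_right₀ h6]
    have e1 : (2 : ℝ) ^ n * (((n : ℝ) + 1) * (19 ^ n / 2 ^ n) * (10 ^ A * 11 ^ B) * 2 ^ 128) =
        ((n : ℝ) + 1) * 19 ^ n * 2 ^ 128 * 10 ^ A * 11 ^ B := by
      field_simp
    rw [e1]
    push_cast at h4
    refine h4.trans (le_of_eq ?_)
    rw [pow_add]
    ring
  | succ i ih =>
    intro hi
    have h3 := ih (by omega)
    have h4 : (11 : ℝ) * Er[i] ≤ 10 * Er[i + 1] := by exact_mod_cast h2 i hi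
    have h5 : (10 / 11 : ℝ) ^ ((A : ℤ) - B - (i + 1 : ℕ)) =
        (10 / 11 : ℝ) ^ ((A : ℤ) - B - i) * (11 / 10) := by
      have h6 : (A : ℤ) - B - (i + 1 : ℕ) = ((A : ℤ) - B - i) - 1 := by push_cast; ring
      rw [h6, zpow_sub_one₀ (by norm_num)]
      norm_num
    rw [h5]
    calc ((n : ℝ) + 1) * (19 / 2) ^ n / 2 ^ 65 * ((10 / 11 : ℝ) ^ ((A : ℤ) - B - i) * (11 / 10))
        = (((n : ℝ) + 1) * (19 / 2) ^ n / 2 ^ 65 * (10 / 11 : ℝ) ^ ((A : ℤ) - B - i)) *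
          (11 / 10) := by ring
      _ ≤ (Er[i] : ℝ) / 2 ^ 128 * (11 / 10) := mul_le_mul_of_nonneg_right h3 (by norm_num)
      _ = (11 * (Er[i] : ℝ)) / 10 / 2 ^ 128 := by ring
      _ ≤ (10 * (Er[i + 1] : ℝ)) / 10 / 2 ^ 128 := by
        apply div_le_div_of_nonneg_right _ (by positivity)
        exact div_le_div_of_nonneg_right h4 (by norm_num)
      _ = (Er[i + 1] : ℝ) / 2 ^ 128 := by ring

/-- a segment of a computed table; `drop` entries are skipped, `A - B = 102 - drop` -/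
theorem seg_ok {n c A B drop len : ℕ} {t Er : List ℕ} (hc : 61 ≤ c)
    (ht : TabOK ((c : ℝ) / 64) 102 n ((19 / 2) ^ n / 2 ^ 75) t)
    (hEr : erChk n A B Er = true) (hAB : (A : ℤ) - B = 102 - drop) (hlen : len ≤ Er.length) :
    SegOK n c ((A : ℤ) - B) ((t.drop drop).take len) Er := by
  refine ⟨(List.length_take_le _ _).trans hlen, ?_⟩
  intro i hi
  have hiE : i < Er.length := by
    have := List.length_take_le len (t.drop drop)
    omega
  have hit : drop + i < t.length := by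
    rw [List.length_take, List.length_drop] at hi
    omega
  have hL : ((t.drop drop).take len)[i] = t[drop + i] := by
    rw [List.getElem_take, List.getElem_drop]
  have hE : Er.getD i 0 = Er[i] := List.getD_eq_getElem _ _ hiE
  rw [hL, hE]
  obtain ⟨t1, t2⟩ := ht (drop + i) hit
  have hexp : (((102 : ℕ) : ℤ) - ((drop + i : ℕ) : ℤ)) = (A : ℤ) - B - i := by
    rw [hAB]
    push_cast
    ring
  rw [hexp] at t1 t2
  have hcR : (61 : ℝ) ≤ c := by exact_mod_cast hc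
  have hq : (0 : ℝ) < q := by unfold q; norm_num
  have hq' : q = (11 / 10 : ℝ) ^ 2 := by unfold q; norm_num
  set m : ℤ := (A : ℤ) - B - i with hm
  have hX : 0 < (c : ℝ) / 64 * q ^ m := by positivity
  have hT := trapN' n hX
  have hsq : √((c : ℝ) / 64 * q ^ m) = √((c : ℝ) / 64) * (11 / 10 : ℝ) ^ m := by
    rw [Real.sqrt_mul (by positivity)]
    congr 1
    have e : q ^ m = ((11 / 10 : ℝ) ^ m) ^ 2 := by
      rw [hq', ← zpow_natCast, ← zpow_natCast, ← zpow_mul, ← zpow_mul, mul_comm]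
    rw [e, Real.sqrt_sq (by positivity)]
  have hsc : 2 / 3 ≤ √((c : ℝ) / 64) := by
    apply Real.le_sqrt_of_sq_le
    linarith
  have hinv : 1 / √((c : ℝ) / 64 * q ^ m) ≤ 3 / 2 * (10 / 11 : ℝ) ^ m := by
    rw [hsq]
    have e : (10 / 11 : ℝ) ^ m = ((11 / 10 : ℝ) ^ m)⁻¹ := by
      rw [← inv_zpow]
      norm_num
    rw [e]
    have hp : (0 : ℝ) < (11 / 10 : ℝ) ^ m := by positivity
    rw [div_le_iff₀ (by positivity)]
    have e2 : 3 / 2 * ((11 / 10 : ℝ) ^ m)⁻¹ * (√((c : ℝ) / 64) * (11 / 10 : ℝ) ^ m) =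
        3 / 2 * √((c : ℝ) / 64) := by
      field_simp
    rw [e2]
    linarith
  have hE2 := erChk_spec hEr i hiE
  rw [← hm] at hE2
  refine le_trans ?_ hE2
  have h10 : (0 : ℝ) < (10 / 11 : ℝ) ^ m := by positivity
  have h19 : (0 : ℝ) < (19 / 2 : ℝ) ^ n := by positivity
  have hA : |KN n ((c : ℝ) / 64 * q ^ m) - S n ((c : ℝ) / 64 * q ^ m)| ≤
      n * (1 / 2 ^ 66) * (19 / 2) ^ n * (3 / 2 * (10 / 11 : ℝ) ^ m) := by
    refine hT.trans ?_
    rw [div_eq_mul_one_div]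
    exact mul_le_mul_of_nonneg_left hinv (by positivity)
  have hB : |S n ((c : ℝ) / 64 * q ^ m) - (t[drop + i] : ℝ) / 2 ^ 128| ≤
      (19 / 2) ^ n / 2 ^ 75 * (3 / 2 * (10 / 11 : ℝ) ^ m) := by
    rw [abs_of_nonneg (by linarith)]
    have h3 : (19 / 2 : ℝ) ^ n / 2 ^ 75 / √((c : ℝ) / 64 * q ^ m) ≤
        (19 / 2) ^ n / 2 ^ 75 * (3 / 2 * (10 / 11 : ℝ) ^ m) := by
      rw [div_eq_mul_one_div]
      exact mul_le_mul_of_nonneg_left hinv (by positivity)
    linarith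
  have htri : |KN n ((c : ℝ) / 64 * q ^ m) - (t[drop + i] : ℝ) / 2 ^ 128| ≤
      |KN n ((c : ℝ) / 64 * q ^ m) - S n ((c : ℝ) / 64 * q ^ m)| +
        |S n ((c : ℝ) / 64 * q ^ m) - (t[drop + i] : ℝ) / 2 ^ 128| := abs_sub_le _ _ _
  refine htri.trans ((add_le_add hA hB).trans ?_)
  have hn : (0 : ℝ) ≤ n := Nat.cast_nonneg n
  have e : ((n : ℝ) + 1) * (19 / 2) ^ n / 2 ^ 65 * (10 / 11 : ℝ) ^ m -
      (n * (1 / 2 ^ 66) * (19 / 2) ^ n * (3 / 2 * (10 / 11 : ℝ) ^ m) +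
        (19 / 2) ^ n / 2 ^ 75 * (3 / 2 * (10 / 11 : ℝ) ^ m)) =
      (19 / 2) ^ n * (10 / 11 : ℝ) ^ m *
        (((n : ℝ) + 1) / 2 ^ 65 - n * (3 / 2) / 2 ^ 66 - 3 / 2 / 2 ^ 75) := by ring
  have hpos : 0 ≤ (19 / 2 : ℝ) ^ n * (10 / 11 : ℝ) ^ m *
        (((n : ℝ) + 1) / 2 ^ 65 - n * (3 / 2) / 2 ^ 66 - 3 / 2 / 2 ^ 75) := by
    apply mul_nonneg (by positivity)
    have e2 : ((n : ℝ) + 1) / 2 ^ 65 - n * (3 / 2) / 2 ^ 66 - 3 / 2 / 2 ^ 75 =
        n * (1 / 4) / 2 ^ 65 + (1 / 2 ^ 65 - 3 / 2 / 2 ^ 75) := by ring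
    rw [e2]
    have h4 : (0 : ℝ) ≤ 1 / 2 ^ 65 - 3 / 2 / 2 ^ 75 := by norm_num
    positivity
  linarith

/-- dropping entries from a segment -/
theorem SegOK.drop {n c : ℕ} {top : ℤ} {L Er : List ℕ} (h : SegOK n c top L Er) (j : ℕ) :
    SegOK n c (top - j) (L.drop j) (Er.drop j) := by
  obtain ⟨h1, h2⟩ := h
  refine ⟨?_, ?_⟩
  · rw [List.length_drop, List.length_drop]
    omega
  · intro i hi
    have hi' : j + i < L.length := by
      rw [List.length_drop] at hi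
      omega
    have h3 := h2 (j + i) hi'
    have e1 : (L.drop j)[i] = L[j + i] := List.getElem_drop
    have e2 : (Er.drop j).getD i 0 = Er.getD (j + i) 0 := by
      rw [List.getD_eq_getElem?_getD, List.getD_eq_getElem?_getD, List.getElem?_drop]
    have e3 : top - (j : ℤ) - (i : ℤ) = top - ((j + i : ℕ) : ℤ) := by push_cast; ring
    rw [e1, e2, e3]
    exact h3

end H81.L2
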