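import Pool.Agent.H81.L2.SBound

/-!
# Module M4: tables of `S n` by discrete convolution, scale `2^128`, window `22`

Adapt `Pool/Agent/H81/LP/Tab.lean` (complete proof there, with scale `2^96`, window `15`, error
`2^(-64)` of the exponentials).  Now: scale `2^128 = 340282366920938463463374607431768211456`,
window `22`, error `2^(-90)` of the exponentials and of the two tails:
(b) `∑_{k ≥ 23} exp (-(q^k)) (1/2) (94/10)^n (11/10)^k ≤ 2^(-90) (94/10)^n` since `q^23 ≥ 80`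
(`exp (-x) ≤ m!/x^m` with `m` about `60` and `q^23 ≥ 80`: `60!/80^60 = 10^(-32.2)` is enough),
(c) hypothesis `htail`, with `∑_j q^(-5j) ≤ 1/(1 - q^(-5)) ≤ 2`.
`∑_{k ≤ 22} (11/10)^k = 11 (11/10)^22 ≤ 90`.
Now `σ ≥ 61/64` only, so `σ^(-5) ≤ 128/100` (`(64/61)^5 = 1.2713`): (c) is at most
`128/100 · 120 · 127^n q^(-5(b+1)) · 1/(1 - q^(-5))`, `1/(1 - q^(-5)) = 1.6277`, that is at most
`3 · 120 · 127^n q^(-5(b+1))`, hypothesis `htail`.
Total error of a step: `X^(-1/2)` times `(94/10) ε + 2^(-90) (46 (94/10)^n + 2 M)`.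
`chain_spec`: `b = 102`, `M = 19000` (`√(81/64 · q^102) = 1.125 · 1.1^102 = 18759`),
`ε_0 = 19000/2^90`, `ε_(n+1) = (94/10) ε_n + 2^(-90) (46 (94/10)^n + 38000)` and
`ε_n ≤ (94/10)^n 25000/2^90 ≤ (19/2)^n/2^75` for `n ≤ 7` (in units `2^(-90)`: 19000, 216646, …).
`htail` for `n ≤ 6`, `b = 102`: `3 · 120 · 127^6 · (100/121)^515 = 3.4·10^(-28) ≤ 2^(-90) = 8.07·10^(-28)`.
-/

namespace H81.L2

open H81

/-- convolution, continuation style -/
def conv (g : List ℕ) (rest : List ℕ) : List ℕ → (List ℕ → Bool) → Bool :=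
  List.rec (motive := fun _ => List ℕ → (List ℕ → Bool) → Bool) (fun _ k => k [])
    (fun x _ ih acc k => force (dotA g (x :: acc) 0 / 340282366920938463463374607431768211456)
      fun v => ih (x :: acc) fun l => k (v :: l)) rest

/-- one step of the table computation, continuation style -/
def step (g t : List ℕ) (k : List ℕ → Bool) : Bool := conv g (t.drop 22) (t.take 22).reverse k

/-- `n` steps, continuation style -/
def chain (g : List ℕ) (n : ℕ) : List ℕ → (List ℕ → Bool) → Bool :=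
  Nat.rec (motive := fun _ => List ℕ → (List ℕ → Bool) → Bool) (fun t k => k t)
    (fun _ ih t k => step g t fun t' => ih t' k) n

/-- `g` is a table of `exp (-(q^k))`, `k = 22, 21, …` -/
def GOK (g : List ℕ) : Prop :=
  ∀ r (h : r < g.length), (g[r] : ℝ) / 2 ^ 128 ≤ Real.exp (-(q ^ ((22 : ℤ) - r))) ∧
    Real.exp (-(q ^ ((22 : ℤ) - r))) ≤ (g[r] : ℝ) / 2 ^ 128 + 1 / 2 ^ 90

/-- `t` is a table of `S n (σ q^m)`, `m = b, b - 1, …` -/
def TabOK (σ : ℝ) (b n : ℕ) (ε : ℝ) (t : List ℕ) : Prop :=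
  ∀ i (h : i < t.length), (t[i] : ℝ) / 2 ^ 128 ≤ S n (σ * q ^ ((b : ℤ) - i)) ∧
    S n (σ * q ^ ((b : ℤ) - i)) ≤ (t[i] : ℝ) / 2 ^ 128 + ε / √(σ * q ^ ((b : ℤ) - i))

theorem force_eq (x : ℕ) {α : Type} (k : ℕ → α) : force x k = k x := by
  cases x <;> rfl

theorem dotA_eq_sum (m l : List ℕ) (s : ℕ) (h : m.length ≤ l.length) :
    dotA l m s = s + ∑ r ∈ Finset.range m.length, l.getD r 0 * m.getD r 0 := by
  induction m generalizing l s with
  | nil => cases l <;> simp [dotA]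
  | cons b m ih =>
    cases l with
    | nil => simp at h
    | cons a l =>
      have h1 : dotA (a :: l) (b :: m) s = dotA l m (s + a * b) := rfl
      have h2 : m.length ≤ l.length := by simpa using h
      rw [h1, ih l _ h2, List.length_cons, Finset.sum_range_succ']
      simp only [List.getD_cons_succ, List.getD_cons_zero]
      omega

/-- the list computed by `conv` -/
def convL (g : List ℕ) : List ℕ → List ℕ → List ℕ
  | [], _ => []
  | x :: xs, acc => (dotA g (x :: acc) 0 / 340282366920938463463374607431768211456) :: convL g xs (x :: acc)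

theorem conv_eq (g rest acc : List ℕ) (k : List ℕ → Bool) :
    conv g rest acc k = k (convL g rest acc) := by
  induction rest generalizing acc k with
  | nil => rfl
  | cons x xs ih =>
    have h1 : conv g (x :: xs) acc k = force (dotA g (x :: acc) 0 / 340282366920938463463374607431768211456)
      fun v => conv g xs (x :: acc) fun l => k (v :: l) := rfl
    rw [h1, force_eq, ih]
    rfl

theorem convL_length (g rest acc : List ℕ) : (convL g rest acc).length = rest.length := by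
  induction rest generalizing acc with
  | nil => rfl
  | cons x xs ih => simp [convL, ih]

theorem convL_getElem (g rest acc : List ℕ) (i : ℕ) (h : i < (convL g rest acc).length) :
    (convL g rest acc)[i] =
      dotA g ((rest.take (i + 1)).reverse ++ acc) 0 / 340282366920938463463374607431768211456 := by
  induction rest generalizing acc i with
  | nil => simp [convL] at h
  | cons x xs ih =>
    cases i with
    | zero => simp [convL]
    | succ i =>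
      simp only [convL, List.getElem_cons_succ]
      rw [ih]
      simp

theorem stepL_getElem (g t : List ℕ) (hlen : t.length ≤ g.length) (i : ℕ)
    (h : i < (convL g (t.drop 22) (t.take 22).reverse).length) :
    (convL g (t.drop 22) (t.take 22).reverse)[i] =
      (∑ r ∈ Finset.range (i + 23), g.getD r 0 * t.getD (i + 22 - r) 0) /
        340282366920938463463374607431768211456 := by
  rw [convL_getElem]
  have hl : i + 23 ≤ t.length := by
    rw [convL_length, List.length_drop] at h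
    omega
  have h1 : ((t.drop 22).take (i + 1)).reverse ++ (t.take 22).reverse =
      (t.take (i + 23)).reverse := by
    rw [← List.reverse_append]
    congr 1
    rw [show i + 23 = 22 + (i + 1) by ring]
    exact List.take_add.symm
  rw [h1, dotA_eq_sum _ _ _ (by simp; omega), zero_add]
  congr 1
  rw [List.length_reverse, List.length_take, min_eq_left hl]
  refine Finset.sum_congr rfl fun r hr => ?_
  rw [Finset.mem_range] at hr
  congr 1
  rw [List.getD_eq_getElem _ _ (by simp; omega), List.getD_eq_getElem _ _ (by omega),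
    List.getElem_reverse]
  simp only [List.length_take, min_eq_left hl, List.getElem_take]
  congr 1

theorem tab_q_pos : (0 : ℝ) < q := by
  unfold q
  norm_num

theorem tab_q_neg (k : ℤ) : q ^ (-k) = ((10 / 11 : ℝ) ^ k) ^ 2 := by
  have h1 : q⁻¹ = (10 / 11 : ℝ) ^ 2 := by
    unfold q
    norm_num
  rw [zpow_neg, ← inv_zpow, h1, ← zpow_natCast, ← zpow_natCast, ← zpow_mul, ← zpow_mul, mul_comm]

theorem tab_sqrt {X : ℝ} (hX : 0 ≤ X) (k : ℤ) : √(X * q ^ (-k)) = √X * (10 / 11 : ℝ) ^ k := by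
  rw [tab_q_neg, Real.sqrt_mul hX, Real.sqrt_sq (by positivity)]

theorem tab_q_nat (k : ℕ) : q ^ (k : ℤ) = (((10 / 11 : ℝ) ^ k) ^ 2)⁻¹ := by
  have h1 := tab_q_neg (k : ℤ)
  rw [zpow_neg, zpow_natCast, zpow_natCast] at h1
  rw [zpow_natCast, ← h1, inv_inv]

/-- one term of the right tail -/
theorem tab_termB (n : ℕ) {X : ℝ} (hX : 0 < X) (m : ℕ) :
    Real.exp (-(q ^ ((m : ℤ) + 23))) * S n (X * q ^ (-((m : ℤ) + 23))) ≤
      (119622220865480194561963161495657715064383733760000000000 * (10 / 11 : ℝ) ^ 2047 * (1 / 2 * (94 / 10) ^ n / √X)) *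
        ((10 / 11 : ℝ) ^ 89) ^ m := by
  have hsX : 0 < √X := Real.sqrt_pos.mpr hX
  have hk : ((m : ℤ) + 23) = ((m + 23 : ℕ) : ℤ) := by push_cast; ring
  have hq := tab_q_pos
  have h1 := S_le_half n (X := X * q ^ (-((m : ℤ) + 23))) (by positivity)
  rw [tab_sqrt hX.le] at h1
  rw [hk] at h1 ⊢
  rw [zpow_natCast (10 / 11 : ℝ)] at h1
  obtain ⟨a, ha⟩ : ∃ a : ℝ, a = (10 / 11 : ℝ) ^ (m + 23) := ⟨_, rfl⟩
  have ha0 : 0 < a := by rw [ha]; positivity
  have h2 : Real.exp (-(q ^ ((m + 23 : ℕ) : ℤ))) ≤ 119622220865480194561963161495657715064383733760000000000 * a ^ 90 := by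
    rw [tab_q_nat, ← ha]
    have h3 := Real.pow_div_factorial_le_exp ((a ^ 2)⁻¹) (by positivity) 45
    have h4 : (Nat.factorial 45 : ℝ) = 119622220865480194561963161495657715064383733760000000000 := by
      norm_num [Nat.factorial]
    rw [h4] at h3
    rw [Real.exp_neg, inv_le_comm₀ (Real.exp_pos _) (by positivity)]
    refine le_trans (le_of_eq ?_) h3
    field_simp
  rw [← ha] at h1
  have h5 : 0 ≤ S n (X * q ^ (-((m + 23 : ℕ) : ℤ))) := S_nonneg n (by positivity)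
  calc Real.exp (-(q ^ ((m + 23 : ℕ) : ℤ))) * S n (X * q ^ (-((m + 23 : ℕ) : ℤ)))
      ≤ (119622220865480194561963161495657715064383733760000000000 * a ^ 90) * (1 / 2 * (94 / 10) ^ n / (√X * a)) :=
        mul_le_mul h2 h1 h5 (by positivity)
    _ = 119622220865480194561963161495657715064383733760000000000 * (1 / 2 * (94 / 10) ^ n / √X) * a ^ 89 := by
        field_simp
    _ = (119622220865480194561963161495657715064383733760000000000 * (10 / 11 : ℝ) ^ 2047 * (1 / 2 * (94 / 10) ^ n / √X)) *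
        ((10 / 11 : ℝ) ^ 89) ^ m := by
        have e : a ^ 89 = (10 / 11 : ℝ) ^ 2047 * ((10 / 11 : ℝ) ^ 89) ^ m := by
          rw [ha, ← pow_mul, ← pow_mul, ← pow_add]
          congr 1
          ring
        rw [e]
        ring

theorem tab_tailB (n : ℕ) {X : ℝ} (hX : 0 < X) :
    ∑' m : ℕ, Real.exp (-(q ^ ((m : ℤ) + 23))) * S n (X * q ^ (-((m : ℤ) + 23))) ≤
      1 / 2 ^ 90 * (94 / 10) ^ n / √X := by
  have hsX : 0 < √X := Real.sqrt_pos.mpr hX
  have hq := tab_q_pos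
  have hr0 : (0 : ℝ) ≤ (10 / 11 : ℝ) ^ 89 := by positivity
  have hr1 : (10 / 11 : ℝ) ^ 89 < 1 := by norm_num
  have hgeo := (hasSum_geometric_of_lt_one hr0 hr1).mul_left
    (119622220865480194561963161495657715064383733760000000000 * (10 / 11 : ℝ) ^ 2047 * (1 / 2 * (94 / 10) ^ n / √X))
  have h1 : Summable fun m : ℕ =>
      Real.exp (-(q ^ ((m : ℤ) + 23))) * S n (X * q ^ (-((m : ℤ) + 23))) :=
    Summable.of_nonneg_of_le (fun m => mul_nonneg (Real.exp_pos _).le (S_nonneg n (by positivity)))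
      (fun m => tab_termB n hX m) hgeo.summable
  have h2 := h1.tsum_le_tsum (fun m => tab_termB n hX m) hgeo.summable
  rw [hgeo.tsum_eq] at h2
  refine h2.trans ?_
  have h3 : (119622220865480194561963161495657715064383733760000000000 * (10 / 11 : ℝ) ^ 2047) * (1 - (10 / 11 : ℝ) ^ 89)⁻¹ ≤
      2 * (1 / 2 ^ 90) := by
    have e1 : (10 / 11 : ℝ) ^ 89 ≤ 207041 / 10 ^ 9 := by norm_num
    have e2 : (10 / 11 : ℝ) ^ 2047 ≤ (207041 / 10 ^ 9) ^ 23 := by
      calc (10 / 11 : ℝ) ^ 2047 = ((10 / 11 : ℝ) ^ 89) ^ 23 := by rw [← pow_mul]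
        _ ≤ (207041 / 10 ^ 9) ^ 23 := pow_le_pow_left₀ (by positivity) e1 23
    have e3 : (1 - (10 / 11 : ℝ) ^ 89)⁻¹ ≤ 2 := by norm_num
    calc _ ≤ (119622220865480194561963161495657715064383733760000000000 * ((207041 / 10 ^ 9) ^ 23)) * 2 :=
          mul_le_mul (mul_le_mul_of_nonneg_left e2 (by norm_num)) e3 (by norm_num) (by positivity)
      _ ≤ 2 * (1 / 2 ^ 90) := by norm_num
  have h4 : 0 ≤ 1 / 2 * (94 / 10 : ℝ) ^ n / √X := by positivity
  have h5 := mul_le_mul_of_nonneg_right h3 h4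
  calc _ = (119622220865480194561963161495657715064383733760000000000 * (10 / 11 : ℝ) ^ 2047) * (1 - (10 / 11 : ℝ) ^ 89)⁻¹ *
        (1 / 2 * (94 / 10 : ℝ) ^ n / √X) := by ring
    _ ≤ 2 * (1 / 2 ^ 90) * (1 / 2 * (94 / 10 : ℝ) ^ n / √X) := h5
    _ = 1 / 2 ^ 90 * (94 / 10) ^ n / √X := by ring

/-- one term of the left tail -/
theorem tab_termC (n b i : ℕ) {σ : ℝ} (hσ : 61 / 64 ≤ σ) (m : ℕ) :
    Real.exp (-(q ^ (-((m + i : ℕ) : ℤ) - 1))) *
        S n (σ * q ^ ((b : ℤ) - i) * q ^ (-(-((m + i : ℕ) : ℤ) - 1))) ≤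
      (128 / 100 * 120 * 127 ^ n * (100 / 121 : ℝ) ^ (5 * (b + 1))) * ((100 / 121 : ℝ) ^ 5) ^ m := by
  have hq := tab_q_pos
  have h0 : σ * q ^ ((b : ℤ) - i) * q ^ (-(-((m + i : ℕ) : ℤ) - 1)) = σ * q ^ (b + 1 + m) := by
    rw [mul_assoc, ← zpow_add₀ hq.ne', ← zpow_natCast]
    congr 2
    push_cast
    ring
  rw [h0]
  have h1 := S_le_five n (X := σ * q ^ (b + 1 + m)) (by positivity)
  have h2 : Real.exp (-(q ^ (-((m + i : ℕ) : ℤ) - 1))) ≤ 1 := by
    rw [Real.exp_le_one_iff]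
    have : 0 < q ^ (-((m + i : ℕ) : ℤ) - 1) := by positivity
    linarith
  have h3 : 0 ≤ S n (σ * q ^ (b + 1 + m)) := S_nonneg n (by positivity)
  have hσ0 : 0 < σ := by linarith
  have h4 : 120 * 127 ^ n / (σ * q ^ (b + 1 + m)) ^ 5 ≤
      128 / 100 * 120 * 127 ^ n / (q ^ (b + 1 + m)) ^ 5 := by
    have h5 : (61 / 64 : ℝ) ^ 5 ≤ σ ^ 5 := pow_le_pow_left₀ (by norm_num) hσ 5
    have h6 : (1 : ℝ) ≤ 128 / 100 * σ ^ 5 := by
      have h7 : (1 : ℝ) ≤ 128 / 100 * (61 / 64) ^ 5 := by norm_num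
      linarith
    rw [mul_pow, div_le_div_iff₀ (by positivity) (by positivity)]
    have h8 : 0 ≤ 120 * 127 ^ n * (q ^ (b + 1 + m)) ^ 5 := by positivity
    calc 120 * 127 ^ n * (q ^ (b + 1 + m)) ^ 5 = 1 * (120 * 127 ^ n * (q ^ (b + 1 + m)) ^ 5) := by
          ring
      _ ≤ (128 / 100 * σ ^ 5) * (120 * 127 ^ n * (q ^ (b + 1 + m)) ^ 5) :=
          mul_le_mul_of_nonneg_right h6 h8
      _ = 128 / 100 * 120 * 127 ^ n * (σ ^ 5 * (q ^ (b + 1 + m)) ^ 5) := by ring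
  calc Real.exp (-(q ^ (-((m + i : ℕ) : ℤ) - 1))) * S n (σ * q ^ (b + 1 + m))
      ≤ 1 * S n (σ * q ^ (b + 1 + m)) := mul_le_mul_of_nonneg_right h2 h3
    _ ≤ 128 / 100 * 120 * 127 ^ n / (q ^ (b + 1 + m)) ^ 5 := by
        rw [one_mul]
        exact h1.trans h4
    _ = (128 / 100 * 120 * 127 ^ n * (100 / 121 : ℝ) ^ (5 * (b + 1))) * ((100 / 121 : ℝ) ^ 5) ^ m := by
        have e : ((q ^ (b + 1 + m)) ^ 5)⁻¹ =
            (100 / 121 : ℝ) ^ (5 * (b + 1)) * ((100 / 121 : ℝ) ^ 5) ^ m := by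
          have e1 : (q : ℝ)⁻¹ = 100 / 121 := by
            unfold q
            norm_num
          rw [← inv_pow, ← inv_pow, e1, ← pow_mul, ← pow_mul, ← pow_add]
          congr 1
          ring
        rw [div_eq_mul_inv, e]
        ring

theorem tab_tailC (n b i : ℕ) {σ : ℝ} (hσ : 61 / 64 ≤ σ)
    (htail : 3 * 120 * 127 ^ n * ((100 / 121 : ℝ) ^ (5 * (b + 1))) ≤ 1 / 2 ^ 90) :
    ∑' m : ℕ, Real.exp (-(q ^ (-((m + i : ℕ) : ℤ) - 1))) *
        S n (σ * q ^ ((b : ℤ) - i) * q ^ (-(-((m + i : ℕ) : ℤ) - 1))) ≤ 1 / 2 ^ 90 := by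
  have hq := tab_q_pos
  have hσ0 : 0 < σ := by linarith
  have hr0 : (0 : ℝ) ≤ (100 / 121 : ℝ) ^ 5 := by positivity
  have hr1 : (100 / 121 : ℝ) ^ 5 < 1 := by norm_num
  have hgeo := (hasSum_geometric_of_lt_one hr0 hr1).mul_left
    (128 / 100 * 120 * 127 ^ n * (100 / 121 : ℝ) ^ (5 * (b + 1)))
  have h1 : Summable fun m : ℕ => Real.exp (-(q ^ (-((m + i : ℕ) : ℤ) - 1))) *
        S n (σ * q ^ ((b : ℤ) - i) * q ^ (-(-((m + i : ℕ) : ℤ) - 1))) :=
    Summable.of_nonneg_of_le (fun m => mul_nonneg (Real.exp_pos _).le (S_nonneg n (by positivity)))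
      (fun m => tab_termC n b i hσ m) hgeo.summable
  have h2 := h1.tsum_le_tsum (fun m => tab_termC n b i hσ m) hgeo.summable
  rw [hgeo.tsum_eq] at h2
  refine h2.trans ?_
  have h3 : (1 - (100 / 121 : ℝ) ^ 5)⁻¹ ≤ 17 / 10 := by norm_num
  have h5 : 0 ≤ 120 * 127 ^ n * ((100 / 121 : ℝ) ^ (5 * (b + 1))) := by positivity
  calc _ ≤ (128 / 100 * 120 * 127 ^ n * (100 / 121 : ℝ) ^ (5 * (b + 1))) * (17 / 10) :=
        mul_le_mul_of_nonneg_left h3 (by positivity)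
    _ = (128 / 100 * (17 / 10)) * (120 * 127 ^ n * ((100 / 121 : ℝ) ^ (5 * (b + 1)))) := by ring
    _ ≤ 3 * (120 * 127 ^ n * ((100 / 121 : ℝ) ^ (5 * (b + 1)))) :=
        mul_le_mul_of_nonneg_right (by norm_num) h5
    _ = 3 * 120 * 127 ^ n * ((100 / 121 : ℝ) ^ (5 * (b + 1))) := by ring
    _ ≤ 1 / 2 ^ 90 := htail

/-- splitting of a sum over the integers -/
theorem tab_split {u : ℤ → ℝ} (hu : Summable u) (i : ℕ) :
    ∑' k, u k = ∑ r ∈ Finset.range (i + 23), u (22 - (r : ℤ)) + ∑' m : ℕ, u ((m : ℤ) + 23) +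
      ∑' m : ℕ, u (-((m + i : ℕ) : ℤ) - 1) := by
  have h1 : Summable fun m : ℕ => u (m : ℤ) :=
    hu.comp_injective (i := fun m : ℕ => (m : ℤ)) Nat.cast_injective
  have h2 : Summable fun m : ℕ => u (-((m : ℤ) + 1)) :=
    hu.comp_injective (i := fun m : ℕ => -((m : ℤ) + 1)) (fun a b h => by
      simp only [neg_inj, add_left_inj, Nat.cast_inj] at h
      exact h)
  rw [tsum_of_nat_of_neg_add_one h1 h2, ← h1.sum_add_tsum_nat_add 23, ← h2.sum_add_tsum_nat_add i]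
  have e1 : ∑ r ∈ Finset.range (i + 23), u (22 - (r : ℤ)) =
      ∑ m ∈ Finset.range 23, u (m : ℤ) + ∑ m ∈ Finset.range i, u (-((m : ℤ) + 1)) := by
    rw [add_comm i 23, Finset.sum_range_add, ← Finset.sum_range_reflect]
    congr 1
    · refine Finset.sum_congr rfl fun r hr => ?_
      rw [Finset.mem_range] at hr
      congr 1
      omega
  rw [e1]
  have e2 : ∀ m : ℕ, u (((m + 23 : ℕ) : ℤ)) = u ((m : ℤ) + 23) := fun m => by push_cast; rfl
  have e3 : ∀ m : ℕ, u (-(((m + i : ℕ) : ℤ) + 1)) = u (-((m + i : ℕ) : ℤ) - 1) := fun m => by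
    congr 1
    ring
  simp only [e2, e3]
  ring

theorem tab_sum_le {u : ℤ → ℝ} (hu : Summable u) (h0 : ∀ k, 0 ≤ u k) (i : ℕ) :
    ∑ r ∈ Finset.range (i + 23), u (22 - (r : ℤ)) ≤ ∑' k, u k := by
  rw [tab_split hu i]
  have h1 : 0 ≤ ∑' m : ℕ, u ((m : ℤ) + 23) := tsum_nonneg fun m => h0 _
  have h2 : 0 ≤ ∑' m : ℕ, u (-((m + i : ℕ) : ℤ) - 1) := tsum_nonneg fun m => h0 _
  linarith

theorem tab_geo (N : ℕ) : ∑ r ∈ Finset.range N, ((10 / 11 : ℝ) ^ (22 - (r : ℤ)))⁻¹ ≤ 90 := by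
  have h1 : ∀ r : ℕ, ((10 / 11 : ℝ) ^ (22 - (r : ℤ)))⁻¹ = (11 / 10 : ℝ) ^ 22 * (10 / 11 : ℝ) ^ r := by
    intro r
    rw [zpow_sub₀ (by norm_num), zpow_natCast]
    have e : (10 / 11 : ℝ) ^ (22 : ℤ) = ((11 / 10 : ℝ) ^ 22)⁻¹ := by
      norm_num
    rw [e, inv_div, div_inv_eq_mul, mul_comm]
  simp only [h1]
  rw [← Finset.mul_sum]
  have h2 : ∑ r ∈ Finset.range N, (10 / 11 : ℝ) ^ r ≤ 11 := by
    have h3 := geom_sum_eq (by norm_num : (10 / 11 : ℝ) ≠ 1) N
    rw [h3]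
    have h4 : 0 ≤ (10 / 11 : ℝ) ^ N := by positivity
    rw [div_le_iff_of_neg (by norm_num)]
    linarith
  have h5 : (11 / 10 : ℝ) ^ 22 * ∑ r ∈ Finset.range N, (10 / 11 : ℝ) ^ r ≤ (11 / 10 : ℝ) ^ 22 * 11 :=
    mul_le_mul_of_nonneg_left h2 (by positivity)
  refine h5.trans ?_
  norm_num

theorem tab_real {σ : ℝ} {b n : ℕ} {ε M : ℝ} (hσ : 61 / 64 ≤ σ) (hε : 0 ≤ ε) (i : ℕ) (G T : ℕ → ℕ)
    (hG : ∀ r < i + 23, (G r : ℝ) / 2 ^ 128 ≤ Real.exp (-(q ^ ((22 : ℤ) - r))) ∧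
      Real.exp (-(q ^ ((22 : ℤ) - r))) ≤ (G r : ℝ) / 2 ^ 128 + 1 / 2 ^ 90)
    (hT : ∀ j < i + 23, (T j : ℝ) / 2 ^ 128 ≤ S n (σ * q ^ ((b : ℤ) - j)) ∧
      S n (σ * q ^ ((b : ℤ) - j)) ≤ (T j : ℝ) / 2 ^ 128 + ε / √(σ * q ^ ((b : ℤ) - j)))
    (htail : 3 * 120 * 127 ^ n * ((100 / 121 : ℝ) ^ (5 * (b + 1))) ≤ 1 / 2 ^ 90)
    (hM : √(σ * q ^ (b : ℤ)) ≤ M) :
    (((∑ r ∈ Finset.range (i + 23), G r * T (i + 22 - r)) / 340282366920938463463374607431768211456 : ℕ) : ℝ)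
        / 2 ^ 128 ≤ S (n + 1) (σ * q ^ ((b : ℤ) - i)) ∧
      S (n + 1) (σ * q ^ ((b : ℤ) - i)) ≤
        (((∑ r ∈ Finset.range (i + 23), G r * T (i + 22 - r)) / 340282366920938463463374607431768211456 : ℕ) :
          ℝ) / 2 ^ 128 +
        (94 / 10 * ε + 1 / 2 ^ 90 * (46 * (94 / 10) ^ n + 2 * M)) / √(σ * q ^ ((b : ℤ) - i)) := by
  have hq := tab_q_pos
  have hσ0 : 0 < σ := by linarith
  obtain ⟨X, hXd⟩ : ∃ X : ℝ, X = σ * q ^ ((b : ℤ) - i) := ⟨_, rfl⟩
  have hX : 0 < X := by rw [hXd]; positivity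
  have hsX : 0 < √X := Real.sqrt_pos.mpr hX
  obtain ⟨u, hud⟩ : ∃ u : ℤ → ℝ, u = fun k => Real.exp (-(q ^ k)) * S n (X * q ^ (-k)) := ⟨_, rfl⟩
  have hu : Summable u := by rw [hud]; exact S_summable n hX
  have hu0 : ∀ k, 0 ≤ u k := fun k => by
    rw [hud]
    exact mul_nonneg (Real.exp_pos _).le (S_nonneg n (by positivity))
  have hS : S (n + 1) X = ∑' k, u k := by rw [hud]; rfl
  rw [← hXd, hS]
  obtain ⟨D, hD⟩ : ∃ D : ℕ, D = ∑ r ∈ Finset.range (i + 23), G r * T (i + 22 - r) := ⟨_, rfl⟩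
  rw [← hD]
  have hTT : ∀ r < i + 23, X * q ^ (-(22 - (r : ℤ))) = σ * q ^ ((b : ℤ) - ((i + 22 - r : ℕ) : ℤ)) := by
    intro r hr
    rw [hXd, mul_assoc, ← zpow_add₀ hq.ne']
    congr 2
    omega
  have hTr : ∀ r < i + 23, (T (i + 22 - r) : ℝ) / 2 ^ 128 ≤ S n (X * q ^ (-(22 - (r : ℤ)))) ∧
      S n (X * q ^ (-(22 - (r : ℤ)))) ≤ (T (i + 22 - r) : ℝ) / 2 ^ 128 +
        ε / (√X * (10 / 11 : ℝ) ^ (22 - (r : ℤ))) := by
    intro r hr
    have h1 := hT (i + 22 - r) (by omega)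
    rw [← hTT r hr, tab_sqrt hX.le] at h1
    exact h1
  have hDR : (D : ℝ) / 2 ^ 128 / 2 ^ 128 =
      ∑ r ∈ Finset.range (i + 23), ((G r : ℝ) / 2 ^ 128) * ((T (i + 22 - r) : ℝ) / 2 ^ 128) := by
    rw [hD]
    push_cast
    rw [div_div, Finset.sum_div]
    refine Finset.sum_congr rfl fun r _ => ?_
    rw [div_mul_div_comm]
  have hR : (340282366920938463463374607431768211456 : ℝ) = 2 ^ 128 := by norm_num
  have hfl1 : ((D / 340282366920938463463374607431768211456 : ℕ) : ℝ) ≤ (D : ℝ) / 2 ^ 128 := by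
    have := @Nat.cast_div_le ℝ _ _ _ D 340282366920938463463374607431768211456
    push_cast at this
    rw [hR] at this
    exact this
  have hfl2 : (D : ℝ) / 2 ^ 128 ≤ ((D / 340282366920938463463374607431768211456 : ℕ) : ℝ) + 1 := by
    have h1 := Nat.lt_div_mul_add (a := D) (b := 340282366920938463463374607431768211456) (by norm_num)
    have h2 : (D : ℝ) ≤ ((D / 340282366920938463463374607431768211456 : ℕ) : ℝ) * 340282366920938463463374607431768211456 +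
        340282366920938463463374607431768211456 := by
      exact_mod_cast h1.le
    rw [hR] at h2
    rw [div_le_iff₀ (by positivity)]
    linarith
  constructor
  · have h1 := tab_sum_le hu hu0 i
    refine le_trans ?_ h1
    have h2 : ((D / 340282366920938463463374607431768211456 : ℕ) : ℝ) / 2 ^ 128 ≤ (D : ℝ) / 2 ^ 128 / 2 ^ 128 :=
      div_le_div_of_nonneg_right hfl1 (by positivity)
    refine h2.trans ?_
    rw [hDR]
    refine Finset.sum_le_sum fun r hr => ?_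
    rw [Finset.mem_range] at hr
    rw [hud]
    exact mul_le_mul (hG r hr).1 (hTr r hr).1 (by positivity) (Real.exp_pos _).le
  · rw [tab_split hu i]
    have hB : ∑' m : ℕ, u ((m : ℤ) + 23) ≤ 1 / 2 ^ 90 * (94 / 10) ^ n / √X := by
      rw [hud]
      exact tab_tailB n hX
    have hC : ∑' m : ℕ, u (-((m + i : ℕ) : ℤ) - 1) ≤ 1 / 2 ^ 90 := by
      rw [hud, hXd]
      exact tab_tailC n b i hσ htail
    have hA : ∑ r ∈ Finset.range (i + 23), u (22 - (r : ℤ)) ≤ (D : ℝ) / 2 ^ 128 / 2 ^ 128 +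
        45 * (1 / 2 ^ 90) * (94 / 10) ^ n / √X + 94 / 10 * ε / √X := by
      have h1 : ∀ r ∈ Finset.range (i + 23), u (22 - (r : ℤ)) ≤
          ((G r : ℝ) / 2 ^ 128) * ((T (i + 22 - r) : ℝ) / 2 ^ 128) +
          (1 / 2 ^ 90 * (1 / 2 * (94 / 10) ^ n / √X)) * ((10 / 11 : ℝ) ^ (22 - (r : ℤ)))⁻¹ +
          ε / √X * (Real.exp (-(q ^ (22 - (r : ℤ)))) * (11 / 10 : ℝ) ^ (22 - (r : ℤ))) := by
        intro r hr
        rw [Finset.mem_range] at hr
        obtain ⟨g1, g2⟩ := hG r hr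
        obtain ⟨t1, t2⟩ := hTr r hr
        have hs := S_le_half n (X := X * q ^ (-(22 - (r : ℤ)))) (by positivity)
        rw [tab_sqrt hX.le] at hs
        have hup : u (22 - (r : ℤ)) =
            Real.exp (-(q ^ (22 - (r : ℤ)))) * S n (X * q ^ (-(22 - (r : ℤ)))) := by rw [hud]
        rw [hup]
        have hp : 0 < (10 / 11 : ℝ) ^ (22 - (r : ℤ)) := by positivity
        have hinv : (11 / 10 : ℝ) ^ (22 - (r : ℤ)) = ((10 / 11 : ℝ) ^ (22 - (r : ℤ)))⁻¹ := by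
          rw [← inv_zpow]
          norm_num
        rw [hinv]
        obtain ⟨e, he⟩ : ∃ e : ℝ, e = Real.exp (-(q ^ (22 - (r : ℤ)))) := ⟨_, rfl⟩
        obtain ⟨s, hsd⟩ : ∃ s : ℝ, s = S n (X * q ^ (-(22 - (r : ℤ)))) := ⟨_, rfl⟩
        obtain ⟨p, hpd⟩ : ∃ p : ℝ, p = (10 / 11 : ℝ) ^ (22 - (r : ℤ)) := ⟨_, rfl⟩
        obtain ⟨gg, hgg⟩ : ∃ gg : ℝ, gg = (G r : ℝ) / 2 ^ 128 := ⟨_, rfl⟩
        obtain ⟨tt, htt⟩ : ∃ tt : ℝ, tt = (T (i + 22 - r) : ℝ) / 2 ^ 128 := ⟨_, rfl⟩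
        have he0 : 0 ≤ e := by rw [he]; exact (Real.exp_pos _).le
        have htt0 : 0 ≤ tt := by rw [htt]; positivity
        rw [← hpd] at hp t2 hs ⊢
        rw [← he] at g1 g2 ⊢
        rw [← hsd] at t1 t2 hs ⊢
        rw [← hgg] at g1 g2 ⊢
        rw [← htt] at t1 t2 ⊢
        have h2 : e * s ≤ e * (tt + ε / (√X * p)) := mul_le_mul_of_nonneg_left t2 he0
        have h3 : e * tt ≤ (gg + 1 / 2 ^ 90) * tt := mul_le_mul_of_nonneg_right g2 htt0
        have h4 : (1 / 2 ^ 90 : ℝ) * tt ≤ 1 / 2 ^ 90 * (1 / 2 * (94 / 10) ^ n / (√X * p)) :=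
          mul_le_mul_of_nonneg_left (t1.trans hs) (by positivity)
        have h5 : 1 / 2 ^ 90 * (1 / 2 * (94 / 10 : ℝ) ^ n / (√X * p)) =
            1 / 2 ^ 90 * (1 / 2 * (94 / 10) ^ n / √X) * p⁻¹ := by
          field_simp
        have h6 : e * (tt + ε / (√X * p)) = e * tt + ε / √X * (e * p⁻¹) := by
          field_simp
        linarith
      refine (Finset.sum_le_sum h1).trans ?_
      rw [Finset.sum_add_distrib, Finset.sum_add_distrib, ← Finset.mul_sum, ← Finset.mul_sum, hDR]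
      have h7 : (1 / 2 ^ 90 * (1 / 2 * (94 / 10) ^ n / √X)) *
          ∑ r ∈ Finset.range (i + 23), ((10 / 11 : ℝ) ^ (22 - (r : ℤ)))⁻¹ ≤
          (1 / 2 ^ 90 * (1 / 2 * (94 / 10) ^ n / √X)) * 90 :=
        mul_le_mul_of_nonneg_left (tab_geo _) (by positivity)
      have h8 : ∑ r ∈ Finset.range (i + 23),
          (Real.exp (-(q ^ (22 - (r : ℤ)))) * (11 / 10 : ℝ) ^ (22 - (r : ℤ))) ≤ 94 / 10 :=
        (tab_sum_le thetaHalf.1 (fun k => by positivity) i).trans thetaHalf.2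
      have h9 := mul_le_mul_of_nonneg_left h8 (by positivity : 0 ≤ ε / √X)
      have h10 : (1 / 2 ^ 90 * (1 / 2 * (94 / 10 : ℝ) ^ n / √X)) * 90 =
        45 * (1 / 2 ^ 90) * (94 / 10) ^ n / √X := by ring
      have h11 : ε / √X * (94 / 10) = 94 / 10 * ε / √X := by ring
      linarith
    have hD2 : (D : ℝ) / 2 ^ 128 / 2 ^ 128 ≤
        ((D / 340282366920938463463374607431768211456 : ℕ) : ℝ) / 2 ^ 128 + 1 / 2 ^ 128 := by
      rw [← add_div]
      exact div_le_div_of_nonneg_right hfl2 (by positivity)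
    have hXM : 1 ≤ M / √X := by
      rw [le_div_iff₀ hsX, one_mul]
      refine le_trans (Real.sqrt_le_sqrt ?_) hM
      rw [hXd]
      apply mul_le_mul_of_nonneg_left _ hσ0.le
      apply zpow_le_zpow_right₀
      · unfold q
        norm_num
      · omega
    have h12 : (1 : ℝ) / 2 ^ 90 + 1 / 2 ^ 128 ≤ 2 * (1 / 2 ^ 90) * (M / √X) := by
      have h13 : 2 * (1 / 2 ^ 90) * 1 ≤ 2 * (1 / 2 ^ 90) * (M / √X) :=
        mul_le_mul_of_nonneg_left hXM (by positivity)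
      refine le_trans ?_ h13
      norm_num
    have h14 : (94 / 10 * ε + 1 / 2 ^ 90 * (46 * (94 / 10) ^ n + 2 * M)) / √X =
        94 / 10 * ε / √X + 45 * (1 / 2 ^ 90) * (94 / 10) ^ n / √X +
          1 / 2 ^ 90 * (94 / 10) ^ n / √X + 2 * (1 / 2 ^ 90) * (M / √X) := by ring
    rw [h14]
    linarith

/-- the list computed by `step` -/
theorem step_spec {g t : List ℕ} {σ : ℝ} {b n : ℕ} {ε M : ℝ} (hσ : 61 / 64 ≤ σ) (hε : 0 ≤ ε)
    (hg : GOK g) (ht : TabOK σ b n ε t) (hlen : t.length ≤ g.length)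
    (htail : 3 * 120 * 127 ^ n * ((100 / 121 : ℝ) ^ (5 * (b + 1))) ≤ 1 / 2 ^ 90)
    (hM : √(σ * q ^ (b : ℤ)) ≤ M) (k : List ℕ → Bool)
    (hk : step g t k = true) :
    ∃ t' : List ℕ, t'.length = t.length - 22 ∧ k t' = true ∧
      TabOK σ b (n + 1) (94 / 10 * ε + 1 / 2 ^ 90 * (46 * (94 / 10) ^ n + 2 * M)) t' := by
  have h1 : step g t k = k (convL g (t.drop 22) (t.take 22).reverse) := conv_eq _ _ _ _
  have hl : (convL g (t.drop 22) (t.take 22).reverse).length = t.length - 22 := by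
    rw [convL_length, List.length_drop]
  refine ⟨convL g (t.drop 22) (t.take 22).reverse, hl, ?_, ?_⟩
  · rw [← h1]
    exact hk
  · intro i hi
    have hi2 : i + 23 ≤ t.length := by omega
    rw [stepL_getElem g t hlen i hi]
    refine tab_real hσ hε i (fun r => g.getD r 0) (fun j => t.getD j 0) ?_ ?_ htail hM
    · intro r hr
      have h2 : r < g.length := by omega
      have h3 := hg r h2
      simp only [List.getD_eq_getElem _ _ h2]
      exact h3
    · intro j hj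
      have h2 : j < t.length := by omega
      have h3 := ht j h2
      simp only [List.getD_eq_getElem _ _ h2]
      exact h3

theorem TabOK.mono {σ : ℝ} {b n : ℕ} {ε ε' : ℝ} {t : List ℕ} (h : TabOK σ b n ε t) (hε : ε ≤ ε') :
    TabOK σ b n ε' t := by
  intro i hi
  obtain ⟨h1, h2⟩ := h i hi
  refine ⟨h1, h2.trans ?_⟩
  have h3 : ε / √(σ * q ^ ((b : ℤ) - i)) ≤ ε' / √(σ * q ^ ((b : ℤ) - i)) :=
    div_le_div_of_nonneg_right hε (Real.sqrt_nonneg _)
  linarith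

theorem chain_aux {g : List ℕ} {σ : ℝ} (hσ : 61 / 64 ≤ σ) (hσ2 : σ ≤ 81 / 64) (hg : GOK g)
    (k : List ℕ → Bool) (n : ℕ) : ∀ (m : ℕ) (t : List ℕ), m + n ≤ 7 →
      TabOK σ 102 m (((19 / 2) ^ m - 2 / 5) / 2 ^ 75) t →
      t.length ≤ g.length → chain g n t k = true →
      ∃ t' : List ℕ, t'.length = t.length - 22 * n ∧ k t' = true ∧
        TabOK σ 102 (m + n) (((19 / 2) ^ (m + n) - 2 / 5) / 2 ^ 75) t' := by
  induction n with
  | zero =>
    intro m t _ ht _ hk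
    exact ⟨t, by simp, hk, ht⟩
  | succ n ih =>
    intro m t hmn ht hlen hk
    have h1 : chain g (n + 1) t k = step g t fun t' => chain g n t' k := rfl
    rw [h1] at hk
    have h7 : (1 : ℝ) ≤ (19 / 2) ^ m := one_le_pow₀ (by norm_num)
    have htail : 3 * 120 * 127 ^ m * ((100 / 121 : ℝ) ^ (5 * (102 + 1))) ≤ 1 / 2 ^ 90 := by
      have e1 : (127 : ℝ) ^ m ≤ 127 ^ 6 := pow_le_pow_right₀ (by norm_num) (by omega)
      have e2 : (3 * 120 * 127 ^ 6 : ℝ) * ((100 / 121 : ℝ) ^ 103) ^ 5 ≤ 1 / 2 ^ 90 := by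
        have e3 : (100 / 121 : ℝ) ^ 103 ≤ 297260 / 10 ^ 14 := by norm_num
        have e4 : ((100 / 121 : ℝ) ^ 103) ^ 5 ≤ (297260 / 10 ^ 14) ^ 5 :=
          pow_le_pow_left₀ (by positivity) e3 5
        calc (3 * 120 * 127 ^ 6 : ℝ) * ((100 / 121 : ℝ) ^ 103) ^ 5
            ≤ (3 * 120 * 127 ^ 6 : ℝ) * (297260 / 10 ^ 14) ^ 5 :=
              mul_le_mul_of_nonneg_left e4 (by positivity)
          _ ≤ 1 / 2 ^ 90 := by norm_num
      have e5 : (100 / 121 : ℝ) ^ (5 * (102 + 1)) = ((100 / 121 : ℝ) ^ 103) ^ 5 := by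
        rw [← pow_mul]
      rw [e5]
      refine le_trans ?_ e2
      apply mul_le_mul_of_nonneg_right _ (by positivity)
      linarith
    have hM : √(σ * q ^ ((102 : ℕ) : ℤ)) ≤ 19000 := by
      rw [Real.sqrt_le_left (by norm_num)]
      have e1 : q ^ ((102 : ℕ) : ℤ) = (121 / 100 : ℝ) ^ 102 := by
        rw [zpow_natCast]
        rfl
      rw [e1]
      have e2 : (121 / 100 : ℝ) ^ 102 ≤ 278100000 := by norm_num
      have e3 : σ * (121 / 100 : ℝ) ^ 102 ≤ 81 / 64 * 278100000 :=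
        mul_le_mul hσ2 e2 (by positivity) (by norm_num)
      linarith
    obtain ⟨t1, hl1, hk1, ht1⟩ := step_spec (M := 19000) hσ
      (by apply div_nonneg _ (by positivity); linarith) hg ht hlen htail hM _ hk
    have ht2 : TabOK σ 102 (m + 1) (((19 / 2) ^ (m + 1) - 2 / 5) / 2 ^ 75) t1 := by
      refine ht1.mono ?_
      have e1 : (94 / 10 : ℝ) ^ m ≤ (19 / 2) ^ m := pow_le_pow_left₀ (by norm_num) (by norm_num) m
      have e2 : (19 / 2 : ℝ) ^ (m + 1) = 19 / 2 * (19 / 2) ^ m := by ring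
      rw [e2, le_div_iff₀ (by positivity)]
      have e3 : (94 / 10 * (((19 / 2 : ℝ) ^ m - 2 / 5) / 2 ^ 75) +
          1 / 2 ^ 90 * (46 * (94 / 10) ^ m + 2 * 19000)) * 2 ^ 75 =
          94 / 10 * ((19 / 2) ^ m - 2 / 5) + (46 * (94 / 10) ^ m + 38000) / 32768 := by ring
      rw [e3]
      linarith
    obtain ⟨t2, hl2, hk2, ht3⟩ := ih (m + 1) t1 (by omega) ht2 (by omega) hk1
    refine ⟨t2, by omega, hk2, ?_⟩
    have e4 : m + (n + 1) = m + 1 + n := by ring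
    rw [e4]
    exact ht3

/-- `n` steps with `b = 102`, `M = 19000`, `n ≤ 7` -/
theorem chain_spec {g t : List ℕ} {σ : ℝ} {n : ℕ} (hσ : 61 / 64 ≤ σ) (hσ2 : σ ≤ 81 / 64)
    (hn : n ≤ 7) (hg : GOK g) (ht : TabOK σ 102 0 (19000 / 2 ^ 90) t) (hlen : t.length ≤ g.length)
    (k : List ℕ → Bool) (hk : chain g n t k = true) :
    ∃ t' : List ℕ, t'.length = t.length - 22 * n ∧ k t' = true ∧
      TabOK σ 102 n ((19 / 2) ^ n / 2 ^ 75) t' := by
  have h0 : TabOK σ 102 0 (((19 / 2) ^ 0 - 2 / 5) / 2 ^ 75) t := ht.mono (by norm_num)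
  obtain ⟨t', h1, h2, h3⟩ := chain_aux hσ hσ2 hg k n 0 t (by omega) h0 hlen hk
  rw [zero_add] at h3
  refine ⟨t', h1, h2, h3.mono ?_⟩
  apply div_le_div_of_nonneg_right _ (by positivity)
  linarith

end H81.L2
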