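import Pool.Agent.H81.L2.Asm

/-!
# Packed check of all windows of a family
-/

namespace H81.L2

open H81

/-- pack all lists -/
def packs (B j : ℕ) (LL : List (List ℕ)) : (List ℕ → Bool) → Bool :=
  List.rec (motive := fun _ => (List ℕ → Bool) → Bool) (fun k => k [])
    (fun L _ ih k => force1 (packL B (L.drop j)) fun v => ih fun l => k (v :: l)) LL

theorem packs_eq (B j : ℕ) (LL : List (List ℕ)) (k : List ℕ → Bool) :
    packs B j LL k = k (LL.map fun L => packL B (L.drop j)) := by
  induction LL generalizing k with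
  | nil => rfl
  | cons L LL ih =>
    have h : packs B j (L :: LL) k = packs B j LL (fun l => k (packL B (L.drop j) :: l)) := rfl
    rw [h, ih, List.map_cons]

/-- all offsets -/
def allK (B k l rp rn re qe : ℕ) (Q : List ℕ) : ℕ → Bool
  | 0 => true
  | i + 1 => coreK B k l rp rn re (Q.getD i 0) (Q.getD (i + 1) 0) (Q.getD (i + 2) 0)
      (Q.getD (i + 3) 0) (Q.getD (i + 4) 0) (Q.getD (i + 5) 0) (Q.getD (i + 6) 0) qe &&
      allK B k l rp rn re qe Q i

/-- bounds -/
def bdK (B j s : ℕ) (LL : List (List ℕ)) : Bool :=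
  List.rec (motive := fun _ => Bool) true
    (fun L _ ih => and (Nat.blt (Nat.mul 40000 (Nat.mul s (sumL (L.drop j)))) B) ih) LL

theorem bdK_spec {B j s : ℕ} {LL : List (List ℕ)} (h : bdK B j s LL = true) :
    ∀ L ∈ LL, 40000 * (s * sumL (L.drop j)) < B := by
  induction LL with
  | nil => intro L hL; simp at hL
  | cons L LL ih =>
    have h' : (Nat.blt (40000 * (s * sumL (L.drop j))) B && bdK B j s LL) = true := h
    rw [Bool.and_eq_true, Nat.blt_eq] at h'
    intro L' hL'
    rcases List.mem_cons.1 hL' with rfl | h1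
    · exact h'.1
    · exact ih h'.2 L' h1

/-- the whole check, `B = 2^b` -/
def fullK (b k j l : ℕ) (P N PN : List ℕ) (LL : List (List ℕ)) (Er : List ℕ) : Bool :=
  force1 (Nat.pow 2 b) fun B =>
  force1 (Nat.add (sumL P) (sumL N)) fun s =>
  and (bdK B j s LL) (and (Nat.blt (Nat.mul 40000 (Nat.mul (sumL PN) (sumL (Er.drop j)))) B)
    (force1 (packL B P.reverse) fun rp => force1 (packL B N.reverse) fun rn =>
      force1 (packL B PN.reverse) fun re => force1 (packL B (Er.drop j)) fun qe =>
        packs B j LL fun Q => allK B k l rp rn re qe Q 14))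

theorem allK_get {B k l rp rn re qe : ℕ} {Q : List ℕ} :
    ∀ {w : ℕ}, allK B k l rp rn re qe Q w = true → ∀ i, i < w →
      coreK B k l rp rn re (Q.getD i 0) (Q.getD (i + 1) 0) (Q.getD (i + 2) 0)
      (Q.getD (i + 3) 0) (Q.getD (i + 4) 0) (Q.getD (i + 5) 0) (Q.getD (i + 6) 0) qe = true
  | 0, _, i, hi => by omega
  | w + 1, h, i, hi => by
    simp only [allK, Bool.and_eq_true] at h
    rcases Nat.lt_succ_iff_lt_or_eq.1 hi with h1 | h1
    · exact allK_get h.2 i h1
    · rw [h1]; exact h.1

theorem allW_of {P N PN : List ℕ} {k j : ℕ} {LL : List (List ℕ)} {Er : List ℕ} :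
    ∀ {w : ℕ}, (∀ i, i < w → chkRun P N PN k ((LL.getD i []).drop j) ((LL.getD (i + 1) []).drop j)
      ((LL.getD (i + 2) []).drop j) ((LL.getD (i + 3) []).drop j) ((LL.getD (i + 4) []).drop j)
      ((LL.getD (i + 5) []).drop j) ((LL.getD (i + 6) []).drop j) (Er.drop j) = true) →
      allW P N PN k j LL Er w = true
  | 0, _ => rfl
  | w + 1, h => by
    simp only [allW, Bool.and_eq_true]
    exact ⟨h w (by omega), allW_of fun i hi => h i (by omega)⟩

theorem fullK_spec {b k j l : ℕ} {P N PN : List ℕ} {LL : List (List ℕ)} {Er : List ℕ} {a : List ℤ}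
    (hb : 1 ≤ b) (hP : PNOK a P N PN) (hal : a.length = l) (hl : 1 ≤ l) (hLL : LL.length = 20)
    (hlen : ∀ i, i < 20 → a.length + k + j ≤ (LL.getD i []).length + 1)
    (hE : a.length + k + j ≤ Er.length + 1)
    (h : fullK b k j l P N PN LL Er = true) : allW P N PN k j LL Er 14 = true := by
  have h' : (bdK (2 ^ b) j (sumL P + sumL N) LL &&
      (Nat.blt (40000 * (sumL PN * sumL (Er.drop j))) (2 ^ b) &&
        packs (2 ^ b) j LL fun Q => allK (2 ^ b) k l (packL (2 ^ b) P.reverse)
          (packL (2 ^ b) N.reverse) (packL (2 ^ b) PN.reverse) (packL (2 ^ b) (Er.drop j)) Q 14)) =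
      true := h
  rw [packs_eq, Bool.and_eq_true, Bool.and_eq_true, Nat.blt_eq] at h'
  obtain ⟨h1, h2, h3⟩ := h'
  have hbd := bdK_spec h1
  have hPl : P.length = l := by rw [hP.1, List.length_map, hal]
  have hNl : N.length = l := by rw [hP.2.1, List.length_map, hal]
  have hPNl : PN.length = l := by rw [hP.2.2, List.length_map, hal]
  apply allW_of
  intro i hi
  have h4 := allK_get h3 i hi
  have hQ : ∀ m, m < 20 → (LL.map fun L => packL (2 ^ b) (L.drop j)).getD m 0 =
      packL (2 ^ b) ((LL.getD m []).drop j) := by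
    intro m hm
    rw [List.getD_eq_getElem _ _ (by rw [List.length_map, hLL]; exact hm), List.getElem_map,
      List.getD_eq_getElem _ _ (by rw [hLL]; exact hm)]
  rw [hQ _ (by omega), hQ _ (by omega), hQ _ (by omega), hQ _ (by omega), hQ _ (by omega),
    hQ _ (by omega), hQ _ (by omega)] at h4
  have hL : ∀ m, m < 20 → l + k ≤ ((LL.getD m []).drop j).length + 1 := by
    intro m hm
    rw [List.length_drop]
    have := hlen m hm
    omega
  have hmem : ∀ m, m < 20 → LL.getD m [] ∈ LL := by
    intro m hm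
    rw [List.getD_eq_getElem _ _ (by rw [hLL]; exact hm)]
    exact List.getElem_mem _
  refine winK_spec rfl hb hPl hNl hPNl hl (hL _ (by omega)) (hL _ (by omega)) (hL _ (by omega))
    (hL _ (by omega)) (hL _ (by omega)) (hL _ (by omega)) (hL _ (by omega))
    (by rw [List.length_drop]; omega) ?_ h2 h4
  intro L hL'
  simp only [List.mem_cons, List.not_mem_nil, or_false] at hL'
  rcases hL' with rfl | rfl | rfl | rfl | rfl | rfl | rfl
  · exact hbd _ (hmem _ (by omega))
  · exact hbd _ (hmem _ (by omega))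
  · exact hbd _ (hmem _ (by omega))
  · exact hbd _ (hmem _ (by omega))
  · exact hbd _ (hmem _ (by omega))
  · exact hbd _ (hmem _ (by omega))
  · exact hbd _ (hmem _ (by omega))

/-- positivity on `[q^lo, q^hi]` from the packed check -/
theorem pos_of_fullK {n : ℕ} {e top lo hi : ℤ} {a : List ℤ} {b k j l : ℕ} {P N PN : List ℕ}
    {LL : List (List ℕ)} {Er : List ℕ} (hP : PNOK a P N PN) (hF : FamOK n top LL Er)
    (hb : 1 ≤ b) (hk : 1 ≤ k) (hal : a.length = l) (hl : 1 ≤ l) (hLL : LL.length = 20) {N0 : ℕ}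
    (hlen : ∀ i, i < 20 → (LL.getD i []).length = N0) (hE : Er.length = N0)
    (hN0 : l + k + j ≤ N0 + 1) (hlo : lo + k = hi) (hm : hi - 1 + e = top - j)
    (h : fullK b k j l P N PN LL Er = true) :
    ∀ s, q ^ lo ≤ s → s ≤ q ^ hi → 0 < FD n e a s := by
  have hl' : ∀ i, i < 20 → a.length + k + j ≤ (LL.getD i []).length + 1 := by
    intro i hi
    rw [hlen i hi, hal]
    exact hN0
  have h1 := allW_spec hP hF hk hl' (fullK_spec hb hP hal hl hLL hl' (by rw [hE, hal]; exact hN0) h)
    hm
  have e1 : hi - 1 - k + 1 = lo := by omega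
  have e2 : hi - 1 + 1 = hi := by ring
  rw [e1, e2] at h1
  exact h1

end H81.L2
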